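import Pool.Agent.Lib.MP_4c698b_pr.SDefs

/-!
# The van den Berg-Kesten inequality for increasing events given by families of finite sets
-/

open MeasureTheory Filter Topology
open scoped ENNReal Pointwise

namespace IICErg

section BK

variable {E : Type}

/-- some member of the family is open -/
def bkOcc (A : Set (Finset E)) : Set (E → Bool) := {ω | ∃ a ∈ A, ∀ e ∈ a, ω e = true}

/-- disjoint occurrence -/
def bkBox (A B : Set (Finset E)) : Set (E → Bool) :=
  {ω | ∃ a ∈ A, ∃ b ∈ B, Disjoint a b ∧ (∀ e ∈ a, ω e = true) ∧ (∀ e ∈ b, ω e = true)}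

theorem bk_meas_all (a : Finset E) : MeasurableSet {ω : E → Bool | ∀ e ∈ a, ω e = true} := by
  have h : {ω : E → Bool | ∀ e ∈ a, ω e = true} = ⋂ e ∈ a, {ω | ω e = true} := by
    ext ω; simp
  rw [h]
  refine Finset.measurableSet_biInter _ (fun e _ => ?_)
  change MeasurableSet ((fun ω : E → Bool => ω e) ⁻¹' {true})
  exact (measurable_pi_apply e) (measurableSet_singleton true)

theorem bkOcc_meas [Countable E] (A : Set (Finset E)) : MeasurableSet (bkOcc A) := by
  have h : bkOcc A = ⋃ a ∈ A, {ω : E → Bool | ∀ e ∈ a, ω e = true} := by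
    ext ω; simp [bkOcc]
  rw [h]
  exact MeasurableSet.biUnion (Set.to_countable A) (fun a _ => bk_meas_all a)

theorem bkBox_meas [Countable E] (A B : Set (Finset E)) : MeasurableSet (bkBox A B) := by
  have h : bkBox A B = ⋃ a ∈ A, ⋃ b ∈ {b | b ∈ B ∧ Disjoint a b},
      ({ω : E → Bool | ∀ e ∈ a, ω e = true} ∩ {ω : E → Bool | ∀ e ∈ b, ω e = true}) := by
    ext ω
    simp only [bkBox, Set.mem_ofPred_eq, Set.mem_iUnion, Set.mem_inter_iff, exists_prop]
    constructor
    · rintro ⟨a, ha, b, hb, hab, h1, h2⟩; exact ⟨a, ha, b, ⟨hb, hab⟩, h1, h2⟩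
    · rintro ⟨a, ha, b, ⟨hb, hab⟩, h1, h2⟩; exact ⟨a, ha, b, hb, hab, h1, h2⟩
  rw [h]
  refine MeasurableSet.biUnion (Set.to_countable A) (fun a _ => ?_)
  exact MeasurableSet.biUnion (Set.to_countable _) (fun b _ =>
    (bk_meas_all a).inter (bk_meas_all b))

open Classical in
theorem bk_update_meas (e : E) :
    Measurable (fun z : Bool × (E → Bool) => Function.update z.2 e z.1) := by
  rw [measurable_pi_iff]
  intro i
  by_cases hi : i = e
  · subst hi
    simp only [Function.update_self]
    exact measurable_fst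
  · simp only [Function.update_of_ne hi]
    exact (measurable_pi_apply i).comp measurable_snd

open Classical in
theorem bk_update (μ : E → Measure Bool) [∀ i, IsProbabilityMeasure (μ i)] (e : E) :
    ((μ e).prod (Measure.infinitePi μ)).map
      (fun z : Bool × (E → Bool) => Function.update z.2 e z.1) = Measure.infinitePi μ := by
  refine Measure.eq_infinitePi μ (fun s t ht => ?_)
  rw [Measure.map_apply (bk_update_meas e) (MeasurableSet.pi s.countable_toSet (fun i _ => ht i))]
  by_cases he : e ∈ s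
  · have h : (fun z : Bool × (E → Bool) => Function.update z.2 e z.1) ⁻¹' (Set.pi s t) =
        (t e) ×ˢ (Set.pi (s.erase e : Finset E) t) := by
      ext ⟨x, ω⟩
      simp only [Set.mem_preimage, Set.mem_pi, Set.mem_prod, Finset.mem_coe, Finset.mem_erase]
      constructor
      · intro h
        refine ⟨by simpa using h e he, fun i hi => ?_⟩
        have := h i hi.2
        rwa [Function.update_of_ne hi.1] at this
      · rintro ⟨h1, h2⟩ i hi
        by_cases hie : i = e
        · subst hie; simpa using h1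
        · rw [Function.update_of_ne hie]; exact h2 i ⟨hie, hi⟩
    rw [h, Measure.prod_prod, Measure.infinitePi_pi μ (fun i _ => ht i)]
    exact Finset.mul_prod_erase s (fun i => μ i (t i)) he
  · have h : (fun z : Bool × (E → Bool) => Function.update z.2 e z.1) ⁻¹' (Set.pi s t) =
        Set.univ ×ˢ (Set.pi s t) := by
      ext ⟨x, ω⟩
      simp only [Set.mem_preimage, Set.mem_pi, Set.mem_prod, Finset.mem_coe, Set.mem_univ,
        true_and]
      refine forall₂_congr (fun i hi => ?_)
      have hie : i ≠ e := fun h => he (h ▸ hi)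
      rw [Function.update_of_ne hie]
    rw [h, Measure.prod_prod, Measure.infinitePi_pi μ (fun i _ => ht i), measure_univ, one_mul]

open Classical in
theorem bk_split (p : unitInterval) (e : E) {Q : Set (E → Bool)} (hQ : MeasurableSet Q) :
    (Measure.infinitePi (fun _ : E => bern p)).real Q =
      p * (Measure.infinitePi (fun _ : E => bern p)).real {ω | Function.update ω e true ∈ Q} +
      (1 - p) * (Measure.infinitePi (fun _ : E => bern p)).real
        {ω | Function.update ω e false ∈ Q} := by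
  have h0 : (Measure.infinitePi (fun _ : E => bern p)) Q =
      ENNReal.ofReal p *
        (Measure.infinitePi (fun _ : E => bern p)) {ω | Function.update ω e true ∈ Q} +
      ENNReal.ofReal (1 - p) * (Measure.infinitePi (fun _ : E => bern p))
        {ω | Function.update ω e false ∈ Q} := by
    conv_lhs => rw [← bk_update (fun _ : E => bern p) e]
    rw [Measure.map_apply (bk_update_meas e) hQ, Measure.prod_apply (bk_update_meas e hQ)]
    conv_lhs => rw [bern]
    rw [lintegral_add_measure, lintegral_smul_measure, lintegral_smul_measure, lintegral_dirac,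
      lintegral_dirac]
    rfl
  have hp : (0 : ℝ) ≤ p := p.2.1
  have hp' : (0 : ℝ) ≤ 1 - p := by linarith [p.2.2]
  rw [measureReal_def, h0, ENNReal.toReal_add (by finiteness) (by finiteness),
    ENNReal.toReal_mul, ENNReal.toReal_mul, ENNReal.toReal_ofReal hp, ENNReal.toReal_ofReal hp']
  rfl

/-- members of the family that do not contain `e` -/
def bk0 (e : E) (A : Set (Finset E)) : Set (Finset E) := {a | a ∈ A ∧ e ∉ a}

open Classical in
/-- members of the family, with `e` removed -/
def bk1 (e : E) (A : Set (Finset E)) : Set (Finset E) := {a | ∃ a' ∈ A, a = a'.erase e}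

theorem bk0_le (e : E) (A : Set (Finset E)) : bk0 e A ⊆ bk1 e A := by
  classical
  rintro a ⟨ha, hea⟩
  exact ⟨a, ha, (Finset.erase_eq_of_notMem hea).symm⟩

theorem bkBox_mono {A A' B B' : Set (Finset E)} (hA : A ⊆ A') (hB : B ⊆ B') :
    bkBox A B ⊆ bkBox A' B' := by
  rintro ω ⟨a, ha, b, hb, h⟩
  exact ⟨a, hA ha, b, hB hb, h⟩

theorem bkOcc_mono {A A' : Set (Finset E)} (hA : A ⊆ A') : bkOcc A ⊆ bkOcc A' := by
  rintro ω ⟨a, ha, h⟩
  exact ⟨a, hA ha, h⟩

open Classical in
theorem bkOcc_true (e : E) (A : Set (Finset E)) :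
    {ω | Function.update ω e true ∈ bkOcc A} = bkOcc (bk1 e A) := by
  ext ω
  constructor
  · rintro ⟨a, ha, h⟩
    refine ⟨a.erase e, ⟨a, ha, rfl⟩, fun x hx => ?_⟩
    have h1 := h x (Finset.mem_of_mem_erase hx)
    rwa [Function.update_of_ne (Finset.ne_of_mem_erase hx)] at h1
  · rintro ⟨_, ⟨a, ha, rfl⟩, h⟩
    refine ⟨a, ha, fun x hx => ?_⟩
    by_cases hxe : x = e
    · subst hxe; simp
    · rw [Function.update_of_ne hxe]; exact h x (Finset.mem_erase.2 ⟨hxe, hx⟩)

open Classical in
theorem bkOcc_false (e : E) (A : Set (Finset E)) :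
    {ω | Function.update ω e false ∈ bkOcc A} = bkOcc (bk0 e A) := by
  ext ω
  constructor
  · rintro ⟨a, ha, h⟩
    have hea : e ∉ a := by
      intro hea
      have := h e hea
      simp at this
    refine ⟨a, ⟨ha, hea⟩, fun x hx => ?_⟩
    have h1 := h x hx
    rwa [Function.update_of_ne (ne_of_mem_of_not_mem hx hea)] at h1
  · rintro ⟨a, ⟨ha, hea⟩, h⟩
    refine ⟨a, ha, fun x hx => ?_⟩
    rw [Function.update_of_ne (ne_of_mem_of_not_mem hx hea)]
    exact h x hx

open Classical in
theorem bkBox_false (e : E) (A B : Set (Finset E)) :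
    {ω | Function.update ω e false ∈ bkBox A B} = bkBox (bk0 e A) (bk0 e B) := by
  ext ω
  constructor
  · rintro ⟨a, ha, b, hb, hab, h, h'⟩
    have hea : e ∉ a := by
      intro hea
      have := h e hea
      simp at this
    have heb : e ∉ b := by
      intro heb
      have := h' e heb
      simp at this
    refine ⟨a, ⟨ha, hea⟩, b, ⟨hb, heb⟩, hab, fun x hx => ?_, fun x hx => ?_⟩
    · have h1 := h x hx
      rwa [Function.update_of_ne (ne_of_mem_of_not_mem hx hea)] at h1
    · have h1 := h' x hx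
      rwa [Function.update_of_ne (ne_of_mem_of_not_mem hx heb)] at h1
  · rintro ⟨a, ⟨ha, hea⟩, b, ⟨hb, heb⟩, hab, h, h'⟩
    refine ⟨a, ha, b, hb, hab, fun x hx => ?_, fun x hx => ?_⟩
    · rw [Function.update_of_ne (ne_of_mem_of_not_mem hx hea)]
      exact h x hx
    · rw [Function.update_of_ne (ne_of_mem_of_not_mem hx heb)]
      exact h' x hx

open Classical in
theorem bkBox_true (e : E) (A B : Set (Finset E)) :
    {ω | Function.update ω e true ∈ bkBox A B} =
      bkBox (bk1 e A) (bk0 e B) ∪ bkBox (bk0 e A) (bk1 e B) := by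
  ext ω
  constructor
  · rintro ⟨a, ha, b, hb, hab, h, h'⟩
    by_cases heb : e ∈ b
    · have hea : e ∉ a := fun hea => (Finset.disjoint_left.1 hab) hea heb
      refine Or.inr ⟨a, ⟨ha, hea⟩, b.erase e, ⟨b, hb, rfl⟩,
        hab.mono_right (Finset.erase_subset _ _), fun x hx => ?_, fun x hx => ?_⟩
      · have h1 := h x hx
        rwa [Function.update_of_ne (ne_of_mem_of_not_mem hx hea)] at h1
      · have h1 := h' x (Finset.mem_of_mem_erase hx)
        rwa [Function.update_of_ne (Finset.ne_of_mem_erase hx)] at h1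
    · refine Or.inl ⟨a.erase e, ⟨a, ha, rfl⟩, b, ⟨hb, heb⟩,
        hab.mono_left (Finset.erase_subset _ _), fun x hx => ?_, fun x hx => ?_⟩
      · have h1 := h x (Finset.mem_of_mem_erase hx)
        rwa [Function.update_of_ne (Finset.ne_of_mem_erase hx)] at h1
      · have h1 := h' x hx
        rwa [Function.update_of_ne (ne_of_mem_of_not_mem hx heb)] at h1
  · rintro (⟨_, ⟨a, ha, rfl⟩, b, ⟨hb, heb⟩, hab, h, h'⟩ | ⟨a, ⟨ha, hea⟩, _, ⟨b, hb, rfl⟩, hab, h, h'⟩)
    · refine ⟨a, ha, b, hb, ?_, fun x hx => ?_, fun x hx => ?_⟩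
      · rw [Finset.disjoint_left] at hab ⊢
        intro x hx hxb
        have hxe : x ≠ e := fun h2 => heb (h2 ▸ hxb)
        exact hab (Finset.mem_erase.2 ⟨hxe, hx⟩) hxb
      · by_cases hxe : x = e
        · subst hxe; simp
        · rw [Function.update_of_ne hxe]; exact h x (Finset.mem_erase.2 ⟨hxe, hx⟩)
      · rw [Function.update_of_ne (ne_of_mem_of_not_mem hx heb)]
        exact h' x hx
    · refine ⟨a, ha, b, hb, ?_, fun x hx => ?_, fun x hx => ?_⟩
      · rw [Finset.disjoint_left] at hab ⊢
        intro x hx hxb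
        have hxe : x ≠ e := fun h2 => hea (h2 ▸ hx)
        exact hab hx (Finset.mem_erase.2 ⟨hxe, hxb⟩)
      · rw [Function.update_of_ne (ne_of_mem_of_not_mem hx hea)]
        exact h x hx
      · by_cases hxe : x = e
        · subst hxe; simp
        · rw [Function.update_of_ne hxe]; exact h' x (Finset.mem_erase.2 ⟨hxe, hx⟩)

/-- the case of families of subsets of a fixed finite set -/
theorem bk_finite [Countable E] (p : unitInterval) (F : Finset E) :
    ∀ (A B : Set (Finset E)), (∀ a ∈ A, a ⊆ F) → (∀ b ∈ B, b ⊆ F) →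
      (Measure.infinitePi (fun _ : E => bern p)).real (bkBox A B) ≤
        (Measure.infinitePi (fun _ : E => bern p)).real (bkOcc A) *
        (Measure.infinitePi (fun _ : E => bern p)).real (bkOcc B) := by
  classical
  induction F using Finset.induction_on with
  | empty =>
    intro A B hA hB
    by_cases h : (bkBox A B).Nonempty
    · obtain ⟨ω, a, ha, b, hb, -⟩ := h
      have h1 : bkOcc A = Set.univ := by
        ext ω
        simp only [Set.mem_univ, iff_true]
        refine ⟨a, ha, fun e he => ?_⟩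
        have := hA a ha he
        simp at this
      have h2 : bkOcc B = Set.univ := by
        ext ω
        simp only [Set.mem_univ, iff_true]
        refine ⟨b, hb, fun e he => ?_⟩
        have := hB b hb he
        simp at this
      rw [h1, h2]
      simp only [probReal_univ, mul_one]
      exact measureReal_le_one
    · rw [Set.not_nonempty_iff_eq_empty] at h
      rw [h, measureReal_empty]
      positivity
  | insert e F he ih =>
    intro A B hA hB
    have hA1 : ∀ a ∈ bk1 e A, a ⊆ F := by
      rintro _ ⟨a, ha, rfl⟩ x hx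
      rcases Finset.mem_insert.1 (hA a ha (Finset.mem_of_mem_erase hx)) with h | h
      · exact absurd h (Finset.ne_of_mem_erase hx)
      · exact h
    have hB1 : ∀ b ∈ bk1 e B, b ⊆ F := by
      rintro _ ⟨a, ha, rfl⟩ x hx
      rcases Finset.mem_insert.1 (hB a ha (Finset.mem_of_mem_erase hx)) with h | h
      · exact absurd h (Finset.ne_of_mem_erase hx)
      · exact h
    have hA0 : ∀ a ∈ bk0 e A, a ⊆ F := fun a ha => hA1 a (bk0_le e A ha)
    have hB0 : ∀ b ∈ bk0 e B, b ⊆ F := fun b hb => hB1 b (bk0_le e B hb)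
    have h00 := ih (bk0 e A) (bk0 e B) hA0 hB0
    have h01 := ih (bk0 e A) (bk1 e B) hA0 hB1
    have h10 := ih (bk1 e A) (bk0 e B) hA1 hB0
    have h11 := ih (bk1 e A) (bk1 e B) hA1 hB1
    rw [bk_split p e (bkBox_meas A B), bk_split p e (bkOcc_meas A), bk_split p e (bkOcc_meas B),
      bkOcc_true, bkOcc_true, bkOcc_false, bkOcc_false, bkBox_true, bkBox_false]
    set P := Measure.infinitePi (fun _ : E => bern p) with hP
    have hU : P.real (bkBox (bk1 e A) (bk0 e B) ∪ bkBox (bk0 e A) (bk1 e B)) ≤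
        P.real (bkBox (bk1 e A) (bk1 e B)) := by
      refine measureReal_mono (Set.union_subset ?_ ?_)
      · exact bkBox_mono (subset_refl _) (bk0_le e B)
      · exact bkBox_mono (bk0_le e A) (subset_refl _)
    have hU' : P.real (bkBox (bk1 e A) (bk0 e B) ∪ bkBox (bk0 e A) (bk1 e B)) +
        P.real (bkBox (bk0 e A) (bk0 e B)) ≤
        P.real (bkBox (bk1 e A) (bk0 e B)) + P.real (bkBox (bk0 e A) (bk1 e B)) := by
      rw [← measureReal_union_add_inter (bkBox_meas (bk0 e A) (bk1 e B))]
      refine add_le_add le_rfl (measureReal_mono (Set.subset_inter ?_ ?_))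
      · exact bkBox_mono (bk0_le e A) (subset_refl _)
      · exact bkBox_mono (subset_refl _) (bk0_le e B)
    have hp : (0 : ℝ) ≤ p := p.2.1
    have hp' : (0 : ℝ) ≤ 1 - p := by linarith [p.2.2]
    generalize P.real (bkBox (bk1 e A) (bk0 e B) ∪ bkBox (bk0 e A) (bk1 e B)) = Z at *
    generalize P.real (bkBox (bk0 e A) (bk0 e B)) = X at *
    generalize P.real (bkBox (bk1 e A) (bk0 e B)) = Y1 at *
    generalize P.real (bkBox (bk0 e A) (bk1 e B)) = Y2 at *
    generalize P.real (bkBox (bk1 e A) (bk1 e B)) = Y3 at *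
    generalize P.real (bkOcc (bk0 e A)) = a0 at *
    generalize P.real (bkOcc (bk1 e A)) = a1 at *
    generalize P.real (bkOcc (bk0 e B)) = b0 at *
    generalize P.real (bkOcc (bk1 e B)) = b1 at *
    generalize (p : ℝ) = t at *
    have e1 : t * Z ≤ t * (t * (a1 * b1) + (1 - t) * (Y1 + Y2 - X)) := by
      refine mul_le_mul_of_nonneg_left ?_ hp
      have e2 : Z = t * Z + (1 - t) * Z := by ring
      rw [e2]
      refine add_le_add (mul_le_mul_of_nonneg_left (hU.trans h11) hp)
        (mul_le_mul_of_nonneg_left (by linarith) hp')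
    have e3 : (1 - t) * (1 - t) * X ≤ (1 - t) * (1 - t) * (a0 * b0) :=
      mul_le_mul_of_nonneg_left h00 (mul_nonneg hp' hp')
    have e4 : t * (1 - t) * (Y1 + Y2) ≤ t * (1 - t) * (a1 * b0 + a0 * b1) :=
      mul_le_mul_of_nonneg_left (add_le_add h10 h01) (mul_nonneg hp hp')
    nlinarith [e1, e3, e4]

theorem bk {E : Type} [Countable E] (p : unitInterval) (A B : Set (Finset E)) :
    Measure.infinitePi (fun _ : E => bern p)
      {ω | ∃ a ∈ A, ∃ b ∈ B, Disjoint a b ∧ (∀ e ∈ a, ω e = true) ∧ (∀ e ∈ b, ω e = true)} ≤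
    Measure.infinitePi (fun _ : E => bern p) {ω | ∃ a ∈ A, ∀ e ∈ a, ω e = true} *
      Measure.infinitePi (fun _ : E => bern p) {ω | ∃ b ∈ B, ∀ e ∈ b, ω e = true} := by
  classical
  change Measure.infinitePi (fun _ : E => bern p) (bkBox A B) ≤
    Measure.infinitePi (fun _ : E => bern p) (bkOcc A) *
      Measure.infinitePi (fun _ : E => bern p) (bkOcc B)
  let f : Finset E → Set (E → Bool) := fun F => bkBox {a | a ∈ A ∧ a ⊆ F} {b | b ∈ B ∧ b ⊆ F}
  have hf : Monotone f := by
    intro F F' hFF
    refine bkBox_mono ?_ ?_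
    · rintro a ⟨ha, ha'⟩; exact ⟨ha, ha'.trans hFF⟩
    · rintro a ⟨ha, ha'⟩; exact ⟨ha, ha'.trans hFF⟩
  have h1 : bkBox A B = ⋃ F : Finset E, f F := by
    ext ω
    rw [Set.mem_iUnion]
    constructor
    · rintro ⟨a, ha, b, hb, h⟩
      exact ⟨a ∪ b, a, ⟨ha, Finset.subset_union_left⟩, b, ⟨hb, Finset.subset_union_right⟩, h⟩
    · rintro ⟨F, a, ha, b, hb, h⟩
      exact ⟨a, ha.1, b, hb.1, h⟩
  rw [h1, Directed.measure_iUnion hf.directed_le]
  refine iSup_le (fun F => ?_)
  have h2 := bk_finite p F {a | a ∈ A ∧ a ⊆ F} {b | b ∈ B ∧ b ⊆ F} (fun a ha => ha.2)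
    (fun a ha => ha.2)
  have h3 : Measure.infinitePi (fun _ : E => bern p) (f F) ≤
      Measure.infinitePi (fun _ : E => bern p) (bkOcc {a | a ∈ A ∧ a ⊆ F}) *
        Measure.infinitePi (fun _ : E => bern p) (bkOcc {b | b ∈ B ∧ b ⊆ F}) := by
    rw [measureReal_def, measureReal_def, measureReal_def, ← ENNReal.toReal_mul] at h2
    exact (ENNReal.toReal_le_toReal (measure_ne_top _ _)
      (ENNReal.mul_ne_top (measure_ne_top _ _) (measure_ne_top _ _))).1 h2
  refine h3.trans (mul_le_mul' (measure_mono (bkOcc_mono ?_)) (measure_mono (bkOcc_mono ?_)))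
  · rintro a ⟨ha, _⟩; exact ha
  · rintro a ⟨ha, _⟩; exact ha

end BK

end IICErg
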