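import Pool.Agent.Lib.MP_4c698b_pr.BasicB
import Pool.Agent.Lib.MP_4c698b_pr.BK

/-!
# MP_4c698b_pr, module WalksA: disjoint occurrence of connections
-/

open MeasureTheory Filter Topology
open scoped ENNReal Pointwise

namespace IICErg

variable {Γ : Type} [Group Γ]

section WalksA

theorem bk_occ (S : GenSet Γ) (p : unitInterval) (A B : Set (Finset (Sym2 Γ))) :
    perc Γ p (occ (dj A B)) ≤ perc Γ p (occ A) * perc Γ p (occ B) := by
  classical
  have hΓ : Countable Γ := S.countable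
  have hE : Countable (Sym2 Γ) :=
    (Quot.mk_surjective (r := Sym2.Rel Γ)).countable
  refine le_trans (measure_mono ?_) (bk p A B)
  rintro ω ⟨c, ⟨a, ha, b, hb, hab, rfl⟩, hc⟩
  exact ⟨a, ha, b, hb, hab, fun e he => hc e (Finset.mem_union_left _ he),
    fun e he => hc e (Finset.mem_union_right _ he)⟩

/-- disjoint occurrence witnessed by walks of the open graph -/
theorem mem_occ_dj (S : GenSet Γ) (ω : Cfg Γ) (A B : Set (Finset (Sym2 Γ)))
    (h : ∃ a ∈ A, ∃ b ∈ B, Disjoint a b ∧ (∀ e ∈ a, ω e = true) ∧ (∀ e ∈ b, ω e = true)) :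
    ω ∈ occ (dj A B) := by
  classical
  obtain ⟨a, ha, b, hb, hab, h1, h2⟩ := h
  refine ⟨a ∪ b, ⟨a, ha, b, hb, hab, rfl⟩, fun e he => ?_⟩
  rcases Finset.mem_union.1 he with he | he
  · exact h1 e he
  · exact h2 e he

open Classical in
/-- a walk of the open graph gives an open member of `wf` with the same edges -/
theorem walk_wf (S : GenSet Γ) (ω : Cfg Γ) {x y : Γ} (w : (og S ω).Walk x y) :
    w.edges.toFinset ∈ wf S w.length x y ∧ ∀ e ∈ w.edges.toFinset, ω e = true := by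
  constructor
  · refine ⟨w.mapLe (og_le S ω), ?_, ?_⟩
    · rw [SimpleGraph.Walk.length_mapLe]
    · rw [SimpleGraph.Walk.edges_mapLe_eq_edges]
  · intro e he
    rw [List.mem_toFinset] at he
    induction e using Sym2.ind with
    | _ a b => exact (w.adj_of_mem_edges he).2

/-- a walk of the Cayley graph all of whose edges are open is a walk of the open graph -/
theorem WalksA_walk (S : GenSet Γ) (ω : Cfg Γ) {x y : Γ} (w : S.cay.Walk x y)
    (h : ∀ e ∈ w.edges, ω e = true) : ∃ w' : (og S ω).Walk x y, w'.length = w.length := by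
  refine ⟨w.transfer (og S ω) ?_, w.length_transfer _⟩
  intro e he
  induction e using Sym2.ind with
  | _ a b => exact ⟨w.adj_of_mem_edges he, h _ he⟩

theorem occ_wf (S : GenSet Γ) (n : ℕ) (x y : Γ) :
    occ (wf S n x y) = {ω | dle (og S ω) n x y} := by
  classical
  ext ω
  constructor
  · rintro ⟨c, ⟨w, hw, rfl⟩, hc⟩
    obtain ⟨w', hw'⟩ := WalksA_walk S ω w fun e he => hc e (List.mem_toFinset.2 he)
    exact ⟨w', by omega⟩
  · rintro ⟨w, hw⟩
    obtain ⟨⟨v, hv, hv'⟩, h2⟩ := walk_wf S ω w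
    exact ⟨_, ⟨v, hv.trans hw, hv'⟩, h2⟩

theorem occ_wfI (S : GenSet Γ) (x y : Γ) :
    occ (wfI S x y) = {ω | (og S ω).Reachable x y} := by
  ext ω
  constructor
  · rintro ⟨c, ⟨n, hc⟩, h⟩
    have h1 : ω ∈ occ (wf S n x y) := ⟨c, hc, h⟩
    rw [occ_wf] at h1
    obtain ⟨w, _⟩ := h1
    exact ⟨w⟩
  · rintro ⟨w⟩
    have h1 : ω ∈ occ (wf S w.length x y) := by
      rw [occ_wf]
      exact ⟨w, le_rfl⟩
    obtain ⟨c, hc, h⟩ := h1
    exact ⟨c, ⟨_, hc⟩, h⟩

theorem occ_wfF (S : GenSet Γ) (r : ℕ) (x : Γ) :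
    occ (wfF S r x) = {ω | far S r ω x} := by
  ext ω
  rw [Set.mem_ofPred_eq, far_iff]
  constructor
  · rintro ⟨c, ⟨y, hy, hc⟩, h⟩
    have h1 : ω ∈ occ (wfI S x y) := ⟨c, hc, h⟩
    rw [occ_wfI] at h1
    exact ⟨y, h1, hy⟩
  · rintro ⟨y, hy, hd⟩
    have h1 : ω ∈ occ (wfI S x y) := by
      rw [occ_wfI]
      exact hy
    obtain ⟨c, hc, h⟩ := h1
    exact ⟨c, ⟨y, hd, hc⟩, h⟩

theorem theta_vertex (S : GenSet Γ) (p : unitInterval) (r : ℕ) (x : Γ) :
    perc Γ p {ω | far S r ω x} = theta S p r := by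
  unfold theta
  rw [← perc_vw p x {ω | far S r ω 1}]
  congr 1
  ext ω
  simp only [Set.mem_ofPred_eq]
  rw [far_vw, mul_one]

theorem dle_transl (S : GenSet Γ) (p : unitInterval) (n : ℕ) (x y : Γ) :
    perc Γ p {ω | dle (og S ω) n x y} = perc Γ p {ω | dle (og S ω) n 1 (x⁻¹ * y)} := by
  rw [← perc_vw p x {ω | dle (og S ω) n 1 (x⁻¹ * y)}]
  congr 1
  ext ω
  simp only [Set.mem_ofPred_eq]
  rw [dle_vw, mul_one, mul_inv_cancel_left]

end WalksA

end IICErg
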