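import Pool.Agent.Lib.MP_4c698b_pr.BasicA
import Pool.Agent.Lib.MP_4c698b_pr.WalksA

/-!
# Module Arm: the disjoint arm on the event `DD`
-/

open MeasureTheory Filter Topology
open scoped ENNReal Pointwise

namespace IICErg

section ArmCore

variable {V : Type} {G : SimpleGraph V}

/-- splitting a walk at a vertex -/
theorem Arm_split {u v : V} (w : G.Walk u v) {z : V} (hz : z ∈ w.support) :
    ∃ (w1 : G.Walk u z) (w2 : G.Walk z v), w1.length + w2.length = w.length ∧
      w1.edges ⊆ w.edges ∧ w2.edges ⊆ w.edges := by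
  classical
  refine ⟨w.takeUntil z hz, w.dropUntil z hz, ?_, ?_, ?_⟩
  · rw [← SimpleGraph.Walk.length_append, SimpleGraph.Walk.take_spec]
  · exact w.edges_takeUntil_subset_edges hz
  · exact w.edges_dropUntil_subset_edges hz

/-- last visit to a set -/
theorem Arm_last (P : V → Prop) {u v : V} (w : G.Walk u v) (h : ∃ z ∈ w.support, P z) :
    ∃ (y : V) (ρ : G.Walk y v), P y ∧ y ∈ w.support ∧ ρ.edges ⊆ w.edges ∧
      ρ.support ⊆ w.support ∧ ∀ e ∈ ρ.edges, ∃ z ∈ e, ¬ P z := by
  induction w with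
  | nil =>
    obtain ⟨z, hz, hP⟩ := h
    rw [SimpleGraph.Walk.support_nil, List.mem_singleton] at hz
    subst hz
    exact ⟨z, SimpleGraph.Walk.nil, hP, by simp, by simp, by simp, by simp⟩
  | @cons u u' v hadj w ih =>
    by_cases hw : ∃ z ∈ w.support, P z
    · obtain ⟨y, ρ, h1, h2, h3, h4, h5⟩ := ih hw
      refine ⟨y, ρ, h1, ?_, ?_, ?_, h5⟩
      · rw [SimpleGraph.Walk.support_cons]; exact List.mem_cons_of_mem _ h2
      · rw [SimpleGraph.Walk.edges_cons]; exact List.subset_cons_of_subset _ h3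
      · rw [SimpleGraph.Walk.support_cons]; exact List.subset_cons_of_subset _ h4
    · push Not at hw
      obtain ⟨z, hz, hP⟩ := h
      have hzu : z = u := by
        rw [SimpleGraph.Walk.support_cons, List.mem_cons] at hz
        rcases hz with hz | hz
        · exact hz
        · exact absurd hP (hw z hz)
      subst hzu
      refine ⟨z, SimpleGraph.Walk.cons hadj w, hP, by simp, fun _ h => h, fun _ h => h, ?_⟩
      intro e he
      rw [SimpleGraph.Walk.edges_cons, List.mem_cons] at he
      rcases he with he | he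
      · exact ⟨u', by rw [he]; exact Sym2.mem_mk_right _ _, hw u' (SimpleGraph.Walk.start_mem_support w)⟩
      · induction e with
        | h p q =>
          exact ⟨p, Sym2.mem_mk_left _ _, hw p (w.fst_mem_support_of_mem_edges he)⟩

/-- a walk using an edge -/
theorem Arm_edge {u v a b : V} (w : G.Walk u v) (h : s(a, b) ∈ w.edges) :
    (∃ (w1 : G.Walk u a) (w2 : G.Walk b v), w1.length + 1 + w2.length = w.length) ∨
    (∃ (w1 : G.Walk u b) (w2 : G.Walk a v), w1.length + 1 + w2.length = w.length) := by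
  induction w with
  | nil => simp at h
  | @cons u u' v hadj w ih =>
    rw [SimpleGraph.Walk.edges_cons, List.mem_cons] at h
    rcases h with h | h
    · rw [Sym2.eq_iff] at h
      rcases h with ⟨h1, h2⟩ | ⟨h1, h2⟩
      · subst h1; subst h2
        exact Or.inl ⟨SimpleGraph.Walk.nil, w, by
          rw [SimpleGraph.Walk.length_nil, SimpleGraph.Walk.length_cons]; omega⟩
      · subst h1; subst h2
        exact Or.inr ⟨SimpleGraph.Walk.nil, w, by
          rw [SimpleGraph.Walk.length_nil, SimpleGraph.Walk.length_cons]; omega⟩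
    · rcases ih h with ⟨w1, w2, h3⟩ | ⟨w1, w2, h3⟩
      · exact Or.inl ⟨SimpleGraph.Walk.cons hadj w1, w2, by
          rw [SimpleGraph.Walk.length_cons, SimpleGraph.Walk.length_cons]; omega⟩
      · exact Or.inr ⟨SimpleGraph.Walk.cons hadj w1, w2, by
          rw [SimpleGraph.Walk.length_cons, SimpleGraph.Walk.length_cons]; omega⟩

theorem Arm_del {u v a b : V} (w : G.Walk u v) (h : s(a, b) ∉ w.edges) :
    ∃ w' : (G.deleteEdges {s(a, b)}).Walk u v, w'.length = w.length ∧ w'.edges = w.edges ∧
      w'.support = w.support := by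
  have h1 : ∀ e ∈ w.edges, e ∈ (G.deleteEdges {s(a, b)}).edgeSet := by
    intro e he
    rw [SimpleGraph.edgeSet_deleteEdges]
    exact ⟨w.edges_subset_edgeSet he, fun h2 => h (by rw [← Set.mem_singleton_iff.1 h2]; exact he)⟩
  exact ⟨w.transfer _ h1, w.length_transfer h1, w.edges_transfer h1, w.support_transfer h1⟩

theorem Arm_undel {u v a b : V} (w : (G.deleteEdges {s(a, b)}).Walk u v) :
    ∃ w' : G.Walk u v, w'.length = w.length ∧ w'.edges = w.edges ∧
      w'.support = w.support := by
  have h1 : ∀ e ∈ w.edges, e ∈ G.edgeSet := by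
    intro e he
    have h2 := w.edges_subset_edgeSet he
    rw [SimpleGraph.edgeSet_deleteEdges] at h2
    exact h2.1
  exact ⟨w.transfer _ h1, w.length_transfer h1, w.edges_transfer h1, w.support_transfer h1⟩

theorem Arm_not_mem {u v a b : V} (w : (G.deleteEdges {s(a, b)}).Walk u v) :
    s(a, b) ∉ w.edges := by
  intro h
  have h2 := w.edges_subset_edgeSet h
  rw [SimpleGraph.edgeSet_deleteEdges] at h2
  exact h2.2 rfl

open Classical in
theorem Arm_core {o x a b ua ub : V} {n k s M : ℕ} (hs : M + k ≤ s) (hM : 1 ≤ M)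
    (hab : G.Adj a b) (hoa : dle G k o a) (hle : G.dist o a ≤ G.dist o b)
    (hH : ¬ dle (G.deleteEdges {s(a, b)}) (4 * s) a b)
    (hua : dle (G.deleteEdges {s(a, b)}) s a ua)
    (hua' : ¬ dle (G.deleteEdges {s(a, b)}) (s - 1) a ua)
    (hub : dle (G.deleteEdges {s(a, b)}) s b ub)
    (hub' : ¬ dle (G.deleteEdges {s(a, b)}) (s - 1) b ub) (hox : dle G n o x) :
    ∃ y, dle G k o y ∧ ∃ (π : G.Walk o x) (z : V) (ρ : G.Walk y z), π.length ≤ n ∧
      (∀ e ∈ ρ.edges, e ∉ π.edges) ∧ M < ρ.support.toFinset.card := by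
  have hoa' := (dle_iff G k o a).1 hoa
  have hox' := (dle_iff G n o x).1 hox
  obtain ⟨ζ, hζ⟩ := hoa'.1.exists_walk_length_eq_dist
  obtain ⟨π, hπ⟩ := hox'.1.exists_walk_length_eq_dist
  have hdab : G.dist a b ≤ 1 := SimpleGraph.dist_le hab.toWalk
  have hba : G.dist b a = 1 := SimpleGraph.dist_eq_one_iff_adj.2 hab.symm
  -- `ζ` does not use the edge
  have hζb : b ∉ ζ.support := by
    intro hb
    obtain ⟨w1, w2, h1, -, -⟩ := Arm_split ζ hb
    have h2 := SimpleGraph.dist_le w1
    have h3 := SimpleGraph.dist_le w2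
    omega
  have hζe : s(a, b) ∉ ζ.edges := fun h => hζb (ζ.snd_mem_support_of_mem_edges h)
  obtain ⟨ζ', hζ1, hζ2, hζ3⟩ := Arm_del ζ hζe
  have hHoa : dle (G.deleteEdges {s(a, b)}) k o a := ⟨ζ', by omega⟩
  by_cases hcase : s(a, b) ∈ π.edges
  · -- the geodesic uses the edge
    have hdist : G.dist o a + 1 + G.dist b x ≤ G.dist o x := by
      rcases Arm_edge π hcase with ⟨w1, w2, h1⟩ | ⟨w1, w2, h1⟩
      · have h2 := SimpleGraph.dist_le w1
        have h3 := SimpleGraph.dist_le w2
        omega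
      · exfalso
        have h2 := SimpleGraph.dist_le w1
        have h3 := SimpleGraph.dist_le w2
        have h4 := SimpleGraph.dist_le (ζ.append w2)
        rw [SimpleGraph.Walk.length_append] at h4
        omega
    have hbx : G.Reachable b x := by
      rcases Arm_edge π hcase with ⟨w1, w2, h1⟩ | ⟨w1, w2, h1⟩
      · exact ⟨w2⟩
      · exact ⟨(SimpleGraph.Walk.cons hab.symm w2)⟩
    obtain ⟨η, hη⟩ := hbx.exists_walk_length_eq_dist
    let π' : G.Walk o x := ζ.append (SimpleGraph.Walk.cons hab η)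
    have hπ' : π'.length = G.dist o a + 1 + G.dist b x := by
      simp only [π', SimpleGraph.Walk.length_append, SimpleGraph.Walk.length_cons]
      omega
    have hηa : a ∉ η.support := by
      intro ha
      obtain ⟨w1, w2, h1, -, -⟩ := Arm_split η ha
      have h2 := SimpleGraph.dist_le w1
      have h3 := SimpleGraph.dist_le w2
      have h4 := SimpleGraph.dist_le (ζ.append w2)
      rw [SimpleGraph.Walk.length_append] at h4
      omega
    have hηe : s(a, b) ∉ η.edges := fun h => hηa (η.fst_mem_support_of_mem_edges h)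
    obtain ⟨α, hα⟩ := hua
    obtain ⟨y, ρ, hy1, hy2, hy3, hy4, hy5⟩ := Arm_last (fun z => z ∈ ζ.support) α
      ⟨a, α.start_mem_support, ζ.end_mem_support⟩
    -- `α` does not meet `η`
    have hαη : ∀ v ∈ α.support, v ∉ η.support := by
      intro v hv hv'
      obtain ⟨w1, w2, h1, -, -⟩ := Arm_split α hv
      obtain ⟨w3, w4, h2, h3, -⟩ := Arm_split η hv'
      obtain ⟨w1', h4, -, -⟩ := Arm_undel w1
      obtain ⟨w3', h5, -, -⟩ := Arm_del w3 (fun h => hηe (h3 h))
      have h6 := SimpleGraph.dist_le ((ζ.append w1').append w4)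
      rw [SimpleGraph.Walk.length_append, SimpleGraph.Walk.length_append] at h6
      apply hH
      refine ⟨w1.append w3'.reverse, ?_⟩
      rw [SimpleGraph.Walk.length_append, SimpleGraph.Walk.length_reverse]
      omega
    obtain ⟨w1, w2, h1, -, -⟩ := Arm_split ζ' (show y ∈ ζ'.support by rw [hζ3]; exact hy1)
    obtain ⟨w1', h1', -, -⟩ := Arm_undel w1
    refine ⟨y, ⟨w1', by omega⟩, ?_⟩
    obtain ⟨ρ', hρ1, hρ2, hρ3⟩ := Arm_undel ρ.bypass
    refine ⟨π', ua, ρ', by omega, ?_, ?_⟩
    · intro e he he'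
      rw [hρ2] at he
      have he1 : e ∈ ρ.edges := ρ.edges_bypass_subset_edges he
      simp only [π', SimpleGraph.Walk.edges_append, SimpleGraph.Walk.edges_cons,
        List.mem_append, List.mem_cons] at he'
      rcases he' with he' | he' | he'
      · obtain ⟨z, hz, hz'⟩ := hy5 e he1
        exact hz' (SimpleGraph.Walk.mem_support_of_mem_edges he' hz)
      · rw [he'] at he1
        exact Arm_not_mem ρ he1
      · induction e with
        | h p q =>
          exact hαη p (hy4 (ρ.fst_mem_support_of_mem_edges he1))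
            (η.fst_mem_support_of_mem_edges he')
    · rw [hρ3, List.toFinset_card_of_nodup ρ.bypass_isPath.support_nodup,
        SimpleGraph.Walk.length_support]
      by_contra hcon
      apply hua'
      refine ⟨w2.reverse.append ρ.bypass, ?_⟩
      rw [SimpleGraph.Walk.length_append, SimpleGraph.Walk.length_reverse]
      omega
  · -- the geodesic does not use the edge
    obtain ⟨π', hπ1, hπ2, hπ3⟩ := Arm_del π hcase
    obtain ⟨β0, hβ0⟩ := hub
    have hβπ : ∀ v ∈ β0.bypass.support, v ∉ π.support := by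
      intro v hv hv'
      obtain ⟨w1, w2, h1, -, -⟩ := Arm_split β0.bypass hv
      have h0 := β0.length_bypass_le_length
      obtain ⟨w3, w4, h2, h3, -⟩ := Arm_split π hv'
      obtain ⟨w1', h4, -, -⟩ := Arm_undel w1
      obtain ⟨w3', h5, -, -⟩ := Arm_del w3 (fun h => hcase (h3 h))
      have h6 := SimpleGraph.dist_le ((ζ.append (SimpleGraph.Walk.cons hab w1')).append w4)
      rw [SimpleGraph.Walk.length_append, SimpleGraph.Walk.length_append,
        SimpleGraph.Walk.length_cons] at h6
      apply hH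
      refine ⟨(ζ'.reverse.append w3').append w1.reverse, ?_⟩
      rw [SimpleGraph.Walk.length_append, SimpleGraph.Walk.length_append,
        SimpleGraph.Walk.length_reverse, SimpleGraph.Walk.length_reverse]
      omega
    obtain ⟨y, ρ, hy1, hy2, hy3, hy4, hy5⟩ := Arm_last (fun z => z ∈ π.support) ζ
      ⟨o, ζ.start_mem_support, π.start_mem_support⟩
    obtain ⟨w1, w2, h1, -, -⟩ := Arm_split ζ hy2
    obtain ⟨β, hβ1, hβ2, hβ3⟩ := Arm_undel β0.bypass
    refine ⟨y, ⟨w1, by omega⟩, π, ub, ρ.append (SimpleGraph.Walk.cons hab β), by omega, ?_, ?_⟩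
    · intro e he he'
      simp only [SimpleGraph.Walk.edges_append, SimpleGraph.Walk.edges_cons,
        List.mem_append, List.mem_cons] at he
      rcases he with he | he | he
      · obtain ⟨z, hz, hz'⟩ := hy5 e he
        exact hz' (SimpleGraph.Walk.mem_support_of_mem_edges he' hz)
      · rw [he] at he'
        exact hcase he'
      · induction e with
        | h p q =>
          refine hβπ p ?_ (π.fst_mem_support_of_mem_edges he')
          rw [← hβ3]
          exact β.fst_mem_support_of_mem_edges he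
    · have h7 : β.support.toFinset ⊆
          (ρ.append (SimpleGraph.Walk.cons hab β)).support.toFinset := by
        intro z hz
        rw [List.mem_toFinset] at hz ⊢
        rw [SimpleGraph.Walk.mem_support_append_iff, SimpleGraph.Walk.support_cons]
        exact Or.inr (List.mem_cons_of_mem _ hz)
      refine lt_of_lt_of_le ?_ (Finset.card_le_card h7)
      rw [hβ3, List.toFinset_card_of_nodup β0.bypass_isPath.support_nodup,
        SimpleGraph.Walk.length_support]
      by_contra hcon
      apply hub'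
      exact ⟨β0.bypass, by omega⟩

end ArmCore


section Arm

variable {Γ : Type} [Group Γ]

open Classical in
/-- more than `q r` different vertices cannot all be in the ball of radius `r` -/
theorem Arm_far (S : GenSet Γ) (r : ℕ) (y : Γ) (F : Finset Γ) (hF : S.q r < F.card) :
    ∃ w ∈ F, r ≤ S.cay.dist y w := by
  by_contra hcon
  push Not at hcon
  have h1 : F ⊆ (S.ball r).image (fun g => y * g) := by
    intro w hw
    rw [Finset.mem_image]
    refine ⟨y⁻¹ * w, ?_, by group⟩
    rw [S.mem_ball, dle_iff]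
    exact ⟨(cay_connected S).preconnected y w, (hcon w hw).le⟩
  have h2 := (Finset.card_le_card h1).trans Finset.card_image_le
  exact absurd h2 (by rw [not_le]; exact hF)

open Classical in
theorem Arm_subset (S : GenSet Γ) (n k s r : ℕ) (x : Γ) (hs : S.q r + k ≤ s) :
    {ω : Cfg Γ | dle (og S ω) n 1 x ∧ ω ∈ DD S k s} ⊆
      ⋃ y ∈ S.ball k, occ (dj (wf S n 1 x) (wfF S r y)) := by
  rintro ω ⟨hx, hDD⟩
  obtain ⟨a, b, hab, h1a, hH, ⟨ua, hua, hua'⟩, ⟨ub, hub, hub'⟩⟩ := hDD
  have hq : 1 ≤ S.q r := Finset.card_pos.2 ⟨1, S.one_mem_ball r⟩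
  have hcore : ∃ y, dle (og S ω) k 1 y ∧ ∃ (π : (og S ω).Walk 1 x) (z : Γ)
      (ρ : (og S ω).Walk y z), π.length ≤ n ∧ (∀ e ∈ ρ.edges, e ∉ π.edges) ∧
      S.q r < ρ.support.toFinset.card := by
    by_cases hle : (og S ω).dist 1 a ≤ (og S ω).dist 1 b
    · exact Arm_core hs hq hab h1a hle hH hua hua' hub hub' hx
    · have hsw : s(a, b) = s(b, a) := Sym2.eq_swap
      rw [hsw] at hH hua hua' hub hub'
      have h1a' := (dle_iff _ _ _ _).1 h1a
      have h1b : dle (og S ω) k 1 b := by
        rw [dle_iff]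
        exact ⟨h1a'.1.trans hab.reachable, by omega⟩
      exact Arm_core hs hq hab.symm h1b (by omega) (fun h => hH (dle_symm h)) hub hub' hua hua' hx
  obtain ⟨y, hy, π, z, ρ, hπ, hdisj, hcard⟩ := hcore
  obtain ⟨w, hw, hyw⟩ := Arm_far S r y _ hcard
  rw [List.mem_toFinset] at hw
  obtain ⟨ρ1, ρ2, -, hρ1, -⟩ := Arm_split ρ hw
  rw [Set.mem_iUnion₂]
  refine ⟨y, by simpa using ball_of_dle hy, ?_⟩
  have h1 := walk_wf S ω π
  have h2 := walk_wf S ω ρ1
  refine mem_occ_dj S ω _ _ ⟨_, ?_, _, ?_, ?_, h1.2, h2.2⟩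
  · obtain ⟨w', hw', hw''⟩ := h1.1
    exact ⟨w', hw'.trans hπ, hw''⟩
  · exact ⟨w, hyw, _, h2.1⟩
  · rw [Finset.disjoint_left]
    intro e he he'
    rw [List.mem_toFinset] at he he'
    exact hdisj e (hρ1 he') he

theorem tg3 (S : GenSet Γ) (p : unitInterval) (n k s r : ℕ) (x : Γ) (hs : S.q r + k ≤ s) :
    perc Γ p {ω | dle (og S ω) n 1 x ∧ ω ∈ DD S k s} ≤
      S.q k * theta S p r * perc Γ p {ω | dle (og S ω) n 1 x} := by
  refine (measure_mono (Arm_subset S n k s r x hs)).trans ?_
  refine (measure_biUnion_finset_le _ _).trans ?_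
  have h1 : ∀ y ∈ S.ball k, perc Γ p (occ (dj (wf S n 1 x) (wfF S r y))) ≤
      theta S p r * perc Γ p {ω | dle (og S ω) n 1 x} := by
    intro y _
    refine (bk_occ S p _ _).trans ?_
    rw [occ_wf, occ_wfF, theta_vertex, mul_comm]
  refine (Finset.sum_le_sum h1).trans ?_
  rw [Finset.sum_const, nsmul_eq_mul, mul_assoc]
  exact le_rfl

end Arm

end IICErg
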