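import Pool.Agent.Lib.MP_4c698b_pr.BasicA

/-!
# MP_4c698b_pr: attaching the cluster of `h` to the cluster of `1` (module Attach)
-/

open MeasureTheory Filter Topology
open scoped ENNReal Pointwise

namespace IICErg

/-- if the steps of `G` inside a closed set `P` are steps of `H` then walks can be transferred -/
theorem Attach_dle {V : Type} {G H : SimpleGraph V} (P : V → Prop)
    (hcl : ∀ x y, P x → G.Adj x y → P y) (hGH : ∀ x y, P x → G.Adj x y → H.Adj x y)
    {n : ℕ} {x y : V} (hx : P x) (h : dle G n x y) : dle H n x y := by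
  obtain ⟨w, hw⟩ := h
  have key : ∀ (x y : V) (w : G.Walk x y), P x → ∃ w' : H.Walk x y, w'.length = w.length := by
    intro x y w
    induction w with
    | nil => exact fun _ => ⟨SimpleGraph.Walk.nil, rfl⟩
    | cons hadj _ ih =>
      intro hP
      obtain ⟨w', hw'⟩ := ih (hcl _ _ hP hadj)
      exact ⟨SimpleGraph.Walk.cons (hGH _ _ hP hadj) w', by
        simp only [SimpleGraph.Walk.length_cons, hw']⟩
  obtain ⟨w', hw'⟩ := key x y w hx
  exact ⟨w', by omega⟩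

theorem Attach_reach {V : Type} {G H : SimpleGraph V} (P : V → Prop)
    (hcl : ∀ x y, P x → G.Adj x y → P y) (hGH : ∀ x y, P x → G.Adj x y → H.Adj x y)
    {x y : V} (hx : P x) (h : G.Reachable x y) : H.Reachable x y := by
  obtain ⟨w⟩ := h
  obtain ⟨w', _⟩ := Attach_dle P hcl hGH hx ⟨w, le_refl w.length⟩
  exact ⟨w'⟩

theorem Attach_closed {V : Type} {G : SimpleGraph V} (P : V → Prop)
    (hcl : ∀ x y, P x → G.Adj x y → P y) {x y : V} (hx : P x) (h : G.Reachable x y) : P y := by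
  obtain ⟨w⟩ := h
  induction w with
  | nil => exact hx
  | cons hadj _ ih => exact ih (hcl _ _ hx hadj)

variable {Γ : Type} [Group Γ]

theorem attach (S : GenSet Γ) (ω ω' : Cfg Γ) (h a b : Γ) (W : Finset Γ) (m t n K0 : ℕ)
    (hDf : (cl S ω h).Finite) (hDm : (cl S ω h).ncard ≤ m) (hWt : W.card ≤ t)
    (hdis : ¬ (og S ω).Reachable 1 h) (ha : a ∈ cl S ω h) (hb : b ∉ cl S ω h)
    (hbW : b ∈ cl S ω 1 ∪ ↑W)
    (h1 : ∀ x ∈ cl S ω 1, ∀ y, (og S ω).Adj x y → (og S ω').Adj x y)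
    (h2 : ∀ x ∈ cl S ω h, ∀ y, (og S ω').Adj x y ↔ ((og S ω).Adj x y ∨ (x = a ∧ y = b)))
    (h3 : ∀ x ∈ cl S ω 1 ∪ ↑W, ∀ y, (og S ω').Adj x y → y ∈ cl S ω 1 ∪ ↑W ∪ cl S ω h)
    (h4 : (og S ω').Reachable b 1) (hn : 2 * m + t ≤ n) (hR : Rn S n ω 1 ≠ 0)
    (hK : dle (og S ω) K0 h a) (z : Γ) (hz : z ∈ cl S ω h) :
    Rn S n ω 1 ≤ 2 * Rn S n ω' z ∧
    (og S ω').dist a z ≤ K0 + (og S ω).dist h z ∧
    Br S ω' z a ∧
    (∀ R, ¬ dle (og S ω) R z a → ∀ x y, dle (og S ω) R z x →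
      ((og S ω).Adj x y ↔ (og S ω').Adj x y)) ∧
    (∀ k, dle (og S ω) k z a → dle (og S ω') k z a) := by
  classical
  obtain ⟨hAf, hAn⟩ := Rn_ne_zero hR
  set A := cl S ω 1 with hA
  set D := cl S ω h with hD
  have memA : ∀ x, x ∈ A ↔ (og S ω).Reachable 1 x := fun x => Iff.rfl
  have memD : ∀ x, x ∈ D ↔ (og S ω).Reachable h x := fun x => Iff.rfl
  have clA : ∀ x y, x ∈ A → (og S ω).Adj x y → y ∈ A := fun x y hx hxy =>
    SimpleGraph.Reachable.trans hx hxy.reachable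
  have clD : ∀ x y, x ∈ D → (og S ω).Adj x y → y ∈ D := fun x y hx hxy =>
    SimpleGraph.Reachable.trans hx hxy.reachable
  have stA : ∀ x y, x ∈ A → (og S ω).Adj x y → (og S ω').Adj x y := fun x y hx hxy => h1 x hx y hxy
  have stD : ∀ x y, x ∈ D → (og S ω).Adj x y → (og S ω').Adj x y := fun x y hx hxy =>
    (h2 x hx y).2 (Or.inl hxy)
  have reachD : ∀ x y, x ∈ D → y ∈ D → (og S ω).Reachable x y := fun x y hx hy =>
    SimpleGraph.Reachable.trans (SimpleGraph.Reachable.symm hx) hy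
  have reachD' : ∀ x y, x ∈ D → y ∈ D → (og S ω').Reachable x y := fun x y hx hy =>
    Attach_reach (· ∈ D) clD stD hx (reachD x y hx hy)
  have hhD : h ∈ D := SimpleGraph.Reachable.refl _
  have h1A : (1 : Γ) ∈ A := SimpleGraph.Reachable.refl _
  have hAdjab : (og S ω').Adj a b := (h2 a ha b).2 (Or.inr ⟨rfl, rfl⟩)
  have hz1 : (og S ω').Reachable z 1 := (reachD' z a hz ha).trans (hAdjab.reachable.trans h4)
  -- the cluster of `z` in `ω'`
  set C := cl S ω' z with hC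
  have hAC : A ⊆ C := by
    intro x hx
    exact hz1.trans (Attach_reach (· ∈ A) clA stA h1A hx)
  have hCsub : C ⊆ A ∪ ↑W ∪ D := by
    intro x hx
    have hcl : ∀ x y, x ∈ A ∪ ↑W ∪ D → (og S ω').Adj x y → y ∈ A ∪ ↑W ∪ D := by
      intro x y hx hxy
      rcases hx with hx | hx
      · exact h3 x hx y hxy
      · rcases (h2 x hx y).1 hxy with h5 | ⟨h5, h6⟩
        · exact Or.inr (clD x y hx h5)
        · rw [h6]
          exact Or.inl hbW
    exact Attach_closed (· ∈ A ∪ ↑W ∪ D) hcl (Or.inr hz) hx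
  have hWf : (A ∪ ↑W : Set Γ).Finite := hAf.union W.finite_toSet
  have hUf : (A ∪ ↑W ∪ D : Set Γ).Finite := hWf.union hDf
  have hCf : C.Finite := hUf.subset hCsub
  have hCcard : C.ncard ≤ 2 * A.ncard := by
    have e1 : C.ncard ≤ (A ∪ ↑W ∪ D : Set Γ).ncard := Set.ncard_le_ncard hCsub hUf
    have e2 : (A ∪ ↑W ∪ D : Set Γ).ncard ≤ (A ∪ ↑W : Set Γ).ncard + D.ncard :=
      Set.ncard_union_le _ _
    have e3 : (A ∪ ↑W : Set Γ).ncard ≤ A.ncard + (↑W : Set Γ).ncard := Set.ncard_union_le _ _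
    rw [Set.ncard_coe_finset] at e3
    omega
  have hCpos : A.ncard ≤ C.ncard := Set.ncard_le_ncard hAC hCf
  refine ⟨?_, ?_, ?_, ?_, ?_⟩
  · -- the fraction
    unfold Rn unif
    rw [if_pos hAf, if_pos hCf]
    have hsub : ({v | v ∈ A ∧ far S n ω v} : Set Γ) ⊆ {v | v ∈ C ∧ far S n ω' v} := by
      rintro v ⟨hv, y, hy, hyn⟩
      exact ⟨hAC hv, y, Attach_reach (· ∈ A) clA stA hv hy, hyn⟩
    have hcard : ({v | v ∈ A ∧ far S n ω v} : Set Γ).ncard ≤
        ({v | v ∈ C ∧ far S n ω' v} : Set Γ).ncard :=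
      Set.ncard_le_ncard hsub (hCf.subset (fun v hv => hv.1))
    have hA0 : (A.ncard : ℝ≥0∞) ≠ 0 := by
      have : A.ncard ≠ 0 := by omega
      exact_mod_cast this
    have hC0 : (C.ncard : ℝ≥0∞) ≠ 0 := by
      have : C.ncard ≠ 0 := by omega
      exact_mod_cast this
    rw [ENNReal.div_le_iff hA0 (ENNReal.natCast_ne_top _)]
    calc (({v | v ∈ A ∧ far S n ω v} : Set Γ).ncard : ℝ≥0∞)
        ≤ ({v | v ∈ C ∧ far S n ω' v} : Set Γ).ncard := by exact_mod_cast hcard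
      _ = (({v | v ∈ C ∧ far S n ω' v} : Set Γ).ncard : ℝ≥0∞) / C.ncard * C.ncard :=
          (ENNReal.div_mul_cancel hC0 (ENNReal.natCast_ne_top _)).symm
      _ ≤ (({v | v ∈ C ∧ far S n ω' v} : Set Γ).ncard : ℝ≥0∞) / C.ncard * (2 * A.ncard) := by
          gcongr
          exact_mod_cast hCcard
      _ = 2 * ((({v | v ∈ C ∧ far S n ω' v} : Set Γ).ncard : ℝ≥0∞) / C.ncard) * A.ncard := by
          ring
  · -- the distance
    obtain ⟨w, hw⟩ := SimpleGraph.Reachable.exists_walk_length_eq_dist hz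
    have e1 : dle (og S ω) (K0 + (og S ω).dist h z) a z :=
      dle_trans (dle_symm hK) ⟨w, hw.le⟩
    have e2 : dle (og S ω') (K0 + (og S ω).dist h z) a z := Attach_dle (· ∈ D) clD stD ha e1
    exact ((dle_iff _ _ _ _).1 e2).2
  · -- the bridge
    set H := (og S ω').deleteEdges {s(a, b)} with hH
    have hHadj : ∀ x y, H.Adj x y ↔ (og S ω').Adj x y ∧ s(x, y) ≠ s(a, b) := by
      intro x y
      rw [hH, SimpleGraph.deleteEdges_adj]
      simp
    have stH : ∀ x y, x ∈ D → (og S ω).Adj x y → H.Adj x y := by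
      intro x y hx hxy
      rw [hHadj]
      refine ⟨stD x y hx hxy, fun he => ?_⟩
      rcases Sym2.eq_iff.1 he with ⟨_, h6⟩ | ⟨h6, _⟩
      · exact hb (h6 ▸ clD x y hx hxy)
      · exact hb (h6 ▸ hx)
    have clH : ∀ x y, x ∈ D → H.Adj x y → y ∈ D := by
      intro x y hx hxy
      rw [hHadj, h2 x hx y] at hxy
      rcases hxy.1 with h5 | ⟨rfl, rfl⟩
      · exact clD x y hx h5
      · exact absurd rfl hxy.2
    have hsub : ({v | H.Reachable z v} : Set Γ) ⊆ D := fun v hv =>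
      Attach_closed (· ∈ D) clH hz hv
    refine ⟨b, hAdjab, Attach_reach (· ∈ D) clD stH hz (reachD z a hz ha), fun hzb => hb (hsub hzb),
      ?_⟩
    have e8 := Set.ncard_le_ncard hsub hDf
    have e9 : 2 * ({v | H.Reachable z v} : Set Γ).ncard ≤ C.ncard := by omega
    exact e9
  · -- the ball
    intro R hRa x y hx
    have hxD : x ∈ D := by
      obtain ⟨w, _⟩ := hx
      exact SimpleGraph.Reachable.trans hz ⟨w⟩
    rw [h2 x hxD y]
    constructor
    · exact Or.inl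
    · rintro (h5 | ⟨rfl, _⟩)
      · exact h5
      · exact absurd hx hRa
  · intro k hk
    exact Attach_dle (· ∈ D) clD stD hz hk

end IICErg
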