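import Pool.Agent.Lib.MP_4c698b_pr.BasicA

/-!
# Module BasicB: measurability and invariance of percolation
-/

open MeasureTheory Filter Topology
open scoped ENNReal Pointwise

namespace IICErg

variable {Γ : Type} [Group Γ]

section BasicB

theorem measurable_vw (x : Γ) : Measurable (vw x : Cfg Γ → Cfg Γ) :=
  measurable_pi_iff.mpr fun _ => measurable_pi_apply _

/-- the change of viewpoint as a measurable equivalence -/
def BasicB_equiv (x : Γ) : Cfg Γ ≃ᵐ Cfg Γ where
  toFun := vw x
  invFun := vw x⁻¹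
  left_inv := fun ω => by rw [vw_vw, mul_inv_cancel, vw_one]
  right_inv := fun ω => by rw [vw_vw, inv_mul_cancel, vw_one]
  measurable_toFun := measurable_vw x
  measurable_invFun := measurable_vw x⁻¹

theorem BasicB_map_map (x : Γ) (e : Sym2 Γ) :
    (e.map (fun y => x * y)).map (fun y => x⁻¹ * y) = e := by
  induction e using Sym2.ind with
  | _ a b => simp

theorem BasicB_map_map' (x : Γ) (e : Sym2 Γ) :
    (e.map (fun y => x⁻¹ * y)).map (fun y => x * y) = e := by
  induction e using Sym2.ind with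
  | _ a b => simp

theorem perc_map_vw (p : unitInterval) (x : Γ) : (perc Γ p).map (vw x) = perc Γ p := by
  classical
  have hinj : Function.Injective (fun e : Sym2 Γ => e.map (fun y => x * y)) := by
    intro e e' h
    have := congrArg (fun e : Sym2 Γ => e.map (fun y => x⁻¹ * y)) h
    simp only [BasicB_map_map] at this
    exact this
  show (perc Γ p).map (vw x) = Measure.infinitePi (fun _ : Sym2 Γ => bern p)
  refine Measure.eq_infinitePi _ fun s t ht => ?_
  rw [Measure.map_apply (measurable_vw x) (MeasurableSet.pi s.countable_toSet fun _ _ => ht _)]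
  have h1 : vw x ⁻¹' (Set.pi (s : Set (Sym2 Γ)) t) =
      Set.pi ((s.image (fun e : Sym2 Γ => e.map (fun y => x * y)) : Finset (Sym2 Γ)) :
        Set (Sym2 Γ)) (fun e => t (e.map (fun y => x⁻¹ * y))) := by
    ext ω
    constructor
    · intro h e he
      obtain ⟨e', he', rfl⟩ := Finset.mem_image.mp (Finset.mem_coe.mp he)
      show ω (e'.map (fun y => x * y)) ∈ t ((e'.map (fun y => x * y)).map (fun y => x⁻¹ * y))
      rw [BasicB_map_map]
      exact h e' he'
    · intro h e he
      have h2 : ω (e.map (fun y => x * y)) ∈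
          t ((e.map (fun y => x * y)).map (fun y => x⁻¹ * y)) :=
        h (e.map (fun y => x * y)) (Finset.mem_coe.mpr (Finset.mem_image_of_mem _ he))
      rw [BasicB_map_map] at h2
      exact h2
  rw [h1]
  unfold perc
  rw [Measure.infinitePi_pi _ (fun e _ => ht _), Finset.prod_image (fun a _ b _ h => hinj h)]
  refine Finset.prod_congr rfl fun e _ => ?_
  rw [BasicB_map_map]

/-- invariance of percolation, no measurability needed -/
theorem lintegral_vw (p : unitInterval) (x : Γ) (F : Cfg Γ → ℝ≥0∞) :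
    ∫⁻ ω, F (vw x ω) ∂(perc Γ p) = ∫⁻ ω, F ω ∂(perc Γ p) := by
  have h := lintegral_map_equiv (μ := perc Γ p) F (BasicB_equiv x)
  have h2 : (perc Γ p).map (BasicB_equiv x) = perc Γ p := perc_map_vw p x
  rw [h2] at h
  exact h.symm

theorem perc_vw (p : unitInterval) (x : Γ) (E : Set (Cfg Γ)) :
    perc Γ p {ω | vw x ω ∈ E} = perc Γ p E := by
  have h := (BasicB_equiv x).map_apply (μ := perc Γ p) E
  have h2 : (perc Γ p).map (BasicB_equiv x) = perc Γ p := perc_map_vw p x
  rw [h2] at h
  exact h.symm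

theorem measurableSet_adj (S : GenSet Γ) (x y : Γ) :
    MeasurableSet {ω : Cfg Γ | (og S ω).Adj x y} := by
  have h0 : Measurable (fun ω : Cfg Γ => ω s(x, y)) := measurable_pi_apply _
  have h1 : MeasurableSet {ω : Cfg Γ | ω s(x, y) = true} := h0 (measurableSet_singleton true)
  exact (MeasurableSet.const (S.cay.Adj x y)).inter h1

theorem BasicB_dle_succ (S : GenSet Γ) (ω : Cfg Γ) (n : ℕ) (x y : Γ) :
    dle (og S ω) (n + 1) x y ↔ x = y ∨ ∃ s ∈ S.S, (og S ω).Adj x (x * s) ∧
      dle (og S ω) n (x * s) y := by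
  constructor
  · rintro ⟨w, hw⟩
    cases w with
    | nil => exact Or.inl rfl
    | cons h w' =>
      rename_i z
      refine Or.inr ⟨x⁻¹ * z, h.1, ?_, ?_⟩
      · rwa [mul_inv_cancel_left]
      · rw [mul_inv_cancel_left]
        rw [SimpleGraph.Walk.length_cons] at hw
        exact ⟨w', by omega⟩
  · rintro (rfl | ⟨s, _, h1, h2⟩)
    · exact dle_refl _ _ _
    · have := dle_trans (dle_of_adj h1) h2
      rwa [add_comm] at this

theorem measurableSet_dle (S : GenSet Γ) (n : ℕ) (x y : Γ) :
    MeasurableSet {ω : Cfg Γ | dle (og S ω) n x y} := by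
  induction n generalizing x with
  | zero =>
    have h : {ω : Cfg Γ | dle (og S ω) 0 x y} = {_ω : Cfg Γ | x = y} := by
      ext ω
      constructor
      · rintro ⟨w, hw⟩
        exact SimpleGraph.Walk.eq_of_length_eq_zero (Nat.le_zero.mp hw)
      · intro h
        have h' : x = y := h
        subst h'
        exact dle_refl _ _ _
    rw [h]
    exact MeasurableSet.const _
  | succ n ih =>
    have h : {ω : Cfg Γ | dle (og S ω) (n + 1) x y} = {_ω : Cfg Γ | x = y} ∪
        ⋃ s ∈ S.S, ({ω : Cfg Γ | (og S ω).Adj x (x * s)} ∩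
          {ω : Cfg Γ | dle (og S ω) n (x * s) y}) := by
      ext ω
      rw [Set.mem_union, Set.mem_iUnion₂]
      show dle (og S ω) (n + 1) x y ↔ (x = y ∨ ∃ s, ∃ _ : s ∈ S.S, (og S ω).Adj x (x * s) ∧
          dle (og S ω) n (x * s) y)
      rw [BasicB_dle_succ]
      simp only [exists_prop]
    rw [h]
    refine (MeasurableSet.const _).union ?_
    exact Finset.measurableSet_biUnion _ fun s _ => (measurableSet_adj S x (x * s)).inter (ih _)

theorem measurableSet_reach (S : GenSet Γ) (x y : Γ) :
    MeasurableSet {ω : Cfg Γ | (og S ω).Reachable x y} := by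
  have h : {ω : Cfg Γ | (og S ω).Reachable x y} = ⋃ n, {ω : Cfg Γ | dle (og S ω) n x y} := by
    ext ω
    rw [Set.mem_iUnion]
    exact BasicA_reach_iff _ _ _
  rw [h]
  exact MeasurableSet.iUnion fun n => measurableSet_dle S n x y

theorem measurableSet_far (S : GenSet Γ) (n : ℕ) (x : Γ) :
    MeasurableSet {ω : Cfg Γ | far S n ω x} := by
  have := S.countable
  have h : {ω : Cfg Γ | far S n ω x} =
      ⋃ y, ({ω : Cfg Γ | (og S ω).Reachable x y} ∩ {_ω : Cfg Γ | S.cay.dist x y = n}) := by
    ext ω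
    rw [Set.mem_iUnion]
    exact Iff.rfl
  rw [h]
  exact MeasurableSet.iUnion fun y => (measurableSet_reach S x y).inter (MeasurableSet.const _)

theorem measurableSet_cleq (S : GenSet Γ) (x : Γ) (C : Finset Γ) :
    MeasurableSet {ω : Cfg Γ | cl S ω x = ↑C} := by
  have := S.countable
  have h : {ω : Cfg Γ | cl S ω x = ↑C} =
      ⋂ y, {ω : Cfg Γ | (og S ω).Reachable x y ↔ y ∈ C} := by
    ext ω
    rw [Set.mem_iInter]
    exact Set.ext_iff
  rw [h]
  refine MeasurableSet.iInter fun y => ?_
  by_cases hy : y ∈ C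
  · have h1 : {ω : Cfg Γ | (og S ω).Reachable x y ↔ y ∈ C} =
        {ω : Cfg Γ | (og S ω).Reachable x y} := by
      ext ω
      exact iff_true_right hy
    rw [h1]
    exact measurableSet_reach S x y
  · have h1 : {ω : Cfg Γ | (og S ω).Reachable x y ↔ y ∈ C} =
        {ω : Cfg Γ | (og S ω).Reachable x y}ᶜ := by
      ext ω
      exact iff_false_right hy
    rw [h1]
    exact (measurableSet_reach S x y).compl

theorem measurableSet_clfin (S : GenSet Γ) (x : Γ) :
    MeasurableSet {ω : Cfg Γ | (cl S ω x).Finite} := by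
  have := S.countable
  have h : {ω : Cfg Γ | (cl S ω x).Finite} =
      ⋃ C : Finset Γ, {ω : Cfg Γ | cl S ω x = ↑C} := by
    ext ω
    rw [Set.mem_iUnion]
    constructor
    · intro hf
      exact ⟨Set.Finite.toFinset hf, (Set.Finite.coe_toFinset hf).symm⟩
    · rintro ⟨C, hC⟩
      have hC' : cl S ω x = ↑C := hC
      show (cl S ω x).Finite
      rw [hC']
      exact C.finite_toSet
  rw [h]
  exact MeasurableSet.iUnion fun C => measurableSet_cleq S x C

theorem measurableSet_clcard (S : GenSet Γ) (x : Γ) (m : ℕ) :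
    MeasurableSet {ω : Cfg Γ | (cl S ω x).Finite ∧ (cl S ω x).ncard ≤ m} := by
  have := S.countable
  have h : {ω : Cfg Γ | (cl S ω x).Finite ∧ (cl S ω x).ncard ≤ m} =
      ⋃ C : Finset Γ, ({ω : Cfg Γ | cl S ω x = ↑C} ∩ {_ω : Cfg Γ | C.card ≤ m}) := by
    ext ω
    rw [Set.mem_iUnion]
    constructor
    · rintro ⟨hf, hm⟩
      refine ⟨Set.Finite.toFinset hf, (Set.Finite.coe_toFinset hf).symm, ?_⟩
      show (Set.Finite.toFinset hf).card ≤ m
      rwa [← Set.ncard_eq_toFinset_card _ hf]
    · rintro ⟨C, hC, hm⟩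
      have hC' : cl S ω x = ↑C := hC
      have hm' : C.card ≤ m := hm
      show (cl S ω x).Finite ∧ (cl S ω x).ncard ≤ m
      rw [hC', Set.ncard_coe_finset]
      exact ⟨C.finite_toSet, hm'⟩
  rw [h]
  exact MeasurableSet.iUnion fun C => (measurableSet_cleq S x C).inter (MeasurableSet.const _)

omit [Group Γ] in
/-- a function of the states of finitely many edges is measurable -/
theorem measurable_of_finite {α : Type} [MeasurableSpace α] (F : Finset (Sym2 Γ))
    (f : Cfg Γ → α) (hf : ∀ ω ω' : Cfg Γ, (∀ e ∈ F, ω e = ω' e) → f ω = f ω') :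
    Measurable f := by
  classical
  have h1 : f = (fun c : F → Bool => f (fun e => if h : e ∈ F then c ⟨e, h⟩ else false)) ∘
      (fun ω : Cfg Γ => fun e : F => ω e.1) := by
    funext ω
    refine hf _ _ fun e he => ?_
    rw [dif_pos he]
  rw [h1]
  refine Measurable.comp (_root_.measurable_of_finite _) ?_
  exact measurable_pi_iff.mpr fun e => measurable_pi_apply _

open Classical in
/-- the edges at the vertices of the finite set `C` -/
noncomputable def BasicB_edges (S : GenSet Γ) (C : Finset Γ) : Finset (Sym2 Γ) :=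
  (C ×ˢ S.S).image (fun x => s(x.1, x.1 * x.2))

theorem BasicB_adj (S : GenSet Γ) (C : Finset Γ) {ω ω' : Cfg Γ}
    (h : ∀ e ∈ BasicB_edges S C, ω e = ω' e) {x : Γ} (hx : x ∈ C) (y : Γ) :
    (og S ω).Adj x y ↔ (og S ω').Adj x y := by
  classical
  show (S.cay.Adj x y ∧ ω s(x, y) = true) ↔ (S.cay.Adj x y ∧ ω' s(x, y) = true)
  refine and_congr_right fun hadj => ?_
  have hmem : s(x, y) ∈ BasicB_edges S C := by
    refine Finset.mem_image.mpr ⟨(x, x⁻¹ * y), Finset.mem_product.mpr ⟨hx, hadj⟩, ?_⟩
    show s(x, x * (x⁻¹ * y)) = s(x, y)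
    rw [mul_inv_cancel_left]
  rw [h _ hmem]

/-- a function of the cluster of `h` that vanishes when the cluster is infinite is measurable -/
theorem measurable_of_clFn (S : GenSet Γ) (h : Γ) (f : Cfg Γ → ℝ≥0∞) (hf : ClFn S h f)
    (hf0 : ∀ ω, ¬ (cl S ω h).Finite → f ω = 0) : Measurable f := by
  classical
  have := S.countable
  have h1 : f = fun ω => ∑' C : Finset Γ, (if cl S ω h = (C : Set Γ) then f ω else 0) := by
    funext ω
    by_cases hfin : (cl S ω h).Finite
    · rw [tsum_eq_single hfin.toFinset]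
      · rw [if_pos hfin.coe_toFinset.symm]
      · intro C hC
        refine if_neg fun h2 => hC ?_
        apply Finset.coe_injective
        rw [hfin.coe_toFinset, h2]
    · rw [hf0 ω hfin]
      refine (ENNReal.tsum_eq_zero.mpr fun C => ?_).symm
      rw [ite_self]
  rw [h1]
  refine Measurable.tsum fun C => ?_
  refine measurable_of_finite (BasicB_edges S C) _ fun ω ω' hag => ?_
  have key : ∀ ω ω' : Cfg Γ, (∀ e ∈ BasicB_edges S C, ω e = ω' e) → cl S ω h = (C : Set Γ) →
      cl S ω' h = (C : Set Γ) ∧ f ω = f ω' := by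
    intro ω ω' hag hC
    have H : ∀ x y, (og S ω).Reachable h x → ((og S ω).Adj x y ↔ (og S ω').Adj x y) := by
      intro x y hx
      have hx' : x ∈ cl S ω h := hx
      rw [hC] at hx'
      exact BasicB_adj S C hag (Finset.mem_coe.mp hx') y
    refine ⟨?_, hf ω ω' H⟩
    rw [← hC]
    ext x
    exact (agree_reach H x).symm
  by_cases hC : cl S ω h = (C : Set Γ)
  · obtain ⟨hC', hff⟩ := key ω ω' hag hC
    rw [if_pos hC, if_pos hC', hff]
  · rw [if_neg hC, if_neg]
    intro hC'
    exact hC (key ω' ω (fun e he => (hag e he).symm) hC').1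

theorem measurable_Rn (S : GenSet Γ) (n : ℕ) (x : Γ) :
    Measurable (fun ω : Cfg Γ => Rn S n ω x) := by
  refine measurable_of_clFn S x _ (Rn_clFn S n x) fun ω hω => ?_
  unfold Rn unif
  rw [if_neg hω]

theorem BasicB_measurable_dist (S : GenSet Γ) (x y : Γ) :
    Measurable (fun ω : Cfg Γ => (og S ω).dist x y) := by
  refine measurable_of_Iic fun k => ?_
  have h : (fun ω : Cfg Γ => (og S ω).dist x y) ⁻¹' (Set.Iic k) =
      {ω : Cfg Γ | dle (og S ω) k x y} ∪ {ω : Cfg Γ | (og S ω).Reachable x y}ᶜ := by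
    ext ω
    show (og S ω).dist x y ≤ k ↔ (dle (og S ω) k x y ∨ ¬ (og S ω).Reachable x y)
    rw [dle_iff]
    by_cases hr : (og S ω).Reachable x y
    · simp [hr]
    · simp [hr, SimpleGraph.dist_eq_zero_of_not_reachable hr]
  rw [h]
  exact (measurableSet_dle S k x y).union (measurableSet_reach S x y).compl

theorem measurable_wt (S : GenSet Γ) (l : ℝ≥0∞) (N : ℕ) (x y : Γ) :
    Measurable (fun ω : Cfg Γ => wt S l N ω x y) := by
  classical
  unfold wt
  refine Measurable.ite (measurableSet_dle S N x y) ?_ measurable_const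
  exact (measurable_of_countable (fun k : ℕ => l ^ k)).comp (BasicB_measurable_dist S x y)

theorem IsLoc.meas {S : GenSet Γ} {R : ℕ} {E : Set (Cfg Γ)} (h : IsLoc S R E) :
    MeasurableSet E := by
  have h1 : Measurable (fun ω : Cfg Γ => ω ∈ E) := by
    refine measurable_of_finite (BasicB_edges S (S.ball R)) _ fun ω ω' hag => ?_
    refine propext (h ω ω' fun x y hx => ?_)
    refine BasicB_adj S _ hag ?_ y
    have := ball_of_dle hx
    rwa [inv_one, one_mul] at this
  exact measurableSet_setOfPred.mpr h1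

end BasicB

end IICErg
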