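import Pool.Agent.Lib.MP_4c698b_pr.BasicA
import Pool.Agent.Lib.MP_4c698b_pr.BasicB

/-!
# MP_4c698b_pr, module AvgA: averages of local functions, covariance, measurability, locality
-/

open MeasureTheory Filter Topology
open scoped ENNReal Pointwise

namespace IICErg

variable {Γ : Type} [Group Γ]

theorem AvgA_Qop_vw (S : GenSet Γ) (ω : Cfg Γ) (z : Γ) (h h' : Γ → ℝ)
    (hh : ∀ y, h' y = h (z * y)) (y : Γ) : Qop S (vw z ω) h' y = Qop S ω h (z * y) := by
  classical
  unfold Qop
  rw [hh y]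
  congr 2
  apply Finset.sum_congr rfl
  intro s _
  rw [hh (y * s), ← mul_assoc]
  by_cases hadj : (og S ω).Adj (z * y) (z * y * s)
  · rw [if_pos hadj, if_pos]
    rw [og_vw_adj, ← mul_assoc]
    exact hadj
  · rw [if_neg hadj, if_neg]
    rw [og_vw_adj, ← mul_assoc]
    exact hadj

theorem AvgA_iter_vw (S : GenSet Γ) (ω : Cfg Γ) (z : Γ) (h h' : Γ → ℝ)
    (hh : ∀ y, h' y = h (z * y)) (j : ℕ) (y : Γ) :
    ((Qop S (vw z ω))^[j] h') y = ((Qop S ω)^[j] h) (z * y) := by
  induction j generalizing y with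
  | zero => exact hh y
  | succ j ih =>
    rw [Function.iterate_succ_apply', Function.iterate_succ_apply']
    exact AvgA_Qop_vw S ω z _ _ ih y

theorem gav_vw (S : GenSet Γ) (ρ : ℝ) (L : ℕ) (F : Set (Cfg Γ)) (ω : Cfg Γ) (z y : Γ) :
    gav S ρ L F (vw z ω) y = gav S ρ L F ω (z * y) := by
  classical
  unfold gav
  congr 1
  apply Finset.sum_congr rfl
  intro j _
  congr 1
  apply AvgA_iter_vw
  intro y
  rw [vw_vw]

theorem AvgA_Qop_congr (S : GenSet Γ) (ω ω' : Cfg Γ)
    (H : ∀ x y, (og S ω).Reachable 1 x → ((og S ω).Adj x y ↔ (og S ω').Adj x y)) (h h' : Γ → ℝ)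
    (hh : ∀ y, (og S ω).Reachable 1 y → h y = h' y) (x : Γ) (hx : (og S ω).Reachable 1 x) :
    Qop S ω h x = Qop S ω' h' x := by
  classical
  unfold Qop
  rw [hh x hx]
  congr 2
  apply Finset.sum_congr rfl
  intro s _
  by_cases hadj : (og S ω).Adj x (x * s)
  · rw [if_pos hadj, if_pos ((H x _ hx).1 hadj), hh _ (hx.trans hadj.reachable)]
  · rw [if_neg hadj, if_neg (fun h => hadj ((H x _ hx).2 h))]

theorem AvgA_iter_congr (S : GenSet Γ) (ω ω' : Cfg Γ)
    (H : ∀ x y, (og S ω).Reachable 1 x → ((og S ω).Adj x y ↔ (og S ω').Adj x y)) (h h' : Γ → ℝ)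
    (hh : ∀ y, (og S ω).Reachable 1 y → h y = h' y) (j : ℕ) (x : Γ)
    (hx : (og S ω).Reachable 1 x) : ((Qop S ω)^[j] h) x = ((Qop S ω')^[j] h') x := by
  induction j generalizing x with
  | zero => exact hh x hx
  | succ j ih =>
    rw [Function.iterate_succ_apply', Function.iterate_succ_apply']
    exact AvgA_Qop_congr S ω ω' H _ _ ih x hx

theorem AvgA_gav_congr (S : GenSet Γ) {F : Set (Cfg Γ)} (hF : ClEv S F) (ρ : ℝ) (L : ℕ)
    (ω ω' : Cfg Γ)
    (H : ∀ x y, (og S ω).Reachable 1 x → ((og S ω).Adj x y ↔ (og S ω').Adj x y)) (x : Γ)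
    (hx : (og S ω).Reachable 1 x) : gav S ρ L F ω x = gav S ρ L F ω' x := by
  classical
  unfold gav
  congr 1
  apply Finset.sum_congr rfl
  intro j _
  congr 1
  apply AvgA_iter_congr S ω ω' H _ _ _ j x hx
  intro y hy
  have : vw y ω ∈ F ↔ vw y ω' ∈ F := by
    apply hF
    intro a b ha
    rw [reach_vw, mul_one] at ha
    rw [og_vw_adj, og_vw_adj]
    exact H _ _ (hy.trans ha)
  simp only [this]

theorem Aset_clEv (S : GenSet Γ) {f F : Set (Cfg Γ)} (hf : ClEv S f) (hF : ClEv S F) (K : ℕ)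
    (ρ : ℝ) (L : ℕ) : ClEv S (Aset S f K F ρ L) := by
  classical
  intro ω ω' H
  unfold Aset
  rw [Set.mem_ofPred_eq, Set.mem_ofPred_eq]
  apply exists_congr
  intro y
  have h1 := agree_dle H (SimpleGraph.Reachable.refl 1) K y
  rw [← h1]
  apply and_congr_right
  intro hy
  have hr : (og S ω).Reachable 1 y := by
    obtain ⟨p, _⟩ := hy
    exact p.reachable
  rw [AvgA_gav_congr S hF ρ L ω ω' H y hr]
  have h2 := hf ω ω' H
  simp only [h2]

theorem AvgA_iter_meas (S : GenSet Γ) {F : Set (Cfg Γ)} (hF : MeasurableSet F) (j : ℕ) (y : Γ) :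
    open Classical in
    Measurable (fun ω : Cfg Γ => ((Qop S ω)^[j] (fun y => if vw y ω ∈ F then 1 else 0)) y) := by
  classical
  induction j generalizing y with
  | zero =>
    exact Measurable.ite (measurable_vw y hF) measurable_const measurable_const
  | succ j ih =>
    simp only [Function.iterate_succ_apply']
    unfold Qop
    refine (ih y).add (measurable_const.mul ?_)
    apply Finset.measurable_sum
    intro s _
    exact Measurable.ite (measurableSet_adj S y (y * s)) ((ih (y * s)).sub (ih y))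
      measurable_const

theorem AvgA_gav_meas (S : GenSet Γ) {F : Set (Cfg Γ)} (hF : MeasurableSet F) (ρ : ℝ) (L : ℕ)
    (y : Γ) : Measurable (fun ω : Cfg Γ => gav S ρ L F ω y) := by
  classical
  unfold gav
  apply measurable_const.mul
  apply Finset.measurable_sum
  intro j _
  exact measurable_const.mul (AvgA_iter_meas S hF j y)

theorem Aset_meas (S : GenSet Γ) {f F : Set (Cfg Γ)} (hf : MeasurableSet f)
    (hF : MeasurableSet F) (K : ℕ) (ρ : ℝ) (L : ℕ) : MeasurableSet (Aset S f K F ρ L) := by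
  classical
  have := S.countable
  have : Aset S f K F ρ L = ⋃ y : Γ, ({ω | dle (og S ω) K 1 y} ∩
      {ω | (1 : ℝ) / 4 ≤ |gav S ρ L F ω y - (if ω ∈ f then 1 else 0)|}) := by
    ext ω
    simp [Aset]
  rw [this]
  apply MeasurableSet.iUnion
  intro y
  apply (measurableSet_dle S K 1 y).inter
  apply measurableSet_le measurable_const
  exact ((AvgA_gav_meas S hF ρ L y).sub
    (Measurable.ite hf measurable_const measurable_const)).abs

end IICErg
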