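import Pool.Agent.Lib.MP_4c698b_pr.SDefs

/-!
# MP_4c698b_pr, module TransferA: deterministic resolvent estimate
-/

open MeasureTheory Filter Topology
open scoped ENNReal Pointwise

namespace IICErg

variable {Γ : Type} [Group Γ]

section TransferA

/-! ### The operator `Qop` -/

theorem TransferA_coef (S : GenSet Γ) : 0 ≤ (1 / (2 * S.S.card : ℝ)) ∧
    (1 / (2 * S.S.card : ℝ)) * S.S.card ≤ 1 / 2 := by
  constructor
  · positivity
  · rcases Nat.eq_zero_or_pos S.S.card with h | h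
    · rw [h]; norm_num
    · have : (0 : ℝ) < S.S.card := by exact_mod_cast h
      have : (1 / (2 * S.S.card : ℝ)) * S.S.card = 1 / 2 := by field_simp
      rw [this]

theorem Qop_nonneg (S : GenSet Γ) (ω : Cfg Γ) {h : Γ → ℝ} (hh : ∀ x, 0 ≤ h x) (x : Γ) :
    0 ≤ Qop S ω h x := by
  classical
  unfold Qop
  obtain ⟨hc0, hc1⟩ := TransferA_coef S
  have h1 : ∑ s ∈ S.S, (-h x) ≤
      ∑ s ∈ S.S, (if (og S ω).Adj x (x * s) then h (x * s) - h x else 0) := by
    apply Finset.sum_le_sum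
    intro s _
    split_ifs
    · linarith [hh (x * s)]
    · linarith [hh x]
  rw [Finset.sum_const, nsmul_eq_mul] at h1
  have h2 := mul_le_mul_of_nonneg_left h1 hc0
  have h3 : (1 / (2 * S.S.card : ℝ)) * ((S.S.card : ℝ) * -h x) =
      -(((1 / (2 * S.S.card : ℝ)) * S.S.card) * h x) := by ring
  rw [h3] at h2
  have h4 := mul_le_mul_of_nonneg_right hc1 (hh x)
  linarith [hh x]

theorem TransferA_Qop_const_sub (S : GenSet Γ) (ω : Cfg Γ) (h : Γ → ℝ) (c : ℝ) (x : Γ) :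
    Qop S ω (fun y => c - h y) x = c - Qop S ω h x := by
  classical
  unfold Qop
  have : ∑ s ∈ S.S, (if (og S ω).Adj x (x * s) then (c - h (x * s)) - (c - h x) else 0) =
      - ∑ s ∈ S.S, (if (og S ω).Adj x (x * s) then h (x * s) - h x else 0) := by
    rw [← Finset.sum_neg_distrib]
    apply Finset.sum_congr rfl
    intro s _
    split_ifs <;> ring
  simp only [this]
  ring

theorem Qop_le (S : GenSet Γ) (ω : Cfg Γ) {h : Γ → ℝ} {c : ℝ} (hh : ∀ x, h x ≤ c) (x : Γ) :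
    Qop S ω h x ≤ c := by
  have := Qop_nonneg S ω (h := fun y => c - h y) (fun y => by linarith [hh y]) x
  rw [TransferA_Qop_const_sub] at this
  linarith

theorem TransferA_iter_bd (S : GenSet Γ) (ω : Cfg Γ) {h : Γ → ℝ} (h0 : ∀ x, 0 ≤ h x)
    (h1 : ∀ x, h x ≤ 1) (j : ℕ) (x : Γ) :
    0 ≤ ((Qop S ω)^[j] h) x ∧ ((Qop S ω)^[j] h) x ≤ 1 := by
  induction j generalizing x with
  | zero => exact ⟨h0 x, h1 x⟩
  | succ j ih =>
    rw [Function.iterate_succ_apply']
    exact ⟨Qop_nonneg S ω (fun y => (ih y).1) x, Qop_le S ω (fun y => (ih y).2) x⟩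

theorem TransferA_Qop_lin (S : GenSet Γ) (ω : Cfg Γ) (L : ℕ) (c : ℕ → ℝ) (h : ℕ → Γ → ℝ)
    (a : ℝ) (x : Γ) :
    Qop S ω (fun y => a * ∑ j ∈ Finset.range L, c j * h j y) x =
      a * ∑ j ∈ Finset.range L, c j * Qop S ω (h j) x := by
  classical
  unfold Qop
  have h1 : ∀ s, (if (og S ω).Adj x (x * s) then
      (a * ∑ j ∈ Finset.range L, c j * h j (x * s)) - a * ∑ j ∈ Finset.range L, c j * h j x
        else 0) =
      a * ∑ j ∈ Finset.range L, c j *
        (if (og S ω).Adj x (x * s) then h j (x * s) - h j x else 0) := by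
    intro s
    split_ifs
    · rw [← mul_sub, ← Finset.sum_sub_distrib]
      congr 1
      apply Finset.sum_congr rfl
      intro j _
      ring
    · simp
  simp only [h1]
  rw [← Finset.mul_sum, Finset.sum_comm]
  simp only [← Finset.mul_sum, mul_add, Finset.sum_add_distrib]
  congr 1
  rw [← mul_assoc, mul_comm _ a, mul_assoc, Finset.mul_sum]
  congr 1
  apply Finset.sum_congr rfl
  intro j _
  ring

/-- the resolvent identity -/
theorem TransferA_resolvent (S : GenSet Γ) (ω : Cfg Γ) (ρ : ℝ) (L : ℕ) (f : Γ → ℝ) (x : Γ) :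
    (1 - ρ) * ∑ j ∈ Finset.range L, ρ ^ j * ((Qop S ω)^[j] f) x -
      ρ * Qop S ω (fun y => (1 - ρ) * ∑ j ∈ Finset.range L, ρ ^ j * ((Qop S ω)^[j] f) y) x =
      (1 - ρ) * (f x - ρ ^ L * ((Qop S ω)^[L] f) x) := by
  rw [TransferA_Qop_lin S ω L (fun j => ρ ^ j) (fun j => (Qop S ω)^[j] f) (1 - ρ) x]
  have h1 := Finset.sum_range_sub' (fun j => ρ ^ j * ((Qop S ω)^[j] f) x) L
  simp only [Function.iterate_succ_apply', pow_zero, Function.iterate_zero, id_eq, one_mul] at h1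
  rw [← h1, Finset.sum_sub_distrib]
  rw [mul_sub]
  congr 1
  rw [← mul_assoc, mul_comm ρ, mul_assoc, Finset.mul_sum]
  congr 1
  apply Finset.sum_congr rfl
  intro j _
  ring

/-- sums over neighbours -/
theorem TransferA_nbr (S : GenSet Γ) (ω : Cfg Γ) (x : Γ) (T : Finset Γ)
    (hT : ∀ y, (og S ω).Adj x y → y ∈ T) (φ : Γ → ℝ) :
    open Classical in
    ∑ s ∈ S.S, (if (og S ω).Adj x (x * s) then φ (x * s) else 0) =
      ∑ y ∈ T, (if (og S ω).Adj x y then φ y else 0) := by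
  classical
  rw [← Finset.sum_filter, ← Finset.sum_filter]
  refine Finset.sum_bij' (fun s _ => x * s) (fun y _ => x⁻¹ * y) ?_ ?_ ?_ ?_ ?_
  · intro s hs
    rw [Finset.mem_filter] at hs ⊢
    exact ⟨hT _ hs.2, hs.2⟩
  · intro y hy
    rw [Finset.mem_filter] at hy ⊢
    refine ⟨hy.2.1, ?_⟩
    rw [mul_inv_cancel_left]
    exact hy.2
  · intro s _; simp
  · intro y _; simp
  · intro s _; rfl

theorem TransferA_Qop_eq (S : GenSet Γ) (ω : Cfg Γ) (x : Γ) (T : Finset Γ)
    (hT : ∀ y, (og S ω).Adj x y → y ∈ T) (h : Γ → ℝ) :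
    open Classical in
    Qop S ω h x = h x + (1 / (2 * S.S.card : ℝ)) *
      ∑ y ∈ T, (if (og S ω).Adj x y then h y - h x else 0) := by
  classical
  have := TransferA_nbr S ω x T hT (fun y => h y - h x)
  unfold Qop
  rw [← this]

theorem TransferA_symm (S : GenSet Γ) (ω : Cfg Γ) (A : Finset Γ)
    (hA : ∀ x ∈ A, ∀ y, (og S ω).Adj x y → y ∈ A) (u v : Γ → ℝ) :
    ∑ x ∈ A, u x * Qop S ω v x = ∑ x ∈ A, Qop S ω u x * v x := by
  classical
  have e1 : ∀ x ∈ A, u x * Qop S ω v x = u x * v x + (1 / (2 * S.S.card : ℝ)) *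
      ∑ y ∈ A, (if (og S ω).Adj x y then u x * v y - u x * v x else 0) := by
    intro x hx
    rw [TransferA_Qop_eq S ω x A (hA x hx) v, mul_add]
    congr 1
    rw [← mul_assoc, mul_comm (u x), mul_assoc, Finset.mul_sum]
    congr 1
    apply Finset.sum_congr rfl
    intro y _
    split_ifs <;> ring
  have e2 : ∀ x ∈ A, Qop S ω u x * v x = u x * v x + (1 / (2 * S.S.card : ℝ)) *
      ∑ y ∈ A, (if (og S ω).Adj x y then u y * v x - u x * v x else 0) := by
    intro x hx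
    rw [TransferA_Qop_eq S ω x A (hA x hx) u, add_mul]
    congr 1
    rw [mul_assoc, Finset.sum_mul]
    congr 1
    apply Finset.sum_congr rfl
    intro y _
    split_ifs <;> ring
  rw [Finset.sum_congr rfl e1, Finset.sum_congr rfl e2, Finset.sum_add_distrib,
    Finset.sum_add_distrib, ← Finset.mul_sum, ← Finset.mul_sum]
  congr 2
  have e3 : ∑ x ∈ A, ∑ y ∈ A, (if (og S ω).Adj x y then u x * v y else 0) =
      ∑ x ∈ A, ∑ y ∈ A, (if (og S ω).Adj x y then u y * v x else 0) := by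
    rw [Finset.sum_comm]
    apply Finset.sum_congr rfl
    intro x _
    apply Finset.sum_congr rfl
    intro y _
    simp only [(og S ω).adj_comm y x]
  have e4 : ∀ a b : Γ → Γ → ℝ, ∑ x ∈ A, ∑ y ∈ A, (if (og S ω).Adj x y then a x y - b x y else 0) =
      ∑ x ∈ A, ∑ y ∈ A, (if (og S ω).Adj x y then a x y else 0) -
        ∑ x ∈ A, ∑ y ∈ A, (if (og S ω).Adj x y then b x y else 0) := by
    intro a b
    rw [← Finset.sum_sub_distrib]
    apply Finset.sum_congr rfl
    intro x _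
    rw [← Finset.sum_sub_distrib]
    apply Finset.sum_congr rfl
    intro y _
    split_ifs <;> ring
  rw [e4 (fun x y => u x * v y) (fun x y => u x * v x),
    e4 (fun x y => u y * v x) (fun x y => u x * v x), e3]

theorem TransferA_sum (S : GenSet Γ) (ω : Cfg Γ) (A : Finset Γ)
    (hA : ∀ x ∈ A, ∀ y, (og S ω).Adj x y → y ∈ A) (v : Γ → ℝ) :
    ∑ x ∈ A, Qop S ω v x = ∑ x ∈ A, v x := by
  have h1 := TransferA_symm S ω A hA (fun _ => 1) v
  have h2 : ∀ x, Qop S ω (fun _ => (1 : ℝ)) x = 1 := by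
    intro x
    unfold Qop
    simp
  simpa [h2] using h1

/-- the Dirichlet form -/
theorem TransferA_form (S : GenSet Γ) (ω : Cfg Γ) (A : Finset Γ)
    (hA : ∀ x ∈ A, ∀ y, (og S ω).Adj x y → y ∈ A) (u : Γ → ℝ) :
    open Classical in
    ∑ x ∈ A, u x * (u x - Qop S ω u x) = (1 / (4 * S.S.card : ℝ)) *
      ∑ x ∈ A, ∑ y ∈ A, (if (og S ω).Adj x y then (u x - u y) ^ 2 else 0) := by
  classical
  have e1 : ∀ x ∈ A, u x * (u x - Qop S ω u x) = (1 / (2 * S.S.card : ℝ)) *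
      ∑ y ∈ A, (if (og S ω).Adj x y then u x * (u x - u y) else 0) := by
    intro x hx
    rw [TransferA_Qop_eq S ω x A (hA x hx) u]
    have : u x * (u x - (u x + (1 / (2 * S.S.card : ℝ)) *
      ∑ y ∈ A, (if (og S ω).Adj x y then u y - u x else 0))) =
      (1 / (2 * S.S.card : ℝ)) * (- u x * 
      ∑ y ∈ A, (if (og S ω).Adj x y then u y - u x else 0)) := by ring
    rw [this, Finset.mul_sum]
    congr 1
    apply Finset.sum_congr rfl
    intro y _
    split_ifs <;> ring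
  rw [Finset.sum_congr rfl e1, ← Finset.mul_sum]
  have e3 : ∑ x ∈ A, ∑ y ∈ A, (if (og S ω).Adj x y then u x * (u x - u y) else 0) =
      ∑ x ∈ A, ∑ y ∈ A, (if (og S ω).Adj x y then u y * (u y - u x) else 0) := by
    rw [Finset.sum_comm]
    apply Finset.sum_congr rfl
    intro x _
    apply Finset.sum_congr rfl
    intro y _
    simp only [(og S ω).adj_comm y x]
  have e4 : ∑ x ∈ A, ∑ y ∈ A, (if (og S ω).Adj x y then (u x - u y) ^ 2 else 0) =
      ∑ x ∈ A, ∑ y ∈ A, (if (og S ω).Adj x y then u x * (u x - u y) else 0) +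
      ∑ x ∈ A, ∑ y ∈ A, (if (og S ω).Adj x y then u y * (u y - u x) else 0) := by
    rw [← Finset.sum_add_distrib]
    apply Finset.sum_congr rfl
    intro x _
    rw [← Finset.sum_add_distrib]
    apply Finset.sum_congr rfl
    intro y _
    split_ifs <;> ring
  rw [e4, ← e3]
  rcases Nat.eq_zero_or_pos S.S.card with h | h
  · rw [h]; norm_num
  · have : (S.S.card : ℝ) ≠ 0 := by positivity
    field_simp
    ring

/-! ### Connectivity -/

omit [Group Γ] in
theorem TransferA_reach_closed {G : SimpleGraph Γ} {T : Finset Γ}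
    (hT : ∀ x ∈ T, ∀ y, G.Adj x y → y ∈ T) {x y : Γ} (h : G.Reachable x y) (hx : x ∈ T) :
    y ∈ T := by
  obtain ⟨p⟩ := h
  induction p with
  | nil => exact hx
  | cons h _ ih => exact ih (hT _ hx _ h)

omit [Group Γ] in
theorem TransferA_grow (G : SimpleGraph Γ) (A : Finset Γ) (x0 : Γ) (hx0 : x0 ∈ A)
    (hA : ∀ x ∈ A, G.Reachable x0 x) (hcl : ∀ x ∈ A, ∀ y, G.Adj x y → y ∈ A)
    (w : Γ → ℝ) (η : ℝ) (hη : ∀ x ∈ A, ∀ y ∈ A, G.Adj x y → |w x - w y| ≤ η) (hη0 : 0 ≤ η)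
    (k : ℕ) (hk : k + 1 ≤ A.card) :
    ∃ T ⊆ A, x0 ∈ T ∧ T.card = k + 1 ∧ ∀ x ∈ T, w x0 - k * η ≤ w x := by
  classical
  induction k with
  | zero =>
    refine ⟨{x0}, by simpa using hx0, by simp, by simp, ?_⟩
    intro x hx
    rw [Finset.mem_singleton] at hx
    subst hx
    simp
  | succ k ih =>
    obtain ⟨T, hTA, hxT, hTc, hTw⟩ := ih (by omega)
    have hex : ∃ x ∈ T, ∃ y, G.Adj x y ∧ y ∉ T := by
      by_contra hcon
      push Not at hcon
      have : A ⊆ T := by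
        intro y hy
        exact TransferA_reach_closed (fun x hx y hxy => hcon x hx y hxy) (hA y hy) hxT
      have := Finset.card_le_card this
      omega
    obtain ⟨x, hx, y, hxy, hy⟩ := hex
    have hyA : y ∈ A := hcl x (hTA hx) y hxy
    refine ⟨insert y T, ?_, Finset.mem_insert_of_mem hxT, ?_, ?_⟩
    · intro z hz
      rcases Finset.mem_insert.1 hz with rfl | hz
      · exact hyA
      · exact hTA hz
    · rw [Finset.card_insert_of_notMem hy, hTc]
    · intro z hz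
      push_cast
      rcases Finset.mem_insert.1 hz with rfl | hz
      · have h1 := hTw x hx
        have h2 := abs_le.1 (hη x (hTA hx) z hyA hxy)
        linarith [h2.2]
      · have h1 := hTw z hz
        linarith

/-- the bound of the maximum of the resolvent kernel -/
theorem TransferA_max (S : GenSet Γ) (ω : Cfg Γ) (A : Finset Γ) (y0 : Γ) (hy0 : y0 ∈ A)
    (hA : ∀ x, x ∈ A ↔ (og S ω).Reachable y0 x) {ρ : ℝ} (hρ : 1 / 2 ≤ ρ) (hρ1 : ρ < 1)
    (ℓ : ℕ) (hℓ : ℓ + 1 ≤ A.card) (w : Γ → ℝ) (hw0 : ∀ x, 0 ≤ w x) (hw1 : ∑ x ∈ A, w x ≤ 1)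
    (hform : ∑ x ∈ A, w x * (w x - ρ * Qop S ω w x) ≤ 1 - ρ) (x : Γ) (hx : x ∈ A) :
    w x ≤ 1 / (ℓ + 1) + ℓ * Real.sqrt (4 * S.S.card * (1 - ρ)) := by
  classical
  have hcl : ∀ x ∈ A, ∀ y, (og S ω).Adj x y → y ∈ A := by
    intro x hx y hxy
    exact (hA y).2 (((hA x).1 hx).trans hxy.reachable)
  have hη : ∀ x ∈ A, ∀ y ∈ A, (og S ω).Adj x y →
      |w x - w y| ≤ Real.sqrt (4 * S.S.card * (1 - ρ)) := by
    intro a ha b hb hab
    have hD : 0 < S.S.card := Finset.card_pos.2 ⟨a⁻¹ * b, hab.1⟩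
    have hD' : (0 : ℝ) < S.S.card := by exact_mod_cast hD
    have e1 : ∑ x ∈ A, w x * (w x - ρ * Qop S ω w x) =
        (1 - ρ) * ∑ x ∈ A, w x ^ 2 + ρ * ∑ x ∈ A, w x * (w x - Qop S ω w x) := by
      rw [Finset.mul_sum, Finset.mul_sum, ← Finset.sum_add_distrib]
      apply Finset.sum_congr rfl
      intro x _
      ring
    have e2 : 0 ≤ (1 - ρ) * ∑ x ∈ A, w x ^ 2 :=
      mul_nonneg (by linarith) (Finset.sum_nonneg (fun x _ => sq_nonneg _))
    have e3 := TransferA_form S ω A hcl w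
    have hnn : ∀ x ∈ A, 0 ≤ ∑ y ∈ A, (if (og S ω).Adj x y then (w x - w y) ^ 2 else 0) := by
      intro x _
      apply Finset.sum_nonneg
      intro y _
      split_ifs
      · exact sq_nonneg _
      · exact le_rfl
    have e4 : 2 * (w a - w b) ^ 2 ≤
        ∑ x ∈ A, ∑ y ∈ A, (if (og S ω).Adj x y then (w x - w y) ^ 2 else 0) := by
      have s1 : ∑ x ∈ ({a, b} : Finset Γ),
          ∑ y ∈ A, (if (og S ω).Adj x y then (w x - w y) ^ 2 else 0) ≤
          ∑ x ∈ A, ∑ y ∈ A, (if (og S ω).Adj x y then (w x - w y) ^ 2 else 0) := by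
        apply Finset.sum_le_sum_of_subset_of_nonneg
        · intro z hz
          rcases Finset.mem_insert.1 hz with rfl | hz
          · exact ha
          · rw [Finset.mem_singleton.1 hz]; exact hb
        · intro x hx _
          exact hnn x hx
      rw [Finset.sum_pair hab.ne] at s1
      have s2 : ∀ c ∈ A, ∀ d ∈ A, (og S ω).Adj c d → (w c - w d) ^ 2 ≤
          ∑ y ∈ A, (if (og S ω).Adj c y then (w c - w y) ^ 2 else 0) := by
        intro c _ d hd hcd
        have := Finset.single_le_sum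
          (f := fun y => if (og S ω).Adj c y then (w c - w y) ^ 2 else 0) (s := A) (a := d)
          (fun y _ => by
            show 0 ≤ (if (og S ω).Adj c y then (w c - w y) ^ 2 else 0)
            split_ifs
            · exact sq_nonneg _
            · exact le_rfl) hd
        simpa [hcd] using this
      have s3 := s2 a ha b hb hab
      have s4 := s2 b hb a ha hab.symm
      have s5 : (w b - w a) ^ 2 = (w a - w b) ^ 2 := by ring
      linarith
    have e5 : 0 ≤ ∑ x ∈ A, w x * (w x - Qop S ω w x) := by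
      rw [e3]
      apply mul_nonneg (by positivity)
      linarith [sq_nonneg (w a - w b)]
    have e6 : (1 / (4 * S.S.card : ℝ)) * (2 * (w a - w b) ^ 2) ≤
        ∑ x ∈ A, w x * (w x - Qop S ω w x) := by
      rw [e3]
      exact mul_le_mul_of_nonneg_left e4 (by positivity)
    have e7 : 1 / 2 * ∑ x ∈ A, w x * (w x - Qop S ω w x) ≤
        ρ * ∑ x ∈ A, w x * (w x - Qop S ω w x) := mul_le_mul_of_nonneg_right hρ e5
    have e8 : (1 / (4 * S.S.card : ℝ)) * (w a - w b) ^ 2 ≤ 1 - ρ := by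
      rw [e1] at hform
      nlinarith
    have e9 : (w a - w b) ^ 2 ≤ 4 * S.S.card * (1 - ρ) := by
      have := mul_le_mul_of_nonneg_left e8 (show (0 : ℝ) ≤ 4 * S.S.card by positivity)
      calc (w a - w b) ^ 2 = 4 * S.S.card * ((1 / (4 * S.S.card : ℝ)) * (w a - w b) ^ 2) := by
            field_simp
        _ ≤ _ := this
    exact Real.abs_le_sqrt e9
  obtain ⟨m, hm, hmax⟩ := Finset.exists_max_image A w ⟨y0, hy0⟩
  obtain ⟨T, hTA, _, hTc, hTw⟩ := TransferA_grow (og S ω) A m hm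
    (fun z hz => ((hA m).1 hm).symm.trans ((hA z).1 hz)) hcl w _ hη (Real.sqrt_nonneg _) ℓ hℓ
  have h1 : ∑ z ∈ T, (w m - ℓ * Real.sqrt (4 * S.S.card * (1 - ρ))) ≤ ∑ z ∈ T, w z :=
    Finset.sum_le_sum hTw
  have h2 : ∑ z ∈ T, w z ≤ ∑ z ∈ A, w z :=
    Finset.sum_le_sum_of_subset_of_nonneg hTA (fun z _ _ => hw0 z)
  rw [Finset.sum_const, hTc, nsmul_eq_mul] at h1
  push_cast at h1
  have h3 : ((ℓ : ℝ) + 1) * (w m - ℓ * Real.sqrt (4 * S.S.card * (1 - ρ))) ≤ 1 := by linarith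
  have hpos : (0 : ℝ) < ℓ + 1 := by positivity
  have h4 : w m - ℓ * Real.sqrt (4 * S.S.card * (1 - ρ)) ≤ 1 / (ℓ + 1) := by
    rw [le_div_iff₀ hpos]
    linarith
  linarith [hmax x hx]

/-! ### Locality -/

theorem TransferA_og_vw (S : GenSet Γ) (g x y : Γ) (ω : Cfg Γ) :
    (og S (vw g ω)).Adj x y ↔ (og S ω).Adj (g * x) (g * y) := by
  simp [og, vw, GenSet.cay, mul_inv_rev, mul_assoc]

theorem TransferA_dle_vw (S : GenSet Γ) (n : ℕ) (g x y : Γ) (ω : Cfg Γ)
    (h : dle (og S (vw g ω)) n x y) : dle (og S ω) n (g * x) (g * y) := by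
  obtain ⟨p, hp⟩ := h
  let φ : (og S (vw g ω)) →g (og S ω) :=
    ⟨fun z => g * z, fun {a b} hab => (TransferA_og_vw S g a b ω).1 hab⟩
  exact ⟨p.map φ, by rw [SimpleGraph.Walk.length_map]; exact hp⟩

theorem TransferA_ball (S : GenSet Γ) (ω : Cfg Γ) {x y : Γ} (p : (og S ω).Walk x y) (n : ℕ)
    (hp : p.length ≤ n) : x⁻¹ * y ∈ S.ball n := by
  classical
  unfold GenSet.ball
  induction p generalizing n with
  | nil =>
    rw [inv_mul_cancel]
    exact Finset.one_mem_pow (Finset.mem_insert_self 1 S.S)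
  | @cons u v w h q ih =>
    rw [SimpleGraph.Walk.length_cons] at hp
    obtain ⟨m, rfl⟩ : ∃ m, n = m + 1 := ⟨n - 1, by omega⟩
    have h1 := ih m (by omega)
    have h2 : u⁻¹ * w = (u⁻¹ * v) * (v⁻¹ * w) := by group
    rw [h2, pow_succ']
    exact Finset.mul_mem_mul (Finset.mem_insert_of_mem h.1) h1

theorem TransferA_card (S : GenSet Γ) (ω : Cfg Γ) (A : Finset Γ) (y0 : Γ) (R : ℕ) :
    open Classical in
    (A.filter (fun x => dle (og S ω) R x y0)).card ≤ S.q R := by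
  classical
  unfold GenSet.q
  apply Finset.card_le_card_of_injOn (fun x => x⁻¹ * y0)
  · intro x hx
    have hx := (Finset.mem_filter.1 (Finset.mem_coe.1 hx)).2
    obtain ⟨p, hp⟩ := hx
    exact Finset.mem_coe.2 (TransferA_ball S ω p R hp)
  · intro a _ b _ hab
    have : a⁻¹ * y0 = b⁻¹ * y0 := hab
    simpa using this

theorem TransferA_local (S : GenSet Γ) (ω ω' : Cfg Γ) (A : Finset Γ) (y0 y1 : Γ)
    (hA : ∀ x, x ∈ A ↔ (og S ω).Reachable y0 x)
    (h1 : ∀ x ∈ A, ∀ y, (og S ω').Adj x y ↔ ((og S ω).Adj x y ∨ (x = y0 ∧ y = y1)))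
    {R : ℕ} {F : Set (Cfg Γ)} (hF : IsLoc S R F) (x : Γ) (hx : x ∈ A)
    (hR : ¬ dle (og S ω) R x y0) : (vw x ω ∈ F ↔ vw x ω' ∈ F) := by
  apply hF
  intro a b ha
  have h2 := TransferA_dle_vw S R x 1 a ω ha
  rw [mul_one] at h2
  rw [TransferA_og_vw, TransferA_og_vw]
  have h3 : x * a ∈ A := by
    obtain ⟨p, _⟩ := h2
    exact (hA _).2 (((hA x).1 hx).trans p.reachable)
  rw [h1 _ h3]
  constructor
  · intro h; exact Or.inl h
  · rintro (h | ⟨h, _⟩)
    · exact h
    · exact absurd (h ▸ h2) hR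

/-! ### The transfer theorem -/

theorem TransferA_iter_symm (S : GenSet Γ) (ω : Cfg Γ) (A : Finset Γ)
    (hA : ∀ x ∈ A, ∀ y, (og S ω).Adj x y → y ∈ A) (u v : Γ → ℝ) (j : ℕ) :
    ∑ x ∈ A, ((Qop S ω)^[j] u) x * v x = ∑ x ∈ A, u x * ((Qop S ω)^[j] v) x := by
  induction j generalizing v with
  | zero => rfl
  | succ j ih =>
    rw [Function.iterate_succ_apply']
    rw [← TransferA_symm S ω A hA ((Qop S ω)^[j] u) v, ih]
    rfl

theorem TransferA_gav_bd (S : GenSet Γ) (ω : Cfg Γ) {ρ : ℝ} (hρ : 0 ≤ ρ) (hρ1 : ρ < 1) (L : ℕ)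
    {f : Γ → ℝ} (h0 : ∀ x, 0 ≤ f x) (h1 : ∀ x, f x ≤ 1) (x : Γ) :
    0 ≤ (1 - ρ) * ∑ j ∈ Finset.range L, ρ ^ j * ((Qop S ω)^[j] f) x ∧
      (1 - ρ) * ∑ j ∈ Finset.range L, ρ ^ j * ((Qop S ω)^[j] f) x ≤ 1 := by
  constructor
  · apply mul_nonneg (by linarith)
    apply Finset.sum_nonneg
    intro j _
    exact mul_nonneg (pow_nonneg hρ j) (TransferA_iter_bd S ω h0 h1 j x).1
  · have h2 : ∑ j ∈ Finset.range L, ρ ^ j * ((Qop S ω)^[j] f) x ≤
        ∑ j ∈ Finset.range L, ρ ^ j := by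
      apply Finset.sum_le_sum
      intro j _
      have := mul_le_mul_of_nonneg_left (TransferA_iter_bd S ω h0 h1 j x).2 (pow_nonneg hρ j)
      linarith
    have h3 := mul_le_mul_of_nonneg_left h2 (show 0 ≤ 1 - ρ by linarith)
    have h4 : (1 - ρ) * ∑ j ∈ Finset.range L, ρ ^ j = 1 - ρ ^ L := by
      have := mul_geom_sum ρ L
      linarith
    have h5 := pow_nonneg hρ L
    linarith

/-- the operator after the surgery, at the vertices of `A` -/
theorem TransferA_QA (S : GenSet Γ) (ω ω' : Cfg Γ) (A : Finset Γ) (y0 y1 : Γ)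
    (hcl : ∀ x ∈ A, ∀ y, (og S ω).Adj x y → y ∈ A) (hy1 : y1 ∉ A)
    (h1 : ∀ x ∈ A, ∀ y, (og S ω').Adj x y ↔ ((og S ω).Adj x y ∨ (x = y0 ∧ y = y1)))
    (G : Γ → ℝ) (x : Γ) (hx : x ∈ A) :
    open Classical in
    Qop S ω' G x = Qop S ω G x +
      (if x = y0 then (1 / (2 * S.S.card : ℝ)) * (G y1 - G y0) else 0) := by
  classical
  rw [TransferA_Qop_eq S ω' x (insert y1 A) (fun y hy => by
    rcases (h1 x hx y).1 hy with h | h
    · exact Finset.mem_insert_of_mem (hcl x hx y h)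
    · rw [h.2]; exact Finset.mem_insert_self _ _) G,
    TransferA_Qop_eq S ω x A (hcl x hx) G, Finset.sum_insert hy1]
  have e1 : ∑ y ∈ A, (if (og S ω').Adj x y then G y - G x else 0) =
      ∑ y ∈ A, (if (og S ω).Adj x y then G y - G x else 0) := by
    apply Finset.sum_congr rfl
    intro y hy
    have : (og S ω').Adj x y ↔ (og S ω).Adj x y := by
      rw [h1 x hx y]
      constructor
      · rintro (h | ⟨_, h⟩)
        · exact h
        · exact absurd (h ▸ hy) hy1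
      · intro h; exact Or.inl h
    simp only [this]
  have e2 : (og S ω').Adj x y1 ↔ x = y0 := by
    rw [h1 x hx y1]
    constructor
    · rintro (h | ⟨h, _⟩)
      · exact absurd (hcl x hx _ h) hy1
      · exact h
    · intro h; exact Or.inr ⟨h, rfl⟩
  rw [e1]
  simp only [e2]
  split_ifs with h
  · subst h; ring
  · ring

/-- the flux through the edge `s(y0,y1)` -/
theorem TransferA_flux (S : GenSet Γ) (ω' : Cfg Γ) (B : Finset Γ) (y0 y1 : Γ)
    (hy0 : y0 ∉ B) (hy1 : y1 ∈ B) (hadj : (og S ω').Adj y1 y0)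
    (h2 : ∀ x ∈ B, ∀ y, (og S ω').Adj x y → (y ∈ B ∨ (x = y1 ∧ y = y0))) (G : Γ → ℝ) :
    ∑ x ∈ B, Qop S ω' G x = ∑ x ∈ B, G x + (1 / (2 * S.S.card : ℝ)) * (G y0 - G y1) := by
  classical
  have e0 : ∀ x ∈ B, Qop S ω' G x = G x + (1 / (2 * S.S.card : ℝ)) *
      ((if x = y1 then G y0 - G x else 0) +
        ∑ y ∈ B, (if (og S ω').Adj x y then G y - G x else 0)) := by
    intro x hx
    rw [TransferA_Qop_eq S ω' x (insert y0 B) (fun y hy => by
      rcases h2 x hx y hy with h | h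
      · exact Finset.mem_insert_of_mem h
      · rw [h.2]; exact Finset.mem_insert_self _ _) G, Finset.sum_insert hy0]
    have : (og S ω').Adj x y0 ↔ x = y1 := by
      constructor
      · intro h
        rcases h2 x hx y0 h with h | h
        · exact absurd h hy0
        · exact h.1
      · intro h; rw [h]; exact hadj
    simp only [this]
  rw [Finset.sum_congr rfl e0, Finset.sum_add_distrib, ← Finset.mul_sum, Finset.sum_add_distrib,
    Finset.sum_ite_eq' B y1 (fun x => G y0 - G x), if_pos hy1]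
  have e1 : ∑ x ∈ B, ∑ y ∈ B, (if (og S ω').Adj x y then G y - G x else 0) =
      - ∑ x ∈ B, ∑ y ∈ B, (if (og S ω').Adj x y then G y - G x else 0) := by
    conv_lhs => rw [Finset.sum_comm]
    rw [← Finset.sum_neg_distrib]
    apply Finset.sum_congr rfl
    intro x _
    rw [← Finset.sum_neg_distrib]
    apply Finset.sum_congr rfl
    intro y _
    simp only [(og S ω').adj_comm y x]
    split_ifs <;> ring
  have e2 : ∑ x ∈ B, ∑ y ∈ B, (if (og S ω').Adj x y then G y - G x else 0) = 0 := by linarith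
  rw [e2, add_zero]

theorem transfer (S : GenSet Γ) (ω ω' : Cfg Γ) (A B : Finset Γ) (y0 y1 : Γ) (hy0 : y0 ∈ A)
    (hy1 : y1 ∈ B) (hAB : Disjoint A B)
    (hA : ∀ x, x ∈ A ↔ (og S ω).Reachable y0 x)
    (h1 : ∀ x ∈ A, ∀ y, (og S ω').Adj x y ↔ ((og S ω).Adj x y ∨ (x = y0 ∧ y = y1)))
    (h2 : ∀ x ∈ B, ∀ y, (og S ω').Adj x y → (y ∈ B ∨ (x = y1 ∧ y = y0)))
    {R : ℕ} {F : Set (Cfg Γ)} (hF : IsLoc S R F) {ρ : ℝ} (hρ : 1 / 2 ≤ ρ) (hρ1 : ρ < 1)
    (L ℓ : ℕ) (hℓ : ℓ + 1 ≤ A.card) :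
    |gav S ρ L F ω' y0 - gav S ρ L F ω y0| ≤
      2 * ρ ^ L + (S.q R + 2 * B.card) *
        (1 / (ℓ + 1) + ℓ * Real.sqrt (4 * S.S.card * (1 - ρ))) := by
  classical
  have hρ0 : 0 ≤ ρ := by linarith
  have hρL := pow_nonneg hρ0 L
  have hcl : ∀ x ∈ A, ∀ y, (og S ω).Adj x y → y ∈ A := by
    intro x hx y hxy
    exact (hA y).2 (((hA x).1 hx).trans hxy.reachable)
  have hy1A : y1 ∉ A := fun h => Finset.disjoint_left.1 hAB h hy1
  have hy0B : y0 ∉ B := fun h => Finset.disjoint_left.1 hAB hy0 h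
  have hadj : (og S ω').Adj y1 y0 := ((h1 y0 hy0 y1).2 (Or.inr ⟨rfl, rfl⟩)).symm
  -- the functions
  set f : Γ → ℝ := fun y => if vw y ω ∈ F then 1 else 0 with hf
  set f' : Γ → ℝ := fun y => if vw y ω' ∈ F then 1 else 0 with hf'
  have hf0 : ∀ x, 0 ≤ f x := fun x => by simp only [hf]; split_ifs <;> norm_num
  have hf1 : ∀ x, f x ≤ 1 := fun x => by simp only [hf]; split_ifs <;> norm_num
  have hf'0 : ∀ x, 0 ≤ f' x := fun x => by simp only [hf']; split_ifs <;> norm_num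
  have hf'1 : ∀ x, f' x ≤ 1 := fun x => by simp only [hf']; split_ifs <;> norm_num
  set δ : Γ → ℝ := fun x => if x = y0 then 1 else 0 with hδ
  have hδ0 : ∀ x, 0 ≤ δ x := fun x => by simp only [hδ]; split_ifs <;> norm_num
  have hδ1 : ∀ x, δ x ≤ 1 := fun x => by simp only [hδ]; split_ifs <;> norm_num
  have hδs : ∀ v : Γ → ℝ, ∑ x ∈ A, δ x * v x = v y0 := by
    intro v
    simp only [hδ, ite_mul, one_mul, zero_mul]
    rw [Finset.sum_ite_eq' A y0 v, if_pos hy0]
  set w : Γ → ℝ := fun x => (1 - ρ) * ∑ j ∈ Finset.range L, ρ ^ j * ((Qop S ω)^[j] δ) x with hw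
  set G : Γ → ℝ := fun x => (1 - ρ) * ∑ j ∈ Finset.range L, ρ ^ j * ((Qop S ω')^[j] f') x with hG
  have hgav' : gav S ρ L F ω' y0 = G y0 := rfl
  have hgeo : (1 - ρ) * ∑ j ∈ Finset.range L, ρ ^ j = 1 - ρ ^ L := by
    have := mul_geom_sum ρ L
    linarith
  -- sums against w
  have hws : ∀ v : Γ → ℝ, ∑ x ∈ A, w x * v x =
      (1 - ρ) * ∑ j ∈ Finset.range L, ρ ^ j * ((Qop S ω)^[j] v) y0 := by
    intro v
    have e : ∀ x ∈ A, w x * v x =
        (1 - ρ) * ∑ j ∈ Finset.range L, ρ ^ j * (((Qop S ω)^[j] δ) x * v x) := by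
      intro x _
      simp only [hw]
      rw [mul_assoc, Finset.sum_mul]
      congr 1
      apply Finset.sum_congr rfl
      intro j _
      ring
    rw [Finset.sum_congr rfl e, ← Finset.mul_sum, Finset.sum_comm]
    congr 1
    apply Finset.sum_congr rfl
    intro j _
    rw [← Finset.mul_sum, TransferA_iter_symm S ω A hcl, hδs]
  have hgav : gav S ρ L F ω y0 = ∑ x ∈ A, w x * f x := (hws f).symm
  have hw01 : ∀ x, 0 ≤ w x ∧ w x ≤ 1 := fun x => TransferA_gav_bd S ω hρ0 hρ1 L hδ0 hδ1 x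
  have hG01 : ∀ x, 0 ≤ G x ∧ G x ≤ 1 := fun x => TransferA_gav_bd S ω' hρ0 hρ1 L hf'0 hf'1 x
  have hQ1 : ∀ j : ℕ, ∀ x, ((Qop S ω)^[j] (fun _ => (1 : ℝ))) x = 1 := by
    intro j
    induction j with
    | zero => intro x; rfl
    | succ j ih =>
      intro x
      rw [Function.iterate_succ_apply']
      have : (Qop S ω)^[j] (fun _ => (1 : ℝ)) = fun _ => (1 : ℝ) := funext ih
      rw [this]
      unfold Qop
      simp
  have hwsum : ∑ x ∈ A, w x ≤ 1 := by
    have := hws (fun _ => (1 : ℝ))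
    simp only [hQ1, mul_one] at this
    rw [this, hgeo]
    linarith
  -- the bound of w
  have hform : ∑ x ∈ A, w x * (w x - ρ * Qop S ω w x) ≤ 1 - ρ := by
    have e : ∀ x ∈ A, w x * (w x - ρ * Qop S ω w x) =
        (1 - ρ) * (δ x * w x) - (1 - ρ) * ρ ^ L * (w x * ((Qop S ω)^[L] δ) x) := by
      intro x _
      rw [TransferA_resolvent S ω ρ L δ x]
      ring
    rw [Finset.sum_congr rfl e, Finset.sum_sub_distrib, ← Finset.mul_sum, ← Finset.mul_sum, hδs]
    have h3 : 0 ≤ ∑ x ∈ A, w x * ((Qop S ω)^[L] δ) x := by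
      apply Finset.sum_nonneg
      intro x _
      exact mul_nonneg (hw01 x).1 (TransferA_iter_bd S ω hδ0 hδ1 L x).1
    have h4 : 0 ≤ (1 - ρ) * ρ ^ L * ∑ x ∈ A, w x * ((Qop S ω)^[L] δ) x :=
      mul_nonneg (mul_nonneg (by linarith) hρL) h3
    have h5 : (1 - ρ) * w y0 ≤ (1 - ρ) * 1 :=
      mul_le_mul_of_nonneg_left (hw01 y0).2 (by linarith)
    linarith
  set M : ℝ := 1 / (ℓ + 1) + ℓ * Real.sqrt (4 * S.S.card * (1 - ρ)) with hM
  have hM0 : 0 ≤ M := by
    rw [hM]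
    positivity
  have hwM : ∀ x ∈ A, w x ≤ M := fun x hx =>
    TransferA_max S ω A y0 hy0 hA hρ hρ1 ℓ hℓ w (fun z => (hw01 z).1) hwsum hform x hx
  -- flux
  set U : ℝ := ∑ x ∈ B, (f' x - ρ ^ L * ((Qop S ω')^[L] f') x - G x) with hU
  have hflux : ρ * ((1 / (2 * S.S.card : ℝ)) * (G y1 - G y0)) = (1 - ρ) * U := by
    have e1 : ∑ x ∈ B, (G x - ρ * Qop S ω' G x) =
        ∑ x ∈ B, (1 - ρ) * (f' x - ρ ^ L * ((Qop S ω')^[L] f') x) := by
      apply Finset.sum_congr rfl
      intro x _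
      exact TransferA_resolvent S ω' ρ L f' x
    have e2 := TransferA_flux S ω' B y0 y1 hy0B hy1 hadj h2 G
    have e3 : ∑ x ∈ B, (G x - ρ * Qop S ω' G x) =
        ∑ x ∈ B, G x - ρ * ∑ x ∈ B, Qop S ω' G x := by
      rw [Finset.mul_sum, ← Finset.sum_sub_distrib]
    have e4 : ∑ x ∈ B, (1 - ρ) * (f' x - ρ ^ L * ((Qop S ω')^[L] f') x) =
        (1 - ρ) * (U + ∑ x ∈ B, G x) := by
      rw [hU, ← Finset.mul_sum, ← Finset.sum_add_distrib]
      congr 1
      apply Finset.sum_congr rfl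
      intro x _
      ring
    rw [e3, e2, e4] at e1
    linarith
  have hUb : |U| ≤ 2 * B.card := by
    have : ∀ x ∈ B, |f' x - ρ ^ L * ((Qop S ω')^[L] f') x - G x| ≤ 2 := by
      intro x _
      have a1 := TransferA_iter_bd S ω' hf'0 hf'1 L x
      have a2 : ρ ^ L ≤ 1 := pow_le_one₀ hρ0 hρ1.le
      have a3 : 0 ≤ ρ ^ L * ((Qop S ω')^[L] f') x := mul_nonneg hρL a1.1
      have a4 : ρ ^ L * ((Qop S ω')^[L] f') x ≤ 1 := mul_le_one₀ a2 a1.1 a1.2
      rw [abs_le]
      constructor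
      · linarith [hf'0 x, (hG01 x).2]
      · linarith [hf'1 x, (hG01 x).1]
    calc |U| ≤ ∑ x ∈ B, |f' x - ρ ^ L * ((Qop S ω')^[L] f') x - G x| :=
          Finset.abs_sum_le_sum_abs _ _
      _ ≤ ∑ x ∈ B, (2 : ℝ) := Finset.sum_le_sum this
      _ = 2 * B.card := by rw [Finset.sum_const, nsmul_eq_mul]; ring
  -- the main identity
  set a : ℝ := ∑ x ∈ A, ((Qop S ω)^[L] δ) x * G x with ha
  set b : ℝ := ∑ x ∈ A, w x * ((Qop S ω')^[L] f') x with hb
  have hmain : G y0 - ∑ x ∈ A, w x * f x =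
      ρ ^ L * (a - b) + w y0 * U + ∑ x ∈ A, w x * (f' x - f x) := by
    have e1 : ∑ x ∈ A, w x * (G x - ρ * Qop S ω' G x) =
        (1 - ρ) * (∑ x ∈ A, w x * f' x - ρ ^ L * b) := by
      rw [hb, Finset.mul_sum, ← Finset.sum_sub_distrib, Finset.mul_sum]
      apply Finset.sum_congr rfl
      intro x _
      rw [TransferA_resolvent S ω' ρ L f' x]
      ring
    have e2 : ∑ x ∈ A, w x * (G x - ρ * Qop S ω' G x) =
        ∑ x ∈ A, w x * (G x - ρ * Qop S ω G x) -
          w y0 * (ρ * ((1 / (2 * S.S.card : ℝ)) * (G y1 - G y0))) := by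
      have : ∀ x ∈ A, w x * (G x - ρ * Qop S ω' G x) = w x * (G x - ρ * Qop S ω G x) -
          δ x * (w x * (ρ * ((1 / (2 * S.S.card : ℝ)) * (G y1 - G y0)))) := by
        intro x hx
        rw [TransferA_QA S ω ω' A y0 y1 hcl hy1A h1 G x hx]
        simp only [hδ]
        split_ifs <;> ring
      rw [Finset.sum_congr rfl this, Finset.sum_sub_distrib, hδs]
    have e3 : ∑ x ∈ A, w x * (G x - ρ * Qop S ω G x) =
        ∑ x ∈ A, (w x - ρ * Qop S ω w x) * G x := by
      have := TransferA_symm S ω A hcl w G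
      have l1 : ∑ x ∈ A, w x * (G x - ρ * Qop S ω G x) =
          ∑ x ∈ A, w x * G x - ρ * ∑ x ∈ A, w x * Qop S ω G x := by
        rw [Finset.mul_sum, ← Finset.sum_sub_distrib]
        apply Finset.sum_congr rfl
        intro x _
        ring
      have l2 : ∑ x ∈ A, (w x - ρ * Qop S ω w x) * G x =
          ∑ x ∈ A, w x * G x - ρ * ∑ x ∈ A, Qop S ω w x * G x := by
        rw [Finset.mul_sum, ← Finset.sum_sub_distrib]
        apply Finset.sum_congr rfl
        intro x _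
        ring
      rw [l1, l2, this]
    have e4 : ∑ x ∈ A, (w x - ρ * Qop S ω w x) * G x = (1 - ρ) * (G y0 - ρ ^ L * a) := by
      have : ∀ x ∈ A, (w x - ρ * Qop S ω w x) * G x =
          (1 - ρ) * (δ x * G x) - (1 - ρ) * ρ ^ L * (((Qop S ω)^[L] δ) x * G x) := by
        intro x _
        rw [TransferA_resolvent S ω ρ L δ x]
        ring
      rw [Finset.sum_congr rfl this, Finset.sum_sub_distrib, ← Finset.mul_sum, ← Finset.mul_sum,
        hδs, ha]
      ring
    rw [e2, e3, e4, hflux] at e1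
    have e5 : G y0 - ρ ^ L * a - w y0 * U = ∑ x ∈ A, w x * f' x - ρ ^ L * b := by
      have hne : (1 - ρ) ≠ 0 := by
        intro h
        linarith
      apply mul_left_cancel₀ hne
      linarith
    have e6 : ∑ x ∈ A, w x * (f' x - f x) = ∑ x ∈ A, w x * f' x - ∑ x ∈ A, w x * f x := by
      rw [← Finset.sum_sub_distrib]
      apply Finset.sum_congr rfl
      intro x _
      ring
    rw [e6]
    linarith
  -- bounds
  have ha01 : 0 ≤ a ∧ a ≤ 1 := by
    constructor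
    · rw [ha]
      apply Finset.sum_nonneg
      intro x _
      exact mul_nonneg (TransferA_iter_bd S ω hδ0 hδ1 L x).1 (hG01 x).1
    · rw [ha, TransferA_iter_symm S ω A hcl, hδs]
      exact (TransferA_iter_bd S ω (fun x => (hG01 x).1) (fun x => (hG01 x).2) L y0).2
  have hb01 : 0 ≤ b ∧ b ≤ 1 := by
    constructor
    · rw [hb]
      apply Finset.sum_nonneg
      intro x _
      exact mul_nonneg (hw01 x).1 (TransferA_iter_bd S ω' hf'0 hf'1 L x).1
    · rw [hb]
      calc ∑ x ∈ A, w x * ((Qop S ω')^[L] f') x ≤ ∑ x ∈ A, w x := by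
            apply Finset.sum_le_sum
            intro x _
            have := mul_le_mul_of_nonneg_left (TransferA_iter_bd S ω' hf'0 hf'1 L x).2 (hw01 x).1
            linarith
        _ ≤ 1 := hwsum
  have hloc : |∑ x ∈ A, w x * (f' x - f x)| ≤ S.q R * M := by
    calc |∑ x ∈ A, w x * (f' x - f x)| ≤ ∑ x ∈ A, |w x * (f' x - f x)| :=
          Finset.abs_sum_le_sum_abs _ _
      _ ≤ ∑ x ∈ A, (if dle (og S ω) R x y0 then M else 0) := by
          apply Finset.sum_le_sum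
          intro x hx
          split_ifs with hd
          · rw [abs_mul, abs_of_nonneg (hw01 x).1]
            have : |f' x - f x| ≤ 1 := by
              rw [abs_le]
              constructor
              · linarith [hf'0 x, hf1 x]
              · linarith [hf'1 x, hf0 x]
            calc w x * |f' x - f x| ≤ w x * 1 := mul_le_mul_of_nonneg_left this (hw01 x).1
              _ ≤ M := by rw [mul_one]; exact hwM x hx
          · have := TransferA_local S ω ω' A y0 y1 hA h1 hF x hx hd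
            have : f' x = f x := by
              simp only [hf, hf', this]
            rw [this]
            simp
      _ = (A.filter (fun x => dle (og S ω) R x y0)).card * M := by
          rw [← Finset.sum_filter, Finset.sum_const, nsmul_eq_mul]
      _ ≤ S.q R * M := by
          apply mul_le_mul_of_nonneg_right _ hM0
          exact_mod_cast TransferA_card S ω A y0 R
  rw [hgav', hgav, hmain]
  have k1 : |ρ ^ L * (a - b)| ≤ ρ ^ L := by
    rw [abs_mul, abs_of_nonneg hρL]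
    have : |a - b| ≤ 1 := by
      rw [abs_le]
      constructor
      · linarith [ha01.1, hb01.2]
      · linarith [ha01.2, hb01.1]
    calc ρ ^ L * |a - b| ≤ ρ ^ L * 1 := mul_le_mul_of_nonneg_left this hρL
      _ = ρ ^ L := mul_one _
  have k2 : |w y0 * U| ≤ 2 * B.card * M := by
    rw [abs_mul, abs_of_nonneg (hw01 y0).1, mul_comm]
    exact mul_le_mul hUb (hwM y0 hy0) (hw01 y0).1 (by positivity)
  calc |ρ ^ L * (a - b) + w y0 * U + ∑ x ∈ A, w x * (f' x - f x)|
      ≤ |ρ ^ L * (a - b) + w y0 * U| + |∑ x ∈ A, w x * (f' x - f x)| := abs_add_le _ _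
    _ ≤ |ρ ^ L * (a - b)| + |w y0 * U| + |∑ x ∈ A, w x * (f' x - f x)| := by
        linarith [abs_add_le (ρ ^ L * (a - b)) (w y0 * U)]
    _ ≤ 2 * ρ ^ L + (S.q R + 2 * B.card) * M := by
        have : ((S.q R : ℝ) + 2 * B.card) * M = S.q R * M + 2 * B.card * M := by ring
        rw [this]
        linarith

end TransferA

end IICErg
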