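import Pool.Agent.Lib.MP_4c698b_pr.MTP
import Pool.Agent.Lib.MP_4c698b_pr.TransferA
import Pool.Agent.Lib.MP_4c698b_pr.AvgA

/-!
# MP_4c698b_pr, module AvgB: averages of local functions under `mu`
-/

open MeasureTheory Filter Topology
open scoped ENNReal Pointwise

namespace IICErg

variable {Γ : Type} [Group Γ]

/-- the edge from `1` to `s` is open and the event `E` changes along it -/
def AvgB_bs (S : GenSet Γ) (E : Set (Cfg Γ)) (s : Γ) : Set (Cfg Γ) :=
  {ω | (og S ω).Adj 1 s ∧ ¬ (vw s ω ∈ E ↔ ω ∈ E)}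

theorem AvgB_bs_meas (S : GenSet Γ) {E : Set (Cfg Γ)} (hE : MeasurableSet E) (s : Γ) :
    MeasurableSet (AvgB_bs S E s) := by
  have h1 : AvgB_bs S E s = {ω | (og S ω).Adj 1 s} ∩ symmDiff (vw s ⁻¹' E) E := by
    ext ω
    simp only [AvgB_bs, Set.mem_ofPred_eq, Set.mem_inter_iff, Set.mem_symmDiff, Set.mem_preimage]
    tauto
  rw [h1]
  exact (measurableSet_adj S 1 s).inter ((measurable_vw s hE).symmDiff hE)

theorem AvgB_bdry_eq (S : GenSet Γ) (E : Set (Cfg Γ)) (ω : Cfg Γ) :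
    (bdry S E ω : ℝ≥0∞) = ∑ s ∈ S.S, (AvgB_bs S E s).indicator 1 ω := by
  classical
  unfold bdry
  rw [Finset.card_filter]
  push_cast
  refine Finset.sum_congr rfl fun s _ => ?_
  by_cases h : (og S ω).Adj 1 s ∧ ¬ (vw s ω ∈ E ↔ ω ∈ E)
  · rw [if_pos h, Set.indicator_of_mem (show ω ∈ AvgB_bs S E s from h)]; rfl
  · rw [if_neg h, Set.indicator_of_notMem (show ω ∉ AvgB_bs S E s from h)]

theorem AvgB_bdry_meas (S : GenSet Γ) {E : Set (Cfg Γ)} (hE : MeasurableSet E) :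
    Measurable fun ω : Cfg Γ => (bdry S E ω : ℝ≥0∞) := by
  simp_rw [AvgB_bdry_eq]
  refine Finset.measurable_fun_sum _ fun s _ => ?_
  exact measurable_one.indicator (AvgB_bs_meas S hE s)

theorem AvgB_path (S : GenSet Γ) (E : Set (Cfg Γ)) (ω : Cfg Γ) (n : ℕ) (y : Γ)
    (hy : dle (og S ω) n 1 y) (hE : ¬ (vw y ω ∈ E ↔ ω ∈ E)) :
    ∃ x, dle (og S ω) n 1 x ∧ 1 ≤ bdry S E (vw x ω) := by
  induction n generalizing y with
  | zero =>
    obtain ⟨w, hw⟩ := hy
    have h1 : (1 : Γ) = y := SimpleGraph.Walk.eq_of_length_eq_zero (Nat.le_zero.mp hw)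
    rw [← h1, vw_one] at hE
    exact absurd Iff.rfl hE
  | succ n ih =>
    rcases (MTP_dle_succ _ _ _ _).1 hy with h | ⟨u, hu, hadj⟩
    · obtain ⟨x, hx, hb⟩ := ih y h hE
      exact ⟨x, dle_mono (Nat.le_succ n) hx, hb⟩
    · by_cases h : vw u ω ∈ E ↔ ω ∈ E
      · refine ⟨u, dle_mono (Nat.le_succ n) hu, ?_⟩
        unfold bdry
        rw [Nat.one_le_iff_ne_zero, ← Nat.pos_iff_ne_zero, Finset.card_pos]
        classical
        refine ⟨u⁻¹ * y, Finset.mem_filter.2 ⟨hadj.1, ?_, ?_⟩⟩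
        · rw [og_vw_adj, mul_one, mul_inv_cancel_left]; exact hadj
        · rw [vw_vw, mul_inv_cancel_left, h]; exact hE
      · obtain ⟨x, hx, hb⟩ := ih u hu h
        exact ⟨x, dle_mono (Nat.le_succ n) hx, hb⟩

/-- mass transport for neighbours -/
theorem AvgB_nbr (S : GenSet Γ) (p : unitInterval) (n : ℕ) {H : Cfg Γ → ℝ≥0∞}
    (hH : Measurable H) :
    ∑ s ∈ S.S, ∫⁻ ω, ({ω : Cfg Γ | (og S ω).Adj 1 s}.indicator (fun ω => H (vw s ω)) ω)
        ∂(mu S p n) =
      ∑ s ∈ S.S, ∫⁻ ω, ({ω : Cfg Γ | (og S ω).Adj 1 s}.indicator H ω) ∂(mu S p n) := by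
  classical
  have hm := mtp_mu S p n (fun x => ({ω : Cfg Γ | (og S ω).Adj 1 x} : Set (Cfg Γ)).indicator H)
    (fun x => hH.indicator (measurableSet_adj S 1 x))
  have h1 : ∀ x, ∫⁻ ω in {ω | (og S ω).Reachable 1 x},
      ({ω : Cfg Γ | (og S ω).Adj 1 x} : Set (Cfg Γ)).indicator H ω ∂(mu S p n) =
      ∫⁻ ω, ({ω : Cfg Γ | (og S ω).Adj 1 x}.indicator H ω) ∂(mu S p n) := by
    intro x
    rw [← lintegral_indicator (measurableSet_reach S 1 x)]
    refine lintegral_congr fun ω => ?_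
    rw [Set.indicator_indicator]
    congr 1
    ext ω'
    exact ⟨fun h => h.2, fun h => ⟨SimpleGraph.Adj.reachable h, h⟩⟩
  have h2 : ∀ x, ∫⁻ ω in {ω | (og S ω).Reachable 1 x},
      ({ω : Cfg Γ | (og S ω).Adj 1 x⁻¹} : Set (Cfg Γ)).indicator H (vw x ω) ∂(mu S p n) =
      ∫⁻ ω, ({ω : Cfg Γ | (og S ω).Adj 1 x}.indicator (fun ω => H (vw x ω)) ω) ∂(mu S p n) := by
    intro x
    rw [← lintegral_indicator (measurableSet_reach S 1 x)]
    refine lintegral_congr fun ω => ?_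
    by_cases h : (og S ω).Adj 1 x
    · have h' : vw x ω ∈ ({ω : Cfg Γ | (og S ω).Adj 1 x⁻¹} : Set (Cfg Γ)) := by
        show (og S (vw x ω)).Adj 1 x⁻¹
        rw [og_vw_adj, mul_one, mul_inv_cancel]
        exact h.symm
      rw [Set.indicator_of_mem (show ω ∈ {ω : Cfg Γ | (og S ω).Reachable 1 x} from
        SimpleGraph.Adj.reachable h), Set.indicator_of_mem h', Set.indicator_of_mem (by exact h)]
    · have h' : vw x ω ∉ ({ω : Cfg Γ | (og S ω).Adj 1 x⁻¹} : Set (Cfg Γ)) := by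
        show ¬ (og S (vw x ω)).Adj 1 x⁻¹
        rw [og_vw_adj, mul_one, mul_inv_cancel]
        exact fun h2 => h h2.symm
      rw [Set.indicator_of_notMem (show ω ∉ {ω : Cfg Γ | (og S ω).Adj 1 x} from h)]
      apply Set.indicator_apply_eq_zero.2
      intro _
      exact Set.indicator_of_notMem h' _
  simp_rw [h1, h2] at hm
  have h0 : ∀ x, x ∉ S.S → ({ω : Cfg Γ | (og S ω).Adj 1 x} : Set (Cfg Γ)) = ∅ := by
    intro x hx
    ext ω
    simp only [Set.mem_ofPred_eq, Set.mem_empty_iff_false, iff_false]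
    intro h
    apply hx
    have h2 : (1 : Γ)⁻¹ * x ∈ S.S := h.1
    rwa [inv_one, one_mul] at h2
  rw [tsum_eq_sum (s := S.S), tsum_eq_sum (s := S.S)] at hm
  · exact hm.symm
  · intro x hx
    rw [h0 x hx]
    simp
  · intro x hx
    rw [h0 x hx]
    simp

theorem AvgB_const (S : GenSet Γ) :
    ENNReal.ofReal (1 - (1 / (2 * S.S.card : ℝ)) * S.S.card) +
      ENNReal.ofReal (1 / (2 * S.S.card : ℝ)) * S.S.card = 1 := by
  obtain ⟨h0, h1⟩ := TransferA_coef S
  rw [show ((S.S.card : ℕ) : ℝ≥0∞) = ENNReal.ofReal (S.S.card : ℝ) from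
    (ENNReal.ofReal_natCast _).symm, ← ENNReal.ofReal_mul h0, ← ENNReal.ofReal_add]
  · simp
  · linarith
  · positivity

/-- the operator `𝒬` on functions of the configuration is a contraction in `L¹(mu)` -/
theorem AvgB_Q (S : GenSet Γ) (p : unitInterval) (n : ℕ) {h : Cfg Γ → ℝ} (hh : Measurable h) :
    ∫⁻ ω, ENNReal.ofReal |Qop S ω (fun y => h (vw y ω)) 1| ∂(mu S p n) ≤
      ∫⁻ ω, ENNReal.ofReal |h ω| ∂(mu S p n) := by
  classical
  obtain ⟨hc0, hc1⟩ := TransferA_coef S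
  set c : ℝ := 1 / (2 * S.S.card : ℝ) with hc
  let H : Cfg Γ → ℝ≥0∞ := fun ω => ENNReal.ofReal |h ω|
  have hH : Measurable H := hh.abs.ennreal_ofReal
  let A : Γ → Set (Cfg Γ) := fun s => {ω | (og S ω).Adj 1 s}
  have hA : ∀ s, MeasurableSet (A s) := fun s => measurableSet_adj S 1 s
  have hpt : ∀ ω, ENNReal.ofReal |Qop S ω (fun y => h (vw y ω)) 1| ≤
      ENNReal.ofReal (1 - c * S.S.card) * H ω + ENNReal.ofReal c *
        ∑ s ∈ S.S, ((A s).indicator (fun ω => H (vw s ω)) ω + (A s)ᶜ.indicator H ω) := by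
    intro ω
    have e1 : Qop S ω (fun y => h (vw y ω)) 1 = (1 - c * S.S.card) * h ω +
        c * ∑ s ∈ S.S, (if (og S ω).Adj 1 s then h (vw s ω) else h ω) := by
      unfold Qop
      beta_reduce
      rw [vw_one, ← hc]
      have : ∀ s ∈ S.S, (if (og S ω).Adj 1 s then h (vw s ω) else h ω) =
          (if (og S ω).Adj 1 (1 * s) then h (vw (1 * s) ω) - h ω else 0) + h ω := by
        intro s _
        rw [one_mul]
        split_ifs <;> ring
      rw [Finset.sum_congr rfl this, Finset.sum_add_distrib, Finset.sum_const, nsmul_eq_mul]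
      ring
    have e2 : |Qop S ω (fun y => h (vw y ω)) 1| ≤ (1 - c * S.S.card) * |h ω| +
        c * ∑ s ∈ S.S, (if (og S ω).Adj 1 s then |h (vw s ω)| else |h ω|) := by
      rw [e1]
      refine (abs_add_le _ _).trans ?_
      rw [abs_mul, abs_mul, abs_of_nonneg (show (0:ℝ) ≤ 1 - c * S.S.card by linarith),
        abs_of_nonneg hc0]
      gcongr
      refine (Finset.abs_sum_le_sum_abs _ _).trans (le_of_eq ?_)
      refine Finset.sum_congr rfl fun s _ => ?_
      split_ifs <;> rfl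
    refine (ENNReal.ofReal_le_ofReal e2).trans (le_of_eq ?_)
    rw [ENNReal.ofReal_add (mul_nonneg (by linarith) (abs_nonneg _))
      (mul_nonneg hc0 (Finset.sum_nonneg fun s _ => by split_ifs <;> exact abs_nonneg _)),
      ENNReal.ofReal_mul (by linarith), ENNReal.ofReal_mul hc0,
      ENNReal.ofReal_sum_of_nonneg (fun s _ => by split_ifs <;> exact abs_nonneg _)]
    congr 2
    refine Finset.sum_congr rfl fun s _ => ?_
    by_cases hs : (og S ω).Adj 1 s
    · have h1 : ω ∈ A s := hs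
      have h2 : ω ∉ (A s)ᶜ := fun h' => h' h1
      rw [if_pos hs, Set.indicator_of_mem h1, Set.indicator_of_notMem h2, add_zero]
    · have h1 : ω ∉ A s := hs
      have h2 : ω ∈ (A s)ᶜ := h1
      rw [if_neg hs, Set.indicator_of_notMem h1, Set.indicator_of_mem h2, zero_add]
  have hm1 : ∀ s, Measurable ((A s).indicator (fun ω => H (vw s ω))) := fun s =>
    (hH.comp (measurable_vw s)).indicator (hA s)
  have hm2 : ∀ s, Measurable ((A s)ᶜ.indicator H) := fun s => hH.indicator (hA s).compl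
  calc ∫⁻ ω, ENNReal.ofReal |Qop S ω (fun y => h (vw y ω)) 1| ∂(mu S p n)
      ≤ ∫⁻ ω, (ENNReal.ofReal (1 - c * S.S.card) * H ω + ENNReal.ofReal c *
        ∑ s ∈ S.S, ((A s).indicator (fun ω => H (vw s ω)) ω + (A s)ᶜ.indicator H ω))
          ∂(mu S p n) := lintegral_mono hpt
    _ = ENNReal.ofReal (1 - c * S.S.card) * ∫⁻ ω, H ω ∂(mu S p n) + ENNReal.ofReal c *
        (∑ s ∈ S.S, ∫⁻ ω, (A s).indicator (fun ω => H (vw s ω)) ω ∂(mu S p n) +
          ∑ s ∈ S.S, ∫⁻ ω, (A s)ᶜ.indicator H ω ∂(mu S p n)) := by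
        have hms : ∀ s ∈ S.S, Measurable fun ω =>
            (A s).indicator (fun ω => H (vw s ω)) ω + (A s)ᶜ.indicator H ω :=
          fun s _ => (hm1 s).add (hm2 s)
        rw [lintegral_add_left (hH.const_mul _), lintegral_const_mul _ hH, lintegral_const_mul _
          (Finset.measurable_fun_sum _ hms), lintegral_finsetSum _ hms, ← Finset.sum_add_distrib]
        congr 2
        exact Finset.sum_congr rfl fun s _ => lintegral_add_left (hm1 s) _
    _ = ENNReal.ofReal (1 - c * S.S.card) * ∫⁻ ω, H ω ∂(mu S p n) + ENNReal.ofReal c *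
        (∑ s ∈ S.S, ∫⁻ ω, (A s).indicator H ω ∂(mu S p n) +
          ∑ s ∈ S.S, ∫⁻ ω, (A s)ᶜ.indicator H ω ∂(mu S p n)) := by
        rw [AvgB_nbr S p n hH]
    _ = ENNReal.ofReal (1 - c * S.S.card) * ∫⁻ ω, H ω ∂(mu S p n) + ENNReal.ofReal c *
        (S.S.card * ∫⁻ ω, H ω ∂(mu S p n)) := by
        rw [← Finset.sum_add_distrib]
        have : ∀ s ∈ S.S, ∫⁻ ω, (A s).indicator H ω ∂(mu S p n) +
            ∫⁻ ω, (A s)ᶜ.indicator H ω ∂(mu S p n) = ∫⁻ ω, H ω ∂(mu S p n) := by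
          intro s _
          rw [lintegral_indicator (hA s), lintegral_indicator (hA s).compl,
            lintegral_add_compl _ (hA s)]
        rw [Finset.sum_congr rfl this, Finset.sum_const, nsmul_eq_mul]
    _ = ∫⁻ ω, H ω ∂(mu S p n) := by
        rw [← mul_assoc, ← add_mul, AvgB_const S, one_mul]

open Classical in
/-- the iterates of `𝒬` on the indicator of `F` -/
noncomputable def AvgB_u (S : GenSet Γ) (F : Set (Cfg Γ)) (j : ℕ) (ω : Cfg Γ) : ℝ :=
  ((Qop S ω)^[j] (fun y => if vw y ω ∈ F then 1 else 0)) 1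

open Classical in
theorem AvgB_u_vw (S : GenSet Γ) (F : Set (Cfg Γ)) (j : ℕ) (ω : Cfg Γ) (y : Γ) :
    ((Qop S ω)^[j] (fun y => if vw y ω ∈ F then 1 else 0)) y = AvgB_u S F j (vw y ω) := by
  unfold AvgB_u
  rw [AvgA_iter_vw S ω y (fun y => if vw y ω ∈ F then 1 else 0)
    (fun z => if vw z (vw y ω) ∈ F then 1 else 0) (fun z => by rw [vw_vw]), mul_one]

theorem AvgB_u_succ (S : GenSet Γ) (F : Set (Cfg Γ)) (j : ℕ) (ω : Cfg Γ) :
    AvgB_u S F (j + 1) ω = Qop S ω (fun y => AvgB_u S F j (vw y ω)) 1 := by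
  classical
  conv_lhs => rw [AvgB_u, Function.iterate_succ_apply']
  congr 1
  funext y
  exact AvgB_u_vw S F j ω y

theorem AvgB_u_meas (S : GenSet Γ) {F : Set (Cfg Γ)} (hF : MeasurableSet F) (j : ℕ) :
    Measurable (AvgB_u S F j) := AvgA_iter_meas S hF j 1

open Classical in
/-- indicator as a real function -/
noncomputable def AvgB_i (E : Set (Cfg Γ)) (ω : Cfg Γ) : ℝ := if ω ∈ E then 1 else 0

omit [Group Γ] in
theorem AvgB_i_meas {E : Set (Cfg Γ)} (hE : MeasurableSet E) : Measurable (AvgB_i E) := by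
  classical
  exact Measurable.ite hE measurable_const measurable_const

theorem AvgB_Qi (S : GenSet Γ) (E : Set (Cfg Γ)) (ω : Cfg Γ) :
    |Qop S ω (fun y => AvgB_i E (vw y ω)) 1 - AvgB_i E ω| ≤ bdry S E ω := by
  classical
  obtain ⟨hc0, hc1⟩ := TransferA_coef S
  unfold Qop
  beta_reduce
  rw [vw_one, add_sub_cancel_left, abs_mul, abs_of_nonneg hc0]
  have h1 : |∑ s ∈ S.S, (if (og S ω).Adj 1 (1 * s) then
      AvgB_i E (vw (1 * s) ω) - AvgB_i E ω else 0)| ≤ (bdry S E ω : ℝ) := by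
    refine (Finset.abs_sum_le_sum_abs _ _).trans ?_
    unfold bdry
    rw [Finset.card_filter]
    push_cast
    refine Finset.sum_le_sum fun s _ => ?_
    rw [one_mul]
    by_cases h1 : (og S ω).Adj 1 s
    · rw [if_pos h1]
      unfold AvgB_i
      by_cases h2 : vw s ω ∈ E <;> by_cases h3 : ω ∈ E <;> simp [h1, h2, h3]
    · rw [if_neg h1, if_neg (fun h => h1 h.1), abs_zero]
  have hc2 : (1 / (2 * S.S.card : ℝ)) ≤ 1 := by
    rcases Nat.eq_zero_or_pos S.S.card with h | h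
    · rw [h]; norm_num
    · have h' : (1 : ℝ) ≤ S.S.card := by exact_mod_cast h
      rw [div_le_one (by linarith)]
      linarith
  calc (1 / (2 * S.S.card : ℝ)) * _ ≤ 1 * _ := mul_le_mul_of_nonneg_right hc2 (abs_nonneg _)
    _ = _ := one_mul _
    _ ≤ _ := h1

theorem AvgB_step (S : GenSet Γ) (p : unitInterval) (n : ℕ) {F f2 : Set (Cfg Γ)}
    (hF : MeasurableSet F) (hf2 : MeasurableSet f2) (j : ℕ) :
    ∫⁻ ω, ENNReal.ofReal |AvgB_u S F j ω - AvgB_i f2 ω| ∂(mu S p n) ≤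
      mu S p n (symmDiff F f2) + j * ∫⁻ ω, (bdry S f2 ω : ℝ≥0∞) ∂(mu S p n) := by
  classical
  induction j with
  | zero =>
    rw [Nat.cast_zero, zero_mul, add_zero, ← lintegral_indicator_one (hF.symmDiff hf2)]
    refine lintegral_mono fun ω => ?_
    show ENNReal.ofReal |(if vw 1 ω ∈ F then 1 else 0) - (if ω ∈ f2 then 1 else 0)| ≤ _
    rw [vw_one]
    by_cases h1 : ω ∈ F <;> by_cases h2 : ω ∈ f2 <;>
      simp [h1, h2, Set.indicator, Set.mem_symmDiff]
  | succ j ih =>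
    have hu := AvgB_u_meas S hF j
    have hi := AvgB_i_meas hf2
    have hpt : ∀ ω, ENNReal.ofReal |AvgB_u S F (j + 1) ω - AvgB_i f2 ω| ≤
        ENNReal.ofReal |Qop S ω (fun y => (fun ω => AvgB_u S F j ω - AvgB_i f2 ω) (vw y ω)) 1| +
          (bdry S f2 ω : ℝ≥0∞) := by
      intro ω
      have e1 : AvgB_u S F (j + 1) ω - AvgB_i f2 ω =
          Qop S ω (fun y => (fun ω => AvgB_u S F j ω - AvgB_i f2 ω) (vw y ω)) 1 +
          (Qop S ω (fun y => AvgB_i f2 (vw y ω)) 1 - AvgB_i f2 ω) := by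
        rw [AvgB_u_succ]
        unfold Qop
        have : ∀ s ∈ S.S, (if (og S ω).Adj 1 (1 * s) then
            AvgB_u S F j (vw (1 * s) ω) - AvgB_u S F j (vw 1 ω) else 0) =
            (if (og S ω).Adj 1 (1 * s) then
              (AvgB_u S F j (vw (1 * s) ω) - AvgB_i f2 (vw (1 * s) ω)) -
              (AvgB_u S F j (vw 1 ω) - AvgB_i f2 (vw 1 ω)) else 0) +
            (if (og S ω).Adj 1 (1 * s) then
              AvgB_i f2 (vw (1 * s) ω) - AvgB_i f2 (vw 1 ω) else 0) := by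
          intro s _
          split_ifs <;> ring
        rw [Finset.sum_congr rfl this, Finset.sum_add_distrib]
        simp only [vw_one]
        ring
      rw [e1]
      have h2 := AvgB_Qi S f2 ω
      calc ENNReal.ofReal |_ + _| ≤ ENNReal.ofReal (|Qop S ω (fun y =>
            (fun ω => AvgB_u S F j ω - AvgB_i f2 ω) (vw y ω)) 1| + (bdry S f2 ω : ℝ)) :=
            ENNReal.ofReal_le_ofReal ((abs_add_le _ _).trans (by gcongr))
        _ = _ := by
            rw [ENNReal.ofReal_add (abs_nonneg _) (Nat.cast_nonneg _), ENNReal.ofReal_natCast]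
    calc ∫⁻ ω, ENNReal.ofReal |AvgB_u S F (j + 1) ω - AvgB_i f2 ω| ∂(mu S p n)
        ≤ ∫⁻ ω, (ENNReal.ofReal |Qop S ω (fun y =>
            (fun ω => AvgB_u S F j ω - AvgB_i f2 ω) (vw y ω)) 1| +
          (bdry S f2 ω : ℝ≥0∞)) ∂(mu S p n) := lintegral_mono hpt
      _ = ∫⁻ ω, ENNReal.ofReal |Qop S ω (fun y =>
            (fun ω => AvgB_u S F j ω - AvgB_i f2 ω) (vw y ω)) 1| ∂(mu S p n) +
          ∫⁻ ω, (bdry S f2 ω : ℝ≥0∞) ∂(mu S p n) :=
            lintegral_add_right _ (AvgB_bdry_meas S hf2)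
      _ ≤ ∫⁻ ω, ENNReal.ofReal |AvgB_u S F j ω - AvgB_i f2 ω| ∂(mu S p n) +
          ∫⁻ ω, (bdry S f2 ω : ℝ≥0∞) ∂(mu S p n) := by
            exact add_le_add (AvgB_Q S p n (h := fun ω => AvgB_u S F j ω - AvgB_i f2 ω)
              (hu.sub hi)) le_rfl
      _ ≤ _ := by
            refine (add_le_add ih le_rfl).trans (le_of_eq ?_)
            push_cast
            ring

/-- the function `g - 1_{f2}` in `L¹(mu)` -/
theorem AvgB_gav (S : GenSet Γ) (p : unitInterval) (n : ℕ) {F f2 : Set (Cfg Γ)}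
    (hF : MeasurableSet F) (hf2 : MeasurableSet f2) {ρ : ℝ} (hρ : 0 ≤ ρ) (hρ1 : ρ < 1) (L : ℕ) :
    ∫⁻ ω, ENNReal.ofReal |gav S ρ L F ω 1 - AvgB_i f2 ω| ∂(mu S p n) ≤
      mu S p n (symmDiff F f2) + L * ∫⁻ ω, (bdry S f2 ω : ℝ≥0∞) ∂(mu S p n) +
        ENNReal.ofReal (ρ ^ L) := by
  classical
  have hgeo : (1 - ρ) * ∑ j ∈ Finset.range L, ρ ^ j = 1 - ρ ^ L := mul_neg_geom_sum ρ L
  have hρL : 0 ≤ ρ ^ L := pow_nonneg hρ L
  have hc : ∀ j, 0 ≤ (1 - ρ) * ρ ^ j := fun j => mul_nonneg (by linarith) (pow_nonneg hρ j)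
  have hpt : ∀ ω, ENNReal.ofReal |gav S ρ L F ω 1 - AvgB_i f2 ω| ≤
      ∑ j ∈ Finset.range L, ENNReal.ofReal ((1 - ρ) * ρ ^ j) *
        ENNReal.ofReal |AvgB_u S F j ω - AvgB_i f2 ω| + ENNReal.ofReal (ρ ^ L) := by
    intro ω
    have e1 : gav S ρ L F ω 1 - AvgB_i f2 ω =
        ∑ j ∈ Finset.range L, ((1 - ρ) * ρ ^ j) * (AvgB_u S F j ω - AvgB_i f2 ω) -
          ρ ^ L * AvgB_i f2 ω := by
      have e2 : gav S ρ L F ω 1 = ∑ j ∈ Finset.range L, ((1 - ρ) * ρ ^ j) * AvgB_u S F j ω := by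
        unfold gav AvgB_u
        rw [Finset.mul_sum]
        exact Finset.sum_congr rfl fun j _ => by ring
      have e3 : ∑ j ∈ Finset.range L, ((1 - ρ) * ρ ^ j) * AvgB_i f2 ω =
          (1 - ρ ^ L) * AvgB_i f2 ω := by
        rw [← hgeo, Finset.mul_sum, Finset.sum_mul]
      simp only [mul_sub, Finset.sum_sub_distrib]
      rw [e2, e3]
      ring
    have hi : |ρ ^ L * AvgB_i f2 ω| ≤ ρ ^ L := by
      rw [abs_mul, abs_of_nonneg hρL]
      have : |AvgB_i f2 ω| ≤ 1 := by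
        unfold AvgB_i
        split_ifs <;> simp
      nlinarith
    have e4 : |gav S ρ L F ω 1 - AvgB_i f2 ω| ≤
        ∑ j ∈ Finset.range L, ((1 - ρ) * ρ ^ j) * |AvgB_u S F j ω - AvgB_i f2 ω| + ρ ^ L := by
      rw [e1]
      refine (abs_sub _ _).trans (add_le_add ?_ hi)
      refine (Finset.abs_sum_le_sum_abs _ _).trans (le_of_eq ?_)
      refine Finset.sum_congr rfl fun j _ => ?_
      rw [abs_mul, abs_of_nonneg (hc j)]
    refine (ENNReal.ofReal_le_ofReal e4).trans (le_of_eq ?_)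
    rw [ENNReal.ofReal_add (Finset.sum_nonneg fun j _ => mul_nonneg (hc j) (abs_nonneg _)) hρL,
      ENNReal.ofReal_sum_of_nonneg (fun j _ => mul_nonneg (hc j) (abs_nonneg _))]
    congr 1
    exact Finset.sum_congr rfl fun j _ => ENNReal.ofReal_mul (hc j)
  have hm : ∀ j ∈ Finset.range L, Measurable fun ω => ENNReal.ofReal ((1 - ρ) * ρ ^ j) *
      ENNReal.ofReal |AvgB_u S F j ω - AvgB_i f2 ω| := fun j _ =>
    (((AvgB_u_meas S hF j).sub (AvgB_i_meas hf2)).abs.ennreal_ofReal).const_mul _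
  set B : ℝ≥0∞ := ∫⁻ ω, (bdry S f2 ω : ℝ≥0∞) ∂(mu S p n) with hB
  calc ∫⁻ ω, ENNReal.ofReal |gav S ρ L F ω 1 - AvgB_i f2 ω| ∂(mu S p n)
      ≤ ∫⁻ ω, (∑ j ∈ Finset.range L, ENNReal.ofReal ((1 - ρ) * ρ ^ j) *
        ENNReal.ofReal |AvgB_u S F j ω - AvgB_i f2 ω| + ENNReal.ofReal (ρ ^ L)) ∂(mu S p n) :=
        lintegral_mono hpt
    _ = ∑ j ∈ Finset.range L, ENNReal.ofReal ((1 - ρ) * ρ ^ j) *
        ∫⁻ ω, ENNReal.ofReal |AvgB_u S F j ω - AvgB_i f2 ω| ∂(mu S p n) +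
          ENNReal.ofReal (ρ ^ L) * mu S p n Set.univ := by
        rw [lintegral_add_right _ measurable_const, lintegral_finsetSum _ hm, lintegral_const]
        congr 1
        refine Finset.sum_congr rfl fun j _ => ?_
        exact lintegral_const_mul _
          ((AvgB_u_meas S hF j).sub (AvgB_i_meas hf2)).abs.ennreal_ofReal
    _ ≤ ∑ j ∈ Finset.range L, ENNReal.ofReal ((1 - ρ) * ρ ^ j) *
        (mu S p n (symmDiff F f2) + L * B) + ENNReal.ofReal (ρ ^ L) * 1 := by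
        gcongr with j hj
        · refine (AvgB_step S p n hF hf2 j).trans ?_
          gcongr
          exact (Finset.mem_range.1 hj).le
        · exact mu_univ_le S p n
    _ ≤ 1 * (mu S p n (symmDiff F f2) + L * B) + ENNReal.ofReal (ρ ^ L) * 1 := by
        rw [← Finset.sum_mul]
        gcongr
        rw [← ENNReal.ofReal_sum_of_nonneg (fun j _ => hc j), ← Finset.mul_sum, hgeo]
        exact ENNReal.ofReal_le_one.2 (by linarith)
    _ = _ := by rw [one_mul, mul_one]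

theorem Aset_mu (S : GenSet Γ) (p : unitInterval) (n : ℕ) {f F f2 : Set (Cfg Γ)}
    (hf : MeasurableSet f) (hF : MeasurableSet F) (hf2 : MeasurableSet f2) (K : ℕ) {ρ : ℝ}
    (hρ : 0 ≤ ρ) (hρ1 : ρ < 1) (L : ℕ) :
    mu S p n (Aset S f K F ρ L) ≤
      mu S p n (symmDiff f f2) + S.q K * ∫⁻ ω, (bdry S f2 ω : ℝ≥0∞) ∂(mu S p n) +
        4 * S.q K * (mu S p n (symmDiff F f2) + L * ∫⁻ ω, (bdry S f2 ω : ℝ≥0∞) ∂(mu S p n) +
          ENNReal.ofReal (ρ ^ L)) := by
  classical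
  have hcount : Countable Γ := GenSet.countable S
  let G : Cfg Γ → ℝ≥0∞ := fun ω => ENNReal.ofReal |gav S ρ L F ω 1 - AvgB_i f2 ω|
  have hG : Measurable G :=
    ((AvgA_gav_meas S hF ρ L 1).sub (AvgB_i_meas hf2)).abs.ennreal_ofReal
  let D : Γ → Set (Cfg Γ) := fun x => {ω | dle (og S ω) K 1 x}
  have hD : ∀ x, MeasurableSet (D x) := fun x => measurableSet_dle S K 1 x
  have hb := AvgB_bdry_meas S hf2
  have hA := Aset_meas S hf hF K ρ L
  have hpt : ∀ ω, (Aset S f K F ρ L).indicator 1 ω ≤ (symmDiff f f2).indicator 1 ω +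
      ∑' x, (D x).indicator (fun ω => (bdry S f2 (vw x ω) : ℝ≥0∞)) ω +
      4 * ∑' x, (D x).indicator (fun ω => G (vw x ω)) ω := by
    intro ω
    by_cases hω : ω ∈ Aset S f K F ρ L
    swap
    · rw [Set.indicator_of_notMem hω]; exact zero_le
    rw [Set.indicator_of_mem hω, Pi.one_apply]
    by_cases h1 : ω ∈ symmDiff f f2
    · rw [Set.indicator_of_mem h1, Pi.one_apply, add_assoc]
      exact le_self_add
    obtain ⟨y, hy, hgy⟩ := hω
    by_cases h2 : vw y ω ∈ f2 ↔ ω ∈ f2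
    · have h3 : (if ω ∈ f then (1 : ℝ) else 0) = AvgB_i f2 (vw y ω) := by
        unfold AvgB_i
        rw [Set.mem_symmDiff] at h1
        have : ω ∈ f ↔ vw y ω ∈ f2 := by tauto
        simp only [this]
      have h4 : gav S ρ L F ω y = gav S ρ L F (vw y ω) 1 := by rw [gav_vw, mul_one]
      rw [h3, h4] at hgy
      have h5 : ENNReal.ofReal (1 / 4) ≤ G (vw y ω) := ENNReal.ofReal_le_ofReal hgy
      refine le_trans ?_ le_add_self
      calc (1 : ℝ≥0∞) = 4 * ENNReal.ofReal (1 / 4) := by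
            rw [show (4 : ℝ≥0∞) = ENNReal.ofReal 4 by simp, ← ENNReal.ofReal_mul (by norm_num)]
            norm_num
        _ ≤ 4 * G (vw y ω) := by gcongr
        _ = 4 * (D y).indicator (fun ω => G (vw y ω)) ω := by
            rw [Set.indicator_of_mem (show ω ∈ D y from hy)]
        _ ≤ _ := by gcongr; exact ENNReal.le_tsum y
    · obtain ⟨x, hx, hbx⟩ := AvgB_path S f2 ω K y hy h2
      refine le_trans ?_ le_self_add
      refine le_trans ?_ le_add_self
      calc (1 : ℝ≥0∞) ≤ (bdry S f2 (vw x ω) : ℝ≥0∞) := by exact_mod_cast hbx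
        _ = (D x).indicator (fun ω => (bdry S f2 (vw x ω) : ℝ≥0∞)) ω := by
            rw [Set.indicator_of_mem (show ω ∈ D x from hx)]
        _ ≤ _ := ENNReal.le_tsum x
  have hm1 : ∀ x, Measurable ((D x).indicator (fun ω => (bdry S f2 (vw x ω) : ℝ≥0∞))) :=
    fun x => (hb.comp (measurable_vw x)).indicator (hD x)
  have hm2 : ∀ x, Measurable ((D x).indicator (fun ω => G (vw x ω))) :=
    fun x => (hG.comp (measurable_vw x)).indicator (hD x)
  calc mu S p n (Aset S f K F ρ L)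
      = ∫⁻ ω, (Aset S f K F ρ L).indicator 1 ω ∂(mu S p n) := (lintegral_indicator_one hA).symm
    _ ≤ ∫⁻ ω, ((symmDiff f f2).indicator 1 ω +
      ∑' x, (D x).indicator (fun ω => (bdry S f2 (vw x ω) : ℝ≥0∞)) ω +
      4 * ∑' x, (D x).indicator (fun ω => G (vw x ω)) ω) ∂(mu S p n) := lintegral_mono hpt
    _ = mu S p n (symmDiff f f2) +
      ∑' x, ∫⁻ ω in D x, (bdry S f2 (vw x ω) : ℝ≥0∞) ∂(mu S p n) +
      4 * ∑' x, ∫⁻ ω in D x, G (vw x ω) ∂(mu S p n) := by
        rw [lintegral_add_right _ ((Measurable.tsum hm2).const_mul _),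
          lintegral_add_right _ (Measurable.tsum hm1),
          lintegral_const_mul _ (Measurable.tsum hm2),
          lintegral_tsum fun x => (hm1 x).aemeasurable,
          lintegral_tsum fun x => (hm2 x).aemeasurable,
          lintegral_indicator_one (hf.symmDiff hf2)]
        congr 1
        · congr 1
          exact tsum_congr fun x => lintegral_indicator (hD x) _
        · congr 1
          exact tsum_congr fun x => lintegral_indicator (hD x) _
    _ ≤ mu S p n (symmDiff f f2) + S.q K * ∫⁻ ω, (bdry S f2 ω : ℝ≥0∞) ∂(mu S p n) +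
      4 * (S.q K * ∫⁻ ω, G ω ∂(mu S p n)) := by
        gcongr
        · exact mu_view S p n K hb
        · exact mu_view S p n K hG
    _ ≤ _ := by
        rw [mul_assoc 4 (S.q K : ℝ≥0∞) _]
        gcongr
        exact AvgB_gav S p n hF hf2 hρ hρ1 L

end IICErg
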