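import Pool.Agent.Lib.MP_4c698b_pr.SDefs

/-!
# Module BasicA: graph distance, balls, change of viewpoint
-/

open MeasureTheory Filter Topology
open scoped ENNReal Pointwise

namespace IICErg

variable {Γ : Type} [Group Γ]

section BasicA

variable {V : Type} {G H : SimpleGraph V}

theorem dle_refl (G : SimpleGraph V) (n : ℕ) (x : V) : dle G n x x :=
  ⟨SimpleGraph.Walk.nil, by simp⟩

theorem dle_symm {n : ℕ} {x y : V} (h : dle G n x y) : dle G n y x := by
  obtain ⟨w, hw⟩ := h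
  exact ⟨w.reverse, by simpa using hw⟩

theorem dle_trans {m n : ℕ} {x y z : V} (h : dle G m x y) (h' : dle G n y z) :
    dle G (m + n) x z := by
  obtain ⟨w, hw⟩ := h
  obtain ⟨w', hw'⟩ := h'
  exact ⟨w.append w', by rw [SimpleGraph.Walk.length_append]; omega⟩

theorem dle_mono {m n : ℕ} (hmn : m ≤ n) {x y : V} (h : dle G m x y) : dle G n x y := by
  obtain ⟨w, hw⟩ := h
  exact ⟨w, hw.trans hmn⟩

theorem dle_of_adj {x y : V} (h : G.Adj x y) : dle G 1 x y :=
  ⟨h.toWalk, by simp⟩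

theorem dle_iff (G : SimpleGraph V) (n : ℕ) (x y : V) :
    dle G n x y ↔ G.Reachable x y ∧ G.dist x y ≤ n := by
  constructor
  · rintro ⟨w, hw⟩
    exact ⟨w.reachable, (SimpleGraph.dist_le w).trans hw⟩
  · rintro ⟨hr, hd⟩
    obtain ⟨w, hw⟩ := hr.exists_walk_length_eq_dist
    exact ⟨w, hw.le.trans hd⟩

theorem dle_le (h : G ≤ H) {n : ℕ} {x y : V} (hd : dle G n x y) : dle H n x y := by
  obtain ⟨w, hw⟩ := hd
  exact ⟨w.mapLe h, by simpa using hw⟩

/-- distances are determined by `dle` -/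
theorem BasicA_dist_eq {W : Type} {K : SimpleGraph W} {x y : V} {x' y' : W}
    (h : ∀ n, dle G n x y ↔ dle K n x' y') : G.dist x y = K.dist x' y' := by
  by_cases hr : G.Reachable x y
  · have h1 : dle K (G.dist x y) x' y' := (h _).mp ((dle_iff _ _ _ _).mpr ⟨hr, le_rfl⟩)
    have h1' := (dle_iff _ _ _ _).mp h1
    have h2 : dle G (K.dist x' y') x y := (h _).mpr ((dle_iff _ _ _ _).mpr ⟨h1'.1, le_rfl⟩)
    exact le_antisymm ((dle_iff _ _ _ _).mp h2).2 h1'.2
  · have hr' : ¬ K.Reachable x' y' := fun hc =>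
      hr ((dle_iff _ _ _ _).mp ((h _).mpr ((dle_iff _ _ _ _).mpr ⟨hc, le_rfl⟩))).1
    rw [SimpleGraph.dist_eq_zero_of_not_reachable hr,
      SimpleGraph.dist_eq_zero_of_not_reachable hr']

theorem BasicA_dle_iso {W : Type} {K : SimpleGraph W} (φ : G ≃g K) (n : ℕ) (x y : V) :
    dle G n x y ↔ dle K n (φ x) (φ y) := by
  constructor
  · rintro ⟨w, hw⟩
    exact ⟨w.map φ.toHom, by simpa using hw⟩
  · rintro ⟨w, hw⟩
    have h1 : dle G n (φ.symm (φ x)) (φ.symm (φ y)) := ⟨w.map φ.symm.toHom, by simpa using hw⟩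
    simpa using h1

theorem og_le (S : GenSet Γ) (ω : Cfg Γ) : og S ω ≤ S.cay := fun _ _ h => h.1

theorem cay_connected (S : GenSet Γ) : S.cay.Connected := by
  have key : ∀ x : Γ, ∀ g : Γ, S.cay.Reachable g (g * x) := by
    intro x
    have hx : x ∈ Subgroup.closure (S.S : Set Γ) := by rw [S.gen]; trivial
    induction hx using Subgroup.closure_induction with
    | mem s hs =>
      intro g
      refine SimpleGraph.Adj.reachable ?_
      show g⁻¹ * (g * s) ∈ S.S
      simpa using hs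
    | one => intro g; rw [mul_one]
    | mul x y _ _ hx hy =>
      intro g
      rw [← mul_assoc]
      exact (hx g).trans (hy (g * x))
    | inv x _ hx =>
      intro g
      have := hx (g * x⁻¹)
      rw [inv_mul_cancel_right] at this
      exact this.symm
  have hpre : S.cay.Preconnected := fun x y => by
    have := key (x⁻¹ * y) x
    rwa [mul_inv_cancel_left] at this
  exact ⟨hpre⟩

theorem GenSet.one_mem_ball (S : GenSet Γ) (n : ℕ) : (1 : Γ) ∈ S.ball n := by
  classical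
  unfold GenSet.ball
  induction n with
  | zero => rw [pow_zero]; exact Finset.mem_one.mpr rfl
  | succ n ih =>
    rw [pow_succ]
    exact Finset.mem_mul.mpr ⟨1, ih, 1, Finset.mem_insert_self _ _, one_mul _⟩

theorem GenSet.mem_ball (S : GenSet Γ) (n : ℕ) (x y : Γ) :
    x⁻¹ * y ∈ S.ball n ↔ dle S.cay n x y := by
  classical
  induction n generalizing x with
  | zero =>
    unfold GenSet.ball
    rw [pow_zero, Finset.mem_one]
    constructor
    · intro h
      have : x = y := by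
        rw [inv_mul_eq_one] at h
        exact h
      rw [this]
      exact dle_refl _ _ _
    · rintro ⟨w, hw⟩
      have h0 : w.length = 0 := Nat.le_zero.mp hw
      have := SimpleGraph.Walk.eq_of_length_eq_zero h0
      rw [this, inv_mul_cancel]
  | succ n ih =>
    have hball : S.ball (n + 1) = insert 1 S.S * S.ball n := by
      unfold GenSet.ball
      rw [pow_succ']
    constructor
    · rw [hball, Finset.mem_mul]
      rintro ⟨s, hs, b, hb, hsb⟩
      have h1 : (x * s)⁻¹ * y = b := by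
        rw [mul_inv_rev, mul_assoc, ← hsb, inv_mul_cancel_left]
      have h2 : dle S.cay n (x * s) y := (ih (x * s)).mp (by rw [h1]; exact hb)
      rcases Finset.mem_insert.mp hs with rfl | hs
      · rw [mul_one] at h2
        exact dle_mono (Nat.le_succ n) h2
      · have h3 : dle S.cay 1 x (x * s) := by
          refine dle_of_adj ?_
          show x⁻¹ * (x * s) ∈ S.S
          rwa [inv_mul_cancel_left]
        have := dle_trans h3 h2
        rwa [add_comm] at this
    · rintro ⟨w, hw⟩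
      cases w with
      | nil =>
        rw [inv_mul_cancel]
        exact S.one_mem_ball _
      | cons h w' =>
        rename_i z
        rw [hball, Finset.mem_mul]
        refine ⟨x⁻¹ * z, Finset.mem_insert_of_mem h, z⁻¹ * y, (ih z).mpr ⟨w', ?_⟩, by group⟩
        rw [SimpleGraph.Walk.length_cons] at hw
        omega

theorem GenSet.ball_mono (S : GenSet Γ) {m n : ℕ} (h : m ≤ n) : S.ball m ⊆ S.ball n := by
  intro x hx
  have h1 : (1 : Γ)⁻¹ * x ∈ S.ball m := by simpa using hx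
  have := (S.mem_ball n 1 x).mpr (dle_mono h ((S.mem_ball m 1 x).mp h1))
  simpa using this

theorem GenSet.q_mono (S : GenSet Γ) {m n : ℕ} (h : m ≤ n) : S.q m ≤ S.q n :=
  Finset.card_le_card (S.ball_mono h)

theorem GenSet.countable (S : GenSet Γ) : Countable Γ := by
  have h : (Set.univ : Set Γ) = ⋃ n : ℕ, (S.ball n : Set Γ) := by
    refine (Set.eq_univ_of_forall fun x => ?_).symm
    rw [Set.mem_iUnion]
    obtain ⟨w⟩ := (cay_connected S).preconnected 1 x
    refine ⟨w.length, ?_⟩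
    have := (S.mem_ball w.length 1 x).mpr ⟨w, le_rfl⟩
    simpa using this
  rw [← Set.countable_univ_iff, h]
  exact Set.countable_iUnion fun n => (Finset.finite_toSet _).countable

theorem ball_of_dle {S : GenSet Γ} {ω : Cfg Γ} {n : ℕ} {x y : Γ} (h : dle (og S ω) n x y) :
    x⁻¹ * y ∈ S.ball n :=
  (S.mem_ball n x y).mpr (dle_le (og_le S ω) h)

theorem far_iff (S : GenSet Γ) (n : ℕ) (ω : Cfg Γ) (x : Γ) :
    far S n ω x ↔ ∃ y, (og S ω).Reachable x y ∧ n ≤ S.cay.dist x y := by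
  constructor
  · rintro ⟨y, hy, hd⟩
    exact ⟨y, hy, hd.ge⟩
  · rintro ⟨y, ⟨w⟩, hd⟩
    have key : ∀ (k : ℕ), k ≤ w.length → (n ≤ S.cay.dist x (w.getVert k)) →
        ∃ z, (og S ω).Reachable x z ∧ S.cay.dist x z = n := by
      intro k
      induction k with
      | zero =>
        intro _ h0
        rw [SimpleGraph.Walk.getVert_zero, SimpleGraph.dist_self] at h0
        refine ⟨x, SimpleGraph.Reachable.refl _, ?_⟩
        rw [SimpleGraph.dist_self]
        omega
      | succ k ih =>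
        intro hk h0
        by_cases h1 : n ≤ S.cay.dist x (w.getVert k)
        · exact ih (by omega) h1
        · refine ⟨w.getVert (k + 1), ⟨w.take (k + 1)⟩, ?_⟩
          have hadj : (og S ω).Adj (w.getVert k) (w.getVert (k + 1)) :=
            w.adj_getVert_succ (by omega)
          have hadj' : S.cay.Adj (w.getVert k) (w.getVert (k + 1)) := og_le S ω hadj
          have h2 := (cay_connected S).dist_triangle (u := x) (v := w.getVert k)
            (w := w.getVert (k + 1))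
          have h3 : S.cay.dist (w.getVert k) (w.getVert (k + 1)) = 1 :=
            SimpleGraph.dist_eq_one_iff_adj.mpr hadj'
          omega
    obtain ⟨z, hz, hzd⟩ := key w.length le_rfl (by rw [SimpleGraph.Walk.getVert_length]; exact hd)
    exact ⟨z, hz, hzd⟩

theorem far_mono (S : GenSet Γ) {m n : ℕ} (h : m ≤ n) (ω : Cfg Γ) (x : Γ) (hf : far S n ω x) :
    far S m ω x := by
  rw [far_iff] at hf ⊢
  obtain ⟨y, hy, hd⟩ := hf
  exact ⟨y, hy, h.trans hd⟩

theorem cay_dist_mul (S : GenSet Γ) (g x y : Γ) : S.cay.dist (g * x) (g * y) = S.cay.dist x y := by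
  refine BasicA_dist_eq fun n => ?_
  rw [← S.mem_ball, ← S.mem_ball]
  rw [mul_inv_rev, mul_assoc, inv_mul_cancel_left]

theorem vw_one (ω : Cfg Γ) : vw 1 ω = ω := by
  funext e
  unfold vw
  congr 1
  induction e using Sym2.ind with
  | _ a b => simp

theorem vw_vw (x y : Γ) (ω : Cfg Γ) : vw x (vw y ω) = vw (y * x) ω := by
  funext e
  unfold vw
  congr 1
  induction e using Sym2.ind with
  | _ a b => simp [mul_assoc]

theorem og_vw_adj (S : GenSet Γ) (g x y : Γ) (ω : Cfg Γ) :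
    (og S (vw g ω)).Adj x y ↔ (og S ω).Adj (g * x) (g * y) := by
  show (x⁻¹ * y ∈ S.S ∧ vw g ω s(x, y) = true) ↔
    ((g * x)⁻¹ * (g * y) ∈ S.S ∧ ω s(g * x, g * y) = true)
  rw [mul_inv_rev, mul_assoc, inv_mul_cancel_left]
  exact Iff.rfl

/-- the isomorphism given by left translation -/
def BasicA_iso (S : GenSet Γ) (g : Γ) (ω : Cfg Γ) : og S (vw g ω) ≃g og S ω where
  toEquiv := Equiv.mulLeft g
  map_rel_iff' := fun {a b} => (og_vw_adj S g a b ω).symm

theorem dle_vw (S : GenSet Γ) (n : ℕ) (g x y : Γ) (ω : Cfg Γ) :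
    dle (og S (vw g ω)) n x y ↔ dle (og S ω) n (g * x) (g * y) :=
  BasicA_dle_iso (BasicA_iso S g ω) n x y

theorem BasicA_reach_iff {W : Type} (K : SimpleGraph W) (x y : W) :
    K.Reachable x y ↔ ∃ n, dle K n x y :=
  ⟨fun ⟨w⟩ => ⟨w.length, w, le_rfl⟩, fun ⟨_, w, _⟩ => ⟨w⟩⟩

theorem reach_vw (S : GenSet Γ) (g x y : Γ) (ω : Cfg Γ) :
    (og S (vw g ω)).Reachable x y ↔ (og S ω).Reachable (g * x) (g * y) := by
  rw [BasicA_reach_iff, BasicA_reach_iff]
  exact exists_congr fun n => dle_vw S n g x y ω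

theorem dist_vw (S : GenSet Γ) (g x y : Γ) (ω : Cfg Γ) :
    (og S (vw g ω)).dist x y = (og S ω).dist (g * x) (g * y) :=
  BasicA_dist_eq fun n => dle_vw S n g x y ω

theorem cl_vw (S : GenSet Γ) (g x : Γ) (ω : Cfg Γ) :
    cl S (vw g ω) x = (fun y => g * y) ⁻¹' cl S ω (g * x) := by
  ext y
  exact reach_vw S g x y ω

theorem far_vw (S : GenSet Γ) (n : ℕ) (g x : Γ) (ω : Cfg Γ) :
    far S n (vw g ω) x ↔ far S n ω (g * x) := by
  rw [far_iff, far_iff]
  constructor
  · rintro ⟨y, hy, hd⟩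
    exact ⟨g * y, (reach_vw S g x y ω).mp hy, by rwa [cay_dist_mul]⟩
  · rintro ⟨y, hy, hd⟩
    refine ⟨g⁻¹ * y, (reach_vw S g x _ ω).mpr ?_, ?_⟩
    · rwa [mul_inv_cancel_left]
    · rw [← cay_dist_mul S g, mul_inv_cancel_left]
      exact hd

theorem BasicA_preimage_eq (g : Γ) (s : Set Γ) :
    (fun y => g * y) ⁻¹' s = (fun y => g⁻¹ * y) '' s := by
  ext y
  constructor
  · intro hy
    exact ⟨g * y, hy, inv_mul_cancel_left g y⟩
  · rintro ⟨z, hz, rfl⟩
    show g * (g⁻¹ * z) ∈ s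
    rwa [mul_inv_cancel_left]

theorem BasicA_preimage_finite (g : Γ) (s : Set Γ) :
    ((fun y => g * y) ⁻¹' s).Finite ↔ s.Finite := by
  rw [BasicA_preimage_eq]
  exact Set.finite_image_iff (mul_right_injective g⁻¹).injOn

theorem BasicA_preimage_ncard (g : Γ) (s : Set Γ) :
    ((fun y => g * y) ⁻¹' s).ncard = s.ncard := by
  rw [BasicA_preimage_eq]
  exact Set.ncard_image_of_injective _ (mul_right_injective g⁻¹)

theorem clfin_vw (S : GenSet Γ) (g x : Γ) (ω : Cfg Γ) :
    (cl S (vw g ω) x).Finite ↔ (cl S ω (g * x)).Finite := by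
  rw [cl_vw]
  exact BasicA_preimage_finite g _

theorem clcard_vw (S : GenSet Γ) (g x : Γ) (ω : Cfg Γ) :
    (cl S (vw g ω) x).ncard = (cl S ω (g * x)).ncard := by
  rw [cl_vw]
  exact BasicA_preimage_ncard g _

theorem Rn_vw (S : GenSet Γ) (n : ℕ) (g x : Γ) (ω : Cfg Γ) :
    Rn S n (vw g ω) x = Rn S n ω (g * x) := by
  have h1 : ({v | v ∈ cl S (vw g ω) x ∧ far S n (vw g ω) v} : Set Γ) =
      (fun y => g * y) ⁻¹' ({v | v ∈ cl S ω (g * x) ∧ far S n ω v} : Set Γ) := by
    ext v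
    show (v ∈ cl S (vw g ω) x ∧ far S n (vw g ω) v) ↔
      (g * v ∈ cl S ω (g * x) ∧ far S n ω (g * v))
    rw [far_vw, cl_vw]
    exact Iff.rfl
  unfold Rn unif
  rw [h1, BasicA_preimage_ncard, clcard_vw]
  by_cases hf : (cl S ω (g * x)).Finite
  · rw [if_pos hf, if_pos ((clfin_vw S g x ω).mpr hf)]
  · rw [if_neg hf, if_neg (fun h => hf ((clfin_vw S g x ω).mp h))]

theorem wt_vw (S : GenSet Γ) (l : ℝ≥0∞) (N : ℕ) (g x y : Γ) (ω : Cfg Γ) :
    wt S l N (vw g ω) x y = wt S l N ω (g * x) (g * y) := by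
  unfold wt
  rw [dist_vw]
  by_cases h : dle (og S ω) N (g * x) (g * y)
  · rw [if_pos h, if_pos ((dle_vw S N g x y ω).mpr h)]
  · rw [if_neg h, if_neg (fun h' => h ((dle_vw S N g x y ω).mp h'))]

theorem wt_symm (S : GenSet Γ) (l : ℝ≥0∞) (N : ℕ) (x y : Γ) (ω : Cfg Γ) :
    wt S l N ω x y = wt S l N ω y x := by
  unfold wt
  rw [SimpleGraph.dist_comm]
  by_cases h : dle (og S ω) N x y
  · rw [if_pos h, if_pos (dle_symm h)]
  · rw [if_neg h, if_neg (fun h' => h (dle_symm h'))]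

theorem wt_le_one (S : GenSet Γ) {l : ℝ≥0∞} (hl : l ≤ 1) (N : ℕ) (x y : Γ) (ω : Cfg Γ) :
    wt S l N ω x y ≤ 1 := by
  unfold wt
  split_ifs
  · exact pow_le_one' hl _
  · exact zero_le_one

theorem cl_congr {S : GenSet Γ} {ω : Cfg Γ} {x y : Γ} (h : (og S ω).Reachable x y) :
    cl S ω x = cl S ω y := by
  ext z
  exact ⟨fun hz => h.symm.trans hz, fun hz => h.trans hz⟩

theorem Rn_congr {S : GenSet Γ} (n : ℕ) {ω : Cfg Γ} {x y : Γ} (h : (og S ω).Reachable x y) :
    Rn S n ω x = Rn S n ω y := by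
  unfold Rn
  rw [cl_congr h]

theorem Rn_le_one (S : GenSet Γ) (n : ℕ) (ω : Cfg Γ) (x : Γ) : Rn S n ω x ≤ 1 := by
  unfold Rn unif
  split_ifs with hf
  · refine ENNReal.div_le_of_le_mul ?_
    rw [one_mul]
    have h1 : ({v | v ∈ cl S ω x ∧ far S n ω v} : Set Γ) ⊆ cl S ω x := fun v hv => hv.1
    exact_mod_cast Set.ncard_le_ncard h1 hf
  · exact zero_le_one

theorem Rn_ne_zero {S : GenSet Γ} {n : ℕ} {ω : Cfg Γ} {x : Γ} (h : Rn S n ω x ≠ 0) :
    (cl S ω x).Finite ∧ n + 1 ≤ (cl S ω x).ncard := by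
  have hf : (cl S ω x).Finite := by
    by_contra hf
    exact h (by unfold Rn unif; rw [if_neg hf])
  refine ⟨hf, ?_⟩
  have hne : ({v | v ∈ cl S ω x ∧ far S n ω v} : Set Γ).Nonempty := by
    by_contra hemp
    rw [Set.not_nonempty_iff_eq_empty] at hemp
    apply h
    unfold Rn unif
    rw [if_pos hf, hemp, Set.ncard_empty]
    simp
  obtain ⟨v, hv, hfar⟩ := hne
  rw [cl_congr (show (og S ω).Reachable x v from hv)] at hf ⊢
  have hsub : ((Finset.range (n + 1) : Finset ℕ) : Set ℕ) ⊆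
      (fun y => S.cay.dist v y) '' (cl S ω v) := by
    intro k hk
    have hk' : k < n + 1 := by simpa using hk
    obtain ⟨y, hy, hd⟩ := far_mono S (Nat.lt_succ_iff.mp hk') ω v hfar
    exact ⟨y, hy, hd⟩
  have h1 : ((Finset.range (n + 1) : Finset ℕ) : Set ℕ).ncard ≤
      ((fun y => S.cay.dist v y) '' (cl S ω v)).ncard :=
    Set.ncard_le_ncard hsub (hf.image _)
  have h2 : ((fun y => S.cay.dist v y) '' (cl S ω v)).ncard ≤ (cl S ω v).ncard :=
    Set.ncard_image_le hf
  rw [Set.ncard_coe_finset, Finset.card_range] at h1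
  exact h1.trans h2

/-- walks of `og S ω` from the cluster of `h` give walks of `og S ω'` of the same length. -/
theorem BasicA_agree_walk {S : GenSet Γ} {h : Γ} {ω ω' : Cfg Γ}
    (H : ∀ x y, (og S ω).Reachable h x → ((og S ω).Adj x y ↔ (og S ω').Adj x y)) {a x : Γ}
    (ha : (og S ω).Reachable h a) (w : (og S ω).Walk a x) :
    ∃ w' : (og S ω').Walk a x, w'.length = w.length := by
  induction w with
  | nil => exact ⟨SimpleGraph.Walk.nil, rfl⟩
  | cons hadj w' ih =>
    obtain ⟨w2, hw2⟩ := ih (ha.trans hadj.reachable)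
    refine ⟨SimpleGraph.Walk.cons ((H _ _ ha).mp hadj) w2, ?_⟩
    rw [SimpleGraph.Walk.length_cons, SimpleGraph.Walk.length_cons, hw2]

theorem BasicA_agree_walk' {S : GenSet Γ} {h : Γ} {ω ω' : Cfg Γ}
    (H : ∀ x y, (og S ω).Reachable h x → ((og S ω).Adj x y ↔ (og S ω').Adj x y)) {a x : Γ}
    (ha : (og S ω).Reachable h a) (w : (og S ω').Walk a x) :
    ∃ w' : (og S ω).Walk a x, w'.length = w.length := by
  induction w with
  | nil => exact ⟨SimpleGraph.Walk.nil, rfl⟩
  | cons hadj w' ih =>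
    have hadj' := (H _ _ ha).mpr hadj
    obtain ⟨w2, hw2⟩ := ih (ha.trans hadj'.reachable)
    refine ⟨SimpleGraph.Walk.cons hadj' w2, ?_⟩
    rw [SimpleGraph.Walk.length_cons, SimpleGraph.Walk.length_cons, hw2]

theorem agree_dle {S : GenSet Γ} {h : Γ} {ω ω' : Cfg Γ}
    (H : ∀ x y, (og S ω).Reachable h x → ((og S ω).Adj x y ↔ (og S ω').Adj x y)) {a : Γ}
    (ha : (og S ω).Reachable h a) (n : ℕ) (x : Γ) :
    dle (og S ω) n a x ↔ dle (og S ω') n a x := by
  constructor
  · rintro ⟨w, hw⟩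
    obtain ⟨w', hw'⟩ := BasicA_agree_walk H ha w
    exact ⟨w', by omega⟩
  · rintro ⟨w, hw⟩
    obtain ⟨w', hw'⟩ := BasicA_agree_walk' H ha w
    exact ⟨w', by omega⟩

/-- if `ω'` agrees with `ω` at all vertices of the cluster of `h` then the cluster is the same -/
theorem agree_reach {S : GenSet Γ} {h : Γ} {ω ω' : Cfg Γ}
    (H : ∀ x y, (og S ω).Reachable h x → ((og S ω).Adj x y ↔ (og S ω').Adj x y)) (x : Γ) :
    (og S ω).Reachable h x ↔ (og S ω').Reachable h x := by
  rw [BasicA_reach_iff, BasicA_reach_iff]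
  exact exists_congr fun n => agree_dle H (SimpleGraph.Reachable.refl h) n x

theorem Rn_clFn (S : GenSet Γ) (n : ℕ) (h : Γ) : ClFn S h (fun ω => Rn S n ω h) := by
  intro ω ω' H
  show Rn S n ω h = Rn S n ω' h
  have hcl : cl S ω h = cl S ω' h := by
    ext x
    exact agree_reach H x
  have hfar : ∀ v, v ∈ cl S ω h → (far S n ω v ↔ far S n ω' v) := by
    intro v hv
    rw [far_iff, far_iff]
    refine exists_congr fun y => and_congr_left fun _ => ?_
    rw [BasicA_reach_iff, BasicA_reach_iff]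
    exact exists_congr fun m => agree_dle H hv m y
  have hset : ({v | v ∈ cl S ω h ∧ far S n ω v} : Set Γ) =
      ({v | v ∈ cl S ω' h ∧ far S n ω' v} : Set Γ) := by
    ext v
    show (v ∈ cl S ω h ∧ far S n ω v) ↔ (v ∈ cl S ω' h ∧ far S n ω' v)
    rw [← hcl]
    exact and_congr_right fun hv => hfar v hv
  unfold Rn unif
  rw [hset, hcl]

theorem IsLoc.clEv {S : GenSet Γ} {R : ℕ} {E : Set (Cfg Γ)} (h : IsLoc S R E) : ClEv S E := by
  intro ω ω' H
  exact h ω ω' fun x y hx => H x y ((dle_iff _ _ _ _).mp hx).1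

theorem IsLoc.mono {S : GenSet Γ} {R R' : ℕ} (hR : R ≤ R') {E : Set (Cfg Γ)} (h : IsLoc S R E) :
    IsLoc S R' E := by
  intro ω ω' H
  exact h ω ω' fun x y hx => H x y (dle_mono hR hx)

theorem ClEv.compl {S : GenSet Γ} {E : Set (Cfg Γ)} (h : ClEv S E) : ClEv S Eᶜ := by
  intro ω ω' H
  exact not_congr (h ω ω' H)

theorem ClEv.inter {S : GenSet Γ} {E F : Set (Cfg Γ)} (h : ClEv S E) (h' : ClEv S F) :
    ClEv S (E ∩ F) := by
  intro ω ω' H
  exact and_congr (h ω ω' H) (h' ω ω' H)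

end BasicA

end IICErg
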