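import Pool.Agent.Lib.MP_4c698b_pr.SDefs

/-! Module Bridge. -/

open MeasureTheory Filter Topology
open scoped ENNReal Pointwise

namespace IICErg

variable {Γ : Type} [Group Γ]

lemma Bridge_dist_getVert {V : Type} {G : SimpleGraph V} {u v : V} (w : G.Walk u v)
    (hw : w.length = G.dist u v) {i : ℕ} (hi : i ≤ w.length) :
    G.dist u (w.getVert i) = i := by
  have h1 : G.dist u (w.getVert i) ≤ i := by
    have := SimpleGraph.dist_le (w.take i)
    rw [SimpleGraph.Walk.take_length] at this
    omega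
  have h2 : G.dist (w.getVert i) v ≤ w.length - i := by
    have := SimpleGraph.dist_le (w.drop i)
    rw [SimpleGraph.Walk.drop_length] at this
    exact this
  have h3 : G.dist u v ≤ G.dist u (w.getVert i) + G.dist (w.getVert i) v := by
    obtain ⟨p, hp⟩ := (w.take i).reachable.exists_walk_length_eq_dist
    obtain ⟨q, hq⟩ := (w.drop i).reachable.exists_walk_length_eq_dist
    have := SimpleGraph.dist_le (p.append q)
    rw [SimpleGraph.Walk.length_append] at this
    omega
  omega

lemma Bridge_dist_inj {V : Type} {G : SimpleGraph V} {u v : V} (w : G.Walk u v)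
    (hw : w.length = G.dist u v) {x y : V} (hx : x ∈ w.support) (hy : y ∈ w.support)
    (h : G.dist u x = G.dist u y) : x = y := by
  rw [SimpleGraph.Walk.mem_support_iff_exists_getVert] at hx hy
  obtain ⟨i, rfl, hi⟩ := hx
  obtain ⟨j, rfl, hj⟩ := hy
  rw [Bridge_dist_getVert w hw hi, Bridge_dist_getVert w hw hj] at h
  rw [h]

open Classical in
lemma Bridge_geom {V : Type} {G : SimpleGraph V} {u v : V} (w : G.Walk u v)
    (hw : w.length = G.dist u v) (l : ℝ≥0∞) :
    ∑' x, (if x ∈ w.support then l ^ (G.dist u x) else 0) ≤ (1 - l)⁻¹ := by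
  have h1 : ∑' x, (if x ∈ w.support then l ^ (G.dist u x) else 0) =
      ∑ x ∈ w.support.toFinset, l ^ (G.dist u x) := by
    rw [tsum_eq_sum (s := w.support.toFinset)]
    · refine Finset.sum_congr rfl fun x hx => ?_
      rw [if_pos (List.mem_toFinset.1 hx)]
    · intro x hx
      rw [if_neg fun h => hx (List.mem_toFinset.2 h)]
  rw [h1, ← ENNReal.tsum_geometric]
  have h2 : ∑ x ∈ w.support.toFinset, l ^ (G.dist u x) =
      ∑ k ∈ w.support.toFinset.image (fun x => G.dist u x), l ^ k := by
    rw [Finset.sum_image]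
    intro x hx y hy hxy
    exact Bridge_dist_inj w hw (List.mem_toFinset.1 hx) (List.mem_toFinset.1 hy) hxy
  rw [h2]
  exact ENNReal.sum_le_tsum _

open Classical in
theorem bridge_sum (S : GenSet Γ) (ω : Cfg Γ) {l : ℝ≥0∞} (hl : l < 1)
    (hfin : (cl S ω 1).Finite) :
    ∑' x, (if Br S ω 1 x then l ^ ((og S ω).dist 1 x) else 0) ≤ 2 * (1 - l)⁻¹ := by
  set G := og S ω with hG
  set C := hfin.toFinset with hC
  have memC : ∀ v, v ∈ C ↔ G.Reachable 1 v := by
    intro v
    rw [hC, Set.Finite.mem_toFinset]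
    rfl
  -- a weight function for every vertex of the cluster
  have key : ∀ v, ∃ g : Γ → ℝ≥0∞, ∑' x, g x ≤ (1 - l)⁻¹ ∧ (G.Reachable 1 v → ∀ x b,
      G.Adj x b → ¬ (G.deleteEdges {s(x, b)}).Reachable 1 v → l ^ (G.dist 1 x) ≤ g x) := by
    intro v
    by_cases hv : G.Reachable 1 v
    · obtain ⟨p, hp⟩ := hv.exists_walk_length_eq_dist
      refine ⟨fun x => if x ∈ p.support then l ^ (G.dist 1 x) else 0, Bridge_geom p hp l, ?_⟩
      intro _ x b _ hn
      have hx : x ∈ p.support := by
        by_contra hx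
        apply hn
        have he : s(x, b) ∉ p.edges := fun h =>
          hx (SimpleGraph.Walk.fst_mem_support_of_mem_edges p h)
        exact (p.toDeleteEdge s(x, b) he).reachable
      simp only [if_pos hx, le_refl]
    · refine ⟨fun _ => 0, by simp, fun h => absurd h hv⟩
  choose g hg1 hg2 using key
  have hCpos : 0 < C.card := Finset.card_pos.2 ⟨1, (memC 1).2 (SimpleGraph.Reachable.refl _)⟩
  have hmain : ∀ x, (C.card : ℝ≥0∞) * (if Br S ω 1 x then l ^ (G.dist 1 x) else 0) ≤
      2 * ∑ v ∈ C, g v x := by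
    intro x
    by_cases hx : Br S ω 1 x
    · rw [if_pos hx]
      obtain ⟨b, hab, -, -, hcard⟩ := hx
      set R : Set Γ := {v | (G.deleteEdges {s(x, b)}).Reachable 1 v} with hR
      have hRC : R ⊆ cl S ω 1 := fun v hv =>
        SimpleGraph.Reachable.mono (SimpleGraph.deleteEdges_le _) hv
      have hRfin : R.Finite := hfin.subset hRC
      have h1 : (C.filter fun v => v ∈ R).card = R.ncard := by
        rw [Set.ncard_eq_toFinset_card R hRfin]
        congr 1
        ext v
        rw [Finset.mem_filter, Set.Finite.mem_toFinset, Set.Finite.mem_toFinset]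
        exact ⟨fun h => h.2, fun h => ⟨hRC h, h⟩⟩
      have h2 : (cl S ω 1).ncard = C.card := Set.ncard_eq_toFinset_card _ hfin
      have h3 := Finset.card_filter_add_card_filter_not (s := C) (fun v => v ∈ R)
      have h4 : C.card ≤ 2 * (C.filter fun v => ¬ v ∈ R).card := by
        have h5 : 2 * R.ncard ≤ (cl S ω 1).ncard := hcard
        omega
      calc (C.card : ℝ≥0∞) * l ^ (G.dist 1 x)
          ≤ ((2 * (C.filter fun v => ¬ v ∈ R).card : ℕ) : ℝ≥0∞) * l ^ (G.dist 1 x) := by
            gcongr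
        _ = 2 * ∑ v ∈ C.filter (fun v => ¬ v ∈ R), l ^ (G.dist 1 x) := by
            rw [Finset.sum_const, nsmul_eq_mul]
            push_cast
            ring
        _ ≤ 2 * ∑ v ∈ C, g v x := by
            refine mul_le_mul' le_rfl ?_
            refine le_trans (Finset.sum_le_sum fun v hv => ?_)
              (Finset.sum_le_sum_of_subset (Finset.filter_subset (fun v => ¬ v ∈ R) C))
            rw [Finset.mem_filter] at hv
            exact hg2 v ((memC v).1 hv.1) x b hab hv.2
    · rw [if_neg hx, mul_zero]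
      exact bot_le
  have hsum : (C.card : ℝ≥0∞) * ∑' x, (if Br S ω 1 x then l ^ (G.dist 1 x) else 0) ≤
      (C.card : ℝ≥0∞) * (2 * (1 - l)⁻¹) := by
    rw [← ENNReal.tsum_mul_left]
    calc ∑' x, (C.card : ℝ≥0∞) * (if Br S ω 1 x then l ^ (G.dist 1 x) else 0)
        ≤ ∑' x, 2 * ∑ v ∈ C, g v x := ENNReal.tsum_le_tsum hmain
      _ = 2 * ∑ v ∈ C, ∑' x, g v x := by
          rw [ENNReal.tsum_mul_left]
          congr 1
          exact Summable.tsum_finsetSum fun i _ => ENNReal.summable
      _ ≤ 2 * ∑ v ∈ C, (1 - l)⁻¹ := by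
          refine mul_le_mul' le_rfl (Finset.sum_le_sum fun v _ => hg1 v)
      _ = (C.card : ℝ≥0∞) * (2 * (1 - l)⁻¹) := by
          rw [Finset.sum_const, nsmul_eq_mul]
          ring
  have h0 : (C.card : ℝ≥0∞) ≠ 0 := by
    rw [Ne, Nat.cast_eq_zero]
    omega
  exact (ENNReal.mul_le_mul_iff_right h0 (ENNReal.natCast_ne_top _)).1 hsum

end IICErg
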