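import Pool.Agent.Lib.MP_4c698b_pr.SurgA

/-!
# MP_4c698b_pr: surgery 2 creates `DD` (module Chord)
-/

open MeasureTheory Filter Topology
open scoped ENNReal Pointwise

namespace IICErg

section general

variable {V : Type} {G : SimpleGraph V}

theorem Chord_dle_succ {n : ℕ} {x y z : V} (h : dle G n x y) (hyz : G.Adj y z) :
    dle G (n + 1) x z := by
  obtain ⟨w, hw⟩ := h
  exact ⟨w.concat hyz, by simpa using hw⟩

theorem Chord_exists_sphere {s : ℕ} (hs : 1 ≤ s) {a b : V} (hr : G.Reachable a b)
    (hab : ¬ dle G s a b) : ∃ x, dle G s a x ∧ ¬ dle G (s - 1) a x := by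
  by_contra hcon
  push Not at hcon
  have key : ∀ (x y : V) (_ : G.Walk x y), dle G (s - 1) a x → dle G (s - 1) a y := by
    intro x y w
    induction w with
    | nil => exact fun h => h
    | cons hadj _ ih =>
      intro h
      apply ih
      apply hcon
      have := Chord_dle_succ h hadj
      rwa [Nat.sub_add_cancel hs] at this
  obtain ⟨w⟩ := hr
  obtain ⟨w', hw'⟩ := key a b w ⟨SimpleGraph.Walk.nil, by simp⟩
  exact hab ⟨w', by omega⟩

theorem Chord_lip (φ : V → ℕ) (hφ : ∀ x y, G.Adj x y → φ y ≤ φ x + 1) {n : ℕ} {a b : V}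
    (h : dle G n a b) : φ b ≤ φ a + n := by
  obtain ⟨w, hw⟩ := h
  have key : ∀ (x y : V) (w : G.Walk x y), φ y ≤ φ x + w.length := by
    intro x y w
    induction w with
    | nil => simp
    | cons hadj _ ih =>
      have := hφ _ _ hadj
      simp only [SimpleGraph.Walk.length_cons]
      omega
  exact (key a b w).trans (by omega)

theorem Chord_dist_adj {a x y : V} (hx : G.Reachable a x) (hxy : G.Adj x y) :
    G.dist a y ≤ G.dist a x + 1 := by
  obtain ⟨w, hw⟩ := hx.exists_walk_length_eq_dist
  have := SimpleGraph.dist_le (w.concat hxy)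
  rw [SimpleGraph.Walk.length_concat, hw] at this
  exact this

end general

variable {Γ : Type} [Group Γ]

theorem surg_DD (S : GenSet Γ) {g : ℕ → Γ} {t : ℕ} {h : Γ} {ω : Cfg Γ} {u v i0 i1 : ℕ}
    (hg : CPath S g t) (hdis : ¬ (og S ω).Reachable 1 h)
    (hc : Cut S g t h ω u v i0 i1) (huv : u < v) {k s : ℕ} (hs : 1 ≤ s)
    (hfar : ¬ dle (og S ω) (4 * s) (g u) (g v)) (z : Γ)
    (hz : dle (og S (surg S g (JJ u v i0 i1) (II u v i0 i1) ω)) k z (g v)) :
    DDat S k s (surg S g (JJ u v i0 i1) (II u v i0 i1) ω) z := by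
  classical
  have c2 := hc.hv
  have c3 := hc.hi
  have c4 := hc.ht
  set ω' := surg S g (JJ u v i0 i1) (II u v i0 i1) ω with hω'
  set H := (og S ω').deleteEdges {s(g v, g (v - 1))} with hH
  have hadj := surg_adj S hg (JJ u v i0 i1) (II u v i0 i1) (SurgA_J hc) (SurgA_I hc) ω
  rw [← hω'] at hadj
  -- the distance in `og ω` from `g v` to `g u`
  have hvu : (og S ω).Reachable (g v) (g u) := hc.rv.symm.trans hc.ru
  have hfar' : 4 * s < (og S ω).dist (g v) (g u) := by
    by_contra hcon
    apply hfar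
    obtain ⟨w, hw⟩ := hvu.exists_walk_length_eq_dist
    exact ⟨w.reverse, by rw [SimpleGraph.Walk.length_reverse]; omega⟩
  -- the removed edge
  have hHadj : ∀ x y, H.Adj x y ↔ (og S ω').Adj x y ∧ s(x, y) ≠ s(g v, g (v - 1)) := by
    intro x y
    rw [hH, SimpleGraph.deleteEdges_adj]
    simp
  -- the function `φ`
  set φ : Γ → ℕ := fun x => if (og S ω).Reachable 1 x then min ((og S ω).dist (g v) x) (4 * s + 1)
    else if ∃ i, u < i ∧ i < v ∧ x = g i then 4 * s + 1
    else min ((og S ω).dist (g v) (g i0)) (4 * s + 1) with hφ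
  have φS : ∀ x, (og S ω).Reachable 1 x → φ x = min ((og S ω).dist (g v) x) (4 * s + 1) := by
    intro x hx
    simp only [hφ]
    rw [if_pos hx]
  have φI : ∀ i, u < i → i < v → φ (g i) = 4 * s + 1 := by
    intro i h1 h2
    have := hc.hS i (Or.inl ⟨h1, h2⟩)
    simp only [hφ]
    rw [if_neg this, if_pos ⟨i, h1, h2, rfl⟩]
  have φu : φ (g u) = 4 * s + 1 := by
    rw [φS _ hc.ru]
    omega
  have φUV : ∀ i, u ≤ i → i < v → φ (g i) = 4 * s + 1 := by
    intro i h1 h2
    rcases h1.eq_or_lt with rfl | h1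
    · exact φu
    · exact φI i h1 h2
  set c := min ((og S ω).dist (g v) (g i0)) (4 * s + 1) with hcdef
  have φO : ∀ x, ¬ (og S ω).Reachable 1 x → (∀ i, u < i → i < v → x ≠ g i) → φ x = c := by
    intro x h1 h2
    simp only [hφ]
    rw [if_neg h1, if_neg]
    rintro ⟨i, h3, h4, h5⟩
    exact h2 i h3 h4 h5
  have φ2 : ∀ i, i0 ≤ i → i ≤ i1 → φ (g i) = c := by
    intro i h1 h2
    rcases h1.eq_or_lt with rfl | h1
    · exact φS _ hc.r0
    · apply φO
      · rcases h2.eq_or_lt with rfl | h2
        · intro h3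
          exact hdis (h3.trans hc.r1.symm)
        · exact hc.hS i (Or.inr ⟨h1, h2⟩)
      · intro j h3 h4 h5
        have := hg.inj i (by omega) j (by omega) h5
        omega
  -- `φ` is Lipschitz along `H`
  have hlip : ∀ x y, H.Adj x y → φ y ≤ φ x + 1 := by
    intro x y hxy
    rw [hHadj, hadj] at hxy
    obtain ⟨h1 | h1, hne⟩ := hxy
    · obtain ⟨i, hi, he⟩ := h1
      simp only [JJ, Finset.mem_union, Finset.mem_Ico] at hi
      have key : φ (g i) = φ (g (i + 1)) := by
        rcases hi with hi | hi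
        · have : i + 1 < v := by
            by_contra hcon
            have h3 : i = v - 1 := by omega
            apply hne
            rw [he, h3, Nat.sub_add_cancel (by omega)]
            exact Sym2.eq_swap
          rw [φUV i hi.1 hi.2, φUV (i + 1) (by omega) this]
        · rw [φ2 i hi.1 (by omega), φ2 (i + 1) (by omega) (by omega)]
      rcases Sym2.eq_iff.1 he with ⟨rfl, rfl⟩ | ⟨rfl, rfl⟩
      · omega
      · omega
    · obtain ⟨h2, h3⟩ := h1
      by_cases hx : (og S ω).Reachable 1 x
      · have hy : (og S ω).Reachable 1 y := hx.trans h3.reachable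
        rw [φS x hx, φS y hy]
        have := Chord_dist_adj (hc.rv.symm.trans hx) h3
        omega
      · have hy : ¬ (og S ω).Reachable 1 y := fun hy => hx (hy.trans h3.symm.reachable)
        have hno : ∀ i, u < i → i < v → x ≠ g i ∧ y ≠ g i := by
          intro i h4 h5
          exact h2 i (by simp only [II, Finset.mem_union, Finset.mem_Ioo]; omega)
        rw [φO x hx (fun i h4 h5 => (hno i h4 h5).1), φO y hy (fun i h4 h5 => (hno i h4 h5).2)]
        omega
  have φv : φ (g v) = 0 := by
    rw [φS _ hc.rv]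
    simp
  have φb : φ (g (v - 1)) = 4 * s + 1 := φUV (v - 1) (by omega) (by omega)
  have hnab : ¬ dle H (4 * s) (g v) (g (v - 1)) := by
    intro hd
    have := Chord_lip φ hlip hd
    omega
  have hnba : ¬ dle H (4 * s) (g (v - 1)) (g v) := by
    rintro ⟨w, hw⟩
    exact hnab ⟨w.reverse, by rw [SimpleGraph.Walk.length_reverse]; exact hw⟩
  -- connectivity
  have hSH : ∀ x y, (og S ω).Reachable 1 x → (og S ω).Adj x y → H.Adj x y := by
    intro x y hx hxy
    rw [hHadj, surg_S S hg hdis hc x hx]
    refine ⟨Or.inl hxy, fun he => ?_⟩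
    have hy : (og S ω).Reachable 1 y := hx.trans hxy.reachable
    have hb : (og S ω).Reachable 1 (g (v - 1)) ∧ (og S ω).Adj (g v) (g (v - 1)) := by
      rcases Sym2.eq_iff.1 he with ⟨rfl, rfl⟩ | ⟨rfl, rfl⟩
      · exact ⟨hy, hxy⟩
      · exact ⟨hx, hxy.symm⟩
    have hu : v - 1 = u := by
      by_contra hne
      exact hc.hS (v - 1) (Or.inl ⟨by omega, by omega⟩) hb.1
    rw [hu] at hb
    have : (og S ω).dist (g v) (g u) ≤ 1 := by
      have := SimpleGraph.dist_le (SimpleGraph.Walk.cons hb.2 SimpleGraph.Walk.nil)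
      simpa using this
    omega
  have hSreach : ∀ x y (_ : (og S ω).Walk x y), (og S ω).Reachable 1 x → H.Reachable x y := by
    intro x y w
    induction w with
    | nil => exact fun _ => SimpleGraph.Reachable.refl _
    | cons hxy _ ih =>
      intro hx
      exact (hSH _ _ hx hxy).reachable.trans (ih (hx.trans hxy.reachable))
  have hr1 : H.Reachable (g v) (g u) := by
    obtain ⟨w⟩ := hvu
    exact hSreach _ _ w hc.rv
  have hr2 : ∀ i, u ≤ i → i < v → H.Reachable (g u) (g i) := by
    intro i hui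
    induction i, hui using Nat.le_induction with
    | base => exact fun _ => SimpleGraph.Reachable.refl _
    | succ i hi ih =>
      intro hiv
      refine (ih (by omega)).trans (SimpleGraph.Adj.reachable ?_)
      rw [hHadj, hadj]
      refine ⟨Or.inl ⟨i, ?_, rfl⟩, ?_⟩
      · simp only [JJ, Finset.mem_union, Finset.mem_Ico]
        omega
      · intro he
        rcases Sym2.eq_iff.1 he with ⟨h3, h4⟩ | ⟨h3, h4⟩
        · have := hg.inj i (by omega) v (by omega) h3
          omega
        · have := hg.inj (i + 1) (by omega) v (by omega) h4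
          omega
  have hrab : H.Reachable (g v) (g (v - 1)) := hr1.trans (hr2 (v - 1) (by omega) (by omega))
  have hmono : ∀ x y, dle H s x y → dle H (4 * s) x y := by
    rintro x y ⟨w, hw⟩
    exact ⟨w, by omega⟩
  refine ⟨g v, g (v - 1), ?_, hz, hnab, ?_, ?_⟩
  · rw [hadj]
    left
    refine ⟨v - 1, ?_, ?_⟩
    · simp only [JJ, Finset.mem_union, Finset.mem_Ico]
      omega
    · rw [Nat.sub_add_cancel (by omega)]
      exact Sym2.eq_swap
  · exact Chord_exists_sphere hs hrab (fun h => hnab (hmono _ _ h))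
  · exact Chord_exists_sphere hs hrab.symm (fun h => hnba (hmono _ _ h))

end IICErg
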