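import Pool.Agent.Lib.MP_4c698b_pr.BasicA

/-!
# Module DDb: basic properties of the double-sided event
-/

open MeasureTheory Filter Topology
open scoped ENNReal Pointwise

namespace IICErg

variable {Γ : Type} [Group Γ]

/-- left translation is an isomorphism also after the removal of an edge -/
def DDb_iso (S : GenSet Γ) (g : Γ) (ω : Cfg Γ) (a b : Γ) :
    (og S (vw g ω)).deleteEdges {s(a, b)} ≃g (og S ω).deleteEdges {s(g * a, g * b)} where
  toEquiv := Equiv.mulLeft g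
  map_rel_iff' := fun {x y} => by
    show ((og S ω).deleteEdges {s(g * a, g * b)}).Adj (g * x) (g * y) ↔
      ((og S (vw g ω)).deleteEdges {s(a, b)}).Adj x y
    rw [SimpleGraph.deleteEdges_adj, SimpleGraph.deleteEdges_adj, og_vw_adj,
      Set.mem_singleton_iff, Set.mem_singleton_iff, Sym2.eq_iff, Sym2.eq_iff,
      mul_right_inj, mul_right_inj, mul_right_inj, mul_right_inj]

theorem DDb_dle_del (S : GenSet Γ) (g : Γ) (ω : Cfg Γ) (a b : Γ) (n : ℕ) (x y : Γ) :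
    dle ((og S (vw g ω)).deleteEdges {s(a, b)}) n x y ↔
      dle ((og S ω).deleteEdges {s(g * a, g * b)}) n (g * x) (g * y) :=
  BasicA_dle_iso (DDb_iso S g ω a b) n x y

theorem DDb_vw_mp (S : GenSet Γ) (k s : ℕ) (ω : Cfg Γ) (g z : Γ)
    (h : DDat S k s (vw g ω) z) : DDat S k s ω (g * z) := by
  obtain ⟨a, b, h1, h2, h3, ⟨x, h4, h5⟩, ⟨y, h6, h7⟩⟩ := h
  refine ⟨g * a, g * b, (og_vw_adj S g a b ω).mp h1, (dle_vw S k g z a ω).mp h2, ?_,
    ⟨g * x, ?_, ?_⟩, ⟨g * y, ?_, ?_⟩⟩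
  · rwa [← DDb_dle_del]
  · rwa [← DDb_dle_del]
  · rwa [← DDb_dle_del]
  · rwa [← DDb_dle_del]
  · rwa [← DDb_dle_del]

theorem DDat_vw (S : GenSet Γ) (k s : ℕ) (ω : Cfg Γ) (g z : Γ) :
    DDat S k s (vw g ω) z ↔ DDat S k s ω (g * z) := by
  refine ⟨DDb_vw_mp S k s ω g z, fun h => ?_⟩
  have h1 : DDat S k s (vw g⁻¹ (vw g ω)) (g * z) := by
    rw [vw_vw, mul_inv_cancel, vw_one]
    exact h
  have h2 := DDb_vw_mp S k s (vw g ω) g⁻¹ (g * z) h1
  rwa [inv_mul_cancel_left] at h2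

theorem mem_DD_vw (S : GenSet Γ) (k s : ℕ) (ω : Cfg Γ) (z : Γ) :
    vw z ω ∈ DD S k s ↔ DDat S k s ω z := by
  show DDat S k s (vw z ω) 1 ↔ DDat S k s ω z
  rw [DDat_vw, mul_one]

theorem DDb_dle_succ {V : Type} (K : SimpleGraph V) (n : ℕ) (o x : V) :
    dle K (n + 1) o x ↔ dle K n o x ∨ ∃ z, dle K n o z ∧ K.Adj z x := by
  constructor
  · intro h
    obtain ⟨w, hw⟩ := dle_symm h
    cases w with
    | nil => exact Or.inl (dle_refl _ _ _)
    | cons hadj w' =>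
      rename_i z
      rw [SimpleGraph.Walk.length_cons] at hw
      exact Or.inr ⟨z, dle_symm ⟨w', by omega⟩, hadj.symm⟩
  · rintro (h | ⟨z, h, hadj⟩)
    · exact dle_mono (Nat.le_succ n) h
    · exact dle_trans h (dle_of_adj hadj)

theorem DDb_agree {V : Type} (K K' : SimpleGraph V) (o : V) (R : ℕ)
    (H : ∀ x y, dle K R o x → (K.Adj x y ↔ K'.Adj x y)) (n : ℕ) (hn : n ≤ R + 1) (x : V) :
    dle K n o x ↔ dle K' n o x := by
  induction n generalizing x with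
  | zero =>
    constructor
    · rintro ⟨w, hw⟩
      have h := SimpleGraph.Walk.eq_of_length_eq_zero (Nat.le_zero.mp hw)
      rw [h]
      exact dle_refl _ _ _
    · rintro ⟨w, hw⟩
      have h := SimpleGraph.Walk.eq_of_length_eq_zero (Nat.le_zero.mp hw)
      rw [h]
      exact dle_refl _ _ _
  | succ n ih =>
    rw [DDb_dle_succ, DDb_dle_succ]
    refine or_congr (ih (by omega) x) (exists_congr fun z => ?_)
    rw [ih (by omega) z]
    refine and_congr_right fun hz => H z x ?_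
    exact dle_mono (by omega) ((ih (by omega) z).mpr hz)

theorem DDb_loc_mp {S : GenSet Γ} {k s : ℕ} {ω ω' : Cfg Γ}
    (H : ∀ x y, dle (og S ω) (k + 4 * s + 2) 1 x → ((og S ω).Adj x y ↔ (og S ω').Adj x y))
    (h : ω ∈ DD S k s) : ω' ∈ DD S k s := by
  obtain ⟨a, b, h1, h2, h3, ⟨x, h4, h5⟩, ⟨y, h6, h7⟩⟩ := h
  have hb : dle (og S ω) (k + 1) 1 b := dle_trans h2 (dle_of_adj h1)
  -- agreement near `a`
  have hA : ∀ n ≤ 4 * s + 1, ∀ x, dle ((og S ω).deleteEdges {s(a, b)}) n a x ↔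
      dle ((og S ω').deleteEdges {s(a, b)}) n a x := by
    intro n hn x
    refine DDb_agree _ _ a (4 * s) (fun u v hu => ?_) n hn x
    rw [SimpleGraph.deleteEdges_adj, SimpleGraph.deleteEdges_adj]
    refine and_congr_left fun _ => H u v ?_
    have hu' : dle (og S ω) (4 * s) a u := dle_le (SimpleGraph.deleteEdges_le _) hu
    exact dle_mono (by omega) (dle_trans h2 hu')
  have hB : ∀ n ≤ 4 * s + 1, ∀ x, dle ((og S ω).deleteEdges {s(a, b)}) n b x ↔
      dle ((og S ω').deleteEdges {s(a, b)}) n b x := by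
    intro n hn x
    refine DDb_agree _ _ b (4 * s) (fun u v hu => ?_) n hn x
    rw [SimpleGraph.deleteEdges_adj, SimpleGraph.deleteEdges_adj]
    refine and_congr_left fun _ => H u v ?_
    have hu' : dle (og S ω) (4 * s) b u := dle_le (SimpleGraph.deleteEdges_le _) hu
    exact dle_mono (by omega) (dle_trans hb hu')
  have hO : dle (og S ω') k 1 a :=
    (DDb_agree (og S ω) (og S ω') 1 (k + 4 * s + 2) H k (by omega) a).mp h2
  refine ⟨a, b, (H a b (dle_mono (by omega) h2)).mp h1, hO, ?_, ⟨x, ?_, ?_⟩, ⟨y, ?_, ?_⟩⟩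
  · rwa [← hA (4 * s) (by omega)]
  · rwa [← hA s (by omega)]
  · rwa [← hA (s - 1) (by omega)]
  · rwa [← hB s (by omega)]
  · rwa [← hB (s - 1) (by omega)]

theorem DD_isLoc (S : GenSet Γ) (k s : ℕ) : IsLoc S (k + 4 * s + 2) (DD S k s) := by
  intro ω ω' H
  refine ⟨DDb_loc_mp H, DDb_loc_mp fun x y hx => (H x y ?_).symm⟩
  exact (DDb_agree (og S ω) (og S ω') 1 (k + 4 * s + 2) H _ (by omega) x).mpr hx

theorem DD_mono (S : GenSet Γ) {k k' : ℕ} (h : k ≤ k') (s : ℕ) : DD S k s ⊆ DD S k' s := by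
  rintro ω ⟨a, b, h1, h2, h3⟩
  exact ⟨a, b, h1, dle_mono h h2, h3⟩

theorem DDb_sphere {V : Type} (K : SimpleGraph V) {s s' : ℕ} (hs : 1 ≤ s) (h : s ≤ s') {a : V}
    (hx : ∃ x, dle K s' a x ∧ ¬ dle K (s' - 1) a x) : ∃ x, dle K s a x ∧ ¬ dle K (s - 1) a x := by
  obtain ⟨x, ⟨w, hw⟩, h2⟩ := hx
  refine ⟨w.getVert s, ⟨w.take s, ?_⟩, fun h3 => h2 ?_⟩
  · rw [SimpleGraph.Walk.take_length]
    exact min_le_left _ _
  · have h4 : dle K (s' - s) (w.getVert s) x := ⟨w.drop s, by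
      rw [SimpleGraph.Walk.drop_length]
      omega⟩
    exact dle_mono (by omega) (dle_trans h3 h4)

theorem DD_anti (S : GenSet Γ) (k : ℕ) {s s' : ℕ} (hs : 1 ≤ s) (h : s ≤ s') :
    DD S k s' ⊆ DD S k s := by
  rintro ω ⟨a, b, h1, h2, h3, h4, h5⟩
  exact ⟨a, b, h1, h2, fun h6 => h3 (dle_mono (by omega) h6), DDb_sphere _ hs h h4,
    DDb_sphere _ hs h h5⟩

end IICErg
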