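import Pool.Agent.Lib.MP_4c698b_pr.SDefs
import Pool.Agent.Lib.MP_4c698b_pr.BasicA
import Pool.Agent.Lib.MP_4c698b_pr.BasicB

/-!
# MP_4c698b_pr, module MTP: mass transport
-/

open MeasureTheory Filter Topology
open scoped ENNReal Pointwise

namespace IICErg

variable {Γ : Type} [Group Γ]

section MTP

theorem mtp (p : unitInterval) (F : Γ → Γ → Cfg Γ → ℝ≥0∞)
    (hF : ∀ g x y ω, F (g * x) (g * y) ω = F x y (vw g ω)) (a : Γ) :
    ∑' y, ∫⁻ ω, F a y ω ∂(perc Γ p) = ∑' y, ∫⁻ ω, F y a ω ∂(perc Γ p) := by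
  have h1 : ∀ y, ∫⁻ ω, F a y ω ∂(perc Γ p) = ∫⁻ ω, F (a * y⁻¹ * a) a ω ∂(perc Γ p) := by
    intro y
    have : ∀ ω, F a y ω = F (a * y⁻¹ * a) a (vw (y * a⁻¹) ω) := by
      intro ω
      rw [← hF]
      have e1 : y * a⁻¹ * (a * y⁻¹ * a) = a := by group
      have e2 : y * a⁻¹ * a = y := by group
      rw [e1, e2]
    simp_rw [this]
    exact lintegral_vw p _ (fun ω => F (a * y⁻¹ * a) a ω)
  simp_rw [h1]
  let e : Γ ≃ Γ := 
    { toFun := fun y => a * y⁻¹ * a
      invFun := fun y => a * y⁻¹ * a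
      left_inv := fun y => by simp [mul_assoc]
      right_inv := fun y => by simp [mul_assoc] }
  exact Equiv.tsum_eq e (fun y => ∫⁻ ω, F y a ω ∂(perc Γ p))

open Classical in
omit [Group Γ] in
theorem MTP_tsum_ite (C : Set Γ) (hC : C.Finite) (Q : Γ → Prop) (c : ℝ≥0∞) :
    ∑' y, (if y ∈ C ∧ Q y then c else 0) = (({v | v ∈ C ∧ Q v} : Set Γ).ncard : ℝ≥0∞) * c := by
  have hf : ({v | v ∈ C ∧ Q v} : Set Γ).Finite := hC.subset (fun x hx => hx.1)
  rw [Set.ncard_eq_toFinset_card _ hf]
  rw [tsum_eq_sum (s := hf.toFinset)]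
  · rw [Finset.sum_congr rfl (g := fun _ => c)]
    · simp
    · intro x hx
      have : x ∈ C ∧ Q x := by simpa using hx
      simp [this]
  · intro b hb
    have : ¬ (b ∈ C ∧ Q b) := by simpa using hb
    simp only [this, if_false]

/-- the general mass transport used for `lintegral_Rn` and `lawB_eq` -/
theorem MTP_unif (S : GenSet Γ) (p : unitInterval) (n : ℕ) (B : Γ → Cfg Γ → Prop)
    (hB : ∀ g y ω, B (g * y) ω ↔ B y (vw g ω))
    (hBm : MeasurableSet {ω | B 1 ω})
    (hBc : ∀ y ω ω', (∀ x z, (og S ω).Reachable y x → ((og S ω).Adj x z ↔ (og S ω').Adj x z)) →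
      (B y ω ↔ B y ω')) :
    ∫⁻ ω in {ω | far S n ω 1}, unif (cl S ω 1) (fun v => B v ω) ∂(perc Γ p) =
      ∫⁻ ω in {ω | B 1 ω}, Rn S n ω 1 ∂(perc Γ p) := by
  classical
  have := S.countable
  let F : Γ → Γ → Cfg Γ → ℝ≥0∞ := fun x y ω =>
    if (cl S ω x).Finite ∧ y ∈ cl S ω x ∧ far S n ω x ∧ B y ω then
      ((cl S ω x).ncard : ℝ≥0∞)⁻¹ else 0
  have hF : ∀ g x y ω, F (g * x) (g * y) ω = F x y (vw g ω) := by
    intro g x y ω
    simp only [F]
    rw [clfin_vw, clcard_vw, far_vw, ← hB]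
    have : y ∈ cl S (vw g ω) x ↔ g * y ∈ cl S ω (g * x) := by
      rw [cl_vw]; rfl
    rw [this]
  have hFm : ∀ x y, Measurable (F x y) := by
    intro x y
    apply measurable_of_clFn S x
    · intro ω ω' h
      have hcl : cl S ω x = cl S ω' x := by
        ext z
        exact agree_reach h z
      by_cases hy : y ∈ cl S ω x
      · have hb : B y ω ↔ B y ω' := by
          apply hBc
          intro u z hu
          exact h u z (SimpleGraph.Reachable.trans hy hu)
        simp only [F, far, hcl, hb]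
        congr
      · have hy' : y ∉ cl S ω' x := hcl ▸ hy
        simp only [F, hy, hy', false_and, and_false, if_false]
    · intro ω hω
      simp only [F, hω, false_and, if_false]
  have hm := mtp p F hF 1
  rw [← lintegral_tsum (fun y => (hFm 1 y).aemeasurable),
    ← lintegral_tsum (fun y => (hFm y 1).aemeasurable)] at hm
  have hL : ∀ ω, ∑' y, F 1 y ω =
      ({ω | far S n ω 1} : Set (Cfg Γ)).indicator
        (fun ω => unif (cl S ω 1) (fun v => B v ω)) ω := by
    intro ω
    by_cases hf : far S n ω 1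
    · rw [Set.indicator_of_mem (by exact hf)]
      by_cases hfin : (cl S ω 1).Finite
      · have : ∀ y, F 1 y ω = if y ∈ cl S ω 1 ∧ B y ω then ((cl S ω 1).ncard : ℝ≥0∞)⁻¹ else 0 := by
          intro y
          simp only [F, hfin, hf, true_and]
        simp_rw [this]
        rw [MTP_tsum_ite _ hfin]
        simp only [unif, hfin, if_true, div_eq_mul_inv]
      · have : ∀ y, F 1 y ω = 0 := by
          intro y
          simp only [F, hfin, false_and, if_false]
        simp_rw [this]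
        simp only [unif, hfin, if_false, tsum_zero]
    · rw [Set.indicator_of_notMem (by exact hf)]
      have : ∀ y, F 1 y ω = 0 := by
        intro y
        simp only [F, hf, false_and, and_false, if_false]
      simp_rw [this]
      simp
  have hR : ∀ ω, ∑' y, F y 1 ω =
      ({ω | B 1 ω} : Set (Cfg Γ)).indicator (fun ω => Rn S n ω 1) ω := by
    intro ω
    by_cases hb : B 1 ω
    · rw [Set.indicator_of_mem (by exact hb)]
      have hsw : ∀ y, (1 ∈ cl S ω y ↔ y ∈ cl S ω 1) := fun y =>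
        ⟨fun h => SimpleGraph.Reachable.symm h, fun h => SimpleGraph.Reachable.symm h⟩
      by_cases hfin : (cl S ω 1).Finite
      · have : ∀ y, F y 1 ω =
            if y ∈ cl S ω 1 ∧ far S n ω y then ((cl S ω 1).ncard : ℝ≥0∞)⁻¹ else 0 := by
          intro y
          by_cases hy : y ∈ cl S ω 1
          · have hc : cl S ω y = cl S ω 1 := (cl_congr hy).symm
            have h1 : (1 : Γ) ∈ cl S ω 1 := SimpleGraph.Reachable.refl _
            simp only [F, hc, hfin, h1, hy, hb, true_and, and_true]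
          · have hy' : ¬ (1 ∈ cl S ω y) := fun h => hy ((hsw y).1 h)
            simp only [F, hy, hy', false_and, and_false, if_false]
        simp_rw [this]
        rw [MTP_tsum_ite _ hfin]
        simp only [Rn, unif, hfin, if_true, div_eq_mul_inv]
      · have : ∀ y, F y 1 ω = 0 := by
          intro y
          by_cases hy : y ∈ cl S ω 1
          · have hc : cl S ω y = cl S ω 1 := (cl_congr hy).symm
            simp only [F, hc, hfin, false_and, if_false]
          · have hy' : ¬ (1 ∈ cl S ω y) := fun h => hy ((hsw y).1 h)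
            simp only [F, hy', false_and, and_false, if_false]
        simp_rw [this]
        simp only [Rn, unif, hfin, if_false, tsum_zero]
    · rw [Set.indicator_of_notMem (by exact hb)]
      have : ∀ y, F y 1 ω = 0 := by
        intro y
        simp only [F, hb, and_false, if_false]
      simp_rw [this]
      simp
  simp_rw [hL, hR] at hm
  rw [lintegral_indicator (measurableSet_far S n 1), lintegral_indicator hBm] at hm
  exact hm

theorem lintegral_Rn_le (S : GenSet Γ) (p : unitInterval) (n : ℕ) :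
    ∫⁻ ω, Rn S n ω 1 ∂(perc Γ p) ≤ theta S p n := by
  have h := MTP_unif S p n (fun _ _ => True) (fun _ _ _ => Iff.rfl) (by simp)
    (fun _ _ _ _ => Iff.rfl)
  have e : ({ω : Cfg Γ | True} : Set (Cfg Γ)) = Set.univ := by simp
  rw [e, Measure.restrict_univ] at h
  rw [← h]
  calc ∫⁻ ω in {ω | far S n ω 1}, unif (cl S ω 1) (fun _ => True) ∂(perc Γ p)
      ≤ ∫⁻ ω in {ω | far S n ω 1}, 1 ∂(perc Γ p) := by
        apply lintegral_mono
        intro ω
        simp only [unif, and_true]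
        split_ifs
        · exact ENNReal.div_self_le_one
        · exact zero_le_one
    _ = theta S p n := by simp [theta]

theorem lintegral_Rn (S : GenSet Γ) (p : unitInterval)
    (hfin : perc Γ p {ω | ¬ (cl S ω 1).Finite} = 0) (n : ℕ) :
    ∫⁻ ω, Rn S n ω 1 ∂(perc Γ p) = theta S p n := by
  have h := MTP_unif S p n (fun _ _ => True) (fun _ _ _ => Iff.rfl) (by simp)
    (fun _ _ _ _ => Iff.rfl)
  have e : ({ω : Cfg Γ | True} : Set (Cfg Γ)) = Set.univ := by simp
  rw [e, Measure.restrict_univ] at h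
  rw [← h]
  have hae : ∀ᵐ ω ∂(perc Γ p), (cl S ω 1).Finite := by
    rw [ae_iff]; exact hfin
  have h2 : ∫⁻ ω in {ω | far S n ω 1}, unif (cl S ω 1) (fun _ => True) ∂(perc Γ p) =
      ∫⁻ ω in {ω | far S n ω 1}, 1 ∂(perc Γ p) := by
    apply lintegral_congr_ae
    filter_upwards [ae_restrict_of_ae hae] with ω hω
    have hne : ((cl S ω 1).ncard : ℝ≥0∞) ≠ 0 := by
      have : 0 < (cl S ω 1).ncard :=
        (Set.ncard_pos hω).2 ⟨1, SimpleGraph.Reachable.refl _⟩
      exact_mod_cast this.ne'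
    have e2 : ({v | v ∈ cl S ω 1 ∧ True} : Set Γ) = cl S ω 1 := by ext; simp
    simp only [unif, hω, if_true]
    rw [e2]
    exact ENNReal.div_self hne (ENNReal.natCast_ne_top _)
  rw [h2]
  simp [theta]

theorem lintegral_mu (S : GenSet Γ) (p : unitInterval) (n : ℕ) {Φ : Cfg Γ → ℝ≥0∞}
    (hΦ : Measurable Φ) :
    ∫⁻ ω, Φ ω ∂(mu S p n) = (theta S p n)⁻¹ * ∫⁻ ω, Rn S n ω 1 * Φ ω ∂(perc Γ p) := by
  rw [mu, lintegral_smul_measure, lintegral_withDensity_eq_lintegral_mul _
    (measurable_Rn S n 1) hΦ]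
  rfl

theorem mu_apply (S : GenSet Γ) (p : unitInterval) (n : ℕ) {E : Set (Cfg Γ)}
    (hE : MeasurableSet E) :
    mu S p n E = (theta S p n)⁻¹ * ∫⁻ ω in E, Rn S n ω 1 ∂(perc Γ p) := by
  rw [mu, Measure.smul_apply, withDensity_apply _ hE]
  rfl

theorem mu_univ_le (S : GenSet Γ) (p : unitInterval) (n : ℕ) : mu S p n Set.univ ≤ 1 := by
  rw [mu_apply S p n MeasurableSet.univ, Measure.restrict_univ]
  calc (theta S p n)⁻¹ * ∫⁻ ω, Rn S n ω 1 ∂(perc Γ p)
      ≤ (theta S p n)⁻¹ * theta S p n := by gcongr; exact lintegral_Rn_le S p n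
    _ ≤ 1 := ENNReal.inv_mul_le_one _

theorem mu_prob (S : GenSet Γ) (p : unitInterval)
    (hfin : perc Γ p {ω | ¬ (cl S ω 1).Finite} = 0) (n : ℕ) (hθ : theta S p n ≠ 0) :
    IsProbabilityMeasure (mu S p n) := by
  constructor
  rw [mu_apply S p n MeasurableSet.univ, Measure.restrict_univ, lintegral_Rn S p hfin n]
  apply ENNReal.inv_mul_cancel hθ
  exact ne_of_lt (lt_of_le_of_lt prob_le_one ENNReal.one_lt_top)

theorem MTP_dle_succ {V : Type} (G : SimpleGraph V) (m : ℕ) (x v : V) :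
    dle G (m + 1) x v ↔ dle G m x v ∨ ∃ u, dle G m x u ∧ G.Adj u v := by
  constructor
  · rintro ⟨w, hw⟩
    have hr : w.reverse.length ≤ m + 1 := by simpa using hw
    revert hr
    generalize w.reverse = w'
    intro hr
    cases w' with
    | nil => exact Or.inl ⟨SimpleGraph.Walk.nil, by simp⟩
    | cons h q =>
      refine Or.inr ⟨_, ⟨q.reverse, ?_⟩, h.symm⟩
      simp only [SimpleGraph.Walk.length_cons] at hr
      simpa using hr
  · rintro (⟨w, hw⟩ | ⟨u, ⟨w, hw⟩, h⟩)
    · exact ⟨w, by omega⟩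
    · exact ⟨w.concat h, by simpa using hw⟩

theorem MTP_dle_map {V W : Type} {G : SimpleGraph V} {G' : SimpleGraph W} (φ : V ≃ W) {r : ℕ}
    {x : V} (H : ∀ u v, dle G r x u → (G.Adj u v ↔ G'.Adj (φ u) (φ v))) (m : ℕ) (hm : m ≤ r)
    (v : V) : dle G m x v ↔ dle G' m (φ x) (φ v) := by
  induction m generalizing v with
  | zero =>
    constructor
    · rintro ⟨w, hw⟩
      have : x = v := SimpleGraph.Walk.eq_of_length_eq_zero (Nat.le_zero.1 hw)
      subst this
      exact ⟨SimpleGraph.Walk.nil, by simp⟩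
    · rintro ⟨w, hw⟩
      have : φ x = φ v := SimpleGraph.Walk.eq_of_length_eq_zero (Nat.le_zero.1 hw)
      have := φ.injective this
      subst this
      exact ⟨SimpleGraph.Walk.nil, by simp⟩
  | succ m ih =>
    have ih' := ih (by omega)
    rw [MTP_dle_succ, MTP_dle_succ, ih']
    apply or_congr Iff.rfl
    constructor
    · rintro ⟨u, hu, h⟩
      refine ⟨φ u, (ih' u).1 hu, (H u v ?_).1 h⟩
      exact dle_mono (by omega) hu
    · rintro ⟨u, hu, h⟩
      obtain ⟨u, rfl⟩ := φ.surjective u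
      refine ⟨u, (ih' u).2 hu, (H u v ?_).2 h⟩
      exact dle_mono (by omega) ((ih' u).2 hu)

theorem MTP_ballIso_map_aux {V W X : Type} {G : SimpleGraph V} {G' : SimpleGraph W}
    {K : SimpleGraph X} (φ : V ≃ W) {r : ℕ} {x : V} {k : X}
    (H : ∀ u v, dle G r x u → (G.Adj u v ↔ G'.Adj (φ u) (φ v)))
    (h : BallIso r G x K k) : BallIso r G' (φ x) K k := by
  obtain ⟨e, he1, he2⟩ := h
  have hd := MTP_dle_map φ H r le_rfl
  refine ⟨(φ.subtypeEquiv hd).symm.trans e, ?_, ?_⟩
  · intro hx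
    have : (φ.subtypeEquiv hd).symm ⟨φ x, hx⟩ = ⟨x, (hd x).2 hx⟩ := by
      apply (φ.subtypeEquiv hd).injective
      rw [Equiv.apply_symm_apply]
      rfl
    rw [Equiv.trans_apply, this]
    exact he1 _
  · intro u v
    obtain ⟨u, rfl⟩ := (φ.subtypeEquiv hd).surjective u
    obtain ⟨v, rfl⟩ := (φ.subtypeEquiv hd).surjective v
    simp only [Equiv.trans_apply, Equiv.symm_apply_apply]
    rw [← he2]
    exact (H u v u.2).symm

theorem MTP_ballIso_map {V W X : Type} {G : SimpleGraph V} {G' : SimpleGraph W}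
    {K : SimpleGraph X} (φ : V ≃ W) {r : ℕ} {x : V} {k : X}
    (H : ∀ u v, dle G r x u → (G.Adj u v ↔ G'.Adj (φ u) (φ v))) :
    BallIso r G x K k ↔ BallIso r G' (φ x) K k := by
  refine ⟨MTP_ballIso_map_aux φ H, fun h => ?_⟩
  have := MTP_ballIso_map_aux (G' := G) φ.symm (x := φ x) (r := r) (G := G') (K := K) (k := k) ?_ h
  · simpa using this
  · intro u v hu
    obtain ⟨u, rfl⟩ := φ.surjective u
    obtain ⟨v, rfl⟩ := φ.surjective v
    simp only [Equiv.symm_apply_apply]
    exact (H u v ((MTP_dle_map φ H r le_rfl u).2 hu)).symm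

theorem MTP_ballIso_agree {S : GenSet Γ} {ω ω' : Cfg Γ} {r : ℕ} {y : Γ} {X : Type}
    {K : SimpleGraph X} {k : X}
    (H : ∀ x z, dle (og S ω) r y x → ((og S ω).Adj x z ↔ (og S ω').Adj x z)) :
    BallIso r (og S ω) y K k ↔ BallIso r (og S ω') y K k :=
  MTP_ballIso_map (Equiv.refl Γ) H

theorem lawB_eq (S : GenSet Γ) (p : unitInterval) (n r : ℕ) {D : ℕ} (K : RGraph D) :
    lawB S p n r K = mu S p n {ω | BallIso r (og S ω) 1 K.G 0} := by
  have hloc : IsLoc S r {ω | BallIso r (og S ω) 1 K.G 0} := by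
    intro ω ω' h
    exact MTP_ballIso_agree h
  have h := MTP_unif S p n (fun v ω => BallIso r (og S ω) v K.G 0) ?_ hloc.meas ?_
  · rw [mu_apply S p n hloc.meas, lawB, h, div_eq_mul_inv, mul_comm]
  · intro g y ω
    exact (MTP_ballIso_map (Equiv.mulLeft g) (x := y) (G := og S (vw g ω))
      (fun u v _ => og_vw_adj S g u v ω)).symm
  · intro y ω ω' h
    apply MTP_ballIso_agree
    intro x z hx
    exact h x z ((dle_iff _ _ _ _).1 hx).1

theorem mtp_mu (S : GenSet Γ) (p : unitInterval) (n : ℕ) (F : Γ → Cfg Γ → ℝ≥0∞)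
    (hF : ∀ x, Measurable (F x)) :
    ∑' x, ∫⁻ ω in {ω | (og S ω).Reachable 1 x}, F x ω ∂(mu S p n) =
      ∑' x, ∫⁻ ω in {ω | (og S ω).Reachable 1 x}, F x⁻¹ (vw x ω) ∂(mu S p n) := by
  classical
  let G : Γ → Γ → Cfg Γ → ℝ≥0∞ := fun a x ω =>
    if (og S ω).Reachable a x then Rn S n ω a * F (a⁻¹ * x) (vw a ω) else 0
  have hG : ∀ g x y ω, G (g * x) (g * y) ω = G x y (vw g ω) := by
    intro g x y ω
    simp only [G]
    rw [reach_vw, Rn_vw, vw_vw]
    have : (g * x)⁻¹ * (g * y) = x⁻¹ * y := by group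
    rw [this]
  have hm := mtp p G hG 1
  have h1 : ∀ x, ∫⁻ ω in {ω | (og S ω).Reachable 1 x}, F x ω ∂(mu S p n) =
      (theta S p n)⁻¹ * ∫⁻ ω, G 1 x ω ∂(perc Γ p) := by
    intro x
    rw [← lintegral_indicator (measurableSet_reach S 1 x),
      lintegral_mu S p n ((hF x).indicator (measurableSet_reach S 1 x))]
    congr 1
    apply lintegral_congr
    intro ω
    by_cases h : (og S ω).Reachable 1 x
    · rw [Set.indicator_of_mem (by exact h)]
      simp only [G, h, if_true, inv_one, one_mul, vw_one]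
    · rw [Set.indicator_of_notMem (by exact h)]
      simp only [G, h, if_false, mul_zero]
  have h2 : ∀ x, ∫⁻ ω in {ω | (og S ω).Reachable 1 x}, F x⁻¹ (vw x ω) ∂(mu S p n) =
      (theta S p n)⁻¹ * ∫⁻ ω, G x 1 ω ∂(perc Γ p) := by
    intro x
    have hme : Measurable (({ω | (og S ω).Reachable 1 x} : Set (Cfg Γ)).indicator
        (fun ω => F x⁻¹ (vw x ω))) :=
      ((hF x⁻¹).comp (measurable_vw x)).indicator (measurableSet_reach S 1 x)
    rw [← lintegral_indicator (measurableSet_reach S 1 x), lintegral_mu S p n hme]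
    congr 1
    apply lintegral_congr
    intro ω
    by_cases h : (og S ω).Reachable 1 x
    · rw [Set.indicator_of_mem (by exact h)]
      simp only [G, h.symm, if_true, mul_one]
      rw [Rn_congr n h]
    · rw [Set.indicator_of_notMem (by exact h)]
      have h' : ¬ (og S ω).Reachable x 1 := fun h' => h h'.symm
      simp only [G, h', if_false, mul_zero]
  simp_rw [h1, h2]
  rw [ENNReal.tsum_mul_left, ENNReal.tsum_mul_left, hm]

theorem mu_shift (S : GenSet Γ) (p : unitInterval) (n : ℕ) (g : Γ) {E : Set (Cfg Γ)}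
    (hE : MeasurableSet E) :
    mu S p n {ω | (og S ω).Reachable 1 g ∧ vw g ω ∈ E} ≤ mu S p n E := by
  classical
  have hm : MeasurableSet {ω : Cfg Γ | (og S ω).Reachable 1 g ∧ vw g ω ∈ E} :=
    (measurableSet_reach S 1 g).inter (measurable_vw g hE)
  rw [mu_apply S p n hm, mu_apply S p n hE]
  gcongr 1
  rw [← lintegral_indicator hm, ← lintegral_indicator hE]
  rw [← lintegral_vw p g (E.indicator fun ω => Rn S n ω 1)]
  apply lintegral_mono
  intro ω
  dsimp only
  by_cases h : (og S ω).Reachable 1 g ∧ vw g ω ∈ E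
  · rw [Set.indicator_of_mem (by exact h), Set.indicator_of_mem h.2, Rn_vw, mul_one,
      Rn_congr n h.1]
  · rw [Set.indicator_of_notMem (by exact h)]
    exact zero_le

theorem mu_view (S : GenSet Γ) (p : unitInterval) (n K : ℕ) {Φ : Cfg Γ → ℝ≥0∞}
    (hΦ : Measurable Φ) :
    ∑' x, ∫⁻ ω in {ω | dle (og S ω) K 1 x}, Φ (vw x ω) ∂(mu S p n) ≤
      S.q K * ∫⁻ ω, Φ ω ∂(mu S p n) := by
  classical
  have hm := mtp_mu S p n
    (fun x => ({ω | dle (og S ω) K 1 x} : Set (Cfg Γ)).indicator Φ)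
    (fun x => hΦ.indicator (measurableSet_dle S K 1 x))
  have h1 : ∀ x, ∫⁻ ω in {ω | (og S ω).Reachable 1 x},
      ({ω | dle (og S ω) K 1 x⁻¹} : Set (Cfg Γ)).indicator Φ (vw x ω) ∂(mu S p n) =
      ∫⁻ ω in {ω | dle (og S ω) K 1 x}, Φ (vw x ω) ∂(mu S p n) := by
    intro x
    rw [← lintegral_indicator (measurableSet_reach S 1 x),
      ← lintegral_indicator (measurableSet_dle S K 1 x)]
    apply lintegral_congr
    intro ω
    by_cases h : dle (og S ω) K 1 x
    · have hr : (og S ω).Reachable 1 x := ((dle_iff _ _ _ _).1 h).1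
      have h' : dle (og S (vw x ω)) K 1 x⁻¹ := by
        rw [dle_vw]; simpa using dle_symm h
      have e1 : ({ω | (og S ω).Reachable 1 x} : Set (Cfg Γ)).indicator
          (fun a => ({ω | dle (og S ω) K 1 x⁻¹} : Set (Cfg Γ)).indicator Φ (vw x a)) ω =
          ({ω | dle (og S ω) K 1 x⁻¹} : Set (Cfg Γ)).indicator Φ (vw x ω) :=
        Set.indicator_of_mem (by exact hr) _
      have e2 : ({ω | dle (og S ω) K 1 x⁻¹} : Set (Cfg Γ)).indicator Φ (vw x ω) = Φ (vw x ω) :=
        Set.indicator_of_mem (by exact h') _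
      have e3 : ({ω | dle (og S ω) K 1 x} : Set (Cfg Γ)).indicator (fun a => Φ (vw x a)) ω =
          Φ (vw x ω) := Set.indicator_of_mem (by exact h) _
      rw [e1, e2, e3]
    · have h' : ¬ dle (og S (vw x ω)) K 1 x⁻¹ := by
        rw [dle_vw]
        intro h'
        apply h
        simpa using dle_symm h'
      have e2 : ({ω | dle (og S ω) K 1 x⁻¹} : Set (Cfg Γ)).indicator Φ (vw x ω) = 0 :=
        Set.indicator_of_notMem (by exact h') _
      have e3 : ({ω | dle (og S ω) K 1 x} : Set (Cfg Γ)).indicator (fun a => Φ (vw x a)) ω =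
          0 := Set.indicator_of_notMem (by exact h) _
      rw [e3]
      apply Set.indicator_apply_eq_zero.2
      intro _
      exact e2
  simp_rw [h1] at hm
  rw [← hm]
  have h2 : ∀ x, ∫⁻ ω in {ω | (og S ω).Reachable 1 x},
      ({ω | dle (og S ω) K 1 x} : Set (Cfg Γ)).indicator Φ ω ∂(mu S p n) ≤
      if x ∈ S.ball K then ∫⁻ ω, Φ ω ∂(mu S p n) else 0 := by
    intro x
    split_ifs with hx
    · calc ∫⁻ ω in {ω | (og S ω).Reachable 1 x},
            ({ω | dle (og S ω) K 1 x} : Set (Cfg Γ)).indicator Φ ω ∂(mu S p n)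
          ≤ ∫⁻ ω in {ω | (og S ω).Reachable 1 x}, Φ ω ∂(mu S p n) := by
            apply lintegral_mono
            exact Set.indicator_le_self _ _
        _ ≤ ∫⁻ ω, Φ ω ∂(mu S p n) := setLIntegral_le_lintegral _ _
    · have : ({ω | dle (og S ω) K 1 x} : Set (Cfg Γ)) = ∅ := by
        ext ω
        simp only [Set.mem_ofPred_eq, Set.mem_empty_iff_false, iff_false]
        intro h
        apply hx
        simpa using ball_of_dle h
      rw [this]
      simp
  calc _ ≤ ∑' x, (if x ∈ S.ball K then ∫⁻ ω, Φ ω ∂(mu S p n) else 0) :=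
        ENNReal.tsum_le_tsum h2
    _ = S.q K * ∫⁻ ω, Φ ω ∂(mu S p n) := by
        rw [tsum_eq_sum (s := S.ball K)]
        · rw [Finset.sum_congr rfl (g := fun _ => ∫⁻ ω, Φ ω ∂(mu S p n))]
          · simp [GenSet.q]
          · intro x hx
            simp [hx]
        · intro b hb
          simp [hb]

end MTP

end IICErg
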