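import Pool.Agent.Lib.MP_4c698b_pr.SDefs
import Pool.Agent.Lib.MP_4c698b_pr.BasicB
import Pool.Agent.Lib.MP_4c698b_pr.MTP

/-!
# Consequences of the boundedness of the two-point operator (module L2h)
-/

open MeasureTheory Filter Topology
open scoped ENNReal Pointwise

namespace IICErg

variable {Γ : Type} [Group Γ]

theorem L2h_reach_mul (S : GenSet Γ) (p : unitInterval) (g x y : Γ) :
    tau S p (g * x) (g * y) = tau S p x y := by
  unfold tau
  rw [← perc_vw p g {ω | (og S ω).Reachable x y}]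
  congr 1
  ext ω
  exact (reach_vw S g x y ω).symm

theorem L2h_tau_symm (S : GenSet Γ) (p : unitInterval) (x y : Γ) : tau S p x y = tau S p y x := by
  unfold tau
  congr 1
  ext ω
  exact ⟨fun h => h.symm, fun h => h.symm⟩

theorem L2h_tau2_mul (S : GenSet Γ) (p : unitInterval) (g x y : Γ) :
    tau2 S p (g * x) (g * y) = tau2 S p x y := by
  unfold tau2
  rw [← (Equiv.mulLeft g).tsum_eq (fun v => tau S p (g * x) v * tau S p v (g * y))]
  refine tsum_congr fun v => ?_
  simp only [Equiv.coe_mulLeft, L2h_reach_mul]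

theorem L2h_tau3_mul (S : GenSet Γ) (p : unitInterval) (g x y : Γ) :
    tau3 S p (g * x) (g * y) = tau3 S p x y := by
  unfold tau3
  rw [← (Equiv.mulLeft g).tsum_eq (fun v => tau S p (g * x) v * tau2 S p v (g * y))]
  refine tsum_congr fun v => ?_
  simp only [Equiv.coe_mulLeft, L2h_reach_mul, L2h_tau2_mul]

open Classical in
/-- the Schur type bound -/
theorem L2h_schur (S : GenSet Γ) (p : unitInterval) {M : ℝ≥0∞}
    (hM : ∀ f : Γ → ℝ≥0∞, ∑' x, (∑' y, tau S p x y * f y) ^ 2 ≤ M * ∑' y, f y ^ 2)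
    (C : Finset Γ) :
    ∑ x ∈ C, ∑ u ∈ C, tau3 S p x u ≤ (M + M * M) * (C.card : ℝ≥0∞) := by
  let f : Γ → ℝ≥0∞ := fun y => if y ∈ C then 1 else 0
  have hf : ∀ g : Γ → ℝ≥0∞, ∑' y, g y * f y = ∑ y ∈ C, g y := by
    intro g
    rw [tsum_eq_sum (s := C)]
    · exact Finset.sum_congr rfl fun y hy => by simp [f, hy]
    · intro y hy; simp [f, hy]
  have hf2 : ∑' y, f y ^ 2 = (C.card : ℝ≥0∞) := by
    have : ∀ y, f y ^ 2 = 1 * f y := by
      intro y
      by_cases hy : y ∈ C <;> simp [f, hy]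
    rw [tsum_congr this, hf]
    simp
  let T1 : Γ → ℝ≥0∞ := fun v => ∑ u ∈ C, tau S p v u
  let T2 : Γ → ℝ≥0∞ := fun v => ∑ u ∈ C, tau2 S p v u
  have h1 : ∑' v, T1 v ^ 2 ≤ M * (C.card : ℝ≥0∞) := by
    have := hM f
    rw [hf2] at this
    simpa only [hf] using this
  have hT2 : ∀ v, ∑' w, tau S p v w * T1 w = T2 v := by
    intro v
    have : ∀ w, tau S p v w * T1 w = ∑ u ∈ C, tau S p v w * tau S p w u := fun w => by
      rw [Finset.mul_sum]
    rw [tsum_congr this, Summable.tsum_finsetSum (fun i _ => ENNReal.summable)]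
    rfl
  have h2 : ∑' v, T2 v ^ 2 ≤ M * (M * (C.card : ℝ≥0∞)) := by
    have := hM T1
    simp only [hT2] at this
    exact this.trans (mul_le_mul_right h1 M)
  have h3 : ∑ x ∈ C, ∑ u ∈ C, tau3 S p x u = ∑' v, T1 v * T2 v := by
    have e1 : ∀ x, ∑ u ∈ C, tau3 S p x u = ∑' v, tau S p x v * T2 v := by
      intro x
      unfold tau3
      rw [← Summable.tsum_finsetSum (fun i _ => ENNReal.summable)]
      exact tsum_congr fun v => by rw [← Finset.mul_sum]
    rw [Finset.sum_congr rfl (fun x _ => e1 x),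
      ← Summable.tsum_finsetSum (fun i _ => ENNReal.summable)]
    refine tsum_congr fun v => ?_
    rw [← Finset.sum_mul]
    congr 1
    exact Finset.sum_congr rfl fun x _ => L2h_tau_symm S p x v
  rw [h3]
  have h4 : ∀ a b : ℝ≥0∞, a * b ≤ a ^ 2 + b ^ 2 := by
    intro a b
    rcases le_total a b with h | h
    · calc a * b ≤ b * b := by gcongr
        _ = b ^ 2 := (sq b).symm
        _ ≤ a ^ 2 + b ^ 2 := le_add_self
    · calc a * b ≤ a * a := by gcongr
        _ = a ^ 2 := (sq a).symm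
        _ ≤ a ^ 2 + b ^ 2 := le_self_add
  calc ∑' v, T1 v * T2 v ≤ ∑' v, (T1 v ^ 2 + T2 v ^ 2) := ENNReal.tsum_le_tsum fun v => h4 _ _
    _ = ∑' v, T1 v ^ 2 + ∑' v, T2 v ^ 2 := ENNReal.tsum_add
    _ ≤ M * (C.card : ℝ≥0∞) + M * (M * (C.card : ℝ≥0∞)) := add_le_add h1 h2
    _ = (M + M * M) * (C.card : ℝ≥0∞) := by ring

theorem L2h_tau3_lt_top (S : GenSet Γ) (p : unitInterval) {M : ℝ≥0∞} (hMt : M ≠ ⊤)
    (hM : ∀ f : Γ → ℝ≥0∞, ∑' x, (∑' y, tau S p x y * f y) ^ 2 ≤ M * ∑' y, f y ^ 2) (x y : Γ) :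
    tau3 S p x y ≠ ⊤ := by
  classical
  have h := L2h_schur S p hM {x, y}
  have h1 : tau3 S p x y ≤ ∑ a ∈ ({x, y} : Finset Γ), ∑ u ∈ ({x, y} : Finset Γ), tau3 S p a u :=
    (Finset.single_le_sum (f := fun u => tau3 S p x u) (fun i _ => zero_le)
      (by simp : y ∈ ({x, y} : Finset Γ))).trans
      (Finset.single_le_sum (f := fun a => ∑ u ∈ ({x, y} : Finset Γ), tau3 S p a u)
        (fun i _ => zero_le) (by simp : x ∈ ({x, y} : Finset Γ)))
  refine ne_top_of_le_ne_top ?_ (h1.trans h)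
  exact ENNReal.mul_ne_top (ENNReal.add_ne_top.2 ⟨hMt, ENNReal.mul_ne_top hMt hMt⟩)
    (ENNReal.natCast_ne_top _)

/-- `Rn` divided by the size of the cluster -/
noncomputable def L2h_w (S : GenSet Γ) (n : ℕ) (ω : Cfg Γ) (a : Γ) : ℝ≥0∞ :=
  Rn S n ω a * ((cl S ω a).ncard : ℝ≥0∞)⁻¹

theorem L2h_w_vw (S : GenSet Γ) (n : ℕ) (g a : Γ) (ω : Cfg Γ) :
    L2h_w S n (vw g ω) a = L2h_w S n ω (g * a) := by
  unfold L2h_w
  rw [Rn_vw, clcard_vw]

theorem L2h_Rn_inf (S : GenSet Γ) (n : ℕ) (ω : Cfg Γ) (a : Γ) (h : ¬ (cl S ω a).Finite) :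
    Rn S n ω a = 0 := by
  unfold Rn unif
  rw [if_neg h]

theorem L2h_w_meas (S : GenSet Γ) (n : ℕ) (a : Γ) :
    Measurable (fun ω : Cfg Γ => L2h_w S n ω a) := by
  refine measurable_of_clFn S a _ ?_ ?_
  · intro ω ω' H
    have h1 := Rn_clFn S n a ω ω' H
    have h2 : cl S ω a = cl S ω' a := by
      ext x
      exact agree_reach H x
    show Rn S n ω a * _ = Rn S n ω' a * _
    rw [h2]
    congr 1
  · intro ω h
    show Rn S n ω a * _ = 0
    rw [L2h_Rn_inf S n ω a h, zero_mul]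

theorem L2h_w_congr {S : GenSet Γ} (n : ℕ) {ω : Cfg Γ} {x y : Γ}
    (h : (og S ω).Reachable x y) : L2h_w S n ω x = L2h_w S n ω y := by
  unfold L2h_w
  rw [Rn_congr n h, cl_congr h]

open Classical in
theorem L2h_mass (S : GenSet Γ) (p : unitInterval) {M : ℝ≥0∞}
    (hM : ∀ f : Γ → ℝ≥0∞, ∑' x, (∑' y, tau S p x y * f y) ^ 2 ≤ M * ∑' y, f y ^ 2) (n : ℕ) :
    ∑' u, (∫⁻ ω in {ω | (og S ω).Reachable 1 u}, Rn S n ω 1 ∂(perc Γ p)) * tau3 S p 1 u ≤
      (M + M * M) * theta S p n := by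
  have hcount : Countable Γ := GenSet.countable S
  let s : Cfg Γ → Γ → Γ → ℝ≥0∞ := fun ω a v =>
    ∑' u, (if (og S ω).Reachable a u then tau3 S p v u else 0)
  let F : Γ → Γ → Cfg Γ → ℝ≥0∞ := fun a v ω =>
    if (og S ω).Reachable a v then L2h_w S n ω a * s ω a v else 0
  have hmr : ∀ a u, MeasurableSet {ω : Cfg Γ | (og S ω).Reachable a u} :=
    fun a u => measurableSet_reach S a u
  have hsm : ∀ a v, Measurable (fun ω => s ω a v) := fun a v =>
    Measurable.tsum fun u => Measurable.ite (hmr a u) measurable_const measurable_const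
  have hFm : ∀ a v, Measurable (F a v) := fun a v =>
    Measurable.ite (hmr a v) ((L2h_w_meas S n a).mul (hsm a v)) measurable_const
  have hs : ∀ g a v ω, s ω (g * a) (g * v) = s (vw g ω) a v := by
    intro g a v ω
    show ∑' u, (if (og S ω).Reachable (g * a) u then tau3 S p (g * v) u else 0) = _
    rw [← (Equiv.mulLeft g).tsum_eq]
    refine tsum_congr fun u => ?_
    simp only [Equiv.coe_mulLeft, L2h_tau3_mul, reach_vw]
  have hF : ∀ g x y ω, F (g * x) (g * y) ω = F x y (vw g ω) := by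
    intro g x y ω
    show (if (og S ω).Reachable (g * x) (g * y) then L2h_w S n ω (g * x) * s ω (g * x) (g * y)
      else 0) = _
    rw [hs, ← L2h_w_vw]
    simp only [F, reach_vw]
  have key := mtp p F hF 1
  -- right hand side
  have hR : ∑' y, ∫⁻ ω, F y 1 ω ∂(perc Γ p) =
      ∑' u, (∫⁻ ω in {ω | (og S ω).Reachable 1 u}, Rn S n ω 1 ∂(perc Γ p)) * tau3 S p 1 u := by
    rw [← lintegral_tsum fun y => (hFm y 1).aemeasurable]
    have e1 : ∀ ω, ∑' y, F y 1 ω = ∑' u,
        ({ω : Cfg Γ | (og S ω).Reachable 1 u}.indicator (fun ω => Rn S n ω 1) ω) *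
          tau3 S p 1 u := by
      intro ω
      by_cases hfin : (cl S ω 1).Finite
      · have e2 : ∀ y, F y 1 ω = (if (og S ω).Reachable 1 y then 1 else 0) *
            (L2h_w S n ω 1 * s ω 1 1) := by
          intro y
          show (if (og S ω).Reachable y 1 then L2h_w S n ω y * s ω y 1 else 0) = _
          by_cases hy : (og S ω).Reachable 1 y
          · rw [if_pos hy.symm, if_pos hy, one_mul, L2h_w_congr n hy.symm]
            congr 1
            refine tsum_congr fun u => ?_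
            have : (og S ω).Reachable y u ↔ (og S ω).Reachable 1 u :=
              ⟨fun h => hy.trans h, fun h => hy.symm.trans h⟩
            simp only [this]
          · rw [if_neg (fun h => hy h.symm), if_neg hy, zero_mul]
        rw [tsum_congr e2, ENNReal.tsum_mul_right]
        have e3 : ∑' y, (if (og S ω).Reachable 1 y then (1 : ℝ≥0∞) else 0) =
            ((cl S ω 1).ncard : ℝ≥0∞) := by
          rw [tsum_eq_sum (s := hfin.toFinset)]
          · have e5 : ∀ y ∈ hfin.toFinset,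
                (if (og S ω).Reachable 1 y then (1 : ℝ≥0∞) else 0) = 1 :=
              fun y hy => if_pos ((Set.Finite.mem_toFinset hfin).1 hy)
            rw [Finset.sum_congr rfl e5, Finset.sum_const, Set.ncard_eq_toFinset_card _ hfin]
            simp
          · intro y hy
            exact if_neg fun h => hy ((Set.Finite.mem_toFinset hfin).2 h)
        rw [e3]
        have hc0 : ((cl S ω 1).ncard : ℝ≥0∞) ≠ 0 := by
          rw [Nat.cast_ne_zero]
          exact (Set.ncard_pos hfin).2 ⟨1, SimpleGraph.Reachable.refl _⟩ |>.ne'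
        have e4 : ((cl S ω 1).ncard : ℝ≥0∞) * (L2h_w S n ω 1 * s ω 1 1) =
            Rn S n ω 1 * s ω 1 1 := by
          unfold L2h_w
          rw [← mul_assoc, mul_comm (Rn S n ω 1), ← mul_assoc,
            ENNReal.mul_inv_cancel hc0 (ENNReal.natCast_ne_top _), one_mul]
        rw [e4]
        show _ * ∑' u, _ = _
        rw [← ENNReal.tsum_mul_left]
        refine tsum_congr fun u => ?_
        by_cases hu : (og S ω).Reachable 1 u
        · rw [if_pos hu, Set.indicator_of_mem (by exact hu)]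
        · rw [if_neg hu, Set.indicator_of_notMem (by exact hu), mul_zero, zero_mul]
      · have e2 : ∀ y, F y 1 ω = 0 := by
          intro y
          show (if (og S ω).Reachable y 1 then L2h_w S n ω y * s ω y 1 else 0) = _
          by_cases hy : (og S ω).Reachable y 1
          · rw [if_pos hy, L2h_w_congr n hy]
            unfold L2h_w
            rw [L2h_Rn_inf S n ω 1 hfin, zero_mul, zero_mul]
          · rw [if_neg hy]
        have e3 : ∀ u, ({ω : Cfg Γ | (og S ω).Reachable 1 u}.indicator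
            (fun ω => Rn S n ω 1) ω) * tau3 S p 1 u = 0 := by
          intro u
          by_cases hu : (og S ω).Reachable 1 u
          · rw [Set.indicator_of_mem (by exact hu), L2h_Rn_inf S n ω 1 hfin, zero_mul]
          · rw [Set.indicator_of_notMem (by exact hu), zero_mul]
        rw [tsum_congr e2, tsum_congr e3]
    have hm2 : ∀ u, Measurable (fun ω : Cfg Γ =>
        {ω : Cfg Γ | (og S ω).Reachable 1 u}.indicator (fun ω => Rn S n ω 1) ω * tau3 S p 1 u) :=
      fun u => ((measurable_Rn S n 1).indicator (hmr 1 u)).mul_const _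
    rw [lintegral_congr e1, lintegral_tsum fun u => (hm2 u).aemeasurable]
    refine tsum_congr fun u => ?_
    rw [lintegral_mul_const _ ((measurable_Rn S n 1).indicator (hmr 1 u)),
      lintegral_indicator (hmr 1 u)]
  -- left hand side
  have hL : ∑' y, ∫⁻ ω, F 1 y ω ∂(perc Γ p) ≤ (M + M * M) * theta S p n := by
    rw [← lintegral_tsum fun y => (hFm 1 y).aemeasurable]
    have e1 : ∀ ω, ∑' y, F 1 y ω ≤ (M + M * M) * Rn S n ω 1 := by
      intro ω
      by_cases hfin : (cl S ω 1).Finite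
      · let C : Finset Γ := hfin.toFinset
        have hC : ∀ y, y ∈ C ↔ (og S ω).Reachable 1 y := fun y => Set.Finite.mem_toFinset hfin
        have hcard : ((cl S ω 1).ncard : ℝ≥0∞) = (C.card : ℝ≥0∞) := by
          rw [Set.ncard_eq_toFinset_card _ hfin]
        have e2 : ∑' y, F 1 y ω = L2h_w S n ω 1 * ∑ y ∈ C, ∑ u ∈ C, tau3 S p y u := by
          rw [tsum_eq_sum (s := C), Finset.mul_sum]
          · refine Finset.sum_congr rfl fun y hy => ?_
            show (if (og S ω).Reachable 1 y then L2h_w S n ω 1 * s ω 1 y else 0) = _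
            rw [if_pos ((hC y).1 hy)]
            congr 1
            show ∑' u, _ = _
            rw [tsum_eq_sum (s := C)]
            · exact Finset.sum_congr rfl fun u hu => if_pos ((hC u).1 hu)
            · intro u hu
              exact if_neg fun h => hu ((hC u).2 h)
          · intro y hy
            exact if_neg fun h => hy ((hC y).2 h)
        rw [e2]
        have hc0 : ((cl S ω 1).ncard : ℝ≥0∞) ≠ 0 := by
          rw [Nat.cast_ne_zero]
          exact (Set.ncard_pos hfin).2 ⟨1, SimpleGraph.Reachable.refl _⟩ |>.ne'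
        calc L2h_w S n ω 1 * ∑ y ∈ C, ∑ u ∈ C, tau3 S p y u
            ≤ L2h_w S n ω 1 * ((M + M * M) * (C.card : ℝ≥0∞)) := by
              gcongr
              exact L2h_schur S p hM C
          _ = (M + M * M) * Rn S n ω 1 *
              (((cl S ω 1).ncard : ℝ≥0∞)⁻¹ * ((cl S ω 1).ncard : ℝ≥0∞)) := by
              unfold L2h_w
              rw [hcard]
              ring
          _ = (M + M * M) * Rn S n ω 1 := by
              rw [ENNReal.inv_mul_cancel hc0 (ENNReal.natCast_ne_top _), mul_one]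
      · have e2 : ∀ y, F 1 y ω = 0 := by
          intro y
          show (if (og S ω).Reachable 1 y then L2h_w S n ω 1 * s ω 1 y else 0) = _
          by_cases hy : (og S ω).Reachable 1 y
          · rw [if_pos hy]
            unfold L2h_w
            rw [L2h_Rn_inf S n ω 1 hfin, zero_mul, zero_mul]
          · rw [if_neg hy]
        rw [tsum_congr e2]
        simp
    calc ∫⁻ ω, ∑' y, F 1 y ω ∂(perc Γ p) ≤ ∫⁻ ω, (M + M * M) * Rn S n ω 1 ∂(perc Γ p) :=
          lintegral_mono e1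
      _ = (M + M * M) * ∫⁻ ω, Rn S n ω 1 ∂(perc Γ p) :=
          lintegral_const_mul _ (measurable_Rn S n 1)
      _ ≤ (M + M * M) * theta S p n := by
          gcongr
          exact lintegral_Rn_le S p n
  rw [← hR, ← key]
  exact hL

theorem L2h_bound (S : GenSet Γ) (p : unitInterval) {M : ℝ≥0∞}
    (hM : ∀ f : Γ → ℝ≥0∞, ∑' x, (∑' y, tau S p x y * f y) ^ 2 ≤ M * ∑' y, f y ^ 2) (n : ℕ)
    (hθ : theta S p n ≠ 0) :
    ∑' h, tau S p 1 h * ∑' u, mu S p n {ω | (og S ω).Reachable 1 u} * tau2 S p h u ≤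
      M + M * M := by
  have h1 := L2h_mass S p hM n
  have hθt : theta S p n ≠ ⊤ := (measure_lt_top _ _).ne
  have h2 : ∑' u, mu S p n {ω | (og S ω).Reachable 1 u} * tau3 S p 1 u ≤ M + M * M := by
    have e : ∀ u, mu S p n {ω | (og S ω).Reachable 1 u} * tau3 S p 1 u =
        (theta S p n)⁻¹ * ((∫⁻ ω in {ω | (og S ω).Reachable 1 u}, Rn S n ω 1 ∂(perc Γ p)) *
          tau3 S p 1 u) := by
      intro u
      rw [mu_apply S p n (measurableSet_reach S 1 u), mul_assoc]
    rw [tsum_congr e, ENNReal.tsum_mul_left]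
    calc (theta S p n)⁻¹ * ∑' u, (∫⁻ ω in {ω | (og S ω).Reachable 1 u}, Rn S n ω 1
          ∂(perc Γ p)) * tau3 S p 1 u
        ≤ (theta S p n)⁻¹ * ((M + M * M) * theta S p n) := by gcongr
      _ = (M + M * M) * ((theta S p n)⁻¹ * theta S p n) := by ring
      _ = M + M * M := by rw [ENNReal.inv_mul_cancel hθ hθt, mul_one]
  refine le_trans (le_of_eq ?_) h2
  calc ∑' h, tau S p 1 h * ∑' u, mu S p n {ω | (og S ω).Reachable 1 u} * tau2 S p h u
      = ∑' h, ∑' u, mu S p n {ω | (og S ω).Reachable 1 u} * (tau S p 1 h * tau2 S p h u) := by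
        refine tsum_congr fun h => ?_
        rw [← ENNReal.tsum_mul_left]
        exact tsum_congr fun u => by ring
    _ = ∑' u, ∑' h, mu S p n {ω | (og S ω).Reachable 1 u} * (tau S p 1 h * tau2 S p h u) :=
        ENNReal.tsum_comm
    _ = ∑' u, mu S p n {ω | (og S ω).Reachable 1 u} * tau3 S p 1 u := by
        refine tsum_congr fun u => ?_
        rw [ENNReal.tsum_mul_left]
        rfl

theorem exists_h0 (S : GenSet Γ) (p : unitInterval) (hL2 : L2Bounded S p)
    (hχ : ∑' x, tau S p 1 x = ⊤) (hθ : ∀ n, theta S p n ≠ 0) (U : Ultrafilter ℕ) {δ : ℝ≥0∞}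
    (hδ : δ ≠ 0) :
    ∃ h : Γ, ∀ᶠ n in (U : Filter ℕ),
      ∑' u, mu S p n {ω | (og S ω).Reachable 1 u} * tau2 S p h u ≤ δ := by
  obtain ⟨M, hMt, hM⟩ := hL2
  rcases eq_or_ne δ ⊤ with rfl | hδt
  · exact ⟨1, Eventually.of_forall fun n => le_top⟩
  have hA : (M + M * M) / δ < ⊤ := ENNReal.div_lt_top
    (ENNReal.add_ne_top.2 ⟨hMt, ENNReal.mul_ne_top hMt hMt⟩) hδ
  rw [← hχ, ENNReal.tsum_eq_iSup_sum, lt_iSup_iff] at hA
  obtain ⟨H, hH⟩ := hA
  have hall : ∀ᶠ n in (U : Filter ℕ), ∃ h ∈ (H : Set Γ),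
      ∑' u, mu S p n {ω | (og S ω).Reachable 1 u} * tau2 S p h u ≤ δ := by
    refine Eventually.of_forall fun n => ?_
    by_contra hcon
    push Not at hcon
    have h1 := L2h_bound S p hM n (hθ n)
    have h2 : δ * ∑ h ∈ H, tau S p 1 h ≤ M + M * M := by
      refine le_trans ?_ h1
      calc δ * ∑ h ∈ H, tau S p 1 h = ∑ h ∈ H, tau S p 1 h * δ := by
            rw [Finset.mul_sum]
            exact Finset.sum_congr rfl fun h _ => mul_comm _ _
        _ ≤ ∑ h ∈ H, tau S p 1 h *
            ∑' u, mu S p n {ω | (og S ω).Reachable 1 u} * tau2 S p h u := by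
            refine Finset.sum_le_sum fun h hh => ?_
            gcongr
            exact (hcon h hh).le
        _ ≤ _ := ENNReal.sum_le_tsum H
    have h3 : M + M * M < δ * ∑ h ∈ H, tau S p 1 h := by
      rw [ENNReal.div_lt_iff (Or.inl hδ) (Or.inl hδt)] at hH
      rw [mul_comm δ]
      exact hH
    exact absurd h2 (not_le_of_gt h3)
  rw [Ultrafilter.eventually_exists_mem_iff H.finite_toSet] at hall
  obtain ⟨h, -, hh⟩ := hall
  exact ⟨h, hh⟩

open Classical in
theorem exists_r (S : GenSet Γ) (p : unitInterval) (hL2 : L2Bounded S p) (h : Γ) (L : Finset Γ)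
    {δ : ℝ≥0∞} (hδ : δ ≠ 0) : ∃ r, ∑ x' ∈ L, kap S p r h x' ≤ δ := by
  obtain ⟨M, hMt, hM⟩ := hL2
  let G : Γ → ℝ≥0∞ := fun y => ∑ x' ∈ L,
    (tau S p h y * tau2 S p y x' + tau2 S p h y * tau S p y x')
  have hG : ∑' y, G y ≠ ⊤ := by
    have e : ∑' y, G y = ∑ x' ∈ L, (tau3 S p h x' + tau3 S p h x') := by
      show ∑' y, ∑ x' ∈ L, _ = _
      rw [Summable.tsum_finsetSum (fun i _ => ENNReal.summable)]
      refine Finset.sum_congr rfl fun x' _ => ?_
      rw [ENNReal.tsum_add]
      congr 1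
      unfold tau3 tau2
      calc ∑' y, (∑' v, tau S p h v * tau S p v y) * tau S p y x'
          = ∑' y, ∑' v, tau S p h v * (tau S p v y * tau S p y x') := by
            refine tsum_congr fun y => ?_
            rw [← ENNReal.tsum_mul_right]
            exact tsum_congr fun v => by ring
        _ = ∑' v, ∑' y, tau S p h v * (tau S p v y * tau S p y x') := ENNReal.tsum_comm
        _ = ∑' v, tau S p h v * ∑' y, tau S p v y * tau S p y x' :=
            tsum_congr fun v => ENNReal.tsum_mul_left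
    rw [e]
    exact ENNReal.sum_ne_top.2 fun x' _ => ENNReal.add_ne_top.2
      ⟨L2h_tau3_lt_top S p hMt hM h x', L2h_tau3_lt_top S p hMt hM h x'⟩
  have ht := ENNReal.tendsto_tsum_compl_atTop_zero hG
  have hev : ∀ᶠ s : Finset Γ in atTop, ∑' b : {x // x ∉ s}, G b < δ :=
    ht.eventually (gt_mem_nhds (pos_iff_ne_zero.2 hδ))
  obtain ⟨s, hs⟩ := hev.exists
  -- a ball containing `s`
  obtain ⟨r, hr⟩ : ∃ r, ∀ y ∈ s, h⁻¹ * y ∈ S.ball r := by
    have h1 : ∀ y, ∃ r, h⁻¹ * y ∈ S.ball r := by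
      intro y
      obtain ⟨w⟩ := (cay_connected S).preconnected h y
      exact ⟨w.length, (S.mem_ball _ _ _).2 ⟨w, le_rfl⟩⟩
    choose ρ hρ using h1
    refine ⟨s.sup ρ, fun y hy => ?_⟩
    exact S.ball_mono (Finset.le_sup hy) (hρ y)
  refine ⟨r, ?_⟩
  have e1 : ∑ x' ∈ L, kap S p r h x' = ∑' y, (if h⁻¹ * y ∈ S.ball r then 0 else G y) := by
    unfold kap
    rw [← Summable.tsum_finsetSum (fun i _ => ENNReal.summable)]
    refine tsum_congr fun y => ?_
    by_cases hy : h⁻¹ * y ∈ S.ball r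
    · simp [hy]
    · simp only [hy, if_false]
      rfl
  rw [e1]
  calc ∑' y, (if h⁻¹ * y ∈ S.ball r then 0 else G y)
      ≤ ∑' y, ({y | y ∉ s} : Set Γ).indicator G y := by
        refine ENNReal.tsum_le_tsum fun y => ?_
        by_cases hy : h⁻¹ * y ∈ S.ball r
        · rw [if_pos hy]; exact zero_le
        · rw [if_neg hy]
          have : y ∉ s := fun hys => hy (hr y hys)
          rw [Set.indicator_of_mem (by exact this)]
    _ = ∑' b : {x // x ∉ s}, G b := (tsum_subtype ({y | y ∉ s} : Set Γ) G).symm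
    _ ≤ δ := hs.le

end IICErg
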