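import Pool.Agent.Lib.MP_4c698b_pr.SDefs

/-! Module Cost. -/

open MeasureTheory Filter Topology
open scoped ENNReal Pointwise

namespace IICErg

variable {Γ : Type} [Group Γ]

/-- resampling one coordinate does not change the product measure -/
lemma Cost_resample {E : Type} [DecidableEq E] (p : unitInterval) (e : E) :
    ((bern p).prod (Measure.infinitePi (fun _ : E => bern p))).map
      (fun x : Bool × (E → Bool) => Function.update x.2 e x.1) =
    Measure.infinitePi (fun _ : E => bern p) := by
  have hmeas : Measurable (fun x : Bool × (E → Bool) => Function.update x.2 e x.1) := by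
    rw [measurable_pi_iff]
    intro i
    by_cases hi : i = e
    · subst hi
      simp only [Function.update_self]
      exact measurable_fst
    · simp only [Function.update_of_ne hi]
      exact (measurable_pi_apply i).comp measurable_snd
  refine Measure.eq_infinitePi _ ?_
  intro s t ht
  rw [Measure.map_apply hmeas (MeasurableSet.pi s.countable_toSet fun i _ => ht i)]
  by_cases he : e ∈ s
  · have h1 : (fun x : Bool × (E → Bool) => Function.update x.2 e x.1) ⁻¹' (Set.pi s t) =
        (t e) ×ˢ (Set.pi (s.erase e : Finset E) t) := by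
      ext ⟨b, ω⟩
      simp only [Set.mem_preimage, Set.mem_pi, Set.mem_prod, Finset.mem_coe, Finset.mem_erase]
      constructor
      · intro h
        refine ⟨?_, fun i hi => ?_⟩
        · have := h e he
          rwa [Function.update_self] at this
        · have := h i hi.2
          rwa [Function.update_of_ne hi.1] at this
      · rintro ⟨h1, h2⟩ i hi
        by_cases hie : i = e
        · subst hie
          rwa [Function.update_self]
        · rw [Function.update_of_ne hie]
          exact h2 i ⟨hie, hi⟩
    rw [h1, Measure.prod_prod, Measure.infinitePi_pi _ (fun i _ => ht i),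
      Finset.mul_prod_erase s (fun i => bern p (t i)) he]
  · have h1 : (fun x : Bool × (E → Bool) => Function.update x.2 e x.1) ⁻¹' (Set.pi s t) =
        Set.univ ×ˢ (Set.pi s t) := by
      ext ⟨b, ω⟩
      simp only [Set.mem_preimage, Set.mem_pi, Set.mem_prod, Finset.mem_coe, Set.mem_univ,
        true_and]
      refine forall₂_congr fun i hi => ?_
      have hie : i ≠ e := fun h => he (h ▸ hi)
      rw [Function.update_of_ne hie]
    rw [h1, Measure.prod_prod, Measure.infinitePi_pi _ (fun i _ => ht i), measure_univ, one_mul]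

lemma Cost_lintegral_bern (p : unitInterval) (f : Bool → ℝ≥0∞) :
    ∫⁻ b, f b ∂(bern p) = ENNReal.ofReal p * f true + ENNReal.ofReal (1 - p) * f false := by
  unfold bern
  rw [lintegral_add_measure, lintegral_smul_measure, lintegral_smul_measure, lintegral_dirac,
    lintegral_dirac, smul_eq_mul, smul_eq_mul]

lemma Cost_one {E : Type} [DecidableEq E] (p : unitInterval) (hp0 : 0 < p) (hp1 : p < 1) (e : E) (b : Bool)
    {F : (E → Bool) → ℝ≥0∞} (hF : Measurable F) :
    ∫⁻ ω, F (Function.update ω e b) ∂(Measure.infinitePi (fun _ : E => bern p)) ≤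
      cmin p * ∫⁻ ω, F ω ∂(Measure.infinitePi (fun _ : E => bern p)) := by
  set P := Measure.infinitePi (fun _ : E => bern p) with hP
  have hmeas : Measurable (fun x : Bool × (E → Bool) => Function.update x.2 e x.1) := by
    rw [measurable_pi_iff]
    intro i
    by_cases hi : i = e
    · subst hi
      simp only [Function.update_self]
      exact measurable_fst
    · simp only [Function.update_of_ne hi]
      exact (measurable_pi_apply i).comp measurable_snd
  have h1 : ∫⁻ ω, F ω ∂P =
      ENNReal.ofReal p * ∫⁻ ω, F (Function.update ω e true) ∂P +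
        ENNReal.ofReal (1 - p) * ∫⁻ ω, F (Function.update ω e false) ∂P := by
    conv_lhs => rw [hP, ← Cost_resample p e]
    have hFm : Measurable (fun x : Bool × (E → Bool) => F (Function.update x.2 e x.1)) :=
      hF.comp hmeas
    rw [lintegral_map hF hmeas, lintegral_prod _ hFm.aemeasurable, Cost_lintegral_bern]
  have hp0' : (0 : ℝ) < p := hp0
  have hp1' : (p : ℝ) < 1 := hp1
  have hm : (0 : ℝ) < min (p : ℝ) (1 - p) := lt_min hp0' (by linarith)
  have h2 : ENNReal.ofReal (min (p : ℝ) (1 - p)) * ∫⁻ ω, F (Function.update ω e b) ∂P ≤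
      ∫⁻ ω, F ω ∂P := by
    rw [h1]
    cases b
    · refine le_trans (mul_le_mul' (ENNReal.ofReal_le_ofReal (min_le_right _ _)) le_rfl) ?_
      exact le_add_self
    · refine le_trans (mul_le_mul' (ENNReal.ofReal_le_ofReal (min_le_left _ _)) le_rfl) ?_
      exact le_self_add
  have hne : ENNReal.ofReal (min (p : ℝ) (1 - p)) ≠ 0 := by
    rw [Ne, ENNReal.ofReal_eq_zero, not_le]
    exact hm
  unfold cmin
  calc ∫⁻ ω, F (Function.update ω e b) ∂P
      = (ENNReal.ofReal (min (p : ℝ) (1 - p)))⁻¹ * (ENNReal.ofReal (min (p : ℝ) (1 - p)) *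
          ∫⁻ ω, F (Function.update ω e b) ∂P) := by
        rw [← mul_assoc, ENNReal.inv_mul_cancel hne ENNReal.ofReal_ne_top, one_mul]
    _ ≤ _ := mul_le_mul' le_rfl h2

theorem cost (p : unitInterval) (hp0 : 0 < p) (hp1 : p < 1) (N : Finset (Sym2 Γ)) (η : Cfg Γ)
    {F : Cfg Γ → ℝ≥0∞} (hF : Measurable F) :
    ∫⁻ ω, F (setOn N η ω) ∂(perc Γ p) ≤ cmin p ^ N.card * ∫⁻ ω, F ω ∂(perc Γ p) := by
  classical
  induction N using Finset.induction_on with
  | empty =>
    have h1 : ∀ ω : Cfg Γ, setOn (∅ : Finset (Sym2 Γ)) η ω = ω := by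
      intro ω
      funext e
      simp [setOn]
    simp only [h1, Finset.card_empty, pow_zero, one_mul, le_refl]
  | insert e N he ih =>
    have hmeas : Measurable (fun ω : Cfg Γ => setOn N η ω) := by
      rw [measurable_pi_iff]
      intro i
      by_cases hi : i ∈ N
      · simp only [setOn, if_pos hi]
        exact measurable_const
      · simp only [setOn, if_neg hi]
        exact measurable_pi_apply i
    have h1 : ∀ ω : Cfg Γ, setOn (insert e N) η ω = setOn N η (Function.update ω e (η e)) := by
      intro ω
      funext i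
      simp only [setOn, Finset.mem_insert]
      by_cases hi : i ∈ N
      · rw [if_pos hi, if_pos (Or.inr hi)]
      · by_cases hie : i = e
        · subst hie
          rw [if_neg hi, if_pos (Or.inl rfl), Function.update_self]
        · rw [if_neg hi, if_neg (not_or.2 ⟨hie, hi⟩), Function.update_of_ne hie]
    simp only [h1]
    rw [Finset.card_insert_of_notMem he]
    calc ∫⁻ ω, F (setOn N η (Function.update ω e (η e))) ∂(perc Γ p)
        ≤ cmin p * ∫⁻ ω, F (setOn N η ω) ∂(perc Γ p) :=
          Cost_one p hp0 hp1 e (η e) (hF.comp hmeas)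
      _ ≤ cmin p * (cmin p ^ N.card * ∫⁻ ω, F ω ∂(perc Γ p)) := mul_le_mul' le_rfl ih
      _ = cmin p ^ (N.card + 1) * ∫⁻ ω, F ω ∂(perc Γ p) := by ring

end IICErg
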