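import Pool.Agent.Lib.MP_4c698b_pr.SDefs
import Pool.Agent.Lib.MP_4c698b_pr.BasicA
import Pool.Agent.Lib.MP_4c698b_pr.BasicB
import Pool.Agent.Lib.MP_4c698b_pr.MTP
import Pool.Agent.Lib.MP_4c698b_pr.Bridge
import Pool.Agent.Lib.MP_4c698b_pr.Cost

/-!
# MP_4c698b_pr, module SG: the surgery inequality
-/

open MeasureTheory Filter Topology
open scoped ENNReal Pointwise

namespace IICErg

variable {Γ : Type} [Group Γ]

theorem SG_agree {V : Type} {G G' : SimpleGraph V} {z : V}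
    (H : ∀ x y, G.Reachable z x → (G.Adj x y ↔ G'.Adj x y)) (v : V) :
    G.Reachable z v ↔ G'.Reachable z v := by
  constructor
  · intro h
    rw [SimpleGraph.reachable_iff_reflTransGen] at h
    induction h with
    | refl => exact SimpleGraph.Reachable.refl z
    | tail hab hbc ih =>
      have h1 := (SimpleGraph.reachable_iff_reflTransGen _ _).2 hab
      exact ih.trans ((H _ _ h1).1 hbc).reachable
  · intro h
    rw [SimpleGraph.reachable_iff_reflTransGen] at h
    induction h with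
    | refl => exact SimpleGraph.Reachable.refl z
    | tail hab hbc ih =>
      exact ih.trans ((H _ _ ih).2 hbc).reachable

theorem SG_agree_del {V : Type} {G G' : SimpleGraph V} {z : V}
    (H : ∀ x y, G.Reachable z x → (G.Adj x y ↔ G'.Adj x y)) (e : Sym2 V) (v : V) :
    (G.deleteEdges {e}).Reachable z v ↔ (G'.deleteEdges {e}).Reachable z v := by
  apply SG_agree
  intro x y hx
  have hx' : G.Reachable z x := hx.mono (SimpleGraph.deleteEdges_le _)
  simp only [SimpleGraph.deleteEdges_adj]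
  rw [H x y hx']

theorem SG_Br_imp {S : GenSet Γ} {z a : Γ} {ω ω' : Cfg Γ}
    (H : ∀ x y, (og S ω).Reachable z x → ((og S ω).Adj x y ↔ (og S ω').Adj x y)) :
    Br S ω z a → Br S ω' z a := by
  rintro ⟨b, h1, h2, h3, h4⟩
  have hza : (og S ω).Reachable z a := h2.mono (SimpleGraph.deleteEdges_le _)
  refine ⟨b, (H a b hza).1 h1, (SG_agree_del H _ _).1 h2, fun h => h3 ((SG_agree_del H _ _).2 h), ?_⟩
  have e1 : {v | ((og S ω').deleteEdges {s(a, b)}).Reachable z v} =
      {v | ((og S ω).deleteEdges {s(a, b)}).Reachable z v} := by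
    ext v; exact (SG_agree_del H _ _).symm
  have e2 : cl S ω' z = cl S ω z := by
    ext v; exact (SG_agree H _).symm
  rw [e1, e2]
  exact h4

theorem SG_agree_symm {S : GenSet Γ} {z : Γ} {ω ω' : Cfg Γ}
    (H : ∀ x y, (og S ω).Reachable z x → ((og S ω).Adj x y ↔ (og S ω').Adj x y)) :
    ∀ x y, (og S ω').Reachable z x → ((og S ω').Adj x y ↔ (og S ω).Adj x y) := by
  intro x y hx
  exact (H x y ((SG_agree H x).2 hx)).symm

theorem SG_Br_agree {S : GenSet Γ} {z a : Γ} {ω ω' : Cfg Γ}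
    (H : ∀ x y, (og S ω).Reachable z x → ((og S ω).Adj x y ↔ (og S ω').Adj x y)) :
    Br S ω z a ↔ Br S ω' z a :=
  ⟨SG_Br_imp H, SG_Br_imp (SG_agree_symm H)⟩

theorem SG_dist_agree {S : GenSet Γ} {z a : Γ} {ω ω' : Cfg Γ}
    (H : ∀ x y, (og S ω).Reachable z x → ((og S ω).Adj x y ↔ (og S ω').Adj x y))
    (hza : (og S ω).Reachable z a) :
    (og S ω).dist a z = (og S ω').dist a z := by
  have hza' : (og S ω').Reachable z a := (SG_agree H a).1 hza
  have key : ∀ n, dle (og S ω) n z a ↔ dle (og S ω') n z a := fun n =>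
    agree_dle H (SimpleGraph.Reachable.refl z) n a
  rw [SimpleGraph.dist_comm, SimpleGraph.dist_comm (G := og S ω')]
  apply le_antisymm
  · exact ((dle_iff _ _ _ _).1 ((key _).2 ((dle_iff _ _ _ _).2 ⟨hza', le_rfl⟩))).2
  · exact ((dle_iff _ _ _ _).1 ((key _).1 ((dle_iff _ _ _ _).2 ⟨hza, le_rfl⟩))).2

/-- translation of the graph with a deleted edge -/
def SG_iso (S : GenSet Γ) (g a b : Γ) (ω : Cfg Γ) :
    ((og S (vw g ω)).deleteEdges {s(a, b)}) ≃g ((og S ω).deleteEdges {s(g * a, g * b)}) where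
  toEquiv := Equiv.mulLeft g
  map_rel_iff' := by
    intro x y
    simp only [Equiv.coe_mulLeft, SimpleGraph.deleteEdges_adj, og_vw_adj, Set.mem_singleton_iff,
      Sym2.eq_iff, mul_right_inj]

theorem SG_reach_del (S : GenSet Γ) (g a b x y : Γ) (ω : Cfg Γ) :
    ((og S (vw g ω)).deleteEdges {s(a, b)}).Reachable x y ↔
      ((og S ω).deleteEdges {s(g * a, g * b)}).Reachable (g * x) (g * y) := by
  exact ((SG_iso S g a b ω).reachable_iff (u := x) (v := y)).symm

theorem SG_Br_vw (S : GenSet Γ) (g z a : Γ) (ω : Cfg Γ) :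
    Br S (vw g ω) z a ↔ Br S ω (g * z) (g * a) := by
  have hset : ∀ b, ({v | ((og S (vw g ω)).deleteEdges {s(a, b)}).Reachable z v} : Set Γ).ncard =
      ({v | ((og S ω).deleteEdges {s(g * a, g * b)}).Reachable (g * z) v} : Set Γ).ncard := by
    intro b
    have e : ({v | ((og S ω).deleteEdges {s(g * a, g * b)}).Reachable (g * z) v} : Set Γ) =
        (fun v => g * v) '' {v | ((og S (vw g ω)).deleteEdges {s(a, b)}).Reachable z v} := by
      ext v
      simp only [Set.mem_ofPred_eq, Set.mem_image, SG_reach_del]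
      constructor
      · intro hv
        exact ⟨g⁻¹ * v, by simpa using hv, by simp⟩
      · rintro ⟨w, hw, rfl⟩
        exact hw
    rw [e, Set.ncard_image_of_injective _ (mul_right_injective g)]
  constructor
  · rintro ⟨b, h1, h2, h3, h4⟩
    refine ⟨g * b, (og_vw_adj S g a b ω).1 h1, (SG_reach_del S g a b z a ω).1 h2,
      fun h => h3 ((SG_reach_del S g a b z b ω).2 h), ?_⟩
    rw [← hset b, ← clcard_vw]
    exact h4
  · rintro ⟨b, h1, h2, h3, h4⟩
    obtain ⟨b, rfl⟩ : ∃ c, b = g * c := ⟨g⁻¹ * b, by simp⟩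
    refine ⟨b, (og_vw_adj S g a b ω).2 h1, (SG_reach_del S g a b z a ω).2 h2,
      fun h => h3 ((SG_reach_del S g a b z b ω).1 h), ?_⟩
    rw [hset b, clcard_vw]
    exact h4

open Classical in
/-- the bridge weight -/
noncomputable def SGw (S : GenSet Γ) (l : ℝ≥0∞) (ω : Cfg Γ) (x y : Γ) : ℝ≥0∞ :=
  if Br S ω y x then l ^ ((og S ω).dist x y) else 0

open Classical in
/-- the transported mass -/
noncomputable def SGF (S : GenSet Γ) (n : ℕ) (l : ℝ≥0∞) (B : Set (Cfg Γ)) (x y : Γ) (ω : Cfg Γ) :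
    ℝ≥0∞ :=
  Rn S n ω y * SGw S l ω x y * (if vw y ω ∈ B then 1 else 0)

theorem SGw_vw (S : GenSet Γ) (l : ℝ≥0∞) (g x y : Γ) (ω : Cfg Γ) :
    SGw S l (vw g ω) x y = SGw S l ω (g * x) (g * y) := by
  unfold SGw
  rw [dist_vw]
  by_cases hb : Br S (vw g ω) y x
  · rw [if_pos hb, if_pos ((SG_Br_vw S g y x ω).1 hb)]
  · rw [if_neg hb, if_neg fun h => hb ((SG_Br_vw S g y x ω).2 h)]

theorem SGF_vw (S : GenSet Γ) (n : ℕ) (l : ℝ≥0∞) (B : Set (Cfg Γ)) (g x y : Γ) (ω : Cfg Γ) :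
    SGF S n l B (g * x) (g * y) ω = SGF S n l B x y (vw g ω) := by
  unfold SGF
  rw [SGw_vw, Rn_vw, vw_vw]

theorem SGF_meas (S : GenSet Γ) (n : ℕ) (l : ℝ≥0∞) {B : Set (Cfg Γ)} (hB : MeasurableSet B)
    (x y : Γ) : Measurable (SGF S n l B x y) := by
  unfold SGF
  refine Measurable.mul ?_ ?_
  · apply measurable_of_clFn S y
    · intro ω ω' H
      have h1 : Rn S n ω y = Rn S n ω' y := Rn_clFn S n y ω ω' H
      show Rn S n ω y * SGw S l ω x y = Rn S n ω' y * SGw S l ω' x y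
      rw [h1]
      congr 1
      unfold SGw
      by_cases hb : Br S ω y x
      · have hb' := (SG_Br_agree H).1 hb
        rw [if_pos hb, if_pos hb']
        obtain ⟨b, -, h2, -⟩ := hb
        rw [SG_dist_agree H (h2.mono (SimpleGraph.deleteEdges_le _))]
      · have hb' : ¬ Br S ω' y x := fun h => hb ((SG_Br_agree H).2 h)
        rw [if_neg hb, if_neg hb']
    · intro ω hω
      have : Rn S n ω y = 0 := by
        by_contra h0
        exact hω (Rn_ne_zero h0).1
      rw [this, zero_mul]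
  · exact Measurable.ite ((measurable_vw y) hB) measurable_const measurable_const

theorem SGF_sum (S : GenSet Γ) (p : unitInterval) (n : ℕ) {l : ℝ≥0∞} (hl1 : l < 1)
    {B : Set (Cfg Γ)} (hB : MeasurableSet B) (a : Γ) :
    ∑' z, ∫⁻ ω, SGF S n l B a z ω ∂(perc Γ p) ≤
      2 * (1 - l)⁻¹ * ∫⁻ ω in B, Rn S n ω 1 ∂(perc Γ p) := by
  classical
  have := S.countable
  have h1 := mtp p (SGF S n l B) (SGF_vw S n l B) a
  rw [h1]
  have h2 : ∑' y, ∫⁻ ω, SGF S n l B y a ω ∂(perc Γ p) =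
      ∑' y, ∫⁻ ω, SGF S n l B y 1 ω ∂(perc Γ p) := by
    rw [← (Equiv.mulLeft a).tsum_eq]
    congr 1
    ext y
    rw [← lintegral_vw p a (fun ω => SGF S n l B y 1 ω)]
    congr 1
    ext ω
    rw [← SGF_vw]
    simp
  rw [h2, ← lintegral_tsum (fun y => (SGF_meas S n l hB y 1).aemeasurable)]
  rw [← lintegral_indicator hB, ← lintegral_const_mul' _ _ (by
    have h3 : (1 - l) ≠ 0 := (tsub_pos_of_lt hl1).ne'
    exact ENNReal.mul_ne_top (by simp) (ENNReal.inv_ne_top.2 h3))]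
  apply lintegral_mono
  intro ω
  show ∑' y, SGF S n l B y 1 ω ≤ 2 * (1 - l)⁻¹ * B.indicator (fun ω => Rn S n ω 1) ω
  have hF : ∀ y, SGF S n l B y 1 ω = Rn S n ω 1 * SGw S l ω y 1 * (if ω ∈ B then 1 else 0) := by
    intro y
    unfold SGF
    rw [vw_one]
  simp only [hF]
  by_cases hω : ω ∈ B
  · rw [Set.indicator_of_mem hω]
    simp only [hω, if_true, mul_one]
    rw [ENNReal.tsum_mul_left, mul_comm]
    by_cases h0 : Rn S n ω 1 = 0
    · rw [h0]; simp
    · refine mul_le_mul' ?_ le_rfl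
      have h4 := bridge_sum S ω hl1 (Rn_ne_zero h0).1
      refine le_trans (le_of_eq ?_) h4
      congr 1
      ext x
      unfold SGw
      rw [SimpleGraph.dist_comm]
  · rw [Set.indicator_of_notMem hω]
    simp [hω]

theorem SG_ball_sum (S : GenSet Γ) (R : ℕ) (h : Γ) (ω : Cfg Γ) :
    ∑' z, ({z | dle (og S ω) R h z} : Set Γ).indicator (fun _ => (1 : ℝ≥0∞)) z ≤ S.q R := by
  classical
  calc ∑' z, ({z | dle (og S ω) R h z} : Set Γ).indicator (fun _ => (1 : ℝ≥0∞)) z
      ≤ ∑' z, (((S.ball R).image (fun y => h * y) : Finset Γ) : Set Γ).indicator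
          (fun _ => (1 : ℝ≥0∞)) z := by
        refine ENNReal.tsum_le_tsum fun z => ?_
        refine Set.indicator_le_indicator_of_subset ?_ (fun _ => zero_le) z
        intro w hw
        have := ball_of_dle hw
        simp only [Finset.coe_image, Set.mem_image, Finset.mem_coe]
        exact ⟨h⁻¹ * w, this, by simp⟩
    _ = (((S.ball R).image (fun y => h * y)).card : ℝ≥0∞) := by
        rw [← tsum_subtype, ENNReal.tsum_const, ENat.card_coe_set_eq, Set.encard_coe_eq_coe_finsetCard]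
        simp
    _ ≤ S.q R := by
        unfold GenSet.q
        exact_mod_cast Finset.card_image_le

theorem SG_one_le_cmin (p : unitInterval) : 1 ≤ cmin p := by
  unfold cmin
  rw [ENNReal.one_le_inv, ENNReal.ofReal_le_one]
  exact le_trans (min_le_left _ _) p.2.2

theorem SG_pow {l : ℝ≥0∞} (hl : 2⁻¹ ≤ l) (hl1 : l ≤ 1) {K d e : ℕ} (h : e ≤ K + d) :
    l ^ d ≤ 2 ^ K * l ^ e := by
  have h2 : (1 : ℝ≥0∞) ≤ 2 * l := by
    calc (1 : ℝ≥0∞) = 2 * 2⁻¹ := (ENNReal.mul_inv_cancel (by simp) (by simp)).symm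
      _ ≤ 2 * l := by gcongr
  calc l ^ d = 1 * l ^ d := (one_mul _).symm
    _ ≤ (2 * l) ^ K * l ^ d := by
        gcongr
        exact one_le_pow_of_one_le' h2 K
    _ = 2 ^ K * l ^ (K + d) := by rw [mul_pow, pow_add, mul_assoc]
    _ ≤ 2 ^ K * l ^ e := by
        gcongr 2 ^ K * ?_
        exact pow_le_pow_right_of_le_one' hl1 h

omit [Group Γ] in
theorem SG_setOn_meas (N : Finset (Sym2 Γ)) (η : Cfg Γ) :
    Measurable (fun ω : Cfg Γ => setOn N η ω) := by
  classical
  rw [measurable_pi_iff]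
  intro e
  unfold setOn
  by_cases he : e ∈ N
  · simp only [he, if_true]; exact measurable_const
  · simp only [he, if_false]; exact measurable_pi_apply e

theorem SG (S : GenSet Γ) (p : unitInterval) (hp0 : 0 < p) (hp1 : p < 1) (n : ℕ)
    {l : ℝ≥0∞} (hl : 2⁻¹ ≤ l) (hl1 : l < 1) (N : ℕ) (h : Γ) (P : Cfg Γ → Γ → Prop)
    {ι : Type} (I : Finset ι) (Nd : ι → Finset (Sym2 Γ)) (η : ι → Cfg Γ) (a : ι → Γ)
    (B : ι → Set (Cfg Γ)) (hB : ∀ i ∈ I, MeasurableSet (B i)) (K0 R2 Nc : ℕ)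
    (hNc : ∀ i ∈ I, (Nd i).card ≤ Nc)
    (H : ∀ ω z, P ω z → dle (og S ω) N h z → Rn S n ω 1 ≠ 0 →
      dle (og S ω) R2 h z ∨ ∃ i ∈ I,
        Rn S n ω 1 ≤ 2 * Rn S n (setOn (Nd i) (η i) ω) z ∧
        (og S (setOn (Nd i) (η i) ω)).dist (a i) z ≤ K0 + (og S ω).dist h z ∧
        Br S (setOn (Nd i) (η i) ω) z (a i) ∧
        vw z (setOn (Nd i) (η i) ω) ∈ B i) :
    (1 - l) * Ms S p n l N h P ≤
      (1 - l) * S.q R2 + 4 * 2 ^ K0 * cmin p ^ Nc * ∑ i ∈ I, mu S p n (B i) := by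
  classical
  have := S.countable
  -- the pointwise bound for each z
  have hpt : ∀ ω z, Rn S n ω 1 * (if P ω z then wt S l N ω h z else 0) ≤
      Rn S n ω 1 * ({z | dle (og S ω) R2 h z} : Set Γ).indicator (fun _ => (1 : ℝ≥0∞)) z +
        ∑ i ∈ I, 2 * 2 ^ K0 * SGF S n l (B i) (a i) z (setOn (Nd i) (η i) ω) := by
    intro ω z
    by_cases hP : P ω z
    swap
    · simp [hP]
    by_cases hd : dle (og S ω) N h z
    swap
    · simp [hP, wt, hd]
    by_cases hR : Rn S n ω 1 = 0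
    · simp [hR]
    rw [if_pos hP]
    have hw : wt S l N ω h z = l ^ ((og S ω).dist h z) := by simp [wt, hd]
    rcases H ω z hP hd hR with h1 | ⟨i, hi, h1, h2, h3, h4⟩
    · have : ({z | dle (og S ω) R2 h z} : Set Γ).indicator (fun _ => (1 : ℝ≥0∞)) z = 1 := by
        rw [Set.indicator_of_mem]; exact h1
      rw [this, hw]
      refine le_trans ?_ le_self_add
      gcongr
      exact pow_le_one' hl1.le _
    · refine le_trans ?_ le_add_self
      refine le_trans ?_ (Finset.single_le_sum (f := fun i =>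
        2 * 2 ^ K0 * SGF S n l (B i) (a i) z (setOn (Nd i) (η i) ω)) (fun _ _ => zero_le) hi)
      show _ ≤ 2 * 2 ^ K0 * SGF S n l (B i) (a i) z (setOn (Nd i) (η i) ω)
      unfold SGF SGw
      rw [if_pos h3, if_pos h4, mul_one, hw]
      calc Rn S n ω 1 * l ^ ((og S ω).dist h z)
          ≤ (2 * Rn S n (setOn (Nd i) (η i) ω) z) *
            (2 ^ K0 * l ^ ((og S (setOn (Nd i) (η i) ω)).dist (a i) z)) := by
            gcongr
            exact SG_pow hl hl1.le h2
        _ = 2 * 2 ^ K0 * (Rn S n (setOn (Nd i) (η i) ω) z *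
            l ^ ((og S (setOn (Nd i) (η i) ω)).dist (a i) z)) := by ring
  -- sum over z
  have hsum : ∀ ω, Rn S n ω 1 * ∑' z, (if P ω z then wt S l N ω h z else 0) ≤
      Rn S n ω 1 * S.q R2 +
        ∑ i ∈ I, 2 * 2 ^ K0 * ∑' z, SGF S n l (B i) (a i) z (setOn (Nd i) (η i) ω) := by
    intro ω
    rw [← ENNReal.tsum_mul_left]
    refine le_trans (ENNReal.tsum_le_tsum (hpt ω)) ?_
    rw [ENNReal.tsum_add, ENNReal.tsum_mul_left]
    refine add_le_add ?_ ?_
    · gcongr
      exact SG_ball_sum S R2 h ω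
    · rw [Summable.tsum_finsetSum (fun i _ => ENNReal.summable)]
      refine le_of_eq (Finset.sum_congr rfl fun i _ => ?_)
      rw [ENNReal.tsum_mul_left]
  -- integrate
  have hint : ∫⁻ ω, Rn S n ω 1 * ∑' z, (if P ω z then wt S l N ω h z else 0) ∂(perc Γ p) ≤
      theta S p n * S.q R2 + ∑ i ∈ I, 2 * 2 ^ K0 * (cmin p ^ Nc *
        (2 * (1 - l)⁻¹ * ∫⁻ ω in B i, Rn S n ω 1 ∂(perc Γ p))) := by
    refine le_trans (lintegral_mono hsum) ?_
    rw [lintegral_add_left ((measurable_Rn S n 1).mul_const _), lintegral_mul_const _ (measurable_Rn S n 1)]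
    refine add_le_add ?_ ?_
    · gcongr
      exact lintegral_Rn_le S p n
    · have hm : ∀ i ∈ I, ∀ z, Measurable
          (fun ω => SGF S n l (B i) (a i) z (setOn (Nd i) (η i) ω)) := fun i hi z =>
        (SGF_meas S n l (hB i hi) (a i) z).comp (SG_setOn_meas (Nd i) (η i))
      rw [lintegral_finsetSum']
      swap
      · intro i hi
        exact ((Measurable.tsum (fun z => hm i hi z)).const_mul _).aemeasurable
      refine Finset.sum_le_sum fun i hi => ?_
      rw [lintegral_const_mul _ (Measurable.tsum (fun z => hm i hi z))]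
      gcongr
      rw [lintegral_tsum (fun z => (hm i hi z).aemeasurable)]
      calc ∑' z, ∫⁻ ω, SGF S n l (B i) (a i) z (setOn (Nd i) (η i) ω) ∂(perc Γ p)
          ≤ ∑' z, cmin p ^ Nc * ∫⁻ ω, SGF S n l (B i) (a i) z ω ∂(perc Γ p) := by
            refine ENNReal.tsum_le_tsum fun z => ?_
            refine le_trans (cost p hp0 hp1 (Nd i) (η i) (SGF_meas S n l (hB i hi) (a i) z)) ?_
            gcongr
            · exact SG_one_le_cmin p
            · exact hNc i hi
        _ = cmin p ^ Nc * ∑' z, ∫⁻ ω, SGF S n l (B i) (a i) z ω ∂(perc Γ p) :=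
            ENNReal.tsum_mul_left
        _ ≤ _ := by
            gcongr
            exact SGF_sum S p n hl1 (hB i hi) (a i)
  -- conclude
  have hl0 : (1 - l) ≠ 0 := (tsub_pos_of_lt hl1).ne'
  have hlt : (1 - l) ≠ ⊤ := ENNReal.sub_ne_top (by simp)
  unfold Ms
  calc (1 - l) * ((theta S p n)⁻¹ *
        ∫⁻ ω, Rn S n ω 1 * ∑' z, (if P ω z then wt S l N ω h z else 0) ∂(perc Γ p))
      ≤ (1 - l) * ((theta S p n)⁻¹ * (theta S p n * S.q R2 + ∑ i ∈ I, 2 * 2 ^ K0 * (cmin p ^ Nc *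
        (2 * (1 - l)⁻¹ * ∫⁻ ω in B i, Rn S n ω 1 ∂(perc Γ p))))) := by gcongr
    _ = (1 - l) * (((theta S p n)⁻¹ * theta S p n) * S.q R2) +
        ((1 - l) * (1 - l)⁻¹) * (4 * 2 ^ K0 * cmin p ^ Nc *
          ∑ i ∈ I, ((theta S p n)⁻¹ * ∫⁻ ω in B i, Rn S n ω 1 ∂(perc Γ p))) := by
        rw [mul_add, mul_add, Finset.mul_sum, Finset.mul_sum, Finset.mul_sum, Finset.mul_sum]
        congr 1
        · ring
        · refine Finset.sum_congr rfl fun i _ => ?_
          ring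
    _ ≤ (1 - l) * (1 * S.q R2) +
        1 * (4 * 2 ^ K0 * cmin p ^ Nc *
          ∑ i ∈ I, ((theta S p n)⁻¹ * ∫⁻ ω in B i, Rn S n ω 1 ∂(perc Γ p))) := by
        gcongr
        · exact ENNReal.inv_mul_le_one _
        · exact (ENNReal.mul_inv_cancel hl0 hlt).le
    _ = (1 - l) * S.q R2 + 4 * 2 ^ K0 * cmin p ^ Nc * ∑ i ∈ I, mu S p n (B i) := by
        rw [one_mul, one_mul]
        congr 2
        refine Finset.sum_congr rfl fun i hi => ?_
        rw [mu_apply S p n (hB i hi)]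

end IICErg
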