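import Pool.Agent.Lib.MP_4c698b_pr.SDefs

/-!
# MP_4c698b_pr: adjacency after the surgery (module SurgA)
-/

open MeasureTheory Filter Topology
open scoped ENNReal Pointwise

namespace IICErg

variable {Γ : Type} [Group Γ]

theorem surg_adj (S : GenSet Γ) {g : ℕ → Γ} {t : ℕ} (hg : CPath S g t) (J I : Finset ℕ)
    (hJ : ∀ i ∈ J, i < t) (hI : ∀ i ∈ I, i ≤ t) (ω : Cfg Γ) (x y : Γ) :
    (og S (surg S g J I ω)).Adj x y ↔
      (∃ i ∈ J, s(x, y) = s(g i, g (i + 1))) ∨
        ((∀ i ∈ I, x ≠ g i ∧ y ≠ g i) ∧ (og S ω).Adj x y) := by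
  classical
  have hval : surg S g J I ω s(x, y) = (if s(x, y) ∈ modN S g J I then
      decide (∃ i ∈ J, s(x, y) = s(g i, g (i + 1))) else ω s(x, y)) := by
    unfold surg setOn modη
    congr
  have hadj : (og S (surg S g J I ω)).Adj x y ↔
      S.cay.Adj x y ∧ surg S g J I ω s(x, y) = true := Iff.rfl
  rw [hadj, hval]
  constructor
  · rintro ⟨hxy, h⟩
    by_cases hE : ∃ i ∈ J, s(x, y) = s(g i, g (i + 1))
    · exact Or.inl hE
    · right
      by_cases hN : s(x, y) ∈ modN S g J I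
      · rw [if_pos hN] at h
        exact absurd (of_decide_eq_true h) hE
      · rw [if_neg hN] at h
        refine ⟨fun i hi => ⟨?_, ?_⟩, hxy, h⟩
        · rintro rfl
          apply hN
          unfold modN
          rw [Finset.mem_union]
          right
          rw [Finset.mem_image]
          refine ⟨(i, (g i)⁻¹ * y), Finset.mem_product.2 ⟨hi, hxy⟩, ?_⟩
          simp
        · rintro rfl
          apply hN
          unfold modN
          rw [Finset.mem_union]
          right
          rw [Finset.mem_image]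
          refine ⟨(i, (g i)⁻¹ * x), Finset.mem_product.2 ⟨hi, hxy.symm⟩, ?_⟩
          simp [Sym2.eq_swap]
  · rintro (⟨i, hi, he⟩ | ⟨h1, h2⟩)
    · refine ⟨?_, ?_⟩
      · have h := hg.adj i (hJ i hi)
        rcases Sym2.eq_iff.1 he with ⟨rfl, rfl⟩ | ⟨rfl, rfl⟩
        · exact h
        · exact h.symm
      · rw [if_pos]
        · exact decide_eq_true ⟨i, hi, he⟩
        · unfold modN
          rw [Finset.mem_union]
          left
          rw [Finset.mem_image]
          exact ⟨i, hi, he.symm⟩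
    · refine ⟨h2.1, ?_⟩
      by_cases hN : s(x, y) ∈ modN S g J I
      · rw [if_pos hN]
        unfold modN at hN
        rw [Finset.mem_union, Finset.mem_image, Finset.mem_image] at hN
        rcases hN with ⟨i, hi, he⟩ | ⟨⟨i, a⟩, hi, he⟩
        · exact decide_eq_true ⟨i, hi, he.symm⟩
        · exfalso
          rw [Finset.mem_product] at hi
          have := h1 i hi.1
          rcases Sym2.eq_iff.1 he with ⟨h3, h4⟩ | ⟨h3, h4⟩
          · exact this.1 h3.symm
          · exact this.2 h3.symm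
      · rw [if_neg hN]
        exact h2.2

theorem modN_card (S : GenSet Γ) (g : ℕ → Γ) (J I : Finset ℕ) :
    (modN S g J I).card ≤ J.card + I.card * S.S.card := by
  classical
  unfold modN
  refine (Finset.card_union_le _ _).trans (Nat.add_le_add Finset.card_image_le ?_)
  refine Finset.card_image_le.trans ?_
  rw [Finset.card_product]

theorem SurgA_J {S : GenSet Γ} {g : ℕ → Γ} {t : ℕ} {h : Γ} {ω : Cfg Γ} {u v i0 i1 : ℕ}
    (hc : Cut S g t h ω u v i0 i1) : ∀ i ∈ JJ u v i0 i1, i < t := by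
  intro i hi
  have h1 := hc.huv
  have h2 := hc.hv
  have h3 := hc.hi
  have h4 := hc.ht
  simp only [JJ, Finset.mem_union, Finset.mem_Ico] at hi
  omega

theorem SurgA_I {S : GenSet Γ} {g : ℕ → Γ} {t : ℕ} {h : Γ} {ω : Cfg Γ} {u v i0 i1 : ℕ}
    (hc : Cut S g t h ω u v i0 i1) : ∀ i ∈ II u v i0 i1, i ≤ t := by
  intro i hi
  have h1 := hc.huv
  have h2 := hc.hv
  have h3 := hc.hi
  have h4 := hc.ht
  simp only [II, Finset.mem_union, Finset.mem_Ioo] at hi
  omega

theorem SurgA_notS {S : GenSet Γ} {g : ℕ → Γ} {t : ℕ} {h : Γ} {ω : Cfg Γ} {u v i0 i1 : ℕ}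
    (hc : Cut S g t h ω u v i0 i1) {i : ℕ} (hi : i ∈ II u v i0 i1) :
    ¬ (og S ω).Reachable 1 (g i) := by
  simp only [II, Finset.mem_union, Finset.mem_Ioo] at hi
  exact hc.hS i hi

theorem SurgA_notD {S : GenSet Γ} {g : ℕ → Γ} {t : ℕ} {h : Γ} {ω : Cfg Γ} {u v i0 i1 : ℕ}
    (hc : Cut S g t h ω u v i0 i1) {i : ℕ} (hi : i ∈ II u v i0 i1) :
    ¬ (og S ω).Reachable h (g i) := by
  have h2 := hc.hv
  have h3 := hc.hi
  simp only [II, Finset.mem_union, Finset.mem_Ioo] at hi
  exact hc.hD i (by omega)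

/-- adjacency after the surgery, at the vertices of `C(1)` -/
theorem surg_S (S : GenSet Γ) {g : ℕ → Γ} {t : ℕ} {h : Γ} {ω : Cfg Γ} {u v i0 i1 : ℕ}
    (hg : CPath S g t) (hdis : ¬ (og S ω).Reachable 1 h) (hc : Cut S g t h ω u v i0 i1)
    (x : Γ) (hx : (og S ω).Reachable 1 x) (y : Γ) :
    (og S (surg S g (JJ u v i0 i1) (II u v i0 i1) ω)).Adj x y ↔
      ((og S ω).Adj x y ∨ ∃ i ∈ JJ u v i0 i1, s(x, y) = s(g i, g (i + 1))) := by
  rw [surg_adj S hg _ _ (SurgA_J hc) (SurgA_I hc)]
  constructor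
  · rintro (h1 | h1)
    · exact Or.inr h1
    · exact Or.inl h1.2
  · rintro (h1 | h1)
    · right
      refine ⟨fun i hi => ⟨?_, ?_⟩, h1⟩
      · rintro rfl
        exact SurgA_notS hc hi hx
      · rintro rfl
        exact SurgA_notS hc hi (hx.trans h1.reachable)
    · exact Or.inl h1

/-- adjacency after the surgery, at the vertices of `C(h)` -/
theorem surg_D (S : GenSet Γ) {g : ℕ → Γ} {t : ℕ} {h : Γ} {ω : Cfg Γ} {u v i0 i1 : ℕ}
    (hg : CPath S g t) (hdis : ¬ (og S ω).Reachable 1 h) (hc : Cut S g t h ω u v i0 i1)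
    (x : Γ) (hx : (og S ω).Reachable h x) (y : Γ) :
    (og S (surg S g (JJ u v i0 i1) (II u v i0 i1) ω)).Adj x y ↔
      ((og S ω).Adj x y ∨ (x = g i1 ∧ y = g (i1 - 1))) := by
  have c1 := hc.huv
  have c2 := hc.hv
  have c3 := hc.hi
  have c4 := hc.ht
  rw [surg_adj S hg _ _ (SurgA_J hc) (SurgA_I hc)]
  constructor
  · rintro (⟨i, hi, he⟩ | h1)
    · right
      simp only [JJ, Finset.mem_union, Finset.mem_Ico] at hi
      have hi1 : i < i1 := by omega
      rcases Sym2.eq_iff.1 he with ⟨h3, h4⟩ | ⟨h3, h4⟩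
      · exact absurd (h3 ▸ hx) (hc.hD i hi1)
      · have : i + 1 = i1 := by
          by_contra hne
          exact hc.hD (i + 1) (by omega) (h3 ▸ hx)
        refine ⟨by rw [h3, this], ?_⟩
        rw [h4, ← this]
        simp
    · exact Or.inl h1.2
  · rintro (h1 | ⟨h1, h2⟩)
    · right
      refine ⟨fun i hi => ⟨?_, ?_⟩, h1⟩
      · rintro rfl
        exact SurgA_notD hc hi hx
      · rintro rfl
        exact SurgA_notD hc hi (hx.trans h1.reachable)
    · left
      refine ⟨i1 - 1, ?_, ?_⟩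
      · simp only [JJ, Finset.mem_union, Finset.mem_Ico]
        omega
      · rw [h1, h2, Nat.sub_add_cancel (by omega)]
        exact Sym2.eq_swap

/-- adjacency after the surgery, at the interior vertices -/
theorem surg_I (S : GenSet Γ) {g : ℕ → Γ} {t : ℕ} {h : Γ} {ω : Cfg Γ} {u v i0 i1 : ℕ}
    (hg : CPath S g t) (hc : Cut S g t h ω u v i0 i1) (i : ℕ) (hi : i ∈ II u v i0 i1) (y : Γ) :
    (og S (surg S g (JJ u v i0 i1) (II u v i0 i1) ω)).Adj (g i) y ↔
      (y = g (i - 1) ∨ y = g (i + 1)) := by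
  have c1 := hc.huv
  have c2 := hc.hv
  have c3 := hc.hi
  have c4 := hc.ht
  have hi' := hi
  simp only [II, Finset.mem_union, Finset.mem_Ioo] at hi'
  rw [surg_adj S hg _ _ (SurgA_J hc) (SurgA_I hc)]
  constructor
  · rintro (⟨j, hj, he⟩ | h1)
    · simp only [JJ, Finset.mem_union, Finset.mem_Ico] at hj
      rcases Sym2.eq_iff.1 he with ⟨h3, h4⟩ | ⟨h3, h4⟩
      · right
        have := hg.inj i (by omega) j (by omega) h3
        rw [h4, this]
      · left
        have := hg.inj i (by omega) (j + 1) (by omega) h3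
        rw [h4, this]
        simp
    · exact absurd rfl (h1.1 i hi).1
  · rintro (h1 | h1)
    · left
      refine ⟨i - 1, ?_, ?_⟩
      · simp only [JJ, Finset.mem_union, Finset.mem_Ico]
        omega
      · rw [h1, Nat.sub_add_cancel (by omega)]
        exact Sym2.eq_swap
    · left
      refine ⟨i, ?_, ?_⟩
      · simp only [JJ, Finset.mem_union, Finset.mem_Ico]
        omega
      · rw [h1]

end IICErg
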