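import Pool.Agent.Lib.MP_4c698b_pr.Attach
import Pool.Agent.Lib.MP_4c698b_pr.SurgA

/-!
# MP_4c698b_pr: facts needed for the surgery inequality (module SurgB)
-/

open MeasureTheory Filter Topology
open scoped ENNReal Pointwise

namespace IICErg

variable {Γ : Type} [Group Γ]

/-- the path after the surgery -/
theorem SurgB_path (S : GenSet Γ) {g : ℕ → Γ} {t : ℕ} {h : Γ} {ω : Cfg Γ} {u v i0 i1 : ℕ}
    (hg : CPath S g t) (hc : Cut S g t h ω u v i0 i1) (j : ℕ) (hj : i0 ≤ j) (hj1 : j ≤ i1) :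
    dle (og S (surg S g (JJ u v i0 i1) (II u v i0 i1) ω)) (j - i0) (g i0) (g j) := by
  induction j, hj using Nat.le_induction with
  | base => exact ⟨SimpleGraph.Walk.nil, by simp⟩
  | succ j hj ih =>
    have h1 := ih (by omega)
    have h2 : (og S (surg S g (JJ u v i0 i1) (II u v i0 i1) ω)).Adj (g j) (g (j + 1)) := by
      rw [surg_adj S hg _ _ (SurgA_J hc) (SurgA_I hc)]
      left
      exact ⟨j, by simp only [JJ, Finset.mem_union, Finset.mem_Ico]; omega, rfl⟩
    have h3 := dle_trans h1 (dle_of_adj h2)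
    rwa [show j - i0 + 1 = j + 1 - i0 by omega] at h3

/-- facts needed for the surgery inequality -/
theorem surg_facts (S : GenSet Γ) {g : ℕ → Γ} {t : ℕ} {h : Γ} {ω : Cfg Γ} {u v i0 i1 : ℕ}
    (hg : CPath S g t) (hdis : ¬ (og S ω).Reachable 1 h)
    (hc : Cut S g t h ω u v i0 i1) {m n K0 : ℕ}
    (hDf : (cl S ω h).Finite) (hDm : (cl S ω h).ncard ≤ m) (hn : 2 * m + t ≤ n)
    (hR : Rn S n ω 1 ≠ 0) (hK : dle (og S ω) K0 h (g i1)) (z : Γ)
    (hz : (og S ω).Reachable h z) :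
    let ω' := surg S g (JJ u v i0 i1) (II u v i0 i1) ω
    Rn S n ω 1 ≤ 2 * Rn S n ω' z ∧
    (og S ω').dist (g i1) z ≤ K0 + (og S ω).dist h z ∧
    Br S ω' z (g i1) ∧
    (∀ R, ¬ dle (og S ω) R z (g i1) → ∀ x y, dle (og S ω) R z x →
      ((og S ω).Adj x y ↔ (og S ω').Adj x y)) ∧
    (∀ k, dle (og S ω) k z (g i1) → dle (og S ω') (k + t) z (g i0)) ∧
    (∀ k k', dle (og S ω) k z (g i1) → dle (og S ω) k' (g v) (g i0) →
      dle (og S ω') (k + t + k') z (g v)) := by
  classical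
  intro ω'
  have c1 := hc.huv
  have c2 := hc.hv
  have c3 := hc.hi
  have c4 := hc.ht
  have hpath : ∀ j, (u ≤ j ∧ j ≤ v) ∨ (i0 ≤ j ∧ j ≤ i1) →
      g j ∈ cl S ω 1 ∪ ↑((II u v i0 i1).image g) ∪ cl S ω h := by
    intro j hj
    by_cases h1 : j ∈ II u v i0 i1
    · left
      right
      rw [Finset.mem_coe, Finset.mem_image]
      exact ⟨j, h1, rfl⟩
    · simp only [II, Finset.mem_union, Finset.mem_Ioo] at h1
      have h2 : j = u ∨ j = v ∨ j = i0 ∨ j = i1 := by omega
      rcases h2 with rfl | rfl | rfl | rfl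
      · exact Or.inl (Or.inl hc.ru)
      · exact Or.inl (Or.inl hc.rv)
      · exact Or.inl (Or.inl hc.r0)
      · exact Or.inr hc.r1
  have hW : ((II u v i0 i1).image g).card ≤ t := by
    refine Finset.card_image_le.trans ?_
    have : II u v i0 i1 ⊆ Finset.range t := by
      intro i hi
      simp only [II, Finset.mem_union, Finset.mem_Ioo] at hi
      rw [Finset.mem_range]
      omega
    simpa using Finset.card_le_card this
  have hb : g (i1 - 1) ∉ cl S ω h := hc.hD (i1 - 1) (by omega)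
  have hbW : g (i1 - 1) ∈ cl S ω 1 ∪ ↑((II u v i0 i1).image g) := by
    rcases hpath (i1 - 1) (Or.inr ⟨by omega, by omega⟩) with h1 | h1
    · exact h1
    · exact absurd h1 hb
  have h1 : ∀ x ∈ cl S ω 1, ∀ y, (og S ω).Adj x y → (og S ω').Adj x y := by
    intro x hx y hxy
    exact (surg_S S hg hdis hc x hx y).2 (Or.inl hxy)
  have h2 : ∀ x ∈ cl S ω h, ∀ y,
      (og S ω').Adj x y ↔ ((og S ω).Adj x y ∨ (x = g i1 ∧ y = g (i1 - 1))) := by
    intro x hx y
    exact surg_D S hg hdis hc x hx y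
  have h3 : ∀ x ∈ cl S ω 1 ∪ ↑((II u v i0 i1).image g), ∀ y, (og S ω').Adj x y →
      y ∈ cl S ω 1 ∪ ↑((II u v i0 i1).image g) ∪ cl S ω h := by
    rintro x (hx | hx) y hxy
    · rcases (surg_S S hg hdis hc x hx y).1 hxy with h5 | ⟨i, hi, he⟩
      · exact Or.inl (Or.inl (SimpleGraph.Reachable.trans hx h5.reachable))
      · simp only [JJ, Finset.mem_union, Finset.mem_Ico] at hi
        rcases Sym2.eq_iff.1 he with ⟨_, h6⟩ | ⟨_, h6⟩
        · rw [h6]
          exact hpath _ (by omega)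
        · rw [h6]
          exact hpath _ (by omega)
    · rw [Finset.mem_coe, Finset.mem_image] at hx
      obtain ⟨i, hi, rfl⟩ := hx
      have hi' := hi
      simp only [II, Finset.mem_union, Finset.mem_Ioo] at hi'
      rcases (surg_I S hg hc i hi y).1 hxy with h6 | h6
      · rw [h6]
        exact hpath _ (by omega)
      · rw [h6]
        exact hpath _ (by omega)
  have clA : ∀ x y, x ∈ cl S ω 1 → (og S ω).Adj x y → y ∈ cl S ω 1 := fun x y hx hxy =>
    SimpleGraph.Reachable.trans hx hxy.reachable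
  have hi01 : dle (og S ω') (i1 - i0) (g i1) (g i0) :=
    dle_symm (SurgB_path S hg hc i1 hc.hi.le le_rfl)
  have h4 : (og S ω').Reachable (g (i1 - 1)) 1 := by
    obtain ⟨w, _⟩ := SurgB_path S hg hc (i1 - 1) (by omega) (by omega)
    have e1 : (og S ω').Reachable (g (i1 - 1)) (g i0) := ⟨w.reverse⟩
    exact e1.trans (Attach_reach (· ∈ cl S ω 1) clA (fun x y hx hxy => h1 x hx y hxy) hc.r0
      hc.r0.symm)
  obtain ⟨r1, r2, r3, r4, r5⟩ := attach S ω ω' h (g i1) (g (i1 - 1)) ((II u v i0 i1).image g) m t n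
    K0 hDf hDm hW hdis hc.r1 hb hbW h1 h2 h3 h4 hn hR hK z hz
  have r6 : ∀ k, dle (og S ω) k z (g i1) → dle (og S ω') (k + t) z (g i0) := by
    intro k hk
    exact dle_mono (by omega) (dle_trans (r5 k hk) hi01)
  refine ⟨r1, r2, r3, r4, r6, ?_⟩
  intro k k' hk hk'
  have e1 : dle (og S ω') k' (g v) (g i0) :=
    Attach_dle (· ∈ cl S ω 1) clA (fun x y hx hxy => h1 x hx y hxy) hc.rv hk'
  exact dle_trans (r6 k hk) (dle_symm e1)

end IICErg
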