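import Pool.Agent.Lib.MP_4c698b_pr.BasicB

/-!
# MP_4c698b_pr, module Theta: the radius of the cluster of `1`
-/

open MeasureTheory Filter Topology
open scoped ENNReal Pointwise

namespace IICErg

variable {Γ : Type} [Group Γ]

theorem crit_ball (S : GenSet Γ) (n : ℕ) (x : Γ) : x ∈ S.ball n ↔ S.cay.dist 1 x ≤ n := by
  have h := S.mem_ball n 1 x
  rw [inv_one, one_mul, dle_iff] at h
  rw [h]
  exact ⟨fun h => h.2, fun h => ⟨(cay_connected S).preconnected 1 x, h⟩⟩

/-! ## the radius of the cluster -/

theorem crit_inf (S : GenSet Γ) :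
    {ω : Cfg Γ | ¬ (cl S ω 1).Finite} = ⋂ n, {ω | far S n ω 1} := by
  ext ω
  simp only [Set.mem_ofPred_eq, Set.mem_iInter]
  constructor
  · intro hinf n
    rw [far_iff]
    by_contra hcon
    push Not at hcon
    apply hinf
    refine (S.ball n).finite_toSet.subset ?_
    intro y hy
    rw [Finset.mem_coe, crit_ball]
    exact (hcon y hy).le
  · intro hfar hfin
    obtain ⟨N, hN⟩ := (hfin.image (fun y => S.cay.dist 1 y)).bddAbove
    obtain ⟨y, hy, hd⟩ := hfar (N + 1)
    have := hN ⟨y, hy, rfl⟩
    simp only at this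
    omega

theorem theta_anti (S : GenSet Γ) (p : unitInterval) : Antitone (theta S p) := by
  intro m n hmn
  exact measure_mono fun ω hω => far_mono S hmn ω 1 hω

theorem theta_lim (S : GenSet Γ) (p : unitInterval) :
    Tendsto (theta S p) atTop (𝓝 (perc Γ p {ω | ¬ (cl S ω 1).Finite})) := by
  rw [crit_inf]
  exact tendsto_measure_iInter_atTop
    (fun n => (measurableSet_far S n 1).nullMeasurableSet)
    (fun m n hmn ω hω => far_mono S hmn ω 1 hω) ⟨0, measure_ne_top _ _⟩

end IICErg
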