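import Pool.Agent.Lib.MP_4c698b_pr.SDefs

/-!
# Module Tight: two lemmas on ultrafilters
-/

open MeasureTheory Filter Topology
open scoped ENNReal Pointwise

namespace IICErg

theorem tight1 (U : Ultrafilter ℕ) (a : ℕ → ℕ → ℝ≥0∞) (hm : ∀ n K K', K ≤ K' → a K n ≤ a K' n)
    (hb : ∀ K n, a K n ≤ 1) {ε : ℝ≥0∞} (hε : ε ≠ 0) :
    ∃ K1, ∀ K2 ≥ K1, ∀ᶠ n in (U : Filter ℕ), a K2 n ≤ a K1 n + ε := by
  by_contra hcon
  push Not at hcon
  choose f hf1 hf2 using hcon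
  have hf3 : ∀ K, ∀ᶠ n in (U : Filter ℕ), a K n + ε < a (f K) n := by
    intro K
    exact hf2 K
  have key : ∀ j : ℕ, ∀ᶠ n in (U : Filter ℕ), (j : ℝ≥0∞) * ε ≤ a (f^[j] 0) n := by
    intro j
    induction j with
    | zero => exact Filter.Eventually.of_forall fun n => by simp
    | succ j ih =>
      filter_upwards [ih, hf3 (f^[j] 0)] with n h1 h2
      rw [Function.iterate_succ_apply']
      push_cast
      rw [add_mul, one_mul]
      exact (add_le_add_left h1 ε).trans h2.le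
  obtain ⟨j, hj⟩ := ENNReal.exists_nat_mul_gt hε ENNReal.one_ne_top
  obtain ⟨n, hn⟩ := (key j).exists
  exact absurd (hn.trans (hb _ _)) (not_le.mpr hj)

theorem tight2 (U : Ultrafilter ℕ) (b : ℕ → ℕ → ℕ → ℝ≥0∞)
    (hm : ∀ s n k k', k ≤ k' → b k s n ≤ b k' s n)
    (hb : ∀ k s n, b k s n ≤ 1) {ε : ℝ≥0∞} (hε : ε ≠ 0) :
    ∃ k1, ∀ k ≥ k1, ∀ s0, ∃ s ≥ s0, ∀ᶠ n in (U : Filter ℕ), b k s n ≤ b k1 s n + ε := by
  by_contra hcon
  push Not at hcon
  choose f hf1 s0 hf2 using hcon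
  have hf3 : ∀ K, ∀ s ≥ s0 K, ∀ᶠ n in (U : Filter ℕ), b K s n + ε < b (f K) s n := by
    intro K s hs
    exact hf2 K s hs
  have key : ∀ j : ℕ, ∃ T, ∀ s ≥ T, ∀ᶠ n in (U : Filter ℕ),
      (j : ℝ≥0∞) * ε ≤ b (f^[j] 0) s n := by
    intro j
    induction j with
    | zero => exact ⟨0, fun s _ => Filter.Eventually.of_forall fun n => by simp⟩
    | succ j ih =>
      obtain ⟨T, hT⟩ := ih
      refine ⟨max T (s0 (f^[j] 0)), fun s hs => ?_⟩
      filter_upwards [hT s ((le_max_left _ _).trans hs),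
        hf3 (f^[j] 0) s ((le_max_right _ _).trans hs)] with n h1 h2
      rw [Function.iterate_succ_apply']
      push_cast
      rw [add_mul, one_mul]
      exact (add_le_add_left h1 ε).trans h2.le
  obtain ⟨j, hj⟩ := ENNReal.exists_nat_mul_gt hε ENNReal.one_ne_top
  obtain ⟨T, hT⟩ := key j
  obtain ⟨n, hn⟩ := (hT T le_rfl).exists
  exact absurd (hn.trans (hb _ _ _)) (not_le.mpr hj)

end IICErg
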