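import Pool.Agent.Lib.MP_4c698b_pr.BasicA
import Pool.Agent.Lib.MP_4c698b_pr.SurgA
import Pool.Agent.Lib.MP_4c698b_pr.TransferA

/-!
# MP_4c698b_pr, module TransferB: the resolvent estimate for surgery 1
-/

open MeasureTheory Filter Topology
open scoped ENNReal Pointwise

namespace IICErg

variable {Γ : Type} [Group Γ]

/-- the same for surgery 1 -/
theorem surg_transfer (S : GenSet Γ) {g : ℕ → Γ} {t : ℕ} {h : Γ} {ω : Cfg Γ} {i0 i1 : ℕ}
    (hg : CPath S g t) (hdis : ¬ (og S ω).Reachable 1 h)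
    (hc : Cut S g t h ω i0 i0 i0 i1) {m n : ℕ}
    (hDf : (cl S ω h).Finite) (hDm : (cl S ω h).ncard ≤ m)
    (hR : Rn S n ω 1 ≠ 0)
    {R : ℕ} {F : Set (Cfg Γ)} (hF : IsLoc S R F) {ρ : ℝ} (hρ : 1 / 2 ≤ ρ) (hρ1 : ρ < 1)
    (L ℓ : ℕ) (hℓ : ℓ ≤ n) :
    |gav S ρ L F (surg S g (JJ i0 i0 i0 i1) (II i0 i0 i0 i1) ω) (g i0) - gav S ρ L F ω (g i0)| ≤
      2 * ρ ^ L + (S.q R + 2 * (m + t : ℕ)) *
        (1 / (ℓ + 1) + ℓ * Real.sqrt (4 * S.S.card * (1 - ρ))) := by
  classical
  obtain ⟨hfin, hcard⟩ := Rn_ne_zero hR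
  have hi := hc.hi
  have ht := hc.ht
  have memA : ∀ x, x ∈ hfin.toFinset ↔ (og S ω).Reachable 1 x := by
    intro x
    rw [Set.Finite.mem_toFinset]
    rfl
  have memD : ∀ x, x ∈ hDf.toFinset ↔ (og S ω).Reachable h x := by
    intro x
    rw [Set.Finite.mem_toFinset]
    rfl
  set B : Finset Γ := hDf.toFinset ∪ (Finset.Ioo i0 i1).image g with hB
  have memB : ∀ x, x ∈ B ↔ (og S ω).Reachable h x ∨ ∃ i, (i0 < i ∧ i < i1) ∧ g i = x := by
    intro x
    rw [hB, Finset.mem_union, memD, Finset.mem_image]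
    simp only [Finset.mem_Ioo]
  have hBc : B.card ≤ m + t := by
    calc B.card ≤ hDf.toFinset.card + ((Finset.Ioo i0 i1).image g).card :=
          Finset.card_union_le _ _
      _ ≤ m + t := by
          apply Nat.add_le_add
          · rw [← Set.ncard_eq_toFinset_card _ hDf]; exact hDm
          · calc ((Finset.Ioo i0 i1).image g).card ≤ (Finset.Ioo i0 i1).card :=
                  Finset.card_image_le
              _ = i1 - i0 - 1 := Nat.card_Ioo i0 i1
              _ ≤ t := by omega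
  have hJ : ∀ i, i ∈ JJ i0 i0 i0 i1 ↔ i0 ≤ i ∧ i < i1 := by
    intro i
    unfold JJ
    rw [Finset.Ico_self, Finset.empty_union, Finset.mem_Ico]
  have hI : ∀ i, i ∈ II i0 i0 i0 i1 ↔ i0 < i ∧ i < i1 := by
    intro i
    unfold II
    rw [Finset.Ioo_self, Finset.empty_union, Finset.mem_Ioo]
  -- vertices of the path after `i0` are not in `C(1)`
  have hnS : ∀ i, i0 < i → i ≤ i1 → ¬ (og S ω).Reachable 1 (g i) := by
    intro i h1 h2 h3
    rcases Nat.lt_or_ge i i1 with h4 | h4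
    · exact hc.hS i (Or.inr ⟨h1, h4⟩) h3
    · have : i = i1 := le_antisymm h2 h4
      subst this
      exact hdis (h3.trans hc.r1.symm)
  have hy1 : g (i0 + 1) ∈ B := by
    rw [memB]
    rcases Nat.lt_or_ge (i0 + 1) i1 with h1 | h1
    · exact Or.inr ⟨i0 + 1, ⟨by omega, h1⟩, rfl⟩
    · have : i0 + 1 = i1 := by omega
      rw [this]
      exact Or.inl hc.r1
  have hAB : Disjoint hfin.toFinset B := by
    rw [Finset.disjoint_left]
    intro x hx hx'
    rw [memA] at hx
    rw [memB] at hx'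
    rcases hx' with h1 | ⟨i, ⟨h1, h2⟩, rfl⟩
    · exact hdis (hx.trans h1.symm)
    · exact hnS i h1 h2.le hx
  have key := transfer S ω (surg S g (JJ i0 i0 i0 i1) (II i0 i0 i0 i1) ω) hfin.toFinset B (g i0)
    (g (i0 + 1)) ((memA _).2 hc.r0) hy1 hAB
    (fun x => by
      rw [memA]
      exact ⟨fun h1 => hc.r0.symm.trans h1, fun h1 => hc.r0.trans h1⟩)
    (fun x hx y => by
      rw [surg_S S hg hdis hc x ((memA x).1 hx) y]
      constructor
      · rintro (h1 | ⟨i, hi', he⟩)
        · exact Or.inl h1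
        · right
          rw [hJ] at hi'
          rw [memA] at hx
          rcases Sym2.eq_iff.1 he with ⟨h1, h2⟩ | ⟨h1, h2⟩
          · have : i = i0 := by
              by_contra hne
              exact hnS i (by omega) hi'.2.le (h1 ▸ hx)
            subst this
            exact ⟨h1, h2⟩
          · exact absurd (h1 ▸ hx) (hnS (i + 1) (by omega) (by omega))
      · rintro (h1 | ⟨h1, h2⟩)
        · exact Or.inl h1
        · right
          refine ⟨i0, (hJ i0).2 ⟨le_rfl, hi⟩, ?_⟩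
          rw [h1, h2])
    (fun x hx y hxy => by
      rw [memB] at hx
      rw [memB]
      rcases hx with hx | ⟨i, ⟨h1, h2⟩, rfl⟩
      · rw [surg_D S hg hdis hc x hx y] at hxy
        rcases hxy with h3 | ⟨h3, h4⟩
        · exact Or.inl (Or.inl (hx.trans h3.reachable))
        · rcases Nat.lt_or_ge i0 (i1 - 1) with h5 | h5
          · exact Or.inl (Or.inr ⟨i1 - 1, ⟨h5, by omega⟩, h4.symm⟩)
          · right
            have h6 : i1 = i0 + 1 := by omega
            rw [h6] at h3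
            have h7 : i1 - 1 = i0 := by omega
            rw [h7] at h4
            exact ⟨h3, h4⟩
      · rw [surg_I S hg hc i ((hI i).2 ⟨h1, h2⟩) y] at hxy
        rcases hxy with h3 | h3
        · rcases Nat.lt_or_ge i0 (i - 1) with h5 | h5
          · exact Or.inl (Or.inr ⟨i - 1, ⟨h5, by omega⟩, h3.symm⟩)
          · right
            have h6 : i = i0 + 1 := by omega
            rw [h6] at h3 ⊢
            exact ⟨rfl, h3⟩
        · rcases Nat.lt_or_ge (i + 1) i1 with h5 | h5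
          · exact Or.inl (Or.inr ⟨i + 1, ⟨by omega, h5⟩, h3.symm⟩)
          · left; left
            have h6 : i + 1 = i1 := by omega
            rw [h3, h6]
            exact hc.r1)
    hF hρ hρ1 L ℓ (by
      rw [← Set.ncard_eq_toFinset_card _ hfin]
      omega)
  refine key.trans ?_
  have hM : 0 ≤ 1 / ((ℓ : ℝ) + 1) + ℓ * Real.sqrt (4 * S.S.card * (1 - ρ)) := by positivity
  have hBc' : (B.card : ℝ) ≤ ((m + t : ℕ) : ℝ) := by exact_mod_cast hBc
  have : ((S.q R : ℝ) + 2 * B.card) * (1 / ((ℓ : ℝ) + 1) + ℓ * Real.sqrt (4 * S.S.card * (1 - ρ)))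
      ≤ ((S.q R : ℝ) + 2 * (m + t : ℕ)) *
        (1 / ((ℓ : ℝ) + 1) + ℓ * Real.sqrt (4 * S.S.card * (1 - ρ))) :=
    mul_le_mul_of_nonneg_right (by linarith) hM
  linarith

end IICErg
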