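import Pool.Agent.Lib.MP_4c698b_pr.SDefs
import Pool.Agent.Lib.MP_4c698b_pr.BasicA
import Pool.Agent.Lib.MP_4c698b_pr.BasicB
import Pool.Agent.Lib.MP_4c698b_pr.BK
import Pool.Agent.Lib.MP_4c698b_pr.WalksA

/-!
# MP_4c698b_pr, module WalksC: tree graph inequality, second form
-/

open MeasureTheory Filter Topology
open scoped ENNReal Pointwise

namespace IICErg

variable {Γ : Type} [Group Γ]

theorem WalksC_first {V : Type} (G : SimpleGraph V) (A : Set V) {a b : V} (σ : G.Walk a b)
    (hb : b ∈ A) : ∃ v ∈ A, ∃ σ' : G.Walk a v, ∀ u ∈ σ'.support, u ∈ A → u = v := by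
  induction σ with
  | nil => exact ⟨_, hb, SimpleGraph.Walk.nil, by simp⟩
  | @cons u v w h p ih =>
    by_cases hu : u ∈ A
    · exact ⟨u, hu, SimpleGraph.Walk.nil, by simp⟩
    · obtain ⟨v', hv', σ', hσ'⟩ := ih hb
      refine ⟨v', hv', SimpleGraph.Walk.cons h σ', ?_⟩
      intro y hy hyA
      rw [SimpleGraph.Walk.support_cons, List.mem_cons] at hy
      rcases hy with rfl | hy
      · exact absurd hyA hu
      · exact hσ' y hy hyA

open Classical in
theorem WalksC_det {V : Type} (G : SimpleGraph V) {x z x' : V} (w : G.Walk x z)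
    (hr : G.Reachable x x') : ∃ v, ∃ (a : G.Walk x v) (b : G.Walk v x') (c : G.Walk v z),
      (a.append b).IsPath ∧ c.length ≤ w.length ∧
      Disjoint (a.append b).edges.toFinset c.edges.toFinset := by
  obtain ⟨σ⟩ := hr.symm
  set π := w.bypass with hπ
  have hπp : π.IsPath := w.bypass_isPath
  obtain ⟨v, hv, σ', hσ'⟩ := WalksC_first G {u | u ∈ π.support} σ (by simp)
  have hv : v ∈ π.support := hv
  set ρ := σ'.bypass with hρ
  have hρp : ρ.IsPath := σ'.bypass_isPath
  have hρA : ∀ u ∈ ρ.support, u ∈ π.support → u = v := fun u hu hu' =>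
    hσ' u (σ'.support_bypass_subset_support hu) hu'
  refine ⟨v, π.takeUntil v hv, ρ.reverse, π.dropUntil v hv, ?_, ?_, ?_⟩
  · rw [SimpleGraph.Walk.isPath_def, SimpleGraph.Walk.support_append]
    rw [List.nodup_append]
    refine ⟨(hπp.takeUntil hv).support_nodup, ?_, ?_⟩
    · exact (hρp.reverse).support_nodup.sublist (List.tail_sublist _)
    · intro a ha b hb hab
      subst hab
      have h1 : a ∈ ρ.reverse.support := List.mem_of_mem_tail hb
      have h2 : a ∈ ρ.support := by simpa using h1
      have h3 : a = v := hρA a h2 (π.support_takeUntil_subset_support hv ha)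
      subst h3
      have h4 := (hρp.reverse).support_nodup
      rw [← SimpleGraph.Walk.cons_tail_support] at h4
      exact (List.nodup_cons.1 h4).1 hb
  · have h1 : (π.dropUntil v hv).length ≤ π.length := SimpleGraph.Walk.length_dropUntil_le_length π hv
    have h2 : π.length ≤ w.length := w.length_bypass_le_length
    omega
  · have hnd : π.edges.Nodup := hπp.isTrail.edges_nodup
    rw [← π.take_spec hv, SimpleGraph.Walk.edges_append] at hnd
    rw [Finset.disjoint_left]
    intro e he he'
    rw [List.mem_toFinset] at he he'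
    rw [SimpleGraph.Walk.edges_append, List.mem_append] at he
    rcases he with he | he
    · exact (List.nodup_append.1 hnd).2.2 e he e he' rfl
    · have he1 : e ∈ ρ.edges := by simpa using he
      induction e using Sym2.ind with
      | _ c d =>
      have hcd : c ≠ d := (SimpleGraph.Walk.adj_of_mem_edges _ he1).ne
      have e1 : c ∈ π.support := π.support_dropUntil_subset_support hv
        (SimpleGraph.Walk.fst_mem_support_of_mem_edges _ he')
      have e2 : d ∈ π.support := π.support_dropUntil_subset_support hv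
        (SimpleGraph.Walk.snd_mem_support_of_mem_edges _ he')
      have e3 := hρA c (SimpleGraph.Walk.fst_mem_support_of_mem_edges _ he1) e1
      have e4 := hρA d (SimpleGraph.Walk.snd_mem_support_of_mem_edges _ he1) e2
      exact hcd (e3.trans e4.symm)

open Classical in
theorem WalksC_occ (S : GenSet Γ) (ω : Cfg Γ) {x1 y1 x2 y2 x3 y3 x4 y4 : Γ} (n : ℕ)
    (a : (og S ω).Walk x1 y1) (b : (og S ω).Walk x2 y2) (c : (og S ω).Walk x3 y3)
    (d : (og S ω).Walk x4 y4) (hd : d.length ≤ n)
    (hnd : (a.edges ++ b.edges ++ c.edges).Nodup)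
    (hdis : ∀ e, e ∈ a.edges ++ b.edges ++ c.edges → e ∉ d.edges) :
    ω ∈ occ (dj (dj (dj (wfI S x1 y1) (wfI S x2 y2)) (wfI S x3 y3)) (wf S n x4 y4)) := by
  obtain ⟨ha1, ha2⟩ := walk_wf S ω a
  obtain ⟨hb1, hb2⟩ := walk_wf S ω b
  obtain ⟨hc1, hc2⟩ := walk_wf S ω c
  obtain ⟨hd1, hd2⟩ := walk_wf S ω d
  have hd1' : d.edges.toFinset ∈ wf S n x4 y4 := by
    obtain ⟨w, hw, hw'⟩ := hd1
    exact ⟨w, hw.trans hd, hw'⟩
  have hab : Disjoint a.edges.toFinset b.edges.toFinset := by
    rw [Finset.disjoint_left]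
    intro e he he'
    rw [List.mem_toFinset] at he he'
    exact (List.nodup_append.1 (List.nodup_append.1 hnd).1).2.2 e he e he' rfl
  have habc : Disjoint (a.edges.toFinset ∪ b.edges.toFinset) c.edges.toFinset := by
    rw [Finset.disjoint_left]
    intro e he he'
    rw [Finset.mem_union, List.mem_toFinset, List.mem_toFinset] at he
    rw [List.mem_toFinset] at he'
    exact (List.nodup_append.1 hnd).2.2 e (List.mem_append.2 he) e he' rfl
  refine ⟨((a.edges.toFinset ∪ b.edges.toFinset) ∪ c.edges.toFinset) ∪ d.edges.toFinset, ?_, ?_⟩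
  · refine ⟨_, ⟨_, ⟨_, ⟨_, ha1⟩, _, ⟨_, hb1⟩, hab, rfl⟩, _, ⟨_, hc1⟩, habc, rfl⟩, _, hd1', ?_, rfl⟩
    rw [Finset.disjoint_left]
    intro e he he'
    rw [Finset.mem_union, Finset.mem_union, List.mem_toFinset, List.mem_toFinset,
      List.mem_toFinset] at he
    rw [List.mem_toFinset] at he'
    refine hdis e ?_ he'
    rw [List.mem_append, List.mem_append]
    exact he
  · intro e he
    rw [Finset.mem_union, Finset.mem_union, Finset.mem_union] at he
    rcases he with ((he | he) | he) | he
    · exact ha2 e he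
    · exact hb2 e he
    · exact hc2 e he
    · exact hd2 e he

theorem WalksC_bk (S : GenSet Γ) (p : unitInterval) (x1 y1 x2 y2 x3 y3 x4 y4 : Γ) (n : ℕ) :
    perc Γ p (occ (dj (dj (dj (wfI S x1 y1) (wfI S x2 y2)) (wfI S x3 y3)) (wf S n x4 y4))) ≤
      tau S p x1 y1 * tau S p x2 y2 * tau S p x3 y3 *
        perc Γ p {ω | dle (og S ω) n x4 y4} := by
  have e1 : ∀ x y, perc Γ p (occ (wfI S x y)) = tau S p x y := fun x y => by
    rw [occ_wfI]; rfl
  refine (bk_occ S p _ _).trans ?_
  rw [occ_wf]
  gcongr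
  refine (bk_occ S p _ _).trans ?_
  rw [e1]
  gcongr
  refine (bk_occ S p _ _).trans ?_
  rw [e1, e1]

open Classical in
/-- tree graph inequality, second form -/
theorem tg2 (S : GenSet Γ) (p : unitInterval) (n r : ℕ) (x z x' : Γ) :
    perc Γ p {ω | dle (og S ω) n x z ∧ (og S ω).Reachable x x' ∧
      ¬ dle (og S ω) (S.q r) x x'} ≤
      ∑' y, (if x⁻¹ * y ∈ S.ball r then 0 else
        ∑' v, (tau S p x y * tau S p y v * tau S p v x' +
          tau S p x v * tau S p v y * tau S p y x') * perc Γ p {ω | dle (og S ω) n v z}) := by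
  have := S.countable
  have hsub : {ω | dle (og S ω) n x z ∧ (og S ω).Reachable x x' ∧
      ¬ dle (og S ω) (S.q r) x x'} ⊆ ⋃ y, ⋃ v,
        {ω | x⁻¹ * y ∉ S.ball r ∧
          (ω ∈ occ (dj (dj (dj (wfI S x y) (wfI S y v)) (wfI S v x')) (wf S n v z)) ∨
           ω ∈ occ (dj (dj (dj (wfI S x v) (wfI S v y)) (wfI S y x')) (wf S n v z)))} := by
    rintro ω ⟨⟨w, hw⟩, hr, hq⟩
    obtain ⟨v, a, b, c, hp, hc, hdis⟩ := WalksC_det (og S ω) w hr
    -- a vertex outside the ball
    obtain ⟨y, hy, hyb⟩ : ∃ y ∈ (a.append b).support, x⁻¹ * y ∉ S.ball r := by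
      by_contra hcon
      push Not at hcon
      apply hq
      refine ⟨a.append b, ?_⟩
      have h1 : ((a.append b).support.toFinset.image (fun y => x⁻¹ * y)) ⊆ S.ball r := by
        intro g hg
        obtain ⟨y, hy, rfl⟩ := Finset.mem_image.1 hg
        exact hcon y (List.mem_toFinset.1 hy)
      have h2 := Finset.card_le_card h1
      rw [Finset.card_image_of_injective _ (mul_right_injective _),
        List.toFinset_card_of_nodup hp.support_nodup, SimpleGraph.Walk.length_support] at h2
      unfold GenSet.q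
      omega
    have hnd : (a.append b).edges.Nodup := hp.isTrail.edges_nodup
    rw [SimpleGraph.Walk.edges_append] at hnd hdis
    simp only [Set.mem_iUnion]
    refine ⟨y, v, hyb, ?_⟩
    rw [SimpleGraph.Walk.mem_support_append_iff] at hy
    have hdis' : ∀ e, e ∈ a.edges ++ b.edges → e ∉ c.edges := by
      intro e he he'
      exact (Finset.disjoint_left.1 hdis) (List.mem_toFinset.2 he) (List.mem_toFinset.2 he')
    rcases hy with hy | hy
    · left
      have hae : a.edges = (a.takeUntil y hy).edges ++ (a.dropUntil y hy).edges := by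
        rw [← SimpleGraph.Walk.edges_append, a.take_spec hy]
      rw [hae] at hnd hdis'
      exact WalksC_occ S ω n (a.takeUntil y hy) (a.dropUntil y hy) b c (hc.trans hw) hnd hdis'
    · right
      have hbe : b.edges = (b.takeUntil y hy).edges ++ (b.dropUntil y hy).edges := by
        rw [← SimpleGraph.Walk.edges_append, b.take_spec hy]
      rw [hbe, ← List.append_assoc] at hnd hdis'
      exact WalksC_occ S ω n a (b.takeUntil y hy) (b.dropUntil y hy) c (hc.trans hw) hnd hdis'
  refine (measure_mono hsub).trans ((measure_iUnion_le _).trans (ENNReal.tsum_le_tsum fun y => ?_))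
  by_cases hy : x⁻¹ * y ∈ S.ball r
  · rw [if_pos hy]
    have : (⋃ v, {ω | x⁻¹ * y ∉ S.ball r ∧
          (ω ∈ occ (dj (dj (dj (wfI S x y) (wfI S y v)) (wfI S v x')) (wf S n v z)) ∨
           ω ∈ occ (dj (dj (dj (wfI S x v) (wfI S v y)) (wfI S y x')) (wf S n v z)))}) = ∅ := by
      simp [hy]
    rw [this]
    simp
  · rw [if_neg hy]
    refine (measure_iUnion_le _).trans (ENNReal.tsum_le_tsum fun v => ?_)
    rw [add_mul]
    refine (measure_mono (t := occ (dj (dj (dj (wfI S x y) (wfI S y v)) (wfI S v x')) (wf S n v z)) ∪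
      occ (dj (dj (dj (wfI S x v) (wfI S v y)) (wfI S y x')) (wf S n v z))) ?_).trans ?_
    · rintro ω ⟨-, h⟩
      exact h
    · exact (measure_union_le _ _).trans (add_le_add (WalksC_bk S p _ _ _ _ _ _ _ _ n)
        (WalksC_bk S p _ _ _ _ _ _ _ _ n))

end IICErg
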