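import Pool.Agent.Lib.MP_4c698b_pr.Wt1
import Pool.Agent.Lib.MP_4c698b_pr.WalksC
import Pool.Agent.Lib.MP_4c698b_pr.Arm

/-!
# MP_4c698b_pr, module WtA: weighted inequalities
-/

open MeasureTheory Filter Topology
open scoped ENNReal Pointwise

namespace IICErg

variable {Γ : Type} [Group Γ]

section Weights

theorem T2 (S : GenSet Γ) (p : unitInterval) {l : ℝ≥0∞} (hl : l ≤ 1) (N r : ℕ) (x x' : Γ) :
    ∑' z, ∫⁻ ω in {ω | (og S ω).Reachable x x' ∧ ¬ dle (og S ω) (S.q r) x x'},
        wt S l N ω x z ∂(perc Γ p) ≤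
      kap S p r x x' * XN S p l N := by
  classical
  have h := Wt0_sum S p hl N x {ω | (og S ω).Reachable x x' ∧ ¬ dle (og S ω) (S.q r) x x'}
    (fun v => ∑' y, (if x⁻¹ * y ∈ S.ball r then 0 else
      (tau S p x y * tau S p y v * tau S p v x' + tau S p x v * tau S p v y * tau S p y x')))
    ?_
  · refine h.trans (le_of_eq ?_)
    congr 1
    rw [ENNReal.tsum_comm]
    unfold kap
    refine tsum_congr fun y => ?_
    split_ifs with hy
    · exact tsum_zero
    · rw [ENNReal.tsum_add]
      unfold tau2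
      rw [← ENNReal.tsum_mul_left, ← ENNReal.tsum_mul_right]
      congr 1
      refine tsum_congr fun v => ?_
      rw [mul_assoc]
  · intro j z
    refine (tg2 S p j r x z x').trans (le_of_eq ?_)
    simp only [← ENNReal.tsum_mul_right]
    rw [ENNReal.tsum_comm]
    refine tsum_congr fun y => ?_
    split_ifs with hy
    · simp
    · rfl

theorem T3 (S : GenSet Γ) (p : unitInterval) {l : ℝ≥0∞} (hl : l ≤ 1) (N k s r : ℕ)
    (hs : S.q r + k ≤ s) :
    nu S p l N (DD S k s) ≤ S.q k * theta S p r * XN S p l N := by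
  classical
  have h := Wt0_sum S p hl N 1 (DD S k s)
    (fun v => if v = 1 then S.q k * theta S p r else 0) ?_
  · unfold nu
    refine h.trans (le_of_eq ?_)
    rw [tsum_ite_eq]
  · intro j z
    refine (tg3 S p j k s r z hs).trans ?_
    refine le_trans (le_of_eq ?_) (ENNReal.le_tsum (1 : Γ))
    simp

end Weights

end IICErg
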