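import Pool.Agent.Lib.MP_4c698b_pr.Wt1

/-!
# MP_4c698b_pr, module WtB: weights inequality, divergence of the weights
-/

open MeasureTheory Filter Topology
open scoped ENNReal Pointwise

namespace IICErg

variable {Γ : Type} [Group Γ]

section WtB

theorem WtB_occ_meas (S : GenSet Γ) (A : Set (Finset (Sym2 Γ))) : MeasurableSet (occ A) := by
  have hΓ : Countable Γ := S.countable
  have hE : Countable (Sym2 Γ) := (Quot.mk_surjective (r := Sym2.Rel Γ)).countable
  have h1 : occ A = ⋃ a ∈ A, ⋂ e ∈ a, {ω : Cfg Γ | ω e = true} := by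
    ext ω
    simp [occ]
  rw [h1]
  refine MeasurableSet.biUnion (Set.to_countable A) fun a _ => ?_
  refine Finset.measurableSet_biInter a fun e _ => ?_
  have h2 : MeasurableSet ((fun ω : Cfg Γ => ω e) ⁻¹' {true}) :=
    measurable_pi_apply e (measurableSet_singleton true)
  exact h2

open Classical in
/-- the geodesic from `1` to `z`, cut at its `i`-th vertex -/
theorem WtB_point (S : GenSet Γ) {l : ℝ≥0∞} (hl : l ≤ 1) (N : ℕ) (ω : Cfg Γ) (z : Γ)
    (h : dle (og S ω) N 1 z) :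
    ∑ i ∈ Finset.range ((og S ω).dist 1 z + 1), l ^ i ≤
      ∑' y, ∑ j ∈ Finset.range (N + 1), Wt0_c l N j *
        Set.indicator (occ (dj (wf S j 1 y) (wf S N y z))) 1 ω := by
  obtain ⟨hr, hd⟩ := (dle_iff _ _ _ _).1 h
  obtain ⟨w, hw⟩ := hr.exists_walk_length_eq_dist
  have hp : w.IsPath := w.isPath_of_length_eq_dist hw
  have hinj : Set.InjOn w.getVert (Finset.range ((og S ω).dist 1 z + 1) : Finset ℕ) := by
    intro i hi j hj hij
    rw [Finset.mem_coe, Finset.mem_range] at hi hj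
    exact hp.getVert_injOn (by rw [Set.mem_ofPred_eq]; omega)
      (by rw [Set.mem_ofPred_eq]; omega) hij
  have hocc : ∀ i j, i ≤ j → ω ∈ occ (dj (wf S j 1 (w.getVert i)) (wf S N (w.getVert i) z)) := by
    intro i j hij
    obtain ⟨⟨a1, ha1, ha2⟩, ha⟩ := walk_wf S ω (w.take i)
    obtain ⟨⟨b1, hb1, hb2⟩, hb⟩ := walk_wf S ω (w.drop i)
    refine mem_occ_dj S ω _ _ ⟨_, ⟨a1, ?_, ha2⟩, _, ⟨b1, ?_, hb2⟩, ?_, ha, hb⟩
    · rw [SimpleGraph.Walk.take_length] at ha1
      omega
    · rw [SimpleGraph.Walk.drop_length] at hb1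
      omega
    · have hnd : w.edges.Nodup := hp.isTrail.edges_nodup
      rw [← w.append_take_drop_eq i, SimpleGraph.Walk.edges_append] at hnd
      rw [Finset.disjoint_left]
      intro e he he'
      rw [List.mem_toFinset] at he he'
      exact (List.disjoint_of_nodup_append hnd) he he'
  calc ∑ i ∈ Finset.range ((og S ω).dist 1 z + 1), l ^ i
      ≤ ∑ i ∈ Finset.range ((og S ω).dist 1 z + 1),
          ∑ j ∈ Finset.range (N + 1), Wt0_c l N j *
            Set.indicator (occ (dj (wf S j 1 (w.getVert i)) (wf S N (w.getVert i) z))) 1 ω := by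
        refine Finset.sum_le_sum fun i hi => ?_
        rw [Finset.mem_range] at hi
        rw [← Wt0_c_sum hl N i (by omega)]
        rw [Finset.range_eq_Ico]
        refine le_trans (Finset.sum_le_sum fun j hj => ?_)
          (Finset.sum_le_sum_of_subset (Finset.Ico_subset_Ico_left (Nat.zero_le i)))
        rw [Finset.mem_Ico] at hj
        rw [Set.indicator_of_mem (hocc i j hj.1), Pi.one_apply, mul_one]
    _ = ∑ y ∈ (Finset.range ((og S ω).dist 1 z + 1)).image w.getVert,
          ∑ j ∈ Finset.range (N + 1), Wt0_c l N j *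
            Set.indicator (occ (dj (wf S j 1 y) (wf S N y z))) 1 ω := by
        rw [Finset.sum_image hinj]
    _ ≤ _ := ENNReal.sum_le_tsum _

theorem XI (S : GenSet Γ) (p : unitInterval) {l : ℝ≥0∞} (hl : l ≤ 1) (N : ℕ) :
    XN S p 1 N ≤ l * XN S p l N + (1 - l) * (XN S p l N * XN S p 1 N) := by
  classical
  have hΓ : Countable Γ := S.countable
  have hpt : ∀ (ω : Cfg Γ) (z : Γ), wt S 1 N ω 1 z ≤ l * wt S l N ω 1 z +
      (1 - l) * ∑' y, ∑ j ∈ Finset.range (N + 1), Wt0_c l N j *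
        Set.indicator (occ (dj (wf S j 1 y) (wf S N y z))) 1 ω := by
    intro ω z
    by_cases h : dle (og S ω) N 1 z
    · have h1 : wt S 1 N ω 1 z = 1 := by
        unfold wt
        rw [if_pos h, one_pow]
      have h2 : wt S l N ω 1 z = l ^ ((og S ω).dist 1 z) := by
        unfold wt
        rw [if_pos h]
      rw [h1, h2, ← pow_succ']
      refine le_trans (le_of_eq (Wt0_geom hl ((og S ω).dist 1 z + 1)).symm) ?_
      exact add_le_add_right (mul_le_mul_right (WtB_point S hl N ω z h) _) _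
    · have h1 : wt S 1 N ω 1 z = 0 := by
        unfold wt
        rw [if_neg h]
      rw [h1]
      exact bot_le
  have hm : ∀ z y j, MeasurableSet (occ (dj (wf S j 1 y) (wf S N y z))) :=
    fun z y j => WtB_occ_meas S _
  have hm2 : ∀ z y, Measurable (fun ω : Cfg Γ => ∑ j ∈ Finset.range (N + 1), Wt0_c l N j *
        Set.indicator (occ (dj (wf S j 1 y) (wf S N y z))) 1 ω) := by
    intro z y
    exact Finset.measurable_sum _ fun j _ => (measurable_one.indicator (hm z y j)).const_mul _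
  have hint : ∀ z : Γ, ∫⁻ ω, wt S 1 N ω 1 z ∂(perc Γ p) ≤
      l * ∫⁻ ω, wt S l N ω 1 z ∂(perc Γ p) +
      (1 - l) * ∑' y, (∑ j ∈ Finset.range (N + 1), Wt0_c l N j *
        perc Γ p {ω | dle (og S ω) j 1 y}) * perc Γ p {ω | dle (og S ω) N y z} := by
    intro z
    calc ∫⁻ ω, wt S 1 N ω 1 z ∂(perc Γ p)
        ≤ ∫⁻ ω, (l * wt S l N ω 1 z + (1 - l) * ∑' y, ∑ j ∈ Finset.range (N + 1), Wt0_c l N j *
            Set.indicator (occ (dj (wf S j 1 y) (wf S N y z))) 1 ω) ∂(perc Γ p) :=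
          lintegral_mono fun ω => hpt ω z
      _ = l * ∫⁻ ω, wt S l N ω 1 z ∂(perc Γ p) +
          (1 - l) * ∑' y, ∑ j ∈ Finset.range (N + 1), Wt0_c l N j *
            perc Γ p (occ (dj (wf S j 1 y) (wf S N y z))) := by
          rw [lintegral_add_left ((measurable_wt S l N 1 z).const_mul l),
            lintegral_const_mul _ (measurable_wt S l N 1 z),
            lintegral_const_mul _ (Measurable.ennreal_tsum fun y => hm2 z y),
            lintegral_tsum fun y => (hm2 z y).aemeasurable]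
          congr 2
          refine tsum_congr fun y => ?_
          rw [lintegral_finsetSum _ fun j _ => (measurable_one.indicator (hm z y j)).const_mul _]
          refine Finset.sum_congr rfl fun j _ => ?_
          rw [lintegral_const_mul _ (measurable_one.indicator (hm z y j)),
            lintegral_indicator_one (hm z y j)]
      _ ≤ _ := by
          refine add_le_add_right (mul_le_mul_right (ENNReal.tsum_le_tsum fun y => ?_) _) _
          rw [Finset.sum_mul]
          refine Finset.sum_le_sum fun j _ => ?_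
          rw [mul_assoc]
          refine mul_le_mul_right ((bk_occ S p _ _).trans (le_of_eq ?_)) _
          rw [occ_wf, occ_wf]
  calc XN S p 1 N = ∑' z, ∫⁻ ω, wt S 1 N ω 1 z ∂(perc Γ p) := rfl
    _ ≤ ∑' z, (l * ∫⁻ ω, wt S l N ω 1 z ∂(perc Γ p) +
      (1 - l) * ∑' y, (∑ j ∈ Finset.range (N + 1), Wt0_c l N j *
        perc Γ p {ω | dle (og S ω) j 1 y}) * perc Γ p {ω | dle (og S ω) N y z}) :=
        ENNReal.tsum_le_tsum hint
    _ = l * XN S p l N + (1 - l) * (XN S p l N * XN S p 1 N) := by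
        rw [ENNReal.tsum_add, ENNReal.tsum_mul_left, ENNReal.tsum_mul_left, ENNReal.tsum_comm]
        congr 2
        simp only [ENNReal.tsum_mul_left, Wt0_transl S p N]
        rw [ENNReal.tsum_mul_right, Wt0_XN_one]
        congr 1
        unfold XN
        simp only [Wt0_lint' S p hl N 1]

theorem exists_N (S : GenSet Γ) (p : unitInterval) (hχ : ∑' x, tau S p 1 x = ⊤)
    {l : ℝ≥0∞} (hl : l < 1) : ∃ N, 2⁻¹ ≤ (1 - l) * XN S p l N := by
  by_contra hcon
  push Not at hcon
  have hl0 : 1 - l ≠ 0 := (tsub_pos_of_lt hl).ne'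
  have hl1 : 1 - l ≠ ⊤ := ne_top_of_le_ne_top ENNReal.one_ne_top tsub_le_self
  have hXl : ∀ N, XN S p l N ≤ 2⁻¹ * (1 - l)⁻¹ := by
    intro N
    rw [← div_eq_mul_inv, ENNReal.le_div_iff_mul_le (Or.inl hl0) (Or.inl hl1), mul_comm]
    exact (hcon N).le
  -- `XN 1 N` is bounded
  have hb : ∀ N, XN S p 1 N ≤ (1 - l)⁻¹ := by
    intro N
    have h1 := XI S p hl.le N
    have htop := XN_ne_top S p le_rfl N (l := 1)
    have h2 : XN S p 1 N ≤ 2⁻¹ * (1 - l)⁻¹ + 2⁻¹ * XN S p 1 N := by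
      refine h1.trans (add_le_add ?_ ?_)
      · calc l * XN S p l N ≤ 1 * XN S p l N := mul_le_mul_left hl.le _
          _ = XN S p l N := one_mul _
          _ ≤ _ := hXl N
      · rw [← mul_assoc]
        exact mul_le_mul_left (hcon N).le _
    have h3 : XN S p 1 N = 2⁻¹ * XN S p 1 N + 2⁻¹ * XN S p 1 N := by
      rw [← add_mul, ENNReal.inv_two_add_inv_two, one_mul]
    have h4 : (2⁻¹ : ℝ≥0∞) * XN S p 1 N ≠ ⊤ := ENNReal.mul_ne_top (by simp) htop
    have h5 : 2⁻¹ * XN S p 1 N ≤ 2⁻¹ * (1 - l)⁻¹ := by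
      rw [h3] at h2
      have h6 : 2⁻¹ * XN S p 1 N + 2⁻¹ * XN S p 1 N ≤ 2⁻¹ * (1 - l)⁻¹ + 2⁻¹ * XN S p 1 N := by
        rw [← h3]
        rwa [← h3] at h2
      exact (ENNReal.add_le_add_iff_right h4).1 h6
    exact (ENNReal.mul_le_mul_iff_right (by simp) (by simp)).1 h5
  -- but it tends to infinity
  have hlt : (1 - l)⁻¹ < ∑' x, tau S p 1 x := by
    rw [hχ]
    exact (ENNReal.inv_ne_top.2 hl0).lt_top
  rw [ENNReal.tsum_eq_iSup_sum, lt_iSup_iff] at hlt
  obtain ⟨s, hs⟩ := hlt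
  have hlim : ∀ x : Γ, Tendsto (fun N => perc Γ p {ω | dle (og S ω) N 1 x}) atTop
      (𝓝 (tau S p 1 x)) := by
    intro x
    have hU : {ω : Cfg Γ | (og S ω).Reachable 1 x} = ⋃ N, {ω : Cfg Γ | dle (og S ω) N 1 x} := by
      ext ω
      rw [Set.mem_iUnion]
      constructor
      · rintro ⟨w⟩
        exact ⟨w.length, w, le_rfl⟩
      · rintro ⟨N, w, _⟩
        exact ⟨w⟩
    unfold tau
    rw [hU]
    exact tendsto_measure_iUnion_atTop fun m n hmn ω hω => dle_mono hmn hω
  have hlim2 : Tendsto (fun N => ∑ x ∈ s, perc Γ p {ω | dle (og S ω) N 1 x}) atTop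
      (𝓝 (∑ x ∈ s, tau S p 1 x)) := tendsto_finsetSum _ fun x _ => hlim x
  obtain ⟨N, hN⟩ := (hlim2.eventually (lt_mem_nhds hs)).exists
  have h7 : ∑ x ∈ s, perc Γ p {ω | dle (og S ω) N 1 x} ≤ XN S p 1 N := by
    rw [Wt0_XN_one]
    exact ENNReal.sum_le_tsum _
  exact absurd (h7.trans (hb N)) (not_le.2 hN)

end WtB

end IICErg
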