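import Pool.Agent.Lib.MP_4c698b_pr.Lower
import Pool.Agent.Lib.MP_4c698b_pr.WtA
import Pool.Agent.Lib.MP_4c698b_pr.WtB
import Pool.Agent.Lib.MP_4c698b_pr.Theta
import Pool.Agent.Lib.MP_4c698b_pr.L2h
import Pool.Agent.Lib.MP_4c698b_pr.SG
import Pool.Agent.Lib.MP_4c698b_pr.DDb
import Pool.Agent.Lib.MP_4c698b_pr.Tight
import Pool.Agent.Lib.MP_4c698b_pr.SurgB
import Pool.Agent.Lib.MP_4c698b_pr.Chord
import Pool.Agent.Lib.MP_4c698b_pr.TransferB
import Pool.Agent.Lib.MP_4c698b_pr.AvgA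
import Pool.Agent.Lib.MP_4c698b_pr.AvgB

/-!
# Ergodicity of the incipient infinite cluster (problem MP_4c698b_pr): the core argument
-/

open MeasureTheory Filter Topology
open scoped ENNReal Pointwise

namespace IICErg

variable {Γ : Type} [Group Γ]

/-- existence of a simple path in the Cayley graph -/
theorem core_cpath (S : GenSet Γ) (h : Γ) :
    ∃ (g : ℕ → Γ) (t : ℕ), CPath S g t ∧ g 0 = 1 ∧ g t = h := by
  classical
  obtain ⟨w⟩ := (cay_connected S).preconnected 1 h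
  obtain ⟨w, hw⟩ := w.toPath
  refine ⟨w.getVert, w.length, ⟨fun i hi => w.adj_getVert_succ hi, ?_⟩, w.getVert_zero,
    w.getVert_length⟩
  intro i hi j hj hij
  exact hw.getVert_injOn (by simpa using hi) (by simpa using hj) hij

/-- last visit of `PS` before the first visit of `PD` -/
theorem core_select {t : ℕ} (PS PD : ℕ → Prop) (h0 : PS 0) (ht : PD t)
    (hdis : ∀ i, PS i → ¬ PD i) :
    ∃ i0 i1, i0 < i1 ∧ i1 ≤ t ∧ PS i0 ∧ PD i1 ∧ (∀ i < i1, ¬ PD i) ∧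
      (∀ i, i0 < i → i < i1 → ¬ PS i) := by
  classical
  have hex : ∃ i, PD i := ⟨t, ht⟩
  set i1 := Nat.find hex with hi1
  have h1 : PD i1 := Nat.find_spec hex
  have h1' : i1 ≤ t := Nat.find_min' hex ht
  have h2 : ∀ i < i1, ¬ PD i := fun i hi => Nat.find_min hex hi
  have h3 : 0 < i1 := by
    rcases Nat.eq_zero_or_pos i1 with h | h
    · exact absurd (h ▸ h1) (hdis 0 h0)
    · exact h
  set A := (Finset.range i1).filter PS with hA
  have hAne : A.Nonempty := ⟨0, by simp [hA, h3, h0]⟩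
  refine ⟨A.max' hAne, i1, ?_, h1', ?_, h1, h2, ?_⟩
  · have := A.max'_mem hAne
    simp only [hA, Finset.mem_filter, Finset.mem_range] at this
    exact this.1
  · have := A.max'_mem hAne
    simp only [hA, Finset.mem_filter, Finset.mem_range] at this
    exact this.2
  · intro i hi hi' hP
    have : i ≤ A.max' hAne := A.le_max' i (by simp [hA, hi', hP])
    omega

/-- selection of the last bad segment -/
theorem core_select2 {V : Type} (G : SimpleGraph V) (g : ℕ → V) (PS : ℕ → Prop) (h0 : PS 0)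
    {K1 t i0 : ℕ} (hi0 : PS i0) (hit : i0 ≤ t) (hfar : ¬ dle G (t * K1) (g 0) (g i0)) :
    ∃ u v, u < v ∧ v ≤ i0 ∧ PS u ∧ PS v ∧ (∀ i, u < i → i < v → ¬ PS i) ∧
      ¬ dle G K1 (g u) (g v) ∧ dle G (t * K1) (g v) (g i0) := by
  classical
  have key : ∀ j, PS j → j ≤ i0 → dle G ((i0 - j) * K1) (g j) (g i0) →
      ∃ u v, u < v ∧ v ≤ i0 ∧ PS u ∧ PS v ∧ (∀ i, u < i → i < v → ¬ PS i) ∧
      ¬ dle G K1 (g u) (g v) ∧ dle G (t * K1) (g v) (g i0) := by
    intro j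
    induction j using Nat.strong_induction_on with
    | _ j ih =>
      intro hj hji hd
      rcases Nat.eq_zero_or_pos j with h | h
      · subst h
        exact absurd (dle_mono (Nat.mul_le_mul_right _ (by omega)) hd) hfar
      · set A := (Finset.range j).filter PS with hA
        have hAne : A.Nonempty := ⟨0, by simp [hA, h, h0]⟩
        obtain ⟨u, hudef⟩ : ∃ u, u = A.max' hAne := ⟨_, rfl⟩
        have hu : u ∈ A := hudef ▸ A.max'_mem hAne
        rw [hA, Finset.mem_filter, Finset.mem_range] at hu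
        have hmax : ∀ i, u < i → i < j → ¬ PS i := by
          intro i hi hi' hP
          have : i ≤ u := hudef ▸ A.le_max' i (by simp [hA, hi', hP])
          omega
        by_cases hn : dle G K1 (g u) (g j)
        · refine ih u hu.1 hu.2 (by omega) (dle_mono ?_ (dle_trans hn hd))
          have : i0 - u = (i0 - j) + (j - u) := by omega
          rw [this, add_mul]
          have : 1 * K1 ≤ (j - u) * K1 := Nat.mul_le_mul_right _ (by omega)
          omega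
        · exact ⟨u, j, hu.1, hji, hu.2, hj, hmax, hn,
            dle_mono (Nat.mul_le_mul_right _ (by omega)) hd⟩
  exact key i0 hi0 le_rfl (by simpa using dle_refl G 0 (g i0))


open Classical in
/-- indices of the surgeries -/
noncomputable def coreNd (S : GenSet Γ) (g : ℕ → Γ) (i : ℕ × ℕ × ℕ × ℕ) : Finset (Sym2 Γ) :=
  modN S g (JJ i.1 i.2.1 i.2.2.1 i.2.2.2) (II i.1 i.2.1 i.2.2.1 i.2.2.2)

noncomputable def coreη (g : ℕ → Γ) (i : ℕ × ℕ × ℕ × ℕ) : Cfg Γ :=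
  modη g (JJ i.1 i.2.1 i.2.2.1 i.2.2.2)

/-- the target events of the surgeries -/
noncomputable def coreB (S : GenSet Γ) (f : Set (Cfg Γ)) (K : ℕ) (F : Set (Cfg Γ)) (ρ : ℝ) (L : ℕ)
    (k s k1 s1 : ℕ) (i : ℕ × ℕ × ℕ × ℕ) : Set (Cfg Γ) :=
  if i.1 < i.2.1 then DD S k s \ DD S k1 s1 else Aset S f K F ρ L

/-- no two path points at a moderate distance in the cluster of `1` -/
def corePB (S : GenSet Γ) (g : ℕ → Γ) (t K1 K2 : ℕ) : Set (Cfg Γ) :=
  {ω | ∀ u ≤ t, ∀ v ≤ t, ¬ ((og S ω).Reachable 1 (g u) ∧ dle (og S ω) K2 (g u) (g v) ∧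
    ¬ dle (og S ω) K1 (g u) (g v))}

theorem core_loc (S : GenSet Γ) {R : ℕ} {E : Set (Cfg Γ)} (hE : IsLoc S R E) {ω ω' : Cfg Γ}
    {z : Γ} (H : ∀ x y, dle (og S ω) R z x → ((og S ω).Adj x y ↔ (og S ω').Adj x y)) :
    vw z ω ∈ E ↔ vw z ω' ∈ E := by
  refine hE _ _ fun x y hx => ?_
  rw [og_vw_adj, og_vw_adj]
  refine H _ _ ?_
  rw [dle_vw] at hx
  simpa using hx

theorem core_H (S : GenSet Γ) {g : ℕ → Γ} {t : ℕ} {h : Γ} (hg : CPath S g t) (hg0 : g 0 = 1)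
    (hgt : g t = h) {r K1 m n N s k k1 s1 R R' R2 K ℓ L : ℕ} {f F G : Set (Cfg Γ)} {ρ : ℝ}
    (hf : IsLoc S R f) (hF : IsLoc S R' F) (hG : G = f ∨ G = fᶜ)
    (hρ : 1 / 2 ≤ ρ) (hρ1 : ρ < 1)
    (hR2 : R + S.q r ≤ R2) (hR2' : k1 + 4 * s1 + 2 + S.q r ≤ R2)
    (hk : N + S.q r + t + t * K1 ≤ k) (hK : N + S.q r + t ≤ K) (hK' : t * K1 ≤ K)
    (hn : 2 * m + t ≤ n) (hℓ : ℓ ≤ n) (hs : 1 ≤ s)
    (herr : 2 * ρ ^ L + (S.q R' + 2 * (m + t : ℕ)) *
        (1 / (ℓ + 1) + ℓ * Real.sqrt (4 * S.S.card * (1 - ρ))) ≤ 1 / 4)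
    (ω : Cfg Γ) (z : Γ)
    (hω : ω ∈ G ∩ (Aset S f K F ρ L)ᶜ ∩ corePB S g t K1 (4 * s))
    (hz : vw z ω ∈ Gᶜ ∩ (DD S k1 s1)ᶜ ∩ {ω | (cl S ω 1).Finite ∧ (cl S ω 1).ncard ≤ m})
    (hdis : ¬ (og S ω).Reachable 1 h)
    (hgood : ∀ i ≤ t, (og S ω).Reachable h (g i) → dle (og S ω) (S.q r) h (g i))
    (hNz : dle (og S ω) N h z) (hR : Rn S n ω 1 ≠ 0) :
    dle (og S ω) R2 h z ∨ ∃ i ∈ Finset.range (t + 1) ×ˢ Finset.range (t + 1) ×ˢ
        Finset.range (t + 1) ×ˢ Finset.range (t + 1),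
        Rn S n ω 1 ≤ 2 * Rn S n (setOn (coreNd S g i) (coreη g i) ω) z ∧
        (og S (setOn (coreNd S g i) (coreη g i) ω)).dist (g i.2.2.2) z ≤
          S.q r + (og S ω).dist h z ∧
        Br S (setOn (coreNd S g i) (coreη g i) ω) z (g i.2.2.2) ∧
        vw z (setOn (coreNd S g i) (coreη g i) ω) ∈ coreB S f K F ρ L k s k1 s1 i := by
  classical
  by_cases hnear : dle (og S ω) R2 h z
  · exact Or.inl hnear
  right
  obtain ⟨⟨hωG, hωA⟩, hωPB⟩ := hω
  obtain ⟨⟨hzG, hzD⟩, hzc⟩ := hz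
  have hhz : (og S ω).Reachable h z := ((dle_iff _ _ _ _).1 hNz).1
  -- selection of the indices
  obtain ⟨i0, i1, hi, hit, hPS, hPD, hnD, hnS⟩ := core_select (t := t)
    (fun i => (og S ω).Reachable 1 (g i)) (fun i => (og S ω).Reachable h (g i))
    (by rw [hg0]) (by rw [hgt]) (fun i h1 h2 => hdis (h1.trans h2.symm))
  have hclz : cl S ω z = cl S ω h := (cl_congr hhz).symm
  have hDf : (cl S ω h).Finite := by
    have := hzc.1
    rw [clfin_vw, mul_one, hclz] at this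
    exact this
  have hDm : (cl S ω h).ncard ≤ m := by
    have := hzc.2
    rw [clcard_vw, mul_one, hclz] at this
    exact this
  have hK0 : dle (og S ω) (S.q r) h (g i1) := hgood i1 hit hPD
  have hzi : dle (og S ω) (N + S.q r) z (g i1) := dle_trans (dle_symm hNz) hK0
  have hnear1 : ∀ R1, R1 + S.q r ≤ R2 → ¬ dle (og S ω) R1 z (g i1) := by
    intro R1 hR1 hc
    exact hnear (dle_mono (by omega) (dle_trans hK0 (dle_symm hc)))
  by_cases hfar : dle (og S ω) (t * K1) (g 0) (g i0)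
  · -- surgery 1
    have hcut : Cut S g t h ω i0 i0 i0 i1 :=
      ⟨le_rfl, le_rfl, hi, hit, hPS, hPS, hPS, hPD, hnD, fun i hii => by
        rcases hii with hii | hii
        · omega
        · exact hnS i hii.1 hii.2⟩
    obtain ⟨f1, f2, f3, f4, f5, f6⟩ := surg_facts S hg hdis hcut hDf hDm hn hR hK0 z hhz
    refine ⟨(i0, i0, i0, i1), ?_, f1, f2, f3, ?_⟩
    · simp only [Finset.mem_product, Finset.mem_range]; omega
    · have hB : coreB S f K F ρ L k s k1 s1 (i0, i0, i0, i1) = Aset S f K F ρ L := by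
        simp [coreB]
      rw [hB]
      refine ⟨z⁻¹ * g i0, ?_, ?_⟩
      · rw [dle_vw]
        simp only [mul_one, mul_inv_cancel_left]
        exact dle_mono hK (f5 _ hzi)
      · rw [gav_vw]
        simp only [mul_inv_cancel_left]
        have e1 := surg_transfer S hg hdis hcut hDf hDm hR hF hρ hρ1 L ℓ hℓ
        have e2 : |gav S ρ L F ω (g i0) - (if ω ∈ f then 1 else 0)| < 1 / 4 := by
          by_contra hcc
          refine hωA ⟨g i0, ?_, not_lt.1 hcc⟩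
          rw [← hg0]
          exact dle_mono hK' hfar
        have e3 : vw z ω ∈ f ↔ vw z (surg S g (JJ i0 i0 i0 i1) (II i0 i0 i0 i1) ω) ∈ f :=
          core_loc S hf (f4 R (hnear1 R hR2))
        have e4 : vw z (surg S g (JJ i0 i0 i0 i1) (II i0 i0 i0 i1) ω) ∈ f ↔ ω ∉ f := by
          rw [← e3]
          rcases hG with rfl | rfl
          · constructor
            · intro hh; exact absurd hh hzG
            · intro hh; exact absurd hωG hh
          · constructor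
            · intro _; exact hωG
            · intro _; exact not_not.1 hzG
        have e5 := e1.trans herr
        change 1 / 4 ≤ |gav S ρ L F (surg S g (JJ i0 i0 i0 i1) (II i0 i0 i0 i1) ω) (g i0) -
          (if vw z (surg S g (JJ i0 i0 i0 i1) (II i0 i0 i0 i1) ω) ∈ f then 1 else 0)|
        rw [abs_le] at e5
        rw [abs_lt] at e2
        by_cases hh : ω ∈ f
        · rw [if_pos hh] at e2
          rw [if_neg (by rw [e4]; exact not_not.2 hh)]
          rw [le_abs]; left; linarith [e5.1, e2.1]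
        · rw [if_neg hh] at e2
          rw [if_pos (by rw [e4]; exact hh)]
          rw [le_abs]; right; linarith [e5.2, e2.2]
  · -- surgery 2
    obtain ⟨u, v, huv, hvi, hu, hv, hint, hnd, hd⟩ := core_select2 (og S ω) g
      (fun i => (og S ω).Reachable 1 (g i)) (by rw [hg0]) (K1 := K1) (t := t) hPS
      (by omega) hfar
    have hcut : Cut S g t h ω u v i0 i1 :=
      ⟨huv.le, hvi, hi, hit, hu, hv, hPS, hPD, hnD, fun i hii => by
        rcases hii with hii | hii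
        · exact hint i hii.1 hii.2
        · exact hnS i hii.1 hii.2⟩
    obtain ⟨f1, f2, f3, f4, f5, f6⟩ := surg_facts S hg hdis hcut hDf hDm hn hR hK0 z hhz
    refine ⟨(u, v, i0, i1), ?_, f1, f2, f3, ?_⟩
    · simp only [Finset.mem_product, Finset.mem_range]; omega
    · have hB : coreB S f K F ρ L k s k1 s1 (u, v, i0, i1) = DD S k s \ DD S k1 s1 := by
        simp [coreB, huv]
      rw [hB]
      have hnd2 : ¬ dle (og S ω) (4 * s) (g u) (g v) := by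
        intro hc
        exact hωPB u (by omega) v (by omega) ⟨hu, hc, hnd⟩
      have hzv := dle_mono hk (f6 _ _ hzi hd)
      refine ⟨(mem_DD_vw S k s _ z).2 (surg_DD S hg hdis hcut huv hs hnd2 z hzv), ?_⟩
      intro hc
      exact hzD ((core_loc S (DD_isLoc S k1 s1) (f4 _ (hnear1 _ hR2'))).2 hc)


theorem corePB_clEv (S : GenSet Γ) (g : ℕ → Γ) (t K1 K2 : ℕ) :
    ClEv S (corePB S g t K1 K2) := by
  intro ω ω' H
  have key : ∀ u, (og S ω).Reachable 1 (g u) → ∀ n v,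
      (dle (og S ω) n (g u) (g v) ↔ dle (og S ω') n (g u) (g v)) := fun u hu n v =>
    agree_dle H hu n (g v)
  constructor
  · intro hω u hu v hv hc
    have hu' := (agree_reach H (g u)).2 hc.1
    exact hω u hu v hv ⟨hu', (key u hu' _ v).2 hc.2.1, fun hcc => hc.2.2 ((key u hu' _ v).1 hcc)⟩
  · intro hω u hu v hv hc
    have hu' := (agree_reach H (g u)).1 hc.1
    exact hω u hu v hv ⟨hu', (key u hc.1 _ v).1 hc.2.1,
      fun hcc => hc.2.2 ((key u hc.1 _ v).2 hcc)⟩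

theorem corePB_eq (S : GenSet Γ) (g : ℕ → Γ) (t K1 K2 : ℕ) :
    (corePB S g t K1 K2)ᶜ = ⋃ i ∈ (Finset.range (t + 1) ×ˢ Finset.range (t + 1)),
      {ω | (og S ω).Reachable 1 (g i.1) ∧ vw (g i.1) ω ∈
        ({ω | dle (og S ω) K2 1 ((g i.1)⁻¹ * g i.2)} \
          {ω | dle (og S ω) K1 1 ((g i.1)⁻¹ * g i.2)} : Set (Cfg Γ))} := by
  ext ω
  simp only [corePB, Set.mem_compl_iff, Set.mem_ofPred_eq, not_forall, not_not, Set.mem_iUnion,
    Finset.mem_product, Finset.mem_range, Set.mem_sdiff, dle_vw, mul_one, mul_inv_cancel_left,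
    exists_prop, Prod.exists]
  constructor
  · rintro ⟨u, hu, v, hv, h1, h2, h3⟩
    exact ⟨u, v, ⟨by omega, by omega⟩, h1, h2, h3⟩
  · rintro ⟨u, v, ⟨hu, hv⟩, h1, h2, h3⟩
    exact ⟨u, by omega, v, by omega, h1, h2, h3⟩

theorem corePB_meas (S : GenSet Γ) (g : ℕ → Γ) (t K1 K2 : ℕ) :
    MeasurableSet (corePB S g t K1 K2) := by
  rw [← MeasurableSet.compl_iff, corePB_eq]
  refine Finset.measurableSet_biUnion _ fun i _ => ?_
  exact (measurableSet_reach S _ _).inter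
    ((measurable_vw _) ((measurableSet_dle S _ _ _).diff (measurableSet_dle S _ _ _)))

theorem corePB_mu (S : GenSet Γ) (p : unitInterval) (n : ℕ) (g : ℕ → Γ) (t K1 K2 : ℕ)
    {ε : ℝ≥0∞} (hK : K1 ≤ K2)
    (H : ∀ u ≤ t, ∀ v ≤ t, mu S p n {ω | dle (og S ω) K2 1 ((g u)⁻¹ * g v)} ≤
      mu S p n {ω | dle (og S ω) K1 1 ((g u)⁻¹ * g v)} + ε) :
    mu S p n (corePB S g t K1 K2)ᶜ ≤ ((t + 1) * (t + 1) : ℕ) * ε := by
  rw [corePB_eq]
  refine (measure_biUnion_finset_le _ _).trans ?_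
  have hle : ∀ i ∈ (Finset.range (t + 1) ×ˢ Finset.range (t + 1)),
      mu S p n {ω | (og S ω).Reachable 1 (g i.1) ∧ vw (g i.1) ω ∈
        ({ω | dle (og S ω) K2 1 ((g i.1)⁻¹ * g i.2)} \
          {ω | dle (og S ω) K1 1 ((g i.1)⁻¹ * g i.2)} : Set (Cfg Γ))} ≤ ε := by
    intro i hi
    simp only [Finset.mem_product, Finset.mem_range] at hi
    refine (mu_shift S p n (g i.1)
      ((measurableSet_dle S _ _ _).diff (measurableSet_dle S _ _ _))).trans ?_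
    have hsub : {ω : Cfg Γ | dle (og S ω) K1 1 ((g i.1)⁻¹ * g i.2)} ⊆
        {ω | dle (og S ω) K2 1 ((g i.1)⁻¹ * g i.2)} := fun ω hω => dle_mono hK hω
    have hfin : mu S p n {ω | dle (og S ω) K1 1 ((g i.1)⁻¹ * g i.2)} ≠ ⊤ :=
      ne_top_of_le_ne_top ENNReal.one_ne_top
        ((measure_mono (Set.subset_univ _)).trans (mu_univ_le S p n))
    rw [measure_sdiff hsub (measurableSet_dle S _ _ _).nullMeasurableSet hfin]
    rw [tsub_le_iff_left]
    exact H i.1 (by omega) i.2 (by omega)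
  refine (Finset.sum_le_card_nsmul _ _ _ hle).trans ?_
  rw [Finset.card_product, Finset.card_range, nsmul_eq_mul]


theorem core_params (Q : ℝ) (hQ : 0 ≤ Q) (d : ℕ) {η : ℝ≥0∞} (hη : η ≠ 0) (c : ℝ≥0∞)
    (hc : c ≠ ⊤) :
    ∃ (ρ : ℝ) (ℓ L : ℕ), 1 / 2 ≤ ρ ∧ ρ < 1 ∧
      2 * ρ ^ L + Q * (1 / (ℓ + 1) + ℓ * Real.sqrt (4 * d * (1 - ρ))) ≤ 1 / 4 ∧
      c * ENNReal.ofReal (ρ ^ L) ≤ η := by
  obtain ⟨ℓ, hℓ⟩ := exists_nat_ge (16 * Q)
  have hℓ0 : (0 : ℝ) ≤ ℓ := Nat.cast_nonneg _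
  set y : ℝ := 1 / (16 * (Q * ℓ + 1)) with hy
  have hQℓ : 0 ≤ Q * ℓ := by positivity
  have hy0 : 0 < y := by positivity
  set x : ℝ := min (1 / 2) (y ^ 2 / (4 * d + 1)) with hx
  have hx0 : 0 < x := by
    rw [hx, lt_min_iff]; constructor
    · norm_num
    · positivity
  have hx2 : x ≤ 1 / 2 := min_le_left _ _
  have hx3 : (4 * d + 1) * x ≤ y ^ 2 := by
    have := min_le_right (1 / 2) (y ^ 2 / (4 * d + 1) : ℝ)
    rw [← hx, le_div_iff₀ (by positivity)] at this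
    linarith
  have hsq : Real.sqrt (4 * d * (1 - (1 - x))) ≤ y := by
    rw [Real.sqrt_le_left hy0.le]
    nlinarith
  have hρ0 : (0 : ℝ) ≤ 1 - x := by linarith
  have hρ1 : 1 - x < 1 := by linarith
  have hlim := tendsto_pow_atTop_nhds_zero_of_lt_one hρ0 hρ1
  have h1 : ∀ᶠ L in atTop, (1 - x) ^ L < 1 / 16 := hlim.eventually_lt_const (by norm_num)
  have h2 : ∀ᶠ L in atTop, c * ENNReal.ofReal ((1 - x) ^ L) < η := by
    have : Tendsto (fun L : ℕ => c * ENNReal.ofReal ((1 - x) ^ L)) atTop (𝓝 (c * 0)) := by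
      refine ENNReal.Tendsto.const_mul ?_ (Or.inr hc)
      simpa using ENNReal.tendsto_ofReal hlim
    rw [mul_zero] at this
    exact this.eventually_lt_const (pos_iff_ne_zero.2 hη)
  obtain ⟨L, hL1, hL2⟩ := (h1.and h2).exists
  refine ⟨1 - x, ℓ, L, by linarith, hρ1, ?_, hL2.le⟩
  have e1 : Q * (1 / (ℓ + 1)) ≤ 1 / 16 := by
    rw [mul_one_div, div_le_iff₀ (by positivity)]
    linarith
  have e2 : Q * (ℓ * Real.sqrt (4 * d * (1 - (1 - x)))) ≤ 1 / 16 := by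
    calc Q * (ℓ * Real.sqrt (4 * d * (1 - (1 - x)))) ≤ Q * (ℓ * y) := by gcongr
      _ = Q * ℓ / (16 * (Q * ℓ + 1)) := by rw [hy]; ring
      _ ≤ 1 / 16 := by
        rw [div_le_div_iff₀ (by positivity) (by norm_num)]
        linarith
  have : Q * (1 / (ℓ + 1) + ℓ * Real.sqrt (4 * d * (1 - (1 - x)))) ≤ 1 / 8 := by
    rw [mul_add]; linarith
  linarith

theorem core_arith {β κ X μE νE' Ms : ℝ≥0∞} (hβ0 : β ≠ 0) (hβ1 : β ≠ ⊤) (hX : X ≠ ⊤)
    (hκ1 : κ ≠ ⊤) (hκX : 2⁻¹ ≤ κ * X) (hμ : β / 2 ≤ μE) (hν : X / 4 ≤ νE')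
    (hlow : μE * νE' ≤ Ms + X * (β / 64 + β / 64)) (hup : κ * Ms ≤ β / 64 + β / 64) : False := by
  have h1 : κ * (β / 2 * (X / 4)) ≤ (β / 64 + β / 64) + κ * (X * (β / 64 + β / 64)) := by
    calc κ * (β / 2 * (X / 4)) ≤ κ * (μE * νE') := by gcongr
      _ ≤ κ * (Ms + X * (β / 64 + β / 64)) := by gcongr
      _ = κ * Ms + κ * (X * (β / 64 + β / 64)) := by rw [mul_add]
      _ ≤ _ := by gcongr
  have hb64 : β / 64 ≠ ⊤ := ENNReal.div_ne_top hβ1 (by norm_num)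
  have hfin : (β / 64 + β / 64) + κ * (X * (β / 64 + β / 64)) ≠ ⊤ := by
    refine ENNReal.add_ne_top.2 ⟨ENNReal.add_ne_top.2 ⟨hb64, hb64⟩, ?_⟩
    exact ENNReal.mul_ne_top hκ1 (ENNReal.mul_ne_top hX (ENNReal.add_ne_top.2 ⟨hb64, hb64⟩))
  have h2 := ENNReal.toReal_mono hfin h1
  rw [ENNReal.toReal_add (ENNReal.add_ne_top.2 ⟨hb64, hb64⟩)
    (ENNReal.mul_ne_top hκ1 (ENNReal.mul_ne_top hX (ENNReal.add_ne_top.2 ⟨hb64, hb64⟩))),
    ENNReal.toReal_mul, ENNReal.toReal_mul, ENNReal.toReal_mul, ENNReal.toReal_mul,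
    ENNReal.toReal_add hb64 hb64, ENNReal.toReal_div, ENNReal.toReal_div,
    ENNReal.toReal_div] at h2
  have h3 := ENNReal.toReal_mono (ENNReal.mul_ne_top hκ1 hX) hκX
  rw [ENNReal.toReal_mul, ENNReal.toReal_inv] at h3
  have hb : 0 < β.toReal := ENNReal.toReal_pos hβ0 hβ1
  simp only [ENNReal.toReal_ofNat] at h2 h3
  nlinarith

theorem core_arith2 {β x a b c : ℝ≥0∞} (hβ1 : β ≠ ⊤) (h : β ≤ x + a + b + c)
    (ha : a ≤ β / 8) (hb : b ≤ β / 8) (hc : c ≤ β / 8) : β / 2 ≤ x := by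
  by_cases hx : x = ⊤
  · rw [hx]; exact le_top
  have h8 : β / 8 ≠ ⊤ := ENNReal.div_ne_top hβ1 (by norm_num)
  have h1 : β ≤ x + β / 8 + β / 8 + β / 8 := h.trans (by gcongr)
  have hf1 : x + β / 8 ≠ ⊤ := ENNReal.add_ne_top.2 ⟨hx, h8⟩
  have hf2 : x + β / 8 + β / 8 ≠ ⊤ := ENNReal.add_ne_top.2 ⟨hf1, h8⟩
  have h2 := ENNReal.toReal_mono (ENNReal.add_ne_top.2 ⟨hf2, h8⟩) h1
  rw [ENNReal.toReal_add hf2 h8, ENNReal.toReal_add hf1 h8, ENNReal.toReal_add hx h8,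
    ENNReal.toReal_div] at h2
  rw [← ENNReal.toReal_le_toReal (ENNReal.div_ne_top hβ1 (by norm_num)) hx, ENNReal.toReal_div]
  simp only [ENNReal.toReal_ofNat] at h2 ⊢
  have : 0 ≤ β.toReal := ENNReal.toReal_nonneg
  linarith

theorem core_arith3 {X x a b : ℝ≥0∞} (hX : X ≠ ⊤) (h : X / 2 ≤ x + a + b)
    (ha : a ≤ X / 8) (hb : b ≤ X / 8) : X / 4 ≤ x := by
  by_cases hx : x = ⊤
  · rw [hx]; exact le_top
  have h8 : X / 8 ≠ ⊤ := ENNReal.div_ne_top hX (by norm_num)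
  have h1 : X / 2 ≤ x + X / 8 + X / 8 := h.trans (by gcongr)
  have hf1 : x + X / 8 ≠ ⊤ := ENNReal.add_ne_top.2 ⟨hx, h8⟩
  have h2 := ENNReal.toReal_mono (ENNReal.add_ne_top.2 ⟨hf1, h8⟩) h1
  rw [ENNReal.toReal_add hf1 h8, ENNReal.toReal_add hx h8,
    ENNReal.toReal_div, ENNReal.toReal_div] at h2
  rw [← ENNReal.toReal_le_toReal (ENNReal.div_ne_top hX (by norm_num)) hx, ENNReal.toReal_div]
  simp only [ENNReal.toReal_ofNat] at h2 ⊢
  have : 0 ≤ X.toReal := ENNReal.toReal_nonneg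
  linarith


theorem core (S : GenSet Γ) (p : unitInterval) (hp0 : 0 < p) (hp1 : p < 1)
    (hfin : perc Γ p {ω | ¬ (cl S ω 1).Finite} = 0) (hθ : ∀ n, theta S p n ≠ 0)
    (hL2 : L2Bounded S p) (hχ : ∑' x, tau S p 1 x = ⊤) (U : Ultrafilter ℕ)
    (hU : (U : Filter ℕ) ≤ atTop) (α : ℝ≥0∞) (f : ℕ → Set (Cfg Γ)) (r : ℕ → ℕ) (e : ℕ → ℝ≥0∞)
    (he : Tendsto e atTop (𝓝 0)) (hloc : ∀ i, IsLoc S (r i) (f i))
    (ha1 : ∀ i, ∀ᶠ n in (U : Filter ℕ), mu S p n (f i) ≤ α + e i)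
    (ha2 : ∀ i, ∀ᶠ n in (U : Filter ℕ), α ≤ mu S p n (f i) + e i)
    (hb : ∀ i, ∀ᶠ n in (U : Filter ℕ), ∫⁻ ω, (bdry S (f i) ω : ℝ≥0∞) ∂(mu S p n) ≤ e i)
    (hc : ∀ i j, ∀ᶠ n in (U : Filter ℕ), mu S p n (symmDiff (f i) (f j)) ≤ e i + e j) :
    α = 0 ∨ 1 ≤ α := by
  classical
  by_contra hcon
  rw [not_or, not_le] at hcon
  obtain ⟨hα0, hα1⟩ := hcon
  have hprob : ∀ n, IsProbabilityMeasure (mu S p n) := fun n => mu_prob S p hfin n (hθ n)
  -- `β`
  obtain ⟨β, hβ0, hβα, hβα', hβ1⟩ : ∃ β : ℝ≥0∞, β ≠ 0 ∧ β ≤ α ∧ β ≤ 1 - α ∧ β ≤ 1 := by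
    refine ⟨min α (1 - α), ?_, min_le_left _ _, min_le_right _ _,
      (min_le_right _ _).trans tsub_le_self⟩
    rw [← pos_iff_ne_zero, lt_min_iff]
    exact ⟨pos_iff_ne_zero.2 hα0, tsub_pos_of_lt hα1⟩
  have hβt : β ≠ ⊤ := ne_top_of_le_ne_top ENNReal.one_ne_top hβ1
  have hβ64 : β / 64 ≠ 0 := ENNReal.div_ne_zero.2 ⟨hβ0, by norm_num⟩
  have hβ8 : β / 8 ≠ 0 := ENNReal.div_ne_zero.2 ⟨hβ0, by norm_num⟩
  -- `h` and the path
  obtain ⟨h, hh⟩ := exists_h0 S p hL2 hχ hθ U hβ64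
  obtain ⟨g, t, hg, hg0, hgt⟩ := core_cpath S h
  obtain ⟨r0, hr0⟩ := exists_r S p hL2 h ((Finset.range (t + 1)).image g) hβ64
  set K0 := S.q r0 with hK0
  set Nc := t + t * S.S.card with hNc
  set I4 := Finset.range (t + 1) ×ˢ Finset.range (t + 1) ×ˢ
        Finset.range (t + 1) ×ˢ Finset.range (t + 1) with hI4
  set Cst : ℝ≥0∞ := 4 * 2 ^ K0 * cmin p ^ Nc * (I4.card : ℝ≥0∞) with hCst
  have hcmin : cmin p ≠ ⊤ := by
    unfold cmin
    rw [Ne, ENNReal.inv_eq_top, ENNReal.ofReal_eq_zero, not_le, lt_min_iff]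
    have h1 : (0 : ℝ) < p := hp0
    have h2 : (p : ℝ) < 1 := hp1
    exact ⟨h1, by linarith⟩
  have hCstt : Cst ≠ ⊤ := by
    refine ENNReal.mul_ne_top (ENNReal.mul_ne_top (ENNReal.mul_ne_top (by norm_num) ?_) ?_) ?_
    · exact ENNReal.pow_ne_top (by norm_num)
    · exact ENNReal.pow_ne_top hcmin
    · exact ENNReal.natCast_ne_top _
  obtain ⟨ε, hε0, hεβ, hεC⟩ : ∃ ε : ℝ≥0∞, ε ≠ 0 ∧ ε ≤ β / 8 ∧ Cst * ε ≤ β / 64 := by
    refine ⟨min (β / 8) (β / 64 / Cst), ?_, min_le_left _ _, ?_⟩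
    · rw [← pos_iff_ne_zero, lt_min_iff]
      exact ⟨pos_iff_ne_zero.2 hβ8, pos_iff_ne_zero.2 (ENNReal.div_ne_zero.2 ⟨hβ64, hCstt⟩)⟩
    · exact (mul_le_mul_right (min_le_right _ _) _).trans ENNReal.mul_div_le
  have hεt : ε ≠ ⊤ := ne_top_of_le_ne_top (ENNReal.div_ne_top hβt (by norm_num)) hεβ
  have hε8 : ε / 8 ≠ 0 := ENNReal.div_ne_zero.2 ⟨hε0, by norm_num⟩
  -- `ε2` and `K1`
  obtain ⟨ε2, hε20, hε2⟩ : ∃ ε2 : ℝ≥0∞, ε2 ≠ 0 ∧ ((t + 1) * (t + 1) : ℕ) * ε2 ≤ β / 8 := by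
    refine ⟨β / 8 / ((t + 1) * (t + 1) : ℕ), ?_, ENNReal.mul_div_le⟩
    exact ENNReal.div_ne_zero.2 ⟨hβ8, ENNReal.natCast_ne_top _⟩
  obtain ⟨K1, hK1⟩ : ∃ K1, ∀ K2 ≥ K1, ∀ᶠ n in (U : Filter ℕ), ∀ u ≤ t, ∀ v ≤ t,
      mu S p n {ω | dle (og S ω) K2 1 ((g u)⁻¹ * g v)} ≤
        mu S p n {ω | dle (og S ω) K1 1 ((g u)⁻¹ * g v)} + ε2 := by
    have hx : ∀ uv : ℕ × ℕ, ∃ K1, ∀ K2 ≥ K1, ∀ᶠ n in (U : Filter ℕ),
        mu S p n {ω | dle (og S ω) K2 1 ((g uv.1)⁻¹ * g uv.2)} ≤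
        mu S p n {ω | dle (og S ω) K1 1 ((g uv.1)⁻¹ * g uv.2)} + ε2 := fun uv =>
      tight1 U (fun K n => mu S p n {ω | dle (og S ω) K 1 ((g uv.1)⁻¹ * g uv.2)})
        (fun n K K' hKK => measure_mono fun ω hω => dle_mono hKK hω)
        (fun K n => prob_le_one) hε20
    choose κ hκ using hx
    refine ⟨(Finset.range (t + 1) ×ˢ Finset.range (t + 1)).sup κ, fun K2 hK2 => ?_⟩
    have hall : ∀ᶠ n in (U : Filter ℕ), ∀ uv ∈ Finset.range (t + 1) ×ˢ Finset.range (t + 1),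
        mu S p n {ω | dle (og S ω) K2 1 ((g uv.1)⁻¹ * g uv.2)} ≤
        mu S p n {ω | dle (og S ω) ((Finset.range (t + 1) ×ˢ Finset.range (t + 1)).sup κ) 1
          ((g uv.1)⁻¹ * g uv.2)} + ε2 := by
      rw [Filter.eventually_all_finset]
      intro uv huv
      have hle : κ uv ≤ (Finset.range (t + 1) ×ˢ Finset.range (t + 1)).sup κ :=
        Finset.le_sup huv
      refine (hκ uv K2 (hle.trans hK2)).mono fun n hn => hn.trans ?_
      exact add_le_add (measure_mono fun ω hω => dle_mono hle hω) le_rfl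
    refine hall.mono fun n hn u hu v hv => hn (u, v) ?_
    simp only [Finset.mem_product, Finset.mem_range]; omega
  -- `i`
  obtain ⟨i, hi⟩ : ∃ i, e i ≤ ε / 8 := by
    obtain ⟨N, hN⟩ := ENNReal.tendsto_atTop_zero.1 he (ε / 8) (pos_iff_ne_zero.2 hε8)
    exact ⟨N, hN N le_rfl⟩
  -- `k1`, `s1`
  obtain ⟨k1, hk1⟩ := tight2 U (fun k s n => mu S p n (DD S k s))
    (fun s n k k' hk => measure_mono (DD_mono S hk s)) (fun k s n => prob_le_one) hε0
  obtain ⟨r1, hr1⟩ : ∃ r1, (S.q k1 : ℝ≥0∞) * theta S p r1 ≤ 8⁻¹ := by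
    have hl := theta_lim S p
    rw [hfin] at hl
    have hl2 : Tendsto (fun r => (S.q k1 : ℝ≥0∞) * theta S p r) atTop (𝓝 0) := by
      simpa using ENNReal.Tendsto.const_mul hl (Or.inr (ENNReal.natCast_ne_top (S.q k1)))
    obtain ⟨N, hN⟩ := ENNReal.tendsto_atTop_zero.1 hl2 8⁻¹ (by simp)
    exact ⟨N, hN N le_rfl⟩
  set s1 := S.q r1 + k1 + 1 with hs1
  -- `R2`, `l`
  set R2 := max (r i + S.q r0) (k1 + 4 * s1 + 2 + S.q r0) with hR2
  obtain ⟨l, hl1, hl2, hlR⟩ : ∃ l : ℝ≥0∞, 2⁻¹ ≤ l ∧ l < 1 ∧ (1 - l) * S.q R2 ≤ β / 64 := by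
    set y : ℝ≥0∞ := min 2⁻¹ (β / 64 / S.q R2) with hy
    have hy0 : y ≠ 0 := by
      rw [← pos_iff_ne_zero, hy, lt_min_iff]
      exact ⟨by simp, pos_iff_ne_zero.2 (ENNReal.div_ne_zero.2 ⟨hβ64, ENNReal.natCast_ne_top _⟩)⟩
    have hy2 : y ≤ 2⁻¹ := min_le_left _ _
    have hy1 : y ≤ 1 := hy2.trans (by simp)
    refine ⟨1 - y, ?_, ?_, ?_⟩
    · rw [← ENNReal.one_sub_inv_two]
      exact tsub_le_tsub_left hy2 _
    · exact ENNReal.sub_lt_self ENNReal.one_ne_top one_ne_zero hy0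
    · rw [ENNReal.sub_sub_cancel ENNReal.one_ne_top hy1]
      calc y * S.q R2 ≤ (β / 64 / S.q R2) * S.q R2 := by gcongr; exact min_le_right _ _
        _ = S.q R2 * (β / 64 / S.q R2) := mul_comm _ _
        _ ≤ β / 64 := ENNReal.mul_div_le
  -- `N`
  obtain ⟨N, hN⟩ := exists_N S p hχ hl2
  set X := XN S p l N with hX
  have hXt : X ≠ ⊤ := XN_ne_top S p hl2.le N
  have hX1 : 1 ≤ X := one_le_XN S p l N
  -- `G`
  have hfm : ∀ i, MeasurableSet (f i) := fun i => (hloc i).meas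
  have hXle : X ≤ nu S p l N (f i) + nu S p l N (f i)ᶜ := by
    rw [hX, ← nu_univ, ← Set.union_compl_self (f i)]
    exact nu_union S p l N _ _
  obtain ⟨G, hG, hνG, hμG⟩ : ∃ G : Set (Cfg Γ), (G = f i ∨ G = (f i)ᶜ) ∧
      X / 2 ≤ nu S p l N Gᶜ ∧ ∀ᶠ n in (U : Filter ℕ), β ≤ mu S p n G + e i := by
    by_cases hcase : X / 2 ≤ nu S p l N (f i)ᶜ
    · refine ⟨f i, Or.inl rfl, hcase, ?_⟩
      exact (ha2 i).mono fun n hn => hβα.trans hn
    · refine ⟨(f i)ᶜ, Or.inr rfl, ?_, ?_⟩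
      · rw [compl_compl]
        by_contra hc2
        rw [not_le] at hcase hc2
        have : nu S p l N (f i) + nu S p l N (f i)ᶜ < X / 2 + X / 2 :=
          ENNReal.add_lt_add hc2 hcase
        rw [ENNReal.add_halves] at this
        exact absurd hXle (not_le.2 this)
      · refine (ha1 i).mono fun n hn => ?_
        rw [prob_compl_eq_one_sub (hfm i)]
        refine hβα'.trans ?_
        rw [tsub_le_iff_left]
        have h1 : (1 : ℝ≥0∞) ≤ mu S p n (f i) + (1 - mu S p n (f i)) := le_add_tsub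
        refine h1.trans ?_
        calc mu S p n (f i) + (1 - mu S p n (f i)) ≤ (α + e i) + (1 - mu S p n (f i)) := by
              gcongr
          _ = α + (1 - mu S p n (f i) + e i) := by ring
  -- `m`
  obtain ⟨m, hm⟩ := exists_m S p hfin hl2.le N (ε := 8⁻¹) (by simp)
  -- `k`, `s`
  set k := max k1 (N + S.q r0 + t + t * K1) with hk
  obtain ⟨s, hs, hks⟩ := hk1 k (le_max_left _ _) (max s1 K1)
  have hss1 : s1 ≤ s := (le_max_left _ _).trans hs
  have hsK1 : K1 ≤ s := (le_max_right _ _).trans hs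
  have hs1' : 1 ≤ s1 := by omega
  -- `K`
  set K := max (N + S.q r0 + t) (t * K1) with hK
  -- `F`
  obtain ⟨i', hi'⟩ : ∃ i', 4 * (S.q K : ℝ≥0∞) * e i' ≤ ε / 8 := by
    have hl3 : Tendsto (fun i => 4 * (S.q K : ℝ≥0∞) * e i) atTop (𝓝 0) := by
      simpa using ENNReal.Tendsto.const_mul he
        (Or.inr (ENNReal.mul_ne_top (by norm_num : (4 : ℝ≥0∞) ≠ ⊤)
          (ENNReal.natCast_ne_top (S.q K))))
    obtain ⟨N', hN'⟩ := ENNReal.tendsto_atTop_zero.1 hl3 (ε / 8) (pos_iff_ne_zero.2 hε8)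
    exact ⟨N', hN' N' le_rfl⟩
  obtain ⟨ρ, ℓ, L, hρ, hρ1, herr, hρL⟩ := core_params
    ((S.q (r i') : ℝ) + 2 * (m + t : ℕ)) (by positivity) S.S.card hε8
    (4 * (S.q K : ℝ≥0∞)) (ENNReal.mul_ne_top (by norm_num) (ENNReal.natCast_ne_top _))
  obtain ⟨j, hj1, hj2, hj3, hj4⟩ : ∃ j, e j ≤ ε / 8 ∧ (S.q K : ℝ≥0∞) * e j ≤ ε / 8 ∧
      4 * (S.q K : ℝ≥0∞) * e j ≤ ε / 8 ∧ 4 * (S.q K : ℝ≥0∞) * (L * e j) ≤ ε / 8 := by
    have hq : (S.q K : ℝ≥0∞) ≠ ⊤ := ENNReal.natCast_ne_top _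
    have hq4 : 4 * (S.q K : ℝ≥0∞) ≠ ⊤ := ENNReal.mul_ne_top (by norm_num) hq
    have l1 : ∀ᶠ j in atTop, e j < ε / 8 := he.eventually_lt_const (pos_iff_ne_zero.2 hε8)
    have l2 : ∀ᶠ j in atTop, (S.q K : ℝ≥0∞) * e j < ε / 8 := by
      have : Tendsto (fun j => (S.q K : ℝ≥0∞) * e j) atTop (𝓝 0) := by
        simpa using ENNReal.Tendsto.const_mul he (Or.inr hq)
      exact this.eventually_lt_const (pos_iff_ne_zero.2 hε8)
    have l3 : ∀ᶠ j in atTop, 4 * (S.q K : ℝ≥0∞) * e j < ε / 8 := by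
      have : Tendsto (fun j => 4 * (S.q K : ℝ≥0∞) * e j) atTop (𝓝 0) := by
        simpa using ENNReal.Tendsto.const_mul he (Or.inr hq4)
      exact this.eventually_lt_const (pos_iff_ne_zero.2 hε8)
    have l4 : ∀ᶠ j in atTop, 4 * (S.q K : ℝ≥0∞) * (L * e j) < ε / 8 := by
      have h1 : Tendsto (fun j => (L : ℝ≥0∞) * e j) atTop (𝓝 0) := by
        simpa using ENNReal.Tendsto.const_mul he (Or.inr (ENNReal.natCast_ne_top L))
      have : Tendsto (fun j => 4 * (S.q K : ℝ≥0∞) * (L * e j)) atTop (𝓝 0) := by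
        simpa using ENNReal.Tendsto.const_mul h1 (Or.inr hq4)
      exact this.eventually_lt_const (pos_iff_ne_zero.2 hε8)
    obtain ⟨j, h1, h2, h3, h4⟩ := (l1.and (l2.and (l3.and l4))).exists
    exact ⟨j, h1.le, h2.le, h3.le, h4.le⟩
  -- `n`
  have hnat : ∀ᶠ n in (U : Filter ℕ), 2 * m + t ≤ n ∧ ℓ ≤ n :=
    hU ((eventually_ge_atTop (2 * m + t)).and (eventually_ge_atTop ℓ))
  obtain ⟨n, hn1, hn2, hn3, hn4, hn5, hn6, hn7, hn8, hn9⟩ :=
    (hh.and ((hK1 (4 * s) (by omega)).and (hks.and (hμG.and ((hb j).and ((hc i j).and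
      ((hc i' j).and hnat))))))).exists
  -- `Aset` is small
  set AA := Aset S (f i) K (f i') ρ L with hAA
  have hAAm : MeasurableSet AA := Aset_meas S (hfm i) (hfm i') K ρ L
  have hAAε : mu S p n AA ≤ ε := by
    refine (Aset_mu S p n (hfm i) (hfm i') (hfm j) K (by linarith) hρ1 L).trans ?_
    calc mu S p n (symmDiff (f i) (f j)) +
          S.q K * ∫⁻ ω, (bdry S (f j) ω : ℝ≥0∞) ∂(mu S p n) +
          4 * S.q K * (mu S p n (symmDiff (f i') (f j)) +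
            L * ∫⁻ ω, (bdry S (f j) ω : ℝ≥0∞) ∂(mu S p n) + ENNReal.ofReal (ρ ^ L))
        ≤ (e i + e j) + S.q K * e j +
          4 * S.q K * ((e i' + e j) + L * e j + ENNReal.ofReal (ρ ^ L)) := by gcongr
      _ = e i + e j + S.q K * e j + 4 * S.q K * e i' + 4 * S.q K * e j +
          4 * S.q K * (L * e j) + 4 * S.q K * ENNReal.ofReal (ρ ^ L) := by ring
      _ ≤ ε / 8 + ε / 8 + ε / 8 + ε / 8 + ε / 8 + ε / 8 + ε / 8 := by gcongr
      _ ≤ ε / 8 + ε / 8 + ε / 8 + ε / 8 + ε / 8 + ε / 8 + ε / 8 + ε / 8 := le_self_add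
      _ = 8 * (ε / 8) := by ring
      _ ≤ ε := ENNReal.mul_div_le
  -- the two events
  set PB := corePB S g t K1 (4 * s) with hPB
  have hPBm : MeasurableSet PB := corePB_meas S g t K1 (4 * s)
  have hPBμ : mu S p n PBᶜ ≤ β / 8 :=
    (corePB_mu S p n g t K1 (4 * s) (by omega) hn2).trans hε2
  have hGm : MeasurableSet G := by
    rcases hG with rfl | rfl
    · exact hfm i
    · exact (hfm i).compl
  have hGc : ClEv S G := by
    rcases hG with rfl | rfl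
    · exact (hloc i).clEv
    · exact (hloc i).clEv.compl
  set E := G ∩ AAᶜ ∩ PB with hE
  have hEm : MeasurableSet E := (hGm.inter hAAm.compl).inter hPBm
  have hEc : ClEv S E :=
    ((hGc.inter (Aset_clEv S (hloc i).clEv (hloc i').clEv K ρ L).compl)).inter
      (corePB_clEv S g t K1 (4 * s))
  set Cm : Set (Cfg Γ) := {ω | (cl S ω 1).Finite ∧ (cl S ω 1).ncard ≤ m} with hCm
  have hCmm : MeasurableSet Cm := measurableSet_clcard S 1 m
  have hCmc : ClEv S Cm := by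
    intro ω ω' H
    have : cl S ω 1 = cl S ω' 1 := Set.ext fun x => agree_reach H x
    simp only [hCm, Set.mem_ofPred_eq, this]
  set E' := Gᶜ ∩ (DD S k1 s1)ᶜ ∩ Cm with hE'
  have hDDm : ∀ k s, MeasurableSet (DD S k s) := fun k s => (DD_isLoc S k s).meas
  have hE'm : MeasurableSet E' := (hGm.compl.inter (hDDm k1 s1).compl).inter hCmm
  have hE'c : ClEv S E' := (hGc.compl.inter (DD_isLoc S k1 s1).clEv.compl).inter hCmc
  have hμE : β / 2 ≤ mu S p n E := by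
    refine core_arith2 hβt (x := mu S p n E) (a := mu S p n AA) (b := mu S p n PBᶜ) (c := e i)
      ?_ (hAAε.trans hεβ) hPBμ ?_
    · refine hn4.trans ?_
      gcongr
      have hsub : G ⊆ (E ∪ AA) ∪ PBᶜ := by
        intro ω hω
        by_cases h1 : ω ∈ AA
        · exact Or.inl (Or.inr h1)
        · by_cases h2 : ω ∈ PB
          · exact Or.inl (Or.inl ⟨⟨hω, h1⟩, h2⟩)
          · exact Or.inr h2
      refine (measure_mono hsub).trans ((measure_union_le _ _).trans ?_)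
      gcongr
      exact measure_union_le _ _
    · refine hi.trans ?_
      refine (ENNReal.div_le_div_right ?_ 8)
      exact hεβ.trans (ENNReal.div_le_of_le_mul (by
        calc β = β * 1 := (mul_one _).symm
          _ ≤ β * 8 := by gcongr; norm_num))
  have hνE' : X / 4 ≤ nu S p l N E' := by
    refine core_arith3 hXt (a := nu S p l N (DD S k1 s1)) (b := nu S p l N Cmᶜ) ?_ ?_ ?_
    · refine hνG.trans ?_
      have hsub : Gᶜ ⊆ (E' ∪ DD S k1 s1) ∪ Cmᶜ := by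
        intro ω hω
        by_cases h1 : ω ∈ DD S k1 s1
        · exact Or.inl (Or.inr h1)
        · by_cases h2 : ω ∈ Cm
          · exact Or.inl (Or.inl ⟨⟨hω, h1⟩, h2⟩)
          · exact Or.inr h2
      refine (nu_mono S p l N hsub).trans ((nu_union S p l N _ _).trans ?_)
      gcongr
      exact nu_union S p l N _ _
    · refine (T3 S p hl2.le N k1 s1 r1 (by omega)).trans ?_
      calc (S.q k1 : ℝ≥0∞) * theta S p r1 * XN S p l N ≤ 8⁻¹ * X := by gcongr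
        _ = X / 8 := by rw [mul_comm, ENNReal.div_eq_inv_mul, mul_comm]
    · refine hm.trans ?_
      calc (8⁻¹ : ℝ≥0∞) = 1 / 8 := by simp
        _ ≤ X / 8 := ENNReal.div_le_div_right hX1 8
  -- lower bound
  have hlow := lower S p n hl2.le N h hEm hE'm hEc hE'c r0 ((Finset.range (t + 1)).image g)
  set P : Cfg Γ → Γ → Prop := fun ω z => ω ∈ E ∧ vw z ω ∈ E' ∧ ¬ (og S ω).Reachable 1 h ∧
        ∀ x' ∈ (Finset.range (t + 1)).image g, (og S ω).Reachable h x' →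
          dle (og S ω) (S.q r0) h x' with hP
  have hlow2 : mu S p n E * nu S p l N E' ≤ Ms S p n l N h P + X * (β / 64 + β / 64) := by
    refine hlow.trans ?_
    gcongr
  -- upper bound
  have hup := SG S p hp0 hp1 n hl1 hl2 N h P I4 (coreNd S g) (coreη g) (fun i => g i.2.2.2)
    (coreB S (f i) K (f i') ρ L k s k1 s1) (by
      intro i4 _
      unfold coreB
      split_ifs
      · exact (hDDm _ _).diff (hDDm _ _)
      · exact hAAm) K0 R2 Nc (by
      intro i4 hi4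
      simp only [hI4, Finset.mem_product, Finset.mem_range] at hi4
      refine (modN_card S g _ _).trans ?_
      have h1 : (JJ i4.1 i4.2.1 i4.2.2.1 i4.2.2.2).card ≤ t := by
        calc (JJ i4.1 i4.2.1 i4.2.2.1 i4.2.2.2).card ≤ (Finset.range t).card := by
              refine Finset.card_le_card fun x hx => ?_
              simp only [JJ, Finset.mem_union, Finset.mem_Ico] at hx
              rw [Finset.mem_range]; omega
          _ = t := Finset.card_range t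
      have h2 : (II i4.1 i4.2.1 i4.2.2.1 i4.2.2.2).card ≤ t := by
        calc (II i4.1 i4.2.1 i4.2.2.1 i4.2.2.2).card ≤ (Finset.range t).card := by
              refine Finset.card_le_card fun x hx => ?_
              simp only [II, Finset.mem_union, Finset.mem_Ioo] at hx
              rw [Finset.mem_range]; omega
          _ = t := Finset.card_range t
      rw [hNc]
      exact Nat.add_le_add h1 (Nat.mul_le_mul_right _ h2)) (by
      intro ω z hPz hNz hR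
      obtain ⟨hωE, hzE', hdis, hgood⟩ := hPz
      exact core_H S hg hg0 hgt (hloc i) (hloc i') hG hρ hρ1 (le_max_left _ _)
        (le_max_right _ _) (le_max_right _ _) (le_max_left _ _) (le_max_right _ _) hn8 hn9
        (by omega) herr ω z hωE hzE' hdis
        (fun a ha hra => hgood _ (Finset.mem_image_of_mem _ (Finset.mem_range.2 (by omega))) hra)
        hNz hR)
  have hBε : ∀ i4 ∈ I4, mu S p n (coreB S (f i) K (f i') ρ L k s k1 s1 i4) ≤ ε := by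
    intro i4 _
    unfold coreB
    split_ifs
    · have hsub : DD S k s \ DD S k1 s1 ⊆ DD S k s \ DD S k1 s :=
        Set.sdiff_subset_sdiff_right (DD_anti S k1 hs1' hss1)
      refine (measure_mono hsub).trans ?_
      rw [measure_sdiff (DD_mono S (le_max_left _ _) s) (hDDm _ _).nullMeasurableSet
        (measure_ne_top _ _), tsub_le_iff_left]
      exact hn3
    · exact hAAε
  have hup2 : (1 - l) * Ms S p n l N h P ≤ β / 64 + β / 64 := by
    refine hup.trans ?_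
    refine add_le_add hlR ?_
    calc 4 * 2 ^ K0 * cmin p ^ Nc * ∑ i4 ∈ I4, mu S p n (coreB S (f i) K (f i') ρ L k s k1 s1 i4)
        ≤ 4 * 2 ^ K0 * cmin p ^ Nc * (I4.card * ε) := by
          gcongr
          refine (Finset.sum_le_card_nsmul _ _ _ hBε).trans ?_
          rw [nsmul_eq_mul]
      _ = Cst * ε := by rw [hCst]; ring
      _ ≤ β / 64 := hεC
  exact core_arith hβ0 hβt hXt (ne_top_of_le_ne_top ENNReal.one_ne_top tsub_le_self) hN hμE hνE'
    hlow2 hup2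

end IICErg
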