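import Pool.Agent.Lib.MP_4c698b_pr.WalksA
import Pool.Agent.Lib.MP_4c698b_pr.Theta

/-!
# MP_4c698b_pr, module Crit: the expected size of the cluster is infinite at `p_c`
-/

open MeasureTheory Filter Topology
open scoped ENNReal Pointwise

namespace IICErg

variable {Γ : Type} [Group Γ]

/-! ## continuity in `p` of probabilities of events depending on finitely many edges -/

omit [Group Γ] in
/-- the probability of an event depending on finitely many edges is a continuous function of the
parameter -/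
theorem crit_continuous (F : Finset (Sym2 Γ)) (E : Set (Cfg Γ))
    (hE : ∀ ω ω' : Cfg Γ, (∀ e ∈ F, ω e = ω' e) → (ω ∈ E ↔ ω' ∈ E)) :
    Continuous (fun p : unitInterval => (perc Γ p).real E) := by
  classical
  -- the trace of E on the finitely many edges
  let E' : Set (F → Bool) := {η | (fun e => if h : e ∈ F then η ⟨e, h⟩ else false) ∈ E}
  have hEE' : E = F.restrict ⁻¹' E' := by
    ext ω
    simp only [Set.mem_preimage, E', Set.mem_ofPred_eq]
    apply hE
    intro e he
    simp [he]
  have key : ∀ p : unitInterval, (perc Γ p).real E =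
      ∑ η ∈ E'.toFinite.toFinset, ∏ e : F, (if η e then (p : ℝ) else 1 - p) := by
    intro p
    have h1 : (perc Γ p) E = Measure.pi (fun _ : F => bern p) E' := by
      rw [← Measure.infinitePi_map_restrict (fun _ : Sym2 Γ => bern p) (I := F),
        Measure.map_apply (Finset.measurable_restrict _) (Set.toFinite E').measurableSet, ← hEE']
      rfl
    have h2 : E' = ↑(E'.toFinite.toFinset) := (Set.Finite.coe_toFinset _).symm
    rw [measureReal_def, h1]
    conv_lhs => rw [h2]
    rw [← sum_measure_singleton, ENNReal.toReal_sum (fun a _ => measure_ne_top _ _)]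
    refine Finset.sum_congr rfl fun η _ => ?_
    rw [Measure.pi_singleton, ENNReal.toReal_prod]
    refine Finset.prod_congr rfl fun e _ => ?_
    have h3 : (0 : ℝ) ≤ p := p.2.1
    have h4 : (0 : ℝ) ≤ 1 - p := by linarith [p.2.2]
    cases η e
    · simp [bern, ENNReal.toReal_ofReal h4]
    · simp [bern, ENNReal.toReal_ofReal h3]
  simp only [key]
  refine continuous_finsetSum _ fun η _ => continuous_finsetProd _ fun e _ => ?_
  split_ifs <;> fun_prop

/-! ## deterministic part -/

open Classical in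
/-- the event `dle n 1 x` depends on finitely many edges -/
theorem crit_dle_dep (S : GenSet Γ) (m : ℕ) (x : Γ) (ω ω' : Cfg Γ)
    (h : ∀ e ∈ (S.ball m ×ˢ S.S).image (fun a => s(a.1, a.1 * a.2)), ω e = ω' e)
    (hd : dle (og S ω) m 1 x) : dle (og S ω') m 1 x := by
  obtain ⟨w, hw⟩ := hd
  refine ⟨w.transfer (og S ω') ?_, by rw [SimpleGraph.Walk.length_transfer]; exact hw⟩
  intro e he
  induction e using Sym2.ind with
  | _ a b =>
    rw [SimpleGraph.mem_edgeSet]
    have hab : (og S ω).Adj a b := w.adj_of_mem_edges he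
    have ha : a ∈ w.support := w.fst_mem_support_of_mem_edges he
    have hb : a ∈ S.ball m := by
      have : dle S.cay m 1 a := by
        refine ⟨(w.takeUntil a ha).map (SimpleGraph.Hom.ofLE (og_le S ω)), ?_⟩
        rw [SimpleGraph.Walk.length_map]
        exact (w.length_takeUntil_le_length ha).trans hw
      have := (S.mem_ball m 1 a).2 this
      simpa using this
    refine ⟨hab.1, ?_⟩
    rw [← h, hab.2]
    rw [Finset.mem_image]
    refine ⟨(a, a⁻¹ * b), ?_, by simp⟩
    rw [Finset.mem_product]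
    exact ⟨hb, hab.1⟩

theorem crit_step (S : GenSet Γ) (ω : Cfg Γ) {y : Γ} (w : (og S ω).Walk 1 y) (i : ℕ) :
    S.cay.dist 1 (w.getVert (i + 1)) ≤ S.cay.dist 1 (w.getVert i) + 1 := by
  rcases lt_or_ge i w.length with hi | hi
  · have h1 := w.adj_getVert_succ hi
    have h2 : S.cay.Adj (w.getVert i) (w.getVert (i + 1)) := h1.1
    calc S.cay.dist 1 (w.getVert (i + 1))
        ≤ S.cay.dist 1 (w.getVert i) + S.cay.dist (w.getVert i) (w.getVert (i + 1)) :=
          (cay_connected S).dist_triangle
      _ = _ := by rw [SimpleGraph.dist_eq_one_iff_adj.2 h2]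
  · rw [w.getVert_of_length_le hi, w.getVert_of_length_le (by omega)]
    omega

open Classical in
/-- decomposition of an open path from `1` to distance `m + n` at its first vertex at distance `n` -/
theorem crit_split (S : GenSet Γ) (m n : ℕ) (ω : Cfg Γ) (h : far S (m + n) ω 1) :
    ∃ x ∈ (S.ball n).filter (fun x => S.cay.dist 1 x = n),
      ω ∈ occ (dj (wf S (S.q n) 1 x) (wfF S m x)) := by
  obtain ⟨y, hy, hdy⟩ := h
  obtain ⟨w0⟩ := (hy : (og S ω).Reachable 1 y)
  obtain ⟨w, hw⟩ : ∃ w : (og S ω).Walk 1 y, w.IsPath := ⟨w0.toPath, w0.toPath.2⟩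
  have hex : ∃ i, n ≤ S.cay.dist 1 (w.getVert i) :=
    ⟨w.length, by rw [w.getVert_length]; omega⟩
  obtain ⟨i, hi, hmin⟩ : ∃ i, S.cay.dist 1 (w.getVert i) = n ∧
      ∀ j < i, S.cay.dist 1 (w.getVert j) < n := by
    refine ⟨Nat.find hex, ?_, fun j hj => not_le.1 (Nat.find_min hex hj)⟩
    have h1 := Nat.find_spec hex
    refine le_antisymm ?_ h1
    rcases Nat.eq_zero_or_pos (Nat.find hex) with h0 | h0
    · rw [h0, w.getVert_zero, SimpleGraph.dist_self]
      omega
    · obtain ⟨j, hj⟩ : ∃ j, Nat.find hex = j + 1 := ⟨Nat.find hex - 1, by omega⟩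
      have h2 := not_le.1 (Nat.find_min hex (m := j) (by omega))
      have h3 := crit_step S ω w j
      rw [hj]
      omega
  have hle : ∀ j ≤ i, S.cay.dist 1 (w.getVert j) ≤ n := by
    intro j hj
    rcases hj.lt_or_eq with hj | hj
    · exact (hmin j hj).le
    · rw [hj, hi]
  refine ⟨w.getVert i, ?_, ?_⟩
  · rw [Finset.mem_filter, crit_ball]
    exact ⟨hi.le, hi⟩
  have hlen : (w.take i).length ≤ S.q n := by
    have hp : (w.take i).IsPath := hw.take i
    have h1 : (w.take i).support.toFinset ⊆ S.ball n := by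
      intro a ha
      rw [List.mem_toFinset, SimpleGraph.Walk.mem_support_iff_exists_getVert] at ha
      obtain ⟨j, hj, hj'⟩ := ha
      rw [crit_ball, ← hj, SimpleGraph.Walk.take_getVert]
      exact hle _ (min_le_left _ _)
    have h2 := Finset.card_le_card h1
    rw [List.toFinset_card_of_nodup hp.support_nodup, SimpleGraph.Walk.length_support] at h2
    unfold GenSet.q
    omega
  obtain ⟨ha1, ha2⟩ := walk_wf S ω (w.take i)
  obtain ⟨hb1, hb2⟩ := walk_wf S ω (w.drop i)
  refine mem_occ_dj S ω _ _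
    ⟨(w.take i).edges.toFinset, ?_, (w.drop i).edges.toFinset, ?_, ?_, ha2, hb2⟩
  · obtain ⟨v, hv, hv'⟩ := ha1
    exact ⟨v, hv.trans hlen, hv'⟩
  · refine ⟨y, ?_, _, hb1⟩
    have h1 : S.cay.dist 1 y ≤ S.cay.dist 1 (w.getVert i) + S.cay.dist (w.getVert i) y :=
      (cay_connected S).dist_triangle
    omega
  · have hnd : w.edges.Nodup := hw.isTrail.edges_nodup
    rw [← w.append_take_drop_eq i, SimpleGraph.Walk.edges_append] at hnd
    rw [Finset.disjoint_left]
    intro e he he'
    rw [List.mem_toFinset] at he he'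
    exact (List.disjoint_of_nodup_append hnd) he he'

open Classical in
theorem crit_mul (S : GenSet Γ) (q : unitInterval) (m n : ℕ) :
    theta S q (m + n) ≤
      (∑ x ∈ (S.ball n).filter (fun x => S.cay.dist 1 x = n),
        perc Γ q {ω | dle (og S ω) (S.q n) 1 x}) * theta S q m := by
  calc theta S q (m + n)
      ≤ perc Γ q (⋃ x ∈ (S.ball n).filter (fun x => S.cay.dist 1 x = n),
          occ (dj (wf S (S.q n) 1 x) (wfF S m x))) := by
        refine measure_mono fun ω hω => ?_
        obtain ⟨x, hx, hx'⟩ := crit_split S m n ω hω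
        exact Set.mem_biUnion (by exact hx) hx'
    _ ≤ ∑ x ∈ (S.ball n).filter (fun x => S.cay.dist 1 x = n),
          perc Γ q (occ (dj (wf S (S.q n) 1 x) (wfF S m x))) :=
        measure_biUnion_finset_le _ _
    _ ≤ ∑ x ∈ (S.ball n).filter (fun x => S.cay.dist 1 x = n),
          perc Γ q {ω | dle (og S ω) (S.q n) 1 x} * theta S q m := by
        refine Finset.sum_le_sum fun x _ => ?_
        refine (bk_occ S q _ _).trans (le_of_eq ?_)
        rw [occ_wf, occ_wfF, theta_vertex]
    _ = _ := by rw [Finset.sum_mul]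

/-- the expected size of the cluster is infinite at `p_c` -/
theorem chi_top (S : GenSet Γ) (h : pc S < 1) : ∑' x, tau S (pc S) 1 x = ⊤ := by
  classical
  by_contra hne
  -- a sphere over which the sum of `tau` is less than one
  obtain ⟨n, hn⟩ : ∃ n, ∑ x ∈ (S.ball n).filter (fun x => S.cay.dist 1 x = n),
      tau S (pc S) 1 x < 1 := by
    have h1 := ENNReal.tendsto_tsum_compl_atTop_zero hne
    obtain ⟨s, hs⟩ := (h1.eventually (gt_mem_nhds (show (0 : ℝ≥0∞) < 1 from one_pos))).exists
    refine ⟨s.sup (fun x => S.cay.dist 1 x) + 1, lt_of_le_of_lt ?_ hs⟩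
    rw [← Finset.tsum_subtype]
    have h2 : (((S.ball (s.sup (fun x => S.cay.dist 1 x) + 1)).filter (fun x => S.cay.dist 1 x =
      s.sup (fun x => S.cay.dist 1 x) + 1) : Finset Γ) : Set Γ) ⊆ {x | x ∉ s} := by
      intro x hx hxs
      rw [Finset.mem_coe, Finset.mem_filter] at hx
      have := Finset.le_sup (f := fun x => S.cay.dist 1 x) hxs
      omega
    exact ENNReal.tsum_mono_subtype (fun x => tau S (pc S) 1 x) h2
  -- the continuous function
  let A := (S.ball n).filter (fun x => S.cay.dist 1 x = n)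
  have hcont : Continuous (fun q : unitInterval =>
      ∑ x ∈ A, (perc Γ q).real {ω | dle (og S ω) (S.q n) 1 x}) := by
    refine continuous_finsetSum _ fun x _ => ?_
    refine crit_continuous ((S.ball (S.q n) ×ˢ S.S).image (fun a => s(a.1, a.1 * a.2))) _ ?_
    intro ω ω' hω
    exact ⟨fun hd => crit_dle_dep S _ x ω ω' hω hd,
      fun hd => crit_dle_dep S _ x ω' ω (fun e he => (hω e he).symm) hd⟩
  have hval : ∀ q : unitInterval, ∑ x ∈ A, (perc Γ q).real {ω | dle (og S ω) (S.q n) 1 x} =
      (∑ x ∈ A, perc Γ q {ω | dle (og S ω) (S.q n) 1 x}).toReal := by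
    intro q
    rw [ENNReal.toReal_sum (fun a _ => measure_ne_top _ _)]
    rfl
  have hp : ∑ x ∈ A, (perc Γ (pc S)).real {ω | dle (og S ω) (S.q n) 1 x} < 1 := by
    rw [hval, ← ENNReal.toReal_one]
    apply ENNReal.toReal_strict_mono ENNReal.one_ne_top
    refine lt_of_le_of_lt (Finset.sum_le_sum fun x _ => ?_) hn
    refine measure_mono fun ω hω => ?_
    obtain ⟨w, _⟩ := (hω : dle (og S ω) (S.q n) 1 x)
    exact ⟨w⟩
  -- a parameter `q > pc`
  obtain ⟨q, hq, hpq⟩ : ∃ q : unitInterval,
      ∑ x ∈ A, (perc Γ q).real {ω | dle (og S ω) (S.q n) 1 x} < 1 ∧ pc S < q := by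
    have hev := hcont.continuousAt.eventually (gt_mem_nhds hp)
    have hnb : (𝓝[>] (pc S)).NeBot := nhdsGT_neBot_of_exists_gt ⟨1, h⟩
    have hev2 : ∀ᶠ q in 𝓝[>] (pc S), pc S < q := self_mem_nhdsWithin
    exact ((hev.filter_mono nhdsWithin_le_nhds).and hev2).exists
  have hc : ∑ x ∈ A, perc Γ q {ω | dle (og S ω) (S.q n) 1 x} < 1 := by
    rw [hval, ← ENNReal.toReal_one] at hq
    exact (ENNReal.toReal_lt_toReal (ENNReal.sum_ne_top.2 fun a _ => measure_ne_top _ _)
      ENNReal.one_ne_top).1 hq
  have hθ : ∀ k, theta S q (k * n) ≤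
      (∑ x ∈ A, perc Γ q {ω | dle (og S ω) (S.q n) 1 x}) ^ k := by
    intro k
    induction k with
    | zero =>
      rw [pow_zero]
      exact prob_le_one
    | succ k ih =>
      rw [Nat.succ_mul, pow_succ']
      exact (crit_mul S q (k * n) n).trans (mul_le_mul_right ih _)
  have h0 : perc Γ q {ω | ¬ (cl S ω 1).Finite} = 0 := by
    refine le_antisymm ?_ bot_le
    refine ge_of_tendsto' (ENNReal.tendsto_pow_atTop_nhds_zero_of_lt_one hc) fun k => ?_
    refine le_trans (measure_mono ?_) (hθ k)
    rw [crit_inf]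
    exact Set.iInter_subset _ _
  exact absurd (le_sSup (show q ∈ {p : unitInterval | perc Γ p {ω | ¬ (cl S ω 1).Finite} = 0}
    from h0)) (not_le.2 hpq)

end IICErg
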