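import Mathlib

/-!
# Ergodicity of the incipient infinite cluster (problem MP_4c698b_pr): definitions
-/

open MeasureTheory Filter Topology
open scoped ENNReal Pointwise

namespace IICErg

/-! ## Graphs -/

/-- `dle G n x y`: there is a walk of length at most `n` from `x` to `y` in `G`,
i.e. the graph distance of `x` and `y` in `G` is at most `n`. -/
def dle {V : Type} (G : SimpleGraph V) (n : ℕ) (x y : V) : Prop :=
  ∃ w : G.Walk x y, w.length ≤ n

/-- `BallIso r G x H y`: the balls of radius `r` about `x` in `G` and about `y` in `H` (as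
induced subgraphs) are isomorphic as rooted graphs. -/
def BallIso {V W : Type} (r : ℕ) (G : SimpleGraph V) (x : V) (H : SimpleGraph W) (y : W) : Prop :=
  ∃ e : {v : V // dle G r x v} ≃ {v : W // dle H r y v},
    (∀ hx : dle G r x x, (e ⟨x, hx⟩ : W) = y) ∧
      ∀ u v : {v : V // dle G r x v}, G.Adj u v ↔ H.Adj (e u) (e v)

/-- A rooted graph with all degrees at most `D`. The vertices are natural numbers, the root is `0`,
and the rooted graph that is meant is the connected component of `0`. -/
structure RGraph (D : ℕ) where
  /-- the graph -/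
  G : SimpleGraph ℕ
  /-- all degrees are at most `D` -/
  deg_le : ∀ v, (G.neighborSet v).encard ≤ D

/-- The `σ`-algebra on the space of rooted graphs generated by the local topology: it is generated
by the sets of all rooted graphs whose ball of radius `r` about the root is isomorphic to that of a
given rooted graph. -/
instance (D : ℕ) : MeasurableSpace (RGraph D) :=
  MeasurableSpace.generateFrom
    {s | ∃ (r : ℕ) (K : RGraph D), s = {H : RGraph D | BallIso r H.G 0 K.G 0}}

/-- The graph `H` with root `v` instead of `0` (the labels `0` and `v` are exchanged). -/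
def RGraph.reroot {D : ℕ} (H : RGraph D) (v : ℕ) : RGraph D where
  G := H.G.comap (Equiv.swap 0 v)
  deg_le := fun u => by
    have h : ((H.G.comap (Equiv.swap 0 v)).neighborSet u) =
        (Equiv.swap 0 v) ⁻¹' (H.G.neighborSet (Equiv.swap 0 v u)) := by
      ext w; simp
    rw [h, Set.encard_preimage_of_bijective (Equiv.swap 0 v).bijective]
    exact H.deg_le _

/-- A set of rooted graphs is basepoint-invariant if it contains, with a rooted graph, all
rooted graphs obtained from it by changing the root. -/
def BasepointInv {D : ℕ} (E : Set (RGraph D)) : Prop :=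
  ∀ H ∈ E, ∀ v : ℕ, H.G.Reachable 0 v → H.reroot v ∈ E

/-- A probability law on rooted graphs is ergodic if every (measurable) basepoint-invariant event
has probability `0` or `1`. -/
def Ergodic {D : ℕ} (A : Measure (RGraph D)) : Prop :=
  ∀ E : Set (RGraph D), MeasurableSet E → BasepointInv E → A E = 0 ∨ A E = 1

/-! ## Cayley graphs and Bernoulli bond percolation -/

/-- A finite symmetric generating set of the group `Γ`, not containing `1`. -/
structure GenSet (Γ : Type) [Group Γ] where
  /-- the set -/
  S : Finset Γ
  inv_mem : ∀ s ∈ S, s⁻¹ ∈ S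
  one_not_mem : (1 : Γ) ∉ S
  gen : Subgroup.closure (S : Set Γ) = ⊤

variable {Γ : Type} [Group Γ]

/-- The Cayley graph of `Γ` with respect to `S`. -/
def GenSet.cay (S : GenSet Γ) : SimpleGraph Γ where
  Adj x y := x⁻¹ * y ∈ S.S
  symm := ⟨fun x y h => by simpa using S.inv_mem _ h⟩
  loopless := ⟨fun x h => S.one_not_mem (by simpa using h)⟩

/-- Percolation configurations: `ω e = true` means that the edge `e` is open. -/
abbrev Cfg (Γ : Type) : Type := Sym2 Γ → Bool

/-- The graph of open edges of the Cayley graph. -/
def og (S : GenSet Γ) (ω : Cfg Γ) : SimpleGraph Γ where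
  Adj x y := S.cay.Adj x y ∧ ω s(x, y) = true
  symm := ⟨fun x y h => ⟨h.1.symm, by rw [Sym2.eq_swap]; exact h.2⟩⟩
  loopless := ⟨fun x h => S.cay.loopless.irrefl x h.1⟩

/-- The Bernoulli law with parameter `p`. -/
noncomputable def bern (p : unitInterval) : Measure Bool :=
  ENNReal.ofReal p • Measure.dirac true + ENNReal.ofReal (1 - p) • Measure.dirac false

instance (p : unitInterval) : IsProbabilityMeasure (bern p) := ⟨by
  have h1 : (0 : ℝ) ≤ p := p.2.1
  have h2 : (0 : ℝ) ≤ 1 - p := by linarith [p.2.2]
  simp [bern, ← ENNReal.ofReal_add h1 h2]⟩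

/-- Bernoulli bond percolation with parameter `p`: all edges are open independently with
probability `p`. (The configuration also has bits for the pairs that are not edges of the Cayley
graph; these are never used.) -/
noncomputable def perc (Γ : Type) (p : unitInterval) : Measure (Cfg Γ) :=
  Measure.infinitePi (fun _ : Sym2 Γ => bern p)

instance (p : unitInterval) : IsProbabilityMeasure (perc Γ p) := by
  unfold perc; infer_instance

/-- The open cluster of `x`. -/
def cl (S : GenSet Γ) (ω : Cfg Γ) (x : Γ) : Set Γ := {y | (og S ω).Reachable x y}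

/-- The open cluster of `x` reaches the sphere of radius `n` about `x`. -/
def far (S : GenSet Γ) (n : ℕ) (ω : Cfg Γ) (x : Γ) : Prop :=
  ∃ y ∈ cl S ω x, S.cay.dist x y = n

/-- The critical probability: the supremum of all `p` for which the open cluster of `1` is
almost surely finite. -/
noncomputable def pc (S : GenSet Γ) : unitInterval :=
  sSup {p : unitInterval | perc Γ p {ω | ¬ (cl S ω 1).Finite} = 0}

open Classical in
/-- `unif C Q` is the probability that a uniformly chosen element of the finite set `C`
satisfies `Q` (and `0` if `C` is infinite). -/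
noncomputable def unif (C : Set Γ) (Q : Γ → Prop) : ℝ≥0∞ :=
  if C.Finite then (({v | v ∈ C ∧ Q v} : Set Γ).ncard : ℝ≥0∞) / (C.ncard : ℝ≥0∞) else 0

/-- The probability that the cluster of `1` reaches distance `n`. -/
noncomputable def theta (S : GenSet Γ) (p : unitInterval) (n : ℕ) : ℝ≥0∞ :=
  perc Γ p {ω | far S n ω 1}

/-- `lawB S p n r K` is the probability of `BallIso r C_n ρ_n K 0`, where `C_n` is the open cluster
of `1` conditioned on reaching the sphere of radius `n`, and `ρ_n` is a uniformly random vertex of
it. -/
noncomputable def lawB (S : GenSet Γ) (p : unitInterval) (n r : ℕ) {D : ℕ} (K : RGraph D) :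
    ℝ≥0∞ :=
  (∫⁻ ω in {ω | far S n ω 1}, unif (cl S ω 1) (fun v => BallIso r (og S ω) v K.G 0) ∂(perc Γ p)) /
    theta S p n

/-- `A` is an incipient infinite cluster of the Cayley graph: a subsequential weak limit of the laws
of `(C_n, ρ_n)` at the critical probability. -/
def IsIIC (S : GenSet Γ) (A : Measure (RGraph S.S.card)) : Prop :=
  IsProbabilityMeasure A ∧ ∃ φ : ℕ → ℕ, StrictMono φ ∧
    ∀ (r : ℕ) (K : RGraph S.S.card),
      Tendsto (fun n => lawB S (pc S) (φ n) r K) atTop
        (𝓝 (A {H : RGraph S.S.card | BallIso r H.G 0 K.G 0}))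

/-- The two-point function. -/
noncomputable def tau (S : GenSet Γ) (p : unitInterval) (x y : Γ) : ℝ≥0∞ :=
  perc Γ p {ω | (og S ω).Reachable x y}

/-- The two-point function is (the matrix of) a bounded operator on `ℓ²(Γ)`. -/
def L2Bounded (S : GenSet Γ) (p : unitInterval) : Prop :=
  ∃ M : ℝ≥0∞, M ≠ ⊤ ∧ ∀ f : Γ → ℝ≥0∞,
    ∑' x, (∑' y, tau S p x y * f y) ^ 2 ≤ M * ∑' y, f y ^ 2

end IICErg
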