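import Pool.Agent.Lib.MP_4c698b_pr.O3

/-!
# Module O6: the Duminil-Copin and Tassion inequality
-/

open MeasureTheory Filter Topology
open scoped ENNReal NNReal Pointwise

namespace IICErg

variable {Γ : Type} [Group Γ]

theorem O6_ball (S : GenSet Γ) (n : ℕ) (x : Γ) : x ∈ S.ball n ↔ S.cay.dist 1 x ≤ n := by
  have h := S.mem_ball n 1 x
  rw [inv_one, one_mul, dle_iff] at h
  rw [h]
  exact and_iff_right ((cay_connected S).preconnected 1 x)

theorem O6_dist_adj (S : GenSet Γ) {a b : Γ} (h : S.cay.Adj a b) :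
    S.cay.dist 1 b ≤ S.cay.dist 1 a + 1 := by
  have h1 := (cay_connected S).dist_triangle (u := 1) (v := a) (w := b)
  have h2 : S.cay.dist a b = 1 := SimpleGraph.dist_eq_one_iff_adj.mpr h
  omega

theorem O6_far (S : GenSet Γ) (n : ℕ) (ω : Cfg Γ) :
    far S n ω 1 ↔ ∃ z, (ogK S (S.ball n) ω).Reachable 1 z ∧ S.cay.dist 1 z = n := by
  constructor
  · rintro ⟨y, hy, hd⟩
    obtain ⟨w⟩ := (hy : (og S ω).Reachable 1 y)
    have key : ∀ {a b : Γ} (_ : (og S ω).Walk a b), S.cay.dist 1 a ≤ n → S.cay.dist 1 b = n →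
        ∃ z, (ogK S (S.ball n) ω).Reachable a z ∧ S.cay.dist 1 z = n := by
      intro a b w
      induction w with
      | nil => intro _ h; exact ⟨_, SimpleGraph.Reachable.refl _, h⟩
      | @cons a c b hadj w ih =>
        intro ha hb
        rcases ha.eq_or_lt with h | h
        · exact ⟨a, SimpleGraph.Reachable.refl _, h⟩
        · have hc : S.cay.dist 1 c ≤ n := (O6_dist_adj S hadj.1).trans h
          obtain ⟨z, hz, hzn⟩ := ih hc hb
          have h1 : (ogK S (S.ball n) ω).Adj a c := ⟨hadj, (O6_ball S n a).2 ha, (O6_ball S n c).2 hc⟩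
          exact ⟨z, h1.reachable.trans hz, hzn⟩
    exact key w (by simp) hd
  · rintro ⟨z, hz, hd⟩
    have hle : ogK S (S.ball n) ω ≤ og S ω := fun u v h => h.1
    exact ⟨z, hz.mono hle, hd⟩

theorem O6_ogK (S : GenSet Γ) (K : Finset Γ) {ω ω' : Cfg Γ}
    (h : ∀ u ∈ K, ∀ v ∈ K, S.cay.Adj u v → ω s(u, v) = ω' s(u, v)) :
    ogK S K ω = ogK S K ω' := by
  ext u v
  show ((S.cay.Adj u v ∧ ω s(u, v) = true) ∧ u ∈ K ∧ v ∈ K) ↔
    ((S.cay.Adj u v ∧ ω' s(u, v) = true) ∧ u ∈ K ∧ v ∈ K)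
  constructor
  · rintro ⟨⟨h1, h2⟩, hu, hv⟩
    exact ⟨⟨h1, by rw [← h u hu v hv h1]; exact h2⟩, hu, hv⟩
  · rintro ⟨⟨h1, h2⟩, hu, hv⟩
    exact ⟨⟨h1, by rw [h u hu v hv h1]; exact h2⟩, hu, hv⟩

theorem O6_mem_edB (S : GenSet Γ) (n : ℕ) {u v : Γ} (hu : u ∈ S.ball n) (h : S.cay.Adj u v) :
    s(u, v) ∈ edB S n := by
  classical
  refine Finset.mem_image.mpr ⟨(u, u⁻¹ * v), Finset.mem_product.mpr ⟨hu, h⟩, ?_⟩
  show s(u, u * (u⁻¹ * v)) = s(u, v)
  rw [mul_inv_cancel_left]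

theorem far_edB (S : GenSet Γ) (n : ℕ) (ω ω' : Cfg Γ) (h : ∀ e ∈ edB S n, ω e = ω' e) :
    far S n ω 1 ↔ far S n ω' 1 := by
  have h1 : ogK S (S.ball n) ω = ogK S (S.ball n) ω' :=
    O6_ogK S _ fun u hu v _ hadj => h _ (O6_mem_edB S n hu hadj)
  rw [O6_far, O6_far, h1]

theorem O6_mono (S : GenSet Γ) {K K' : Finset Γ} (hK : K ⊆ K') (ω : Cfg Γ) (e : Sym2 Γ) :
    ogK S K ω ≤ ogK S K' (upd ω e true) := by
  rintro u v ⟨⟨h1, h2⟩, hu, hv⟩
  refine ⟨⟨h1, ?_⟩, hK hu, hK hv⟩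
  by_cases he : s(u, v) = e
  · rw [he, O3_upd_self]
  · rwa [O3_upd_ne _ _ he]

theorem O6_mono' (S : GenSet Γ) (K : Finset Γ) (ω : Cfg Γ) (e : Sym2 Γ) :
    ogK S K (upd ω e false) ≤ ogK S K (upd ω e true) := by
  rintro u v ⟨⟨h1, h2⟩, hu, hv⟩
  refine ⟨⟨h1, ?_⟩, hu, hv⟩
  by_cases he : s(u, v) = e
  · rw [he, O3_upd_self]
  · rw [O3_upd_ne _ _ he] at h2 ⊢
    exact h2

open Classical in
/-- the vertices of the ball that are not connected to the sphere of radius `n` inside the ball -/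
noncomputable def O6_cut (S : GenSet Γ) (n : ℕ) (ω : Cfg Γ) : Finset Γ :=
  (S.ball n).filter
    (fun x => ¬ ∃ z, (ogK S (S.ball n) ω).Reachable x z ∧ S.cay.dist 1 z = n)

theorem O6_mem_cut (S : GenSet Γ) (n : ℕ) (ω : Cfg Γ) (x : Γ) :
    x ∈ O6_cut S n ω ↔ x ∈ S.ball n ∧
      ¬ ∃ z, (ogK S (S.ball n) ω).Reachable x z ∧ S.cay.dist 1 z = n := by
  classical
  exact Finset.mem_filter

theorem O6_far_cut (S : GenSet Γ) (n : ℕ) (ω : Cfg Γ) :
    ¬ far S n ω 1 ↔ (1 : Γ) ∈ O6_cut S n ω := by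
  rw [O6_mem_cut, O6_far]
  exact (and_iff_right (S.one_mem_ball n)).symm

/-- the event that the cut set is `K` depends only on the edges that are not inside `K` -/
theorem O6_dep (S : GenSet Γ) (n : ℕ) (K : Finset Γ) {ω ω' : Cfg Γ}
    (h : ∀ u ∈ S.ball n, ∀ v ∈ S.ball n, S.cay.Adj u v → ¬ (u ∈ K ∧ v ∈ K) →
      ω s(u, v) = ω' s(u, v)) (hK : O6_cut S n ω = K) : O6_cut S n ω' = K := by
  classical
  have hmem : ∀ x, x ∈ K ↔ x ∈ S.ball n ∧
      ¬ ∃ z, (ogK S (S.ball n) ω).Reachable x z ∧ S.cay.dist 1 z = n := by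
    intro x
    rw [← hK]
    exact O6_mem_cut S n ω x
  have k1 : ∀ {a z : Γ} (_ : (ogK S (S.ball n) ω).Walk a z), S.cay.dist 1 z = n →
      (ogK S (S.ball n) ω').Reachable a z := by
    intro a z w
    induction w with
    | nil => intro _; exact SimpleGraph.Reachable.refl _
    | @cons a b z hadj w ih =>
      intro hz
      have ha : a ∉ K := fun hc =>
        ((hmem a).1 hc).2 ⟨z, hadj.reachable.trans ⟨w⟩, hz⟩
      have h1 : (ogK S (S.ball n) ω').Adj a b := by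
        refine ⟨⟨hadj.1.1, ?_⟩, hadj.2⟩
        rw [← h a hadj.2.1 b hadj.2.2 hadj.1.1 (fun hc => ha hc.1)]
        exact hadj.1.2
      exact h1.reachable.trans (ih hz)
  have k2 : ∀ {a z : Γ} (_ : (ogK S (S.ball n) ω').Walk a z), S.cay.dist 1 z = n →
      a ∉ K := by
    intro a z w
    induction w with
    | nil =>
      intro hz hc
      exact ((hmem _).1 hc).2 ⟨_, SimpleGraph.Reachable.refl _, hz⟩
    | @cons a b z hadj w ih =>
      intro hz hc
      have hb : b ∉ K := ih hz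
      have h1 : (ogK S (S.ball n) ω).Adj a b := by
        refine ⟨⟨hadj.1.1, ?_⟩, hadj.2⟩
        rw [h a hadj.2.1 b hadj.2.2 hadj.1.1 (fun hc => hb hc.2)]
        exact hadj.1.2
      have h2 : ∃ z, (ogK S (S.ball n) ω).Reachable b z ∧ S.cay.dist 1 z = n := by
        by_contra hcon
        exact hb ((hmem b).2 ⟨hadj.2.2, hcon⟩)
      obtain ⟨z', hz', hd⟩ := h2
      exact ((hmem a).1 hc).2 ⟨z', h1.reachable.trans hz', hd⟩
  ext x
  rw [O6_mem_cut]
  constructor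
  · rintro ⟨hx, hx'⟩
    rw [hmem]
    refine ⟨hx, ?_⟩
    rintro ⟨z, ⟨w⟩, hz⟩
    exact hx' ⟨z, k1 w hz, hz⟩
  · intro hx
    refine ⟨((hmem x).1 hx).1, ?_⟩
    rintro ⟨z, ⟨w⟩, hz⟩
    exact k2 w hz hx

omit [Group Γ] in
/-- an event that depends on the edges of `F` is independent of an event that does not -/
theorem O6_indep (p : unitInterval) (F : Finset (Sym2 Γ)) (B : Set (Cfg Γ))
    (hB : MeasurableSet B) :
    ∀ A : Set (Cfg Γ), (∀ ω ω' : Cfg Γ, (∀ e ∈ F, ω e = ω' e) → (ω ∈ A ↔ ω' ∈ A)) →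
    (∀ e ∈ F, ∀ (ω : Cfg Γ) (b : Bool), upd ω e b ∈ B ↔ ω ∈ B) →
    (perc Γ p).real (A ∩ B) = (perc Γ p).real A * (perc Γ p).real B := by
  classical
  induction F using Finset.induction_on with
  | empty =>
    intro A hA _
    by_cases h : ∃ ω, ω ∈ A
    · obtain ⟨ω, hω⟩ := h
      have h1 : A = Set.univ := Set.eq_univ_of_forall fun ω' =>
        (hA ω ω' (by simp)).1 hω
      rw [h1, Set.univ_inter, probReal_univ, one_mul]
    · have h1 : A = ∅ := Set.eq_empty_of_forall_notMem fun ω hω => h ⟨ω, hω⟩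
      rw [h1, Set.empty_inter, measureReal_empty, zero_mul]
  | insert e F he ih =>
    intro A hA hB'
    have hAm : MeasurableSet A := O3_meas _ _ hA
    have h1 : ∀ b : Bool, (perc Γ p).real ({ω | upd ω e b ∈ A} ∩ B) =
        (perc Γ p).real {ω | upd ω e b ∈ A} * (perc Γ p).real B := by
      intro b
      refine ih _ (fun ω ω' h => ?_) (fun f hf => hB' f (Finset.mem_insert_of_mem hf))
      refine O3_upd_dep hA e b ω ω' fun f hf hfe => h f ?_
      exact (Finset.mem_insert.mp hf).resolve_left hfe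
    have h2 : ∀ b : Bool, {ω : Cfg Γ | upd ω e b ∈ A ∩ B} = {ω | upd ω e b ∈ A} ∩ B := by
      intro b
      ext ω
      show (upd ω e b ∈ A ∧ upd ω e b ∈ B) ↔ (upd ω e b ∈ A ∧ ω ∈ B)
      rw [hB' e (Finset.mem_insert_self _ _)]
    rw [O3_split p e (hAm.inter hB), h2, h2, h1, h1, O3_split p e hAm]
    ring

/-- the edge `e` is closed and pivotal -/
def O6_piv (S : GenSet Γ) (n : ℕ) (e : Sym2 Γ) : Set (Cfg Γ) :=
  {ω | ¬ far S n ω 1 ∧ far S n (upd ω e true) 1}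

theorem O6_far_dep (S : GenSet Γ) (n : ℕ) (ω ω' : Cfg Γ) (h : ∀ e ∈ edB S n, ω e = ω' e) :
    ω ∈ {ω | far S n ω 1} ↔ ω' ∈ {ω | far S n ω 1} :=
  far_edB S n ω ω' h

theorem O6_piv_meas (S : GenSet Γ) (n : ℕ) (e : Sym2 Γ) : MeasurableSet (O6_piv S n e) := by
  refine O3_meas (edB S n) _ fun ω ω' h => ?_
  refine and_congr (not_congr (far_edB S n ω ω' h)) ?_
  exact O3_upd_dep (O6_far_dep S n) e true ω ω' fun f hf _ => h f hf

theorem O6_piv_prob (S : GenSet Γ) (p : unitInterval) (n : ℕ) (e : Sym2 Γ) :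
    (perc Γ p).real (O6_piv S n e) = (1 - p) *
      ((perc Γ p).real {ω | upd ω e true ∈ {ω | far S n ω 1}} -
        (perc Γ p).real {ω | upd ω e false ∈ {ω | far S n ω 1}}) := by
  have h1 : {ω : Cfg Γ | upd ω e true ∈ O6_piv S n e} = ∅ := by
    ext ω
    simp only [Set.mem_ofPred_eq, Set.mem_empty_iff_false, iff_false]
    rintro ⟨h3, h4⟩
    rw [O3_upd_upd] at h4
    exact h3 h4
  have h2 : {ω : Cfg Γ | upd ω e false ∈ O6_piv S n e} =
      {ω | upd ω e true ∈ {ω | far S n ω 1}} \ {ω | upd ω e false ∈ {ω | far S n ω 1}} := by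
    ext ω
    show (¬ far S n (upd ω e false) 1 ∧ far S n (upd (upd ω e false) e true) 1) ↔
      (far S n (upd ω e true) 1 ∧ ¬ far S n (upd ω e false) 1)
    rw [O3_upd_upd]
    exact and_comm
  have h3 : {ω : Cfg Γ | upd ω e false ∈ {ω | far S n ω 1}} ⊆
      {ω | upd ω e true ∈ {ω | far S n ω 1}} := by
    intro ω hω
    have h4 : far S n (upd ω e false) 1 := hω
    rw [O6_far] at h4
    obtain ⟨z, hz, hd⟩ := h4
    show far S n (upd ω e true) 1
    rw [O6_far]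
    exact ⟨z, hz.mono (O6_mono' S _ ω e), hd⟩
  have h4 : MeasurableSet {ω : Cfg Γ | upd ω e false ∈ {ω | far S n ω 1}} := by
    refine O3_meas (edB S n) _ fun ω ω' h => ?_
    exact O3_upd_dep (O6_far_dep S n) e false ω ω' fun f hf _ => h f hf
  rw [O3_split p e (O6_piv_meas S n e), h1, h2, measureReal_sdiff h3 h4]
  simp

theorem O6_incl (S : GenSet Γ) (n : ℕ) (K : Finset Γ) (h1 : (1 : Γ) ∈ K) {x s : Γ}
    (hx : x ∈ K) (hs : s ∈ S.S) (hxs : x * s ∉ K) {ω : Cfg Γ}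
    (hω : (ogK S K ω).Reachable 1 x) (hK : O6_cut S n ω = K) :
    ω ∈ O6_piv S n s(x, x * s) := by
  have hadj : S.cay.Adj x (x * s) := by
    show x⁻¹ * (x * s) ∈ S.S
    rwa [inv_mul_cancel_left]
  have hmem : ∀ x, x ∈ K ↔ x ∈ S.ball n ∧
      ¬ ∃ z, (ogK S (S.ball n) ω).Reachable x z ∧ S.cay.dist 1 z = n := by
    intro x
    rw [← hK]
    exact O6_mem_cut S n ω x
  have hsub : K ⊆ S.ball n := fun v hv => ((hmem v).1 hv).1
  have hxd : S.cay.dist 1 x < n := by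
    have h2 := (O6_ball S n x).1 (hsub hx)
    refine lt_of_le_of_ne h2 fun h3 => ?_
    exact ((hmem x).1 hx).2 ⟨x, SimpleGraph.Reachable.refl _, h3⟩
  have hxsb : x * s ∈ S.ball n := (O6_ball S n _).2 ((O6_dist_adj S hadj).trans hxd)
  have h2 : ∃ z, (ogK S (S.ball n) ω).Reachable (x * s) z ∧ S.cay.dist 1 z = n := by
    by_contra hcon
    exact hxs ((hmem _).2 ⟨hxsb, hcon⟩)
  obtain ⟨z, hz, hd⟩ := h2
  refine ⟨?_, ?_⟩
  · rw [O6_far_cut, hK]
    exact h1
  · rw [O6_far]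
    refine ⟨z, ?_, hd⟩
    have h3 : (ogK S (S.ball n) (upd ω s(x, x * s) true)).Adj x (x * s) :=
      ⟨⟨hadj, O3_upd_self _ _ _⟩, hsub hx, hxsb⟩
    exact ((hω.mono (O6_mono S hsub ω _)).trans h3.reachable).trans
      (hz.mono (O6_mono S subset_rfl ω _))

theorem O6_cut_meas (S : GenSet Γ) (n : ℕ) (K : Finset Γ) :
    MeasurableSet {ω : Cfg Γ | O6_cut S n ω = K} := by
  refine O3_meas (edB S n) _ fun ω ω' h => ?_
  constructor
  · exact fun hK => O6_dep S n K (fun u hu v _ hadj _ => h _ (O6_mem_edB S n hu hadj)) hK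
  · exact fun hK => O6_dep S n K (fun u hu v _ hadj _ => (h _ (O6_mem_edB S n hu hadj)).symm) hK

theorem O6_cut_indep (S : GenSet Γ) (p : unitInterval) (n : ℕ) (K : Finset Γ) (x : Γ) :
    (perc Γ p).real ({ω | (ogK S K ω).Reachable 1 x} ∩ {ω | O6_cut S n ω = K}) =
      tK S p K x * (perc Γ p).real {ω | O6_cut S n ω = K} := by
  classical
  refine O6_indep p (O3_pairs K) _ (O6_cut_meas S n K) _
    (O3_ogK_dep S K (fun G => G.Reachable 1 x)) ?_
  intro e he ω b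
  have hne : ∀ u v, ¬ (u ∈ K ∧ v ∈ K) → s(u, v) ≠ e := by
    intro u v huv h
    subst h
    obtain ⟨⟨a, c⟩, h1, h2⟩ := Finset.mem_image.1 he
    rw [Finset.mem_product] at h1
    rcases Sym2.eq_iff.1 h2 with ⟨h3, h4⟩ | ⟨h3, h4⟩
    · exact huv ⟨h3 ▸ h1.1, h4 ▸ h1.2⟩
    · exact huv ⟨h4 ▸ h1.2, h3 ▸ h1.1⟩
  constructor
  · exact fun hK => O6_dep S n K (fun u hu v _ hadj huv => O3_upd_ne _ _ (hne u v huv)) hK
  · exact fun hK => O6_dep S n K (fun u hu v _ hadj huv => (O3_upd_ne _ _ (hne u v huv)).symm) hK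

theorem O6_phi (S : GenSet Γ) (p : unitInterval) (K : Finset Γ) [DecidableEq Γ] :
    phi S p K = p * ∑ t ∈ (K ×ˢ S.S).filter (fun t => t.1 * t.2 ∉ K), tK S p K t.1 := by
  unfold phi
  congr 1
  rw [Finset.sum_filter, Finset.sum_product]
  refine Finset.sum_congr rfl fun x _ => ?_
  rw [← Finset.sum_filter]
  simp only [Finset.sum_const, nsmul_eq_mul]
  congr

theorem dct (S : GenSet Γ) (p : unitInterval) (hp0 : 0 < p) (hp1 : p < 1) (n : ℕ) (hn : 1 ≤ n)
    (c : ℝ) (hc : ∀ K : Finset Γ, (1 : Γ) ∈ K → c ≤ phi S p K) :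
    c / (p * (1 - p)) * (1 - (theta S p n).toReal) ≤ russo p (edB S n) {ω | far S n ω 1} := by
  classical
  have hp0' : (0 : ℝ) < p := hp0
  have hp1' : (0 : ℝ) < 1 - p := by
    have : (p : ℝ) < 1 := hp1
    linarith
  set P : Set (Cfg Γ) → ℝ := (perc Γ p).real with hP
  set T : Finset (Finset Γ) := (S.ball n).powerset.filter (fun K => (1 : Γ) ∈ K) with hT
  -- one cut set
  have hK : ∀ K ∈ T, c * P {ω | O6_cut S n ω = K} ≤
      p * ∑ e ∈ edB S n, P ({ω | O6_cut S n ω = K} ∩ O6_piv S n e) := by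
    intro K hKT
    rw [hT, Finset.mem_filter, Finset.mem_powerset] at hKT
    obtain ⟨hsub, h1⟩ := hKT
    have h2 : c * P {ω | O6_cut S n ω = K} ≤ phi S p K * P {ω | O6_cut S n ω = K} :=
      mul_le_mul_of_nonneg_right (hc K h1) measureReal_nonneg
    refine h2.trans ?_
    rw [O6_phi, mul_assoc]
    refine mul_le_mul_of_nonneg_left ?_ hp0'.le
    rw [Finset.sum_mul]
    calc ∑ t ∈ (K ×ˢ S.S).filter (fun t => t.1 * t.2 ∉ K), tK S p K t.1 *
          P {ω | O6_cut S n ω = K}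
        ≤ ∑ t ∈ (K ×ˢ S.S).filter (fun t => t.1 * t.2 ∉ K),
          P ({ω | O6_cut S n ω = K} ∩ O6_piv S n s(t.1, t.1 * t.2)) := by
          refine Finset.sum_le_sum fun t ht => ?_
          rw [Finset.mem_filter, Finset.mem_product] at ht
          rw [← O6_cut_indep]
          refine measureReal_mono ?_ (measure_ne_top _ _)
          rintro ω ⟨h3, h4⟩
          exact ⟨h4, O6_incl S n K h1 ht.1.1 ht.1.2 ht.2 h3 h4⟩
      _ = ∑ e ∈ ((K ×ˢ S.S).filter (fun t => t.1 * t.2 ∉ K)).image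
            (fun t => s(t.1, t.1 * t.2)), P ({ω | O6_cut S n ω = K} ∩ O6_piv S n e) := by
          rw [Finset.sum_image]
          rintro ⟨x, s⟩ ht ⟨x', s'⟩ ht' h3
          rw [Finset.mem_coe, Finset.mem_filter, Finset.mem_product] at ht ht'
          have h4 : s(x, x * s) = s(x', x' * s') := h3
          rcases Sym2.eq_iff.1 h4 with ⟨h5, h6⟩ | ⟨h5, h6⟩
          · subst h5
            have := mul_left_cancel h6
            subst this
            rfl
          · exfalso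
            apply ht'.2
            show x' * s' ∈ K
            rw [← h5]
            exact ht.1.1
      _ ≤ ∑ e ∈ edB S n, P ({ω | O6_cut S n ω = K} ∩ O6_piv S n e) := by
          refine Finset.sum_le_sum_of_subset_of_nonneg ?_ fun _ _ _ => measureReal_nonneg
          refine Finset.image_subset_iff.2 fun t ht => ?_
          rw [Finset.mem_filter, Finset.mem_product] at ht
          refine O6_mem_edB S n (hsub ht.1.1) ?_
          show t.1⁻¹ * (t.1 * t.2) ∈ S.S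
          rw [inv_mul_cancel_left]
          exact ht.1.2
  -- the complement of the event is the union over the cut sets
  have hcompl : ({ω | far S n ω 1}ᶜ : Set (Cfg Γ)) = ⋃ K ∈ T, {ω | O6_cut S n ω = K} := by
    ext ω
    rw [Set.mem_iUnion₂]
    constructor
    · intro h
      refine ⟨O6_cut S n ω, ?_, rfl⟩
      rw [hT, Finset.mem_filter, Finset.mem_powerset]
      refine ⟨fun x hx => ((O6_mem_cut S n ω x).1 hx).1, ?_⟩
      exact (O6_far_cut S n ω).1 h
    · rintro ⟨K, hKT, hω⟩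
      have h2 : O6_cut S n ω = K := hω
      rw [hT, Finset.mem_filter] at hKT
      show ¬ far S n ω 1
      rw [O6_far_cut, h2]
      exact hKT.2
  have hdisj : ∀ (f : Finset Γ → Set (Cfg Γ)),
      (T : Set (Finset Γ)).PairwiseDisjoint (fun K => {ω | O6_cut S n ω = K} ∩ f K) := by
    intro f K _ K' _ hne
    rw [Function.onFun, Set.disjoint_left]
    rintro ω ⟨h1, -⟩ ⟨h2, -⟩
    exact hne (h1.symm.trans h2)
  have hsum1 : P ({ω | far S n ω 1}ᶜ) = ∑ K ∈ T, P {ω | O6_cut S n ω = K} := by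
    rw [hcompl]
    refine measureReal_biUnion_finset ?_ (fun K _ => O6_cut_meas S n K)
    have := hdisj (fun _ => Set.univ)
    simpa using this
  have hsum2 : ∀ e, ∑ K ∈ T, P ({ω | O6_cut S n ω = K} ∩ O6_piv S n e) ≤ P (O6_piv S n e) := by
    intro e
    rw [← measureReal_biUnion_finset (hdisj fun _ => O6_piv S n e)
      (fun K _ => (O6_cut_meas S n K).inter (O6_piv_meas S n e))]
    refine measureReal_mono ?_ (measure_ne_top _ _)
    exact Set.iUnion₂_subset fun K _ => Set.inter_subset_right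
  have hmain : c * P ({ω | far S n ω 1}ᶜ) ≤ p * ∑ e ∈ edB S n, P (O6_piv S n e) := by
    rw [hsum1, Finset.mul_sum]
    calc ∑ K ∈ T, c * P {ω | O6_cut S n ω = K}
        ≤ ∑ K ∈ T, p * ∑ e ∈ edB S n, P ({ω | O6_cut S n ω = K} ∩ O6_piv S n e) :=
          Finset.sum_le_sum hK
      _ = p * ∑ e ∈ edB S n, ∑ K ∈ T, P ({ω | O6_cut S n ω = K} ∩ O6_piv S n e) := by
          rw [← Finset.mul_sum, Finset.sum_comm]
      _ ≤ p * ∑ e ∈ edB S n, P (O6_piv S n e) :=
          mul_le_mul_of_nonneg_left (Finset.sum_le_sum fun e _ => hsum2 e) hp0'.le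
  have hruss : ∑ e ∈ edB S n, P (O6_piv S n e) =
      (1 - p) * russo p (edB S n) {ω | far S n ω 1} := by
    unfold russo
    rw [Finset.mul_sum]
    exact Finset.sum_congr rfl fun e _ => O6_piv_prob S p n e
  have hEm : MeasurableSet ({ω | far S n ω 1} : Set (Cfg Γ)) :=
    O3_meas (edB S n) _ (O6_far_dep S n)
  have hth : P ({ω | far S n ω 1}ᶜ) = 1 - (theta S p n).toReal := by
    rw [hP, probReal_compl_eq_one_sub hEm]
    rfl
  rw [hth, hruss] at hmain
  rw [div_mul_eq_mul_div, div_le_iff₀ (mul_pos hp0' hp1')]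
  linarith

end IICErg
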