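import Pool.Agent.Lib.MP_4c698b_pr.ODefs
import Pool.Agent.Lib.MP_4c698b_pr.WalksA

/-!
# MP_4c698b_pr, module O1: small adjacency norm implies a bounded two-point operator
-/

open MeasureTheory Filter Topology
open scoped ENNReal NNReal Pointwise

namespace IICErg

variable {Γ : Type} [Group Γ]

section O1

/-- edge sets of the trails of length `k` from `x` to `y` -/
def O1_A (S : GenSet Γ) : ℕ → Γ → Γ → Set (Finset (Sym2 Γ))
  | 0, x, y => {c | x = y ∧ c = ∅}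
  | k + 1, x, y => {c | ∃ s ∈ S.S, c ∈ dj {{s(x, x * s)}} (O1_A S k (x * s) y)}

open Classical in
/-- `p^k` times the number of walks of length `k` from `x` to `y` -/
noncomputable def O1_v (S : GenSet Γ) (p : unitInterval) : ℕ → Γ → Γ → ℝ≥0∞
  | 0, x, y => if x = y then 1 else 0
  | k + 1, x, y => ENNReal.ofReal p * ∑ s ∈ S.S, O1_v S p k (x * s) y

open Classical in
theorem O1_mem (S : GenSet Γ) (ω : Cfg Γ) {x y : Γ} (w : (og S ω).Walk x y)
    (hw : w.edges.Nodup) : w.edges.toFinset ∈ O1_A S w.length x y := by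
  induction w with
  | nil => exact ⟨rfl, rfl⟩
  | @cons x x' y h w' ih =>
    rw [SimpleGraph.Walk.edges_cons] at hw ⊢
    rw [List.nodup_cons] at hw
    have h1 : x⁻¹ * x' ∈ S.S := h.1
    have h2 : x * (x⁻¹ * x') = x' := by group
    refine ⟨x⁻¹ * x', h1, {s(x, x * (x⁻¹ * x'))}, rfl, w'.edges.toFinset, ?_, ?_, ?_⟩
    · rw [h2]; exact ih hw.2
    · rw [h2, Finset.disjoint_singleton_left, List.mem_toFinset]
      exact hw.1
    · rw [h2, List.toFinset_cons, Finset.insert_eq]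

theorem O1_open (S : GenSet Γ) (ω : Cfg Γ) {x y : Γ} (h : (og S ω).Reachable x y) :
    ∃ k, ω ∈ occ (O1_A S k x y) := by
  classical
  obtain ⟨w⟩ := h
  refine ⟨w.bypass.length, w.bypass.edges.toFinset,
    O1_mem S ω w.bypass w.bypass_isPath.isTrail.edges_nodup, ?_⟩
  intro e he
  rw [List.mem_toFinset] at he
  induction e using Sym2.ind with
  | _ a b => exact (w.bypass.adj_of_mem_edges he).2

theorem O1_edge (p : unitInterval) (e : Sym2 Γ) :
    perc Γ p (occ {{e}}) ≤ ENNReal.ofReal p := by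
  have h1 : occ {{e}} = (fun ω : Cfg Γ => ω e) ⁻¹' {true} := by
    ext ω
    constructor
    · rintro ⟨a, ha, h⟩
      rw [Set.mem_singleton_iff] at ha
      subst ha
      exact h e (Finset.mem_singleton_self e)
    · intro h
      refine ⟨{e}, rfl, ?_⟩
      intro e' he'
      rw [Finset.mem_singleton] at he'
      subst he'
      exact h
  have h2 := (measurePreserving_eval_infinitePi (fun _ : Sym2 Γ => bern p) e).measure_preimage
    (MeasurableSet.singleton true).nullMeasurableSet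
  rw [h1]
  unfold perc
  refine h2.le.trans ?_
  rw [bern]
  simp

theorem O1_prob (S : GenSet Γ) (p : unitInterval) (k : ℕ) :
    ∀ x y : Γ, perc Γ p (occ (O1_A S k x y)) ≤ O1_v S p k x y := by
  classical
  induction k with
  | zero =>
    intro x y
    by_cases h : x = y
    · rw [O1_v, if_pos h]
      exact prob_le_one
    · rw [O1_v, if_neg h]
      have : occ (O1_A S 0 x y) = (∅ : Set (Cfg Γ)) := by
        rw [Set.eq_empty_iff_forall_notMem]
        rintro ω ⟨a, ha, -⟩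
        exact h ha.1
      rw [this, measure_empty]
  | succ k ih =>
    intro x y
    have h1 : occ (O1_A S (k + 1) x y) ⊆
        ⋃ s ∈ S.S, occ (dj {{s(x, x * s)}} (O1_A S k (x * s) y)) := by
      rintro ω ⟨a, ⟨s, hs, ha⟩, h⟩
      rw [Set.mem_iUnion₂]
      exact ⟨s, hs, a, ha, h⟩
    refine (measure_mono h1).trans ((measure_biUnion_finset_le _ _).trans ?_)
    rw [O1_v, Finset.mul_sum]
    refine Finset.sum_le_sum fun s _ => ?_
    refine (bk_occ S p _ _).trans ?_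
    exact mul_le_mul' (O1_edge p _) (ih _ _)

theorem O1_tau (S : GenSet Γ) (p : unitInterval) (x y : Γ) :
    tau S p x y ≤ ∑' k, O1_v S p k x y := by
  unfold tau
  have h1 : {ω : Cfg Γ | (og S ω).Reachable x y} ⊆ ⋃ k, occ (O1_A S k x y) := by
    intro ω hω
    obtain ⟨k, hk⟩ := O1_open S ω hω
    exact Set.mem_iUnion.mpr ⟨k, hk⟩
  refine (measure_mono h1).trans ((measure_iUnion_le _).trans ?_)
  exact ENNReal.tsum_le_tsum fun k => O1_prob S p k x y

/-- Cauchy-Schwarz with geometric weights -/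
theorem O1_cs (θ : ℝ≥0∞) (h0 : θ ≠ 0) (h1 : θ < 1) (g : ℕ → ℝ≥0∞) :
    (∑' k, g k) ^ 2 ≤ (1 - θ)⁻¹ * ∑' k, (θ⁻¹) ^ k * g k ^ 2 := by
  have ht : θ ≠ ⊤ := (h1.trans ENNReal.one_lt_top).ne
  have hinv : ∀ k : ℕ, θ ^ k * (θ⁻¹) ^ k = 1 := by
    intro k
    rw [← mul_pow, ENNReal.mul_inv_cancel h0 ht, one_pow]
  -- the double sum
  have key : ∀ j k : ℕ, 2 * (g j * g k) ≤ θ ^ k * ((θ⁻¹) ^ j * g j ^ 2) +
      θ ^ j * ((θ⁻¹) ^ k * g k ^ 2) := by
    intro j k
    -- `u = θ^k θ^{-j}`, `u⁻¹ = θ^j θ^{-k}`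
    set u : ℝ≥0∞ := θ ^ k * (θ⁻¹) ^ j with hu
    set v : ℝ≥0∞ := θ ^ j * (θ⁻¹) ^ k with hv
    have huv : u * v = 1 := by
      have : u * v = (θ ^ k * (θ⁻¹) ^ k) * (θ ^ j * (θ⁻¹) ^ j) := by rw [hu, hv]; ring
      rw [this, hinv, hinv, one_mul]
    have e1 : θ ^ k * ((θ⁻¹) ^ j * g j ^ 2) = u * g j ^ 2 := by rw [hu]; ring
    have e2 : θ ^ j * ((θ⁻¹) ^ k * g k ^ 2) = v * g k ^ 2 := by rw [hv]; ring
    rw [e1, e2]
    have hu0 : u ≠ 0 := by rintro h; rw [h, zero_mul] at huv; exact zero_ne_one huv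
    have hv0 : v ≠ 0 := by rintro h; rw [h, mul_zero] at huv; exact zero_ne_one huv
    by_cases hj : g j = ⊤
    · rw [hj]
      have : u * (⊤ : ℝ≥0∞) ^ 2 = ⊤ := by
        rw [ENNReal.top_pow (by norm_num)]
        exact ENNReal.mul_top hu0
      rw [this, top_add]; exact le_top
    by_cases hk : g k = ⊤
    · rw [hk]
      have : v * (⊤ : ℝ≥0∞) ^ 2 = ⊤ := by
        rw [ENNReal.top_pow (by norm_num)]
        exact ENNReal.mul_top hv0
      rw [this, add_top]; exact le_top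
    have hut : u ≠ ⊤ := by
      rintro h
      rw [h, ENNReal.top_mul hv0] at huv
      exact ENNReal.top_ne_one huv
    have hvt : v ≠ ⊤ := by
      rintro h
      rw [h, ENNReal.mul_top hu0] at huv
      exact ENNReal.top_ne_one huv
    lift g j to ℝ≥0 using hj with a ha
    lift g k to ℝ≥0 using hk with b hb
    lift u to ℝ≥0 using hut with u' hu'
    lift v to ℝ≥0 using hvt with v' hv'
    have huv' : u' * v' = 1 := by exact_mod_cast huv
    have huvR : (u' : ℝ) * v' = 1 := by exact_mod_cast huv'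
    have main : 2 * (a * b) ≤ u' * a ^ 2 + v' * b ^ 2 := by
      rw [← NNReal.coe_le_coe]
      push_cast
      have hu'pos : 0 ≤ (u' : ℝ) := u'.2
      have hs : 0 ≤ (u' : ℝ) * ((a : ℝ) - v' * b) ^ 2 := mul_nonneg hu'pos (sq_nonneg _)
      have e : (u' : ℝ) * ((a : ℝ) - v' * b) ^ 2 = u' * a ^ 2 - 2 * (u' * v') * (a * b) +
        (u' * v') * (v' * b ^ 2) := by ring
      rw [e, huvR] at hs
      linarith
    exact_mod_cast main
  have hgeo : ∑' k : ℕ, θ ^ k = (1 - θ)⁻¹ := ENNReal.tsum_geometric θ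
  have hsq : 2 * (∑' k, g k) ^ 2 ≤ 2 * ((1 - θ)⁻¹ * ∑' k, (θ⁻¹) ^ k * g k ^ 2) := by
    calc 2 * (∑' k, g k) ^ 2 = ∑' j, ∑' k, 2 * (g j * g k) := by
          rw [sq, ← ENNReal.tsum_mul_right, ← ENNReal.tsum_mul_left]
          refine tsum_congr fun j => ?_
          rw [← ENNReal.tsum_mul_left, ← ENNReal.tsum_mul_left]
      _ ≤ ∑' j, ∑' k, (θ ^ k * ((θ⁻¹) ^ j * g j ^ 2) + θ ^ j * ((θ⁻¹) ^ k * g k ^ 2)) :=
          ENNReal.tsum_le_tsum fun j => ENNReal.tsum_le_tsum fun k => key j k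
      _ = ∑' j, ((1 - θ)⁻¹ * ((θ⁻¹) ^ j * g j ^ 2) +
            θ ^ j * ∑' k, ((θ⁻¹) ^ k * g k ^ 2)) := by
          refine tsum_congr fun j => ?_
          rw [ENNReal.tsum_add, ENNReal.tsum_mul_right, ENNReal.tsum_mul_left, hgeo]
      _ = 2 * ((1 - θ)⁻¹ * ∑' k, (θ⁻¹) ^ k * g k ^ 2) := by
          rw [ENNReal.tsum_add, ENNReal.tsum_mul_left, ENNReal.tsum_mul_right, hgeo, two_mul]
  exact (ENNReal.mul_le_mul_iff_right two_ne_zero ENNReal.ofNat_ne_top).mp hsq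

theorem l2_of_norm (S : GenSet Γ) (p : unitInterval) (a : ℝ≥0) (ha : AdjNormLe S a)
    (hpa : (p : ℝ) * a < 1) : L2Bounded S p := by
  classical
  have hp0 : (0 : ℝ) ≤ p := p.2.1
  set θr : ℝ := (1 + p * a) / 2 with hθr
  have hpa0 : 0 ≤ (p : ℝ) * a := mul_nonneg hp0 a.2
  have hθ0 : 0 < θr := by rw [hθr]; linarith
  have hθ1 : θr < 1 := by rw [hθr]; linarith
  have hθpa : (p : ℝ) * a ≤ θr := by rw [hθr]; linarith
  set θ : ℝ≥0∞ := ENNReal.ofReal θr with hθ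
  have h0 : θ ≠ 0 := by
    rw [hθ, Ne, ENNReal.ofReal_eq_zero, not_le]; exact hθ0
  have h1 : θ < 1 := by
    rw [hθ, ← ENNReal.ofReal_one]
    exact (ENNReal.ofReal_lt_ofReal_iff one_pos).mpr hθ1
  have ht : θ ≠ ⊤ := ENNReal.ofReal_ne_top
  have hsub : (1 - θ) ≠ 0 := (tsub_pos_of_lt h1).ne'
  refine ⟨(1 - θ)⁻¹ * (1 - θ)⁻¹, ?_, ?_⟩
  · exact ENNReal.mul_ne_top (ENNReal.inv_ne_top.mpr hsub) (ENNReal.inv_ne_top.mpr hsub)
  intro f
  set G : ℕ → Γ → ℝ≥0∞ := fun k x => ∑' y, O1_v S p k x y * f y with hG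
  have hG0 : ∀ x, G 0 x = f x := by
    intro x
    rw [hG]
    simp only [O1_v]
    rw [tsum_eq_single x]
    · simp
    · intro y hy
      rw [if_neg (Ne.symm hy), zero_mul]
  have hGs : ∀ k x, G (k + 1) x = ENNReal.ofReal p * ∑ s ∈ S.S, G k (x * s) := by
    intro k x
    rw [hG]
    simp only [O1_v]
    rw [← Summable.tsum_finsetSum (fun i _ => ENNReal.summable), ← ENNReal.tsum_mul_left]
    refine tsum_congr fun y => ?_
    rw [mul_assoc, Finset.sum_mul]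
  have hnorm : ∀ k, ∑' x, G k x ^ 2 ≤ (θ ^ 2) ^ k * ∑' x, f x ^ 2 := by
    intro k
    induction k with
    | zero => simp only [hG0, pow_zero, one_mul, le_refl]
    | succ k ih =>
      have e1 : ∑' x, G (k + 1) x ^ 2 =
          ENNReal.ofReal p ^ 2 * ∑' x, (∑ s ∈ S.S, G k (x * s)) ^ 2 := by
        rw [← ENNReal.tsum_mul_left]
        refine tsum_congr fun x => ?_
        rw [hGs, mul_pow]
      have hpaθ : ENNReal.ofReal p ^ 2 * (a : ℝ≥0∞) ^ 2 ≤ θ ^ 2 := by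
        rw [← mul_pow]
        refine pow_le_pow_left' ?_ 2
        rw [hθ, ← ENNReal.ofReal_coe_nnreal, ← ENNReal.ofReal_mul hp0]
        exact ENNReal.ofReal_le_ofReal hθpa
      rw [e1]
      calc ENNReal.ofReal p ^ 2 * ∑' x, (∑ s ∈ S.S, G k (x * s)) ^ 2
          ≤ ENNReal.ofReal p ^ 2 * ((a : ℝ≥0∞) ^ 2 * ∑' x, G k x ^ 2) := by
            gcongr
            exact ha (G k)
        _ = (ENNReal.ofReal p ^ 2 * (a : ℝ≥0∞) ^ 2) * ∑' x, G k x ^ 2 := by ring
        _ ≤ θ ^ 2 * ((θ ^ 2) ^ k * ∑' x, f x ^ 2) := mul_le_mul' hpaθ ih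
        _ = (θ ^ 2) ^ (k + 1) * ∑' x, f x ^ 2 := by ring
  calc ∑' x, (∑' y, tau S p x y * f y) ^ 2 ≤ ∑' x, (∑' k, G k x) ^ 2 := by
        refine ENNReal.tsum_le_tsum fun x => ?_
        refine pow_le_pow_left' ?_ 2
        calc ∑' y, tau S p x y * f y ≤ ∑' y, (∑' k, O1_v S p k x y) * f y :=
              ENNReal.tsum_le_tsum fun y => mul_le_mul_left (O1_tau S p x y) _
          _ = ∑' y, ∑' k, O1_v S p k x y * f y := by
              refine tsum_congr fun y => ?_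
              rw [ENNReal.tsum_mul_right]
          _ = ∑' k, G k x := ENNReal.tsum_comm
    _ ≤ ∑' x, (1 - θ)⁻¹ * ∑' k, (θ⁻¹) ^ k * G k x ^ 2 :=
        ENNReal.tsum_le_tsum fun x => O1_cs θ h0 h1 _
    _ = (1 - θ)⁻¹ * ∑' k, (θ⁻¹) ^ k * ∑' x, G k x ^ 2 := by
        rw [ENNReal.tsum_mul_left, ENNReal.tsum_comm]
        congr 1
        refine tsum_congr fun k => ?_
        rw [ENNReal.tsum_mul_left]
    _ ≤ (1 - θ)⁻¹ * ∑' k, θ ^ k * ∑' x, f x ^ 2 := by
        refine mul_le_mul' le_rfl (ENNReal.tsum_le_tsum fun k => ?_)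
        calc (θ⁻¹) ^ k * ∑' x, G k x ^ 2 ≤ (θ⁻¹) ^ k * ((θ ^ 2) ^ k * ∑' x, f x ^ 2) := by
              gcongr
              exact hnorm k
          _ = (θ⁻¹ * θ) ^ k * (θ ^ k * ∑' x, f x ^ 2) := by
              rw [mul_pow, ← pow_mul, two_mul, pow_add]; ring
          _ = θ ^ k * ∑' x, f x ^ 2 := by
              rw [ENNReal.inv_mul_cancel h0 ht, one_pow, one_mul]
    _ = (1 - θ)⁻¹ * (1 - θ)⁻¹ * ∑' y, f y ^ 2 := by
        rw [ENNReal.tsum_mul_right, ENNReal.tsum_geometric, mul_assoc]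

end O1

end IICErg
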