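import Pool.Agent.Lib.MP_4c698b_pr.BasicB

/-! Module Splice. -/

open MeasureTheory Filter Topology
open scoped ENNReal Pointwise

namespace IICErg

variable {Γ : Type} [Group Γ]


open Classical in
/-- `ω` on `T` and `ω'` outside `T` -/
noncomputable def Splice_mix {E : Type} (T : Finset E) (x : (E → Bool) × (E → Bool)) : E → Bool :=
  fun e => if e ∈ T then x.1 e else x.2 e

lemma Splice_mix_meas {E : Type} (T : Finset E) :
    Measurable (Splice_mix T : (E → Bool) × (E → Bool) → E → Bool) := by
  rw [measurable_pi_iff]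
  intro i
  unfold Splice_mix
  by_cases hi : i ∈ T
  · simp only [if_pos hi]
    exact (measurable_pi_apply i).comp measurable_fst
  · simp only [if_neg hi]
    exact (measurable_pi_apply i).comp measurable_snd

lemma Splice_map {E : Type} (p : unitInterval) (T : Finset E) :
    ((Measure.infinitePi (fun _ : E => bern p)).prod
      (Measure.infinitePi (fun _ : E => bern p))).map (Splice_mix T) =
    Measure.infinitePi (fun _ : E => bern p) := by
  classical
  refine Measure.eq_infinitePi _ ?_
  intro s t ht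
  rw [Measure.map_apply (Splice_mix_meas T) (MeasurableSet.pi s.countable_toSet fun i _ => ht i)]
  have h1 : (Splice_mix T) ⁻¹' (Set.pi s t) =
      (Set.pi (s.filter (fun i => i ∈ T) : Finset E) t) ×ˢ
        (Set.pi (s.filter (fun i => ¬ i ∈ T) : Finset E) t) := by
    ext ⟨ω, ω'⟩
    simp only [Set.mem_preimage, Set.mem_pi, Set.mem_prod, Finset.mem_coe, Finset.mem_filter,
      Splice_mix]
    constructor
    · intro h
      refine ⟨fun i hi => ?_, fun i hi => ?_⟩
      · have := h i hi.1
        rwa [if_pos hi.2] at this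
      · have := h i hi.1
        rwa [if_neg hi.2] at this
    · rintro ⟨h1, h2⟩ i hi
      by_cases hiT : i ∈ T
      · rw [if_pos hiT]
        exact h1 i ⟨hi, hiT⟩
      · rw [if_neg hiT]
        exact h2 i ⟨hi, hiT⟩
  rw [h1, Measure.prod_prod, Measure.infinitePi_pi _ (fun i _ => ht i),
    Measure.infinitePi_pi _ (fun i _ => ht i), Finset.prod_filter_mul_prod_filter_not]

open Classical in
/-- the Cayley edges at the vertices of `C` -/
noncomputable def Splice_T (S : GenSet Γ) (C : Finset Γ) : Finset (Sym2 Γ) :=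
  (C ×ˢ S.S).image fun x => s(x.1, x.1 * x.2)

lemma Splice_mem_T {S : GenSet Γ} {C : Finset Γ} {x y : Γ} (hx : x ∈ C) (h : S.cay.Adj x y) :
    s(x, y) ∈ Splice_T S C := by
  classical
  unfold Splice_T
  refine Finset.mem_image.2 ?_
  refine ⟨(x, x⁻¹ * y), Finset.mem_product.2 ⟨hx, h⟩, ?_⟩
  simp

lemma Splice_T_mem {S : GenSet Γ} {C : Finset Γ} {x y : Γ} (h : s(x, y) ∈ Splice_T S C) :
    x ∈ C ∨ y ∈ C := by
  classical
  unfold Splice_T at h
  obtain ⟨⟨c, s⟩, hc, he⟩ := Finset.mem_image.1 h
  rw [Finset.mem_product] at hc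
  have hc1 : c ∈ C := hc.1
  rw [Sym2.eq_iff] at he
  rcases he with ⟨h1, -⟩ | ⟨h1, -⟩
  · exact Or.inl (h1 ▸ hc1)
  · exact Or.inr (h1 ▸ hc1)

/-- agreement at the vertices of the first cluster -/
lemma Splice_agree1 {S : GenSet Γ} {C : Finset Γ} {ω ω' : Cfg Γ} {x y : Γ} (hx : x ∈ C) :
    (og S ω).Adj x y ↔ (og S (Splice_mix (Splice_T S C) (ω, ω'))).Adj x y := by
  change (S.cay.Adj x y ∧ ω s(x, y) = true) ↔ (S.cay.Adj x y ∧ Splice_mix _ _ s(x, y) = true)
  refine and_congr_right fun h => ?_
  unfold Splice_mix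
  rw [if_pos (Splice_mem_T hx h)]

lemma Splice_agree2 {S : GenSet Γ} {C : Finset Γ} {ω ω' : Cfg Γ} {h : Γ} (hC : cl S ω 1 = ↑C)
    (hd : Disjoint (cl S ω 1) (cl S ω' h)) {x y : Γ} (hx : (og S ω').Reachable h x) :
    (og S ω').Adj x y ↔ (og S (Splice_mix (Splice_T S C) (ω, ω'))).Adj x y := by
  have hxC : x ∉ C := by
    intro hxC
    have h1 : x ∈ cl S ω 1 := by rw [hC]; exact hxC
    exact Set.disjoint_left.1 hd h1 hx
  change (S.cay.Adj x y ∧ ω' s(x, y) = true) ↔ (S.cay.Adj x y ∧ Splice_mix _ _ s(x, y) = true)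
  refine and_congr_right fun hadj => ?_
  unfold Splice_mix
  by_cases hT : s(x, y) ∈ Splice_T S C
  · rw [if_pos hT]
    have hyC : y ∈ C := (Splice_T_mem hT).resolve_left hxC
    have hy1 : y ∈ cl S ω 1 := by rw [hC]; exact hyC
    constructor
    · intro h'
      exfalso
      have : (og S ω').Adj x y := ⟨hadj, h'⟩
      exact Set.disjoint_left.1 hd hy1 (hx.trans this.reachable)
    · intro h'
      exfalso
      have : (og S ω).Adj x y := ⟨hadj, h'⟩
      have h2 : x ∈ cl S ω 1 := SimpleGraph.Reachable.trans hy1 this.symm.reachable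
      rw [hC] at h2
      exact hxC h2
  · rw [if_neg hT]

open Classical in
theorem splice (S : GenSet Γ) (p : unitInterval) (h : Γ) (f g : Cfg Γ → ℝ≥0∞) (hf : Measurable f)
    (hg : Measurable g) (hfc : ClFn S 1 f) (hgc : ClFn S h g)
    (hf0 : ∀ ω, ¬ (cl S ω 1).Finite → f ω = 0) :
    ∫⁻ ω, ∫⁻ ω', (if Disjoint (cl S ω 1) (cl S ω' h) then f ω * g ω' else 0)
        ∂(perc Γ p) ∂(perc Γ p) ≤
      ∫⁻ ω in {ω | ¬ (og S ω).Reachable 1 h}, f ω * g ω ∂(perc Γ p) := by
  have hcount := S.countable
  set P := perc Γ p with hP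
  let H : Finset Γ → Cfg Γ → ℝ≥0∞ := fun C ω =>
    Set.indicator {ω | cl S ω 1 = ↑C} (fun ω => if h ∉ C then f ω * g ω else 0) ω
  have hH : ∀ C, Measurable (H C) := by
    intro C
    refine Measurable.indicator ?_ (measurableSet_cleq S 1 C)
    by_cases hC : h ∉ C
    · simp only [if_pos hC]
      exact hf.mul hg
    · simp only [if_neg hC]
      exact measurable_const
  have hpt : ∀ ω ω', (if Disjoint (cl S ω 1) (cl S ω' h) then f ω * g ω' else 0) ≤
      ∑' C, H C (Splice_mix (Splice_T S C) (ω, ω')) := by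
    intro ω ω'
    by_cases hd : Disjoint (cl S ω 1) (cl S ω' h)
    · rw [if_pos hd]
      by_cases hfin : (cl S ω 1).Finite
      · set C := hfin.toFinset with hCdef
        have hC : cl S ω 1 = ↑C := by rw [hCdef, Set.Finite.coe_toFinset]
        refine le_trans ?_ (ENNReal.le_tsum C)
        set ω'' := Splice_mix (Splice_T S C) (ω, ω') with hω''
        have a1 : ∀ x y, (og S ω).Reachable 1 x → ((og S ω).Adj x y ↔ (og S ω'').Adj x y) := by
          intro x y hx
          refine Splice_agree1 ?_
          have : x ∈ cl S ω 1 := hx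
          rw [hC] at this
          exact this
        have a2 : ∀ x y, (og S ω').Reachable h x → ((og S ω').Adj x y ↔ (og S ω'').Adj x y) :=
          fun x y hx => Splice_agree2 hC hd hx
        have e1 : f ω = f ω'' := hfc ω ω'' a1
        have e2 : g ω' = g ω'' := hgc ω' ω'' a2
        have e3 : cl S ω'' 1 = ↑C := by
          rw [← hC]
          ext x
          exact (agree_reach a1 x).symm
        have e4 : h ∉ C := by
          intro hh
          have h1 : h ∈ cl S ω 1 := by rw [hC]; exact hh
          exact Set.disjoint_left.1 hd h1 (SimpleGraph.Reachable.refl _)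
        have e5 : H C ω'' = f ω'' * g ω'' := by
          change Set.indicator _ _ _ = _
          rw [Set.indicator_of_mem (show ω'' ∈ {ω | cl S ω 1 = ↑C} from e3), if_pos e4]
        rw [e5, e1, e2]
      · rw [hf0 ω hfin, zero_mul]
        exact bot_le
    · rw [if_neg hd]
      exact bot_le
  have hjoint : ∀ C, Measurable (fun x : Cfg Γ × Cfg Γ => H C (Splice_mix (Splice_T S C) x)) :=
    fun C => (hH C).comp (Splice_mix_meas _)
  calc ∫⁻ ω, ∫⁻ ω', (if Disjoint (cl S ω 1) (cl S ω' h) then f ω * g ω' else 0) ∂P ∂P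
      ≤ ∫⁻ ω, ∫⁻ ω', ∑' C, H C (Splice_mix (Splice_T S C) (ω, ω')) ∂P ∂P :=
        lintegral_mono fun ω => lintegral_mono fun ω' => hpt ω ω'
    _ = ∫⁻ ω, ∑' C, ∫⁻ ω', H C (Splice_mix (Splice_T S C) (ω, ω')) ∂P ∂P := by
        refine lintegral_congr fun ω => ?_
        exact lintegral_tsum fun C => ((hjoint C).comp measurable_prodMk_left).aemeasurable
    _ = ∑' C, ∫⁻ ω, ∫⁻ ω', H C (Splice_mix (Splice_T S C) (ω, ω')) ∂P ∂P :=
        lintegral_tsum fun C => ((hjoint C).lintegral_prod_right').aemeasurable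
    _ = ∑' C, ∫⁻ ω, H C ω ∂P := by
        refine tsum_congr fun C => ?_
        rw [← lintegral_prod _ (hjoint C).aemeasurable, ← lintegral_map (hH C) (Splice_mix_meas _)]
        rw [hP]
        unfold perc
        rw [Splice_map]
    _ = ∫⁻ ω, ∑' C, H C ω ∂P := (lintegral_tsum fun C => (hH C).aemeasurable).symm
    _ ≤ ∫⁻ ω, Set.indicator {ω | ¬ (og S ω).Reachable 1 h} (fun ω => f ω * g ω) ω ∂P := by
        refine lintegral_mono fun ω => ?_
        by_cases hfin : (cl S ω 1).Finite
        · have h1 : ∑' C, H C ω = H hfin.toFinset ω := by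
            refine tsum_eq_single _ fun C hC => ?_
            change Set.indicator _ _ _ = _
            rw [Set.indicator_of_notMem]
            intro h2
            apply hC
            have h3 : cl S ω 1 = ↑C := h2
            ext x
            rw [Set.Finite.mem_toFinset, h3, Finset.mem_coe]
          rw [h1]
          change Set.indicator _ _ _ ≤ _
          rw [Set.indicator_of_mem (show ω ∈ {ω | cl S ω 1 = ↑hfin.toFinset} by simp)]
          by_cases h2 : (og S ω).Reachable 1 h
          · rw [if_neg]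
            · exact bot_le
            · rw [not_not, Set.Finite.mem_toFinset]
              exact h2
          · rw [Set.indicator_of_mem (show ω ∈ {ω | ¬ (og S ω).Reachable 1 h} from h2)]
            rw [if_pos (fun hh => h2 (hfin.mem_toFinset.1 hh))]
        · have h1 : ∑' C, H C ω = 0 := by
            rw [ENNReal.tsum_eq_zero]
            intro C
            change Set.indicator _ _ _ = _
            rw [Set.indicator_of_notMem]
            intro h2
            have h3 : cl S ω 1 = ↑C := h2
            exact hfin (h3 ▸ C.finite_toSet)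
          rw [h1]
          exact bot_le
    _ = ∫⁻ ω in {ω | ¬ (og S ω).Reachable 1 h}, f ω * g ω ∂P :=
        lintegral_indicator (measurableSet_reach S 1 h).compl _

end IICErg
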