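import Pool.Agent.Lib.MP_4c698b_pr.SDefs
import Pool.Agent.Lib.MP_4c698b_pr.BasicB
import Pool.Agent.Lib.MP_4c698b_pr.MTP
import Pool.Agent.Lib.MP_4c698b_pr.Splice
import Pool.Agent.Lib.MP_4c698b_pr.WtA

/-!
# The product lower bound (module Lower)
-/

open MeasureTheory Filter Topology
open scoped ENNReal Pointwise

namespace IICErg

variable {Γ : Type} [Group Γ]

theorem Lower_adj_vw {S : GenSet Γ} {ω ω' : Cfg Γ} {h z : Γ}
    (H : ∀ x y, (og S ω).Reachable h x → ((og S ω).Adj x y ↔ (og S ω').Adj x y))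
    (hz : (og S ω).Reachable h z) (x y : Γ) (hx : (og S (vw z ω)).Reachable 1 x) :
    (og S (vw z ω)).Adj x y ↔ (og S (vw z ω')).Adj x y := by
  rw [og_vw_adj, og_vw_adj]
  apply H
  rw [reach_vw, mul_one] at hx
  exact hz.trans hx

theorem Lower_wt_congr {S : GenSet Γ} {ω ω' : Cfg Γ} {h : Γ} (l : ℝ≥0∞) (N : ℕ)
    (H : ∀ x y, (og S ω).Reachable h x → ((og S ω).Adj x y ↔ (og S ω').Adj x y)) (z : Γ) :
    wt S l N ω h z = wt S l N ω' h z := by
  classical
  have h1 : ∀ n, dle (og S ω) n h z ↔ dle (og S ω') n h z := fun n =>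
    agree_dle H (SimpleGraph.Reachable.refl _) n z
  have h2 : (og S ω).Reachable h z ↔ (og S ω').Reachable h z := agree_reach H z
  unfold wt
  by_cases hd : dle (og S ω) N h z
  · rw [if_pos hd, if_pos ((h1 N).1 hd)]
    have e : (og S ω).dist h z = (og S ω').dist h z := by
      apply le_antisymm
      · have h3 := (h1 ((og S ω').dist h z)).2 ((dle_iff _ _ _ _).2
          ⟨h2.1 ((dle_iff _ _ _ _).1 hd).1, le_rfl⟩)
        exact ((dle_iff _ _ _ _).1 h3).2
      · have h3 := (h1 ((og S ω).dist h z)).1 ((dle_iff _ _ _ _).2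
          ⟨((dle_iff _ _ _ _).1 hd).1, le_rfl⟩)
        exact ((dle_iff _ _ _ _).1 h3).2
    rw [e]
  · rw [if_neg hd, if_neg (fun h' => hd ((h1 N).2 h'))]

theorem Lower_wt_zero {S : GenSet Γ} {ω : Cfg Γ} {h z : Γ} (l : ℝ≥0∞) (N : ℕ)
    (hz : ¬ (og S ω).Reachable h z) : wt S l N ω h z = 0 := by
  classical
  unfold wt
  exact if_neg fun h' => hz ((dle_iff _ _ _ _).1 h').1

open Classical in
/-- weight of the points `z` near `h` from which the event `E'` is seen -/
noncomputable def Lower_g (S : GenSet Γ) (l : ℝ≥0∞) (N : ℕ) (h : Γ) (E' : Set (Cfg Γ))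
    (ω : Cfg Γ) : ℝ≥0∞ :=
  ∑' z, ({ω : Cfg Γ | vw z ω ∈ E'}.indicator (fun ω => wt S l N ω h z) ω)

theorem Lower_g_meas (S : GenSet Γ) (l : ℝ≥0∞) (N : ℕ) (h : Γ) {E' : Set (Cfg Γ)}
    (hE' : MeasurableSet E') : Measurable (Lower_g S l N h E') := by
  have := GenSet.countable S
  exact Measurable.tsum fun z => (measurable_wt S l N h z).indicator (measurable_vw z hE')

theorem Lower_g_le (S : GenSet Γ) (l : ℝ≥0∞) (N : ℕ) (h : Γ) (E' : Set (Cfg Γ)) (ω : Cfg Γ) :
    Lower_g S l N h E' ω ≤ ∑' z, wt S l N ω h z :=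
  ENNReal.tsum_le_tsum fun _ => Set.indicator_le_self _ _ _

theorem Lower_g_clFn {S : GenSet Γ} (l : ℝ≥0∞) (N : ℕ) (h : Γ) {E' : Set (Cfg Γ)}
    (hE'c : ClEv S E') : ClFn S h (Lower_g S l N h E') := by
  intro ω ω' H
  unfold Lower_g
  refine tsum_congr fun z => ?_
  by_cases hz : (og S ω).Reachable h z
  · have h1 : vw z ω ∈ E' ↔ vw z ω' ∈ E' :=
      hE'c (vw z ω) (vw z ω') fun x y hx => Lower_adj_vw H hz x y hx
    by_cases h2 : vw z ω ∈ E'
    · rw [Set.indicator_of_mem (by exact h2), Set.indicator_of_mem (by exact h1.1 h2)]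
      exact Lower_wt_congr l N H z
    · rw [Set.indicator_of_notMem (by exact h2),
        Set.indicator_of_notMem (by exact fun h' => h2 (h1.2 h'))]
  · have h0 : wt S l N ω h z = 0 := Lower_wt_zero l N hz
    have h0' : wt S l N ω' h z = 0 := by rw [← Lower_wt_congr l N H z, h0]
    have e1 : ({ω : Cfg Γ | vw z ω ∈ E'}.indicator (fun ω => wt S l N ω h z) ω) ≤ 0 := by
      rw [← h0]; exact Set.indicator_le_self _ _ _
    have e2 : ({ω : Cfg Γ | vw z ω ∈ E'}.indicator (fun ω => wt S l N ω h z) ω') ≤ 0 := by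
      rw [← h0']; exact Set.indicator_le_self _ (fun ω => wt S l N ω h z) _
    rw [le_zero_iff.1 e1, le_zero_iff.1 e2]

open Classical in
theorem lower (S : GenSet Γ) (p : unitInterval) (n : ℕ) {l : ℝ≥0∞} (hl : l ≤ 1) (N : ℕ) (h : Γ)
    {E E' : Set (Cfg Γ)} (hE : MeasurableSet E) (hE' : MeasurableSet E') (hEc : ClEv S E)
    (hE'c : ClEv S E') (r : ℕ) (L : Finset Γ) :
    mu S p n E * nu S p l N E' ≤
      Ms S p n l N h (fun ω z => ω ∈ E ∧ vw z ω ∈ E' ∧ ¬ (og S ω).Reachable 1 h ∧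
        ∀ x' ∈ L, (og S ω).Reachable h x' → dle (og S ω) (S.q r) h x') +
      XN S p l N * (∑' u, mu S p n {ω | (og S ω).Reachable 1 u} * tau2 S p h u +
        ∑ x' ∈ L, kap S p r h x') := by
  have hcount : Countable Γ := GenSet.countable S
  set P := perc Γ p with hP
  set θ := theta S p n with hθ
  let f : Cfg Γ → ℝ≥0∞ := E.indicator fun ω => Rn S n ω 1
  let g0 : Cfg Γ → ℝ≥0∞ := Lower_g S l N h E'
  let bad : Γ → Set (Cfg Γ) := fun x' =>
    {ω | (og S ω).Reachable h x' ∧ ¬ dle (og S ω) (S.q r) h x'}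
  let good : Set (Cfg Γ) := {ω | ∀ x' ∈ L, (og S ω).Reachable h x' → dle (og S ω) (S.q r) h x'}
  let g : Cfg Γ → ℝ≥0∞ := good.indicator g0
  let R1 : Γ → Set (Cfg Γ) := fun u => {ω | (og S ω).Reachable 1 u}
  let Rh : Γ → Set (Cfg Γ) := fun u => {ω | (og S ω).Reachable h u}
  have hR1 : ∀ u, MeasurableSet (R1 u) := fun u => measurableSet_reach S 1 u
  have hRh : ∀ u, MeasurableSet (Rh u) := fun u => measurableSet_reach S h u
  have hbad : ∀ x', MeasurableSet (bad x') := fun x' =>
    (measurableSet_reach S h x').inter (measurableSet_dle S (S.q r) h x').compl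
  have hgood : MeasurableSet good := by
    have : good = ⋂ x' ∈ L, (bad x')ᶜ := by
      ext ω
      simp only [good, bad, Set.mem_ofPred_eq, Set.mem_iInter, Set.mem_compl_iff, not_and, not_not]
    rw [this]
    exact Finset.measurableSet_biInter _ fun x' _ => (hbad x').compl
  have hfm : Measurable f := (measurable_Rn S n 1).indicator hE
  have hg0m : Measurable g0 := Lower_g_meas S l N h hE'
  have hgm : Measurable g := hg0m.indicator hgood
  -- pointwise inequality
  have hpt : ∀ ω ω', f ω * g0 ω' ≤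
      (if Disjoint (cl S ω 1) (cl S ω' h) then f ω * g ω' else 0) +
      (∑' u, (R1 u).indicator f ω * (Rh u).indicator g0 ω' +
        ∑ x' ∈ L, f ω * (bad x').indicator g0 ω') := by
    intro ω ω'
    by_cases hgd : ω' ∈ good
    · by_cases hd : Disjoint (cl S ω 1) (cl S ω' h)
      · rw [if_pos hd]
        refine le_trans (le_of_eq ?_) le_self_add
        show f ω * g0 ω' = f ω * good.indicator g0 ω'
        rw [Set.indicator_of_mem hgd]
      · rw [Set.not_disjoint_iff] at hd
        obtain ⟨u, hu1, hu2⟩ := hd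
        refine le_trans ?_ le_add_self
        refine le_trans ?_ le_self_add
        refine le_trans (le_of_eq ?_) (ENNReal.le_tsum u)
        rw [Set.indicator_of_mem (show ω ∈ R1 u from hu1),
          Set.indicator_of_mem (show ω' ∈ Rh u from hu2)]
    · have : ∃ x' ∈ L, ω' ∈ bad x' := by
        simp only [good, Set.mem_ofPred_eq, not_forall] at hgd
        obtain ⟨x', hx', h1, h2⟩ := hgd
        exact ⟨x', hx', h1, h2⟩
      obtain ⟨x', hx', hb⟩ := this
      refine le_trans ?_ le_add_self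
      refine le_trans ?_ le_add_self
      refine le_trans (le_of_eq ?_) (Finset.single_le_sum
        (f := fun x' => f ω * (bad x').indicator g0 ω') (fun i _ => zero_le) hx')
      show f ω * g0 ω' = f ω * (bad x').indicator g0 ω'
      rw [Set.indicator_of_mem hb]
  -- integrals
  let J : Γ → ℝ≥0∞ := fun u => ∫⁻ ω' in Rh u, g0 ω' ∂P
  let K : Γ → ℝ≥0∞ := fun x' => ∫⁻ ω' in bad x', g0 ω' ∂P
  have hint : (∫⁻ ω, f ω ∂P) * ∫⁻ ω', g0 ω' ∂P ≤
      (∫⁻ ω, ∫⁻ ω', (if Disjoint (cl S ω 1) (cl S ω' h) then f ω * g ω' else 0) ∂P ∂P) +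
      (∑' u, (∫⁻ ω in R1 u, f ω ∂P) * J u + ∑ x' ∈ L, (∫⁻ ω, f ω ∂P) * K x') := by
    have e1 : (∫⁻ ω, f ω ∂P) * ∫⁻ ω', g0 ω' ∂P = ∫⁻ ω, ∫⁻ ω', f ω * g0 ω' ∂P ∂P := by
      rw [← lintegral_mul_const _ hfm]
      refine lintegral_congr fun ω => ?_
      rw [lintegral_const_mul _ hg0m]
    have hm2 : ∀ u ω, Measurable fun ω' => (R1 u).indicator f ω * (Rh u).indicator g0 ω' :=
      fun u ω => (hg0m.indicator (hRh u)).const_mul _
    have hm3 : ∀ x' ω, Measurable fun ω' => f ω * (bad x').indicator g0 ω' :=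
      fun x' ω => (hg0m.indicator (hbad x')).const_mul _
    have e2 : ∀ ω, ∫⁻ ω', (∑' u, (R1 u).indicator f ω * (Rh u).indicator g0 ω' +
        ∑ x' ∈ L, f ω * (bad x').indicator g0 ω') ∂P =
        ∑' u, (R1 u).indicator f ω * J u + ∑ x' ∈ L, f ω * K x' := by
      intro ω
      rw [lintegral_add_right _ (Finset.measurable_fun_sum L fun x' _ => hm3 x' ω),
        lintegral_tsum fun u => (hm2 u ω).aemeasurable,
        lintegral_finsetSum L fun x' _ => hm3 x' ω]
      congr 1
      · refine tsum_congr fun u => ?_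
        rw [lintegral_const_mul _ (hg0m.indicator (hRh u)), lintegral_indicator (hRh u)]
      · refine Finset.sum_congr rfl fun x' _ => ?_
        rw [lintegral_const_mul _ (hg0m.indicator (hbad x')), lintegral_indicator (hbad x')]
    have hm4 : ∀ u, Measurable fun ω => (R1 u).indicator f ω * J u :=
      fun u => (hfm.indicator (hR1 u)).mul_const _
    have hm5 : ∀ x', Measurable fun ω => f ω * K x' := fun x' => hfm.mul_const _
    have hm6 : Measurable fun ω => ∑' u, (R1 u).indicator f ω * J u + ∑ x' ∈ L, f ω * K x' :=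
      (Measurable.tsum hm4).add (Finset.measurable_fun_sum L fun x' _ => hm5 x')
    calc (∫⁻ ω, f ω ∂P) * ∫⁻ ω', g0 ω' ∂P = ∫⁻ ω, ∫⁻ ω', f ω * g0 ω' ∂P ∂P := e1
      _ ≤ ∫⁻ ω, ((∫⁻ ω', (if Disjoint (cl S ω 1) (cl S ω' h) then f ω * g ω' else 0) ∂P) +
          (∑' u, (R1 u).indicator f ω * J u + ∑ x' ∈ L, f ω * K x')) ∂P := by
          refine lintegral_mono fun ω => ?_
          show ∫⁻ ω', f ω * g0 ω' ∂P ≤ _
          rw [← e2 ω, ← lintegral_add_right]
          · exact lintegral_mono fun ω' => hpt ω ω'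
          · exact (Measurable.tsum fun u => hm2 u ω).add
              (Finset.measurable_fun_sum L fun x' _ => hm3 x' ω)
      _ = _ := by
          rw [lintegral_add_right _ hm6,
            lintegral_add_right _ (Finset.measurable_fun_sum L fun x' _ => hm5 x'),
            lintegral_tsum fun u => (hm4 u).aemeasurable,
            lintegral_finsetSum L fun x' _ => hm5 x']
          congr 2
          · refine tsum_congr fun u => ?_
            rw [lintegral_mul_const _ (hfm.indicator (hR1 u)), lintegral_indicator (hR1 u)]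
          · refine Finset.sum_congr rfl fun x' _ => ?_
            rw [lintegral_mul_const _ hfm]
  -- splicing
  have hfc : ClFn S 1 f := by
    intro ω ω' H
    have h1 : ω ∈ E ↔ ω' ∈ E := hEc ω ω' H
    have h2 : Rn S n ω 1 = Rn S n ω' 1 := Rn_clFn S n 1 ω ω' H
    by_cases h3 : ω ∈ E
    · show E.indicator (fun ω => Rn S n ω 1) ω = E.indicator (fun ω => Rn S n ω 1) ω'
      rw [Set.indicator_of_mem h3, Set.indicator_of_mem (h1.1 h3)]
      exact h2
    · show E.indicator (fun ω => Rn S n ω 1) ω = E.indicator (fun ω => Rn S n ω 1) ω'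
      rw [Set.indicator_of_notMem h3, Set.indicator_of_notMem (fun h' => h3 (h1.2 h'))]
  have hgc : ClFn S h g := by
    intro ω ω' H
    have h1 : g0 ω = g0 ω' := Lower_g_clFn l N h hE'c ω ω' H
    have h2 : ω ∈ good ↔ ω' ∈ good := by
      simp only [good, Set.mem_ofPred_eq]
      refine forall_congr' fun x' => forall_congr' fun _ => ?_
      rw [agree_reach H x', agree_dle H (SimpleGraph.Reachable.refl _) (S.q r) x']
    by_cases h3 : ω ∈ good
    · show good.indicator g0 ω = good.indicator g0 ω'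
      rw [Set.indicator_of_mem h3, Set.indicator_of_mem (h2.1 h3), h1]
    · show good.indicator g0 ω = good.indicator g0 ω'
      rw [Set.indicator_of_notMem h3, Set.indicator_of_notMem (fun h' => h3 (h2.2 h'))]
  have hf0 : ∀ ω, ¬ (cl S ω 1).Finite → f ω = 0 := by
    intro ω hω
    have h1 : Rn S n ω 1 = 0 := by
      unfold Rn unif
      rw [if_neg hω]
    have h2 : f ω ≤ Rn S n ω 1 := Set.indicator_le_self _ _ _
    exact le_zero_iff.1 (h2.trans h1.le)
  have hspl := splice S p h f g hfm hgm hfc hgc hf0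
  have hMs : θ⁻¹ * ∫⁻ ω in {ω | ¬ (og S ω).Reachable 1 h}, f ω * g ω ∂P =
      Ms S p n l N h (fun ω z => ω ∈ E ∧ vw z ω ∈ E' ∧ ¬ (og S ω).Reachable 1 h ∧
        ∀ x' ∈ L, (og S ω).Reachable h x' → dle (og S ω) (S.q r) h x') := by
    unfold Ms
    have hms : MeasurableSet {ω : Cfg Γ | ¬ (og S ω).Reachable 1 h} :=
      (measurableSet_reach S 1 h).compl
    rw [← lintegral_indicator hms]
    congr 1
    refine lintegral_congr fun ω => ?_
    beta_reduce
    by_cases h1 : (og S ω).Reachable 1 h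
    · rw [Set.indicator_of_notMem (by simpa using h1)]
      symm
      refine mul_eq_zero.2 (Or.inr (ENNReal.tsum_eq_zero.2 fun z => if_neg fun h' => h'.2.2.1 h1))
    · rw [Set.indicator_of_mem (by simpa using h1)]
      by_cases h2 : ω ∈ E
      · have e3 : f ω = Rn S n ω 1 := Set.indicator_of_mem h2 _
        rw [e3]
        congr 1
        by_cases h3 : ω ∈ good
        · have e4 : g ω = g0 ω := Set.indicator_of_mem h3 _
          rw [e4]
          show ∑' z, _ = _
          refine tsum_congr fun z => ?_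
          by_cases h4 : vw z ω ∈ E'
          · rw [Set.indicator_of_mem (by exact h4), if_pos ⟨h2, h4, h1, h3⟩]
          · rw [Set.indicator_of_notMem (by exact h4), if_neg fun h' => h4 h'.2.1]
        · have e4 : g ω = 0 := Set.indicator_of_notMem h3 _
          rw [e4]
          symm
          exact ENNReal.tsum_eq_zero.2 fun z => if_neg fun h' => h3 h'.2.2.2
      · have e3 : f ω = 0 := Set.indicator_of_notMem h2 _
        rw [e3, zero_mul]
        symm
        exact mul_eq_zero.2 (Or.inr (ENNReal.tsum_eq_zero.2 fun z => if_neg fun h' => h2 h'.1))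
  -- the bounds for `J` and `K`
  have hJ : ∀ u, J u ≤ tau2 S p h u * XN S p l N := by
    intro u
    refine le_trans ?_ (T1 S p hl N h u)
    calc J u ≤ ∫⁻ ω' in Rh u, ∑' z, wt S l N ω' h z ∂P :=
          lintegral_mono fun ω' => Lower_g_le S l N h E' ω'
      _ = _ := lintegral_tsum fun z => (measurable_wt S l N h z).aemeasurable
  have hK : ∀ x', K x' ≤ kap S p r h x' * XN S p l N := by
    intro x'
    refine le_trans ?_ (T2 S p hl N r h x')
    calc K x' ≤ ∫⁻ ω' in bad x', ∑' z, wt S l N ω' h z ∂P :=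
          lintegral_mono fun ω' => Lower_g_le S l N h E' ω'
      _ = _ := lintegral_tsum fun z => (measurable_wt S l N h z).aemeasurable
  have hI : ∀ u, θ⁻¹ * ∫⁻ ω in R1 u, f ω ∂P ≤ mu S p n (R1 u) := by
    intro u
    rw [mu_apply S p n (hR1 u)]
    exact mul_le_mul' le_rfl (lintegral_mono fun ω => Set.indicator_le_self _ _ _)
  have hmuE : θ⁻¹ * ∫⁻ ω, f ω ∂P = mu S p n E := by
    rw [mu_apply S p n hE, ← lintegral_indicator hE]
  have hnu : ∫⁻ ω', g0 ω' ∂P = nu S p l N E' := by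
    rw [← nu_view S p l N h hE']
    have hmz : ∀ z, MeasurableSet {ω : Cfg Γ | vw z ω ∈ E'} := fun z => measurable_vw z hE'
    have hmi : ∀ z, Measurable fun ω =>
        ({ω : Cfg Γ | vw z ω ∈ E'}.indicator (fun ω => wt S l N ω h z) ω) :=
      fun z => (measurable_wt S l N h z).indicator (hmz z)
    show ∫⁻ ω', ∑' z, ({ω : Cfg Γ | vw z ω ∈ E'}.indicator (fun ω => wt S l N ω h z) ω') ∂P = _
    rw [lintegral_tsum fun z => (hmi z).aemeasurable]
    refine tsum_congr fun z => ?_
    rw [lintegral_indicator (hmz z)]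
  have hmu1 : mu S p n E ≤ 1 := (measure_mono (Set.subset_univ _)).trans (mu_univ_le S p n)
  calc mu S p n E * nu S p l N E'
      = θ⁻¹ * ((∫⁻ ω, f ω ∂P) * ∫⁻ ω', g0 ω' ∂P) := by rw [← hmuE, hnu, mul_assoc]
    _ ≤ θ⁻¹ * ((∫⁻ ω, ∫⁻ ω', (if Disjoint (cl S ω 1) (cl S ω' h) then f ω * g ω' else 0) ∂P ∂P) +
        (∑' u, (∫⁻ ω in R1 u, f ω ∂P) * J u + ∑ x' ∈ L, (∫⁻ ω, f ω ∂P) * K x')) := by
        gcongr
    _ = θ⁻¹ * (∫⁻ ω, ∫⁻ ω', (if Disjoint (cl S ω 1) (cl S ω' h) then f ω * g ω' else 0) ∂P ∂P) +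
        (∑' u, (θ⁻¹ * ∫⁻ ω in R1 u, f ω ∂P) * J u +
          ∑ x' ∈ L, (θ⁻¹ * ∫⁻ ω, f ω ∂P) * K x') := by
        rw [mul_add, mul_add, ← ENNReal.tsum_mul_left, Finset.mul_sum]
        simp only [mul_assoc]
    _ ≤ Ms S p n l N h (fun ω z => ω ∈ E ∧ vw z ω ∈ E' ∧ ¬ (og S ω).Reachable 1 h ∧
          ∀ x' ∈ L, (og S ω).Reachable h x' → dle (og S ω) (S.q r) h x') +
        (∑' u, mu S p n (R1 u) * (tau2 S p h u * XN S p l N) +
          ∑ x' ∈ L, 1 * (kap S p r h x' * XN S p l N)) := by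
        refine add_le_add ?_ (add_le_add ?_ ?_)
        · rw [← hMs]
          gcongr
        · exact ENNReal.tsum_le_tsum fun u => mul_le_mul' (hI u) (hJ u)
        · exact Finset.sum_le_sum fun x' _ => mul_le_mul' (hmuE.le.trans hmu1) (hK x')
    _ = _ := by
        congr 1
        rw [mul_add, ← ENNReal.tsum_mul_left, Finset.mul_sum]
        congr 1
        · exact tsum_congr fun u => by ring
        · exact Finset.sum_congr rfl fun x' _ => by ring

end IICErg
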