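import Pool.Agent.Lib.MP_4c698b_pr.BasicB
import Pool.Agent.Lib.MP_4c698b_pr.MTP

/-! Module Main0. -/

open MeasureTheory Filter Topology
open scoped ENNReal Pointwise

namespace IICErg

variable {Γ : Type} [Group Γ]


lemma Main0_dle0 {V : Type} {G : SimpleGraph V} {x y : V} (h : dle G 0 x y) : y = x := by
  obtain ⟨w, hw⟩ := h
  exact (SimpleGraph.Walk.eq_of_length_eq_zero (Nat.le_zero.1 hw)).symm

lemma Main0_ball0 {V W : Type} (G : SimpleGraph V) (x : V) (H : SimpleGraph W) (y : W) :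
    BallIso 0 G x H y := by
  refine ⟨⟨fun _ => ⟨y, dle_refl _ _ _⟩, fun _ => ⟨x, dle_refl _ _ _⟩, ?_, ?_⟩, ?_, ?_⟩
  · rintro ⟨v, hv⟩
    exact Subtype.ext (Main0_dle0 hv).symm
  · rintro ⟨v, hv⟩
    exact Subtype.ext (Main0_dle0 hv).symm
  · intro _
    rfl
  · rintro ⟨u, hu⟩ ⟨v, hv⟩
    have h1 := Main0_dle0 hu
    have h2 := Main0_dle0 hv
    subst h1
    subst h2
    constructor
    · intro h
      exact absurd h (G.loopless.irrefl _)
    · intro h
      exact absurd h (H.loopless.irrefl _)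

lemma Main0_unif (S : GenSet Γ) (ω : Cfg Γ) (K : SimpleGraph ℕ) :
    unif (cl S ω 1) (fun v => BallIso 0 (og S ω) v K 0) =
      Set.indicator {ω : Cfg Γ | (cl S ω 1).Finite} (fun _ => 1) ω := by
  unfold unif
  by_cases h : (cl S ω 1).Finite
  · rw [if_pos h, Set.indicator_of_mem (show ω ∈ {ω : Cfg Γ | (cl S ω 1).Finite} from h)]
    have h1 : ({v | v ∈ cl S ω 1 ∧ BallIso 0 (og S ω) v K 0} : Set Γ) = cl S ω 1 := by
      ext v
      exact ⟨fun h => h.1, fun h => ⟨h, Main0_ball0 _ _ _ _⟩⟩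
    rw [h1]
    have h2 : (1 : Γ) ∈ cl S ω 1 := SimpleGraph.Reachable.refl _
    have h3 : (cl S ω 1).ncard ≠ 0 := by
      rw [Ne, Set.ncard_eq_zero h]
      exact Set.Nonempty.ne_empty ⟨1, h2⟩
    exact ENNReal.div_self (Nat.cast_ne_zero.2 h3) (ENNReal.natCast_ne_top _)
  · rw [if_neg h, Set.indicator_of_notMem (show ω ∉ {ω : Cfg Γ | (cl S ω 1).Finite} from h)]

lemma Main0_law (S : GenSet Γ) (p : unitInterval) (n : ℕ) {D : ℕ} (K : RGraph D) :
    lawB S p n 0 K =
      perc Γ p ({ω | far S n ω 1} ∩ {ω : Cfg Γ | (cl S ω 1).Finite}) / theta S p n := by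
  unfold lawB
  simp only [Main0_unif]
  rw [lintegral_indicator (measurableSet_clfin S 1), lintegral_const, one_mul,
    Measure.restrict_apply MeasurableSet.univ, Set.univ_inter,
    Measure.restrict_apply (measurableSet_clfin S 1), Set.inter_comm]

omit [Group Γ] in
lemma Main0_edge (p : unitInterval) (e : Sym2 Γ) (b : Bool) :
    perc Γ p {ω | ω e = b} = bern p {b} := by
  unfold perc
  exact (measurePreserving_eval_infinitePi (fun _ : Sym2 Γ => bern p) e).measure_preimage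
    (measurableSet_singleton b).nullMeasurableSet

lemma Main0_bern0 : bern 0 {true} = 0 := by
  simp [bern]

lemma Main0_bern1 : bern 1 {false} = 0 := by
  simp [bern]

lemma Main0_theta_zero (S : GenSet Γ) : theta S 0 1 = 0 := by
  unfold theta
  refine measure_mono_null (t := ⋃ s ∈ (S.S : Set Γ), {ω : Cfg Γ | ω s(1, s) = true}) ?_ ?_
  · intro ω hω
    obtain ⟨y, ⟨w⟩, hd⟩ := (hω : ∃ y ∈ cl S ω 1, S.cay.dist 1 y = 1)
    cases w with
    | nil =>
      rw [SimpleGraph.dist_self] at hd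
      exact absurd hd (by norm_num)
    | @cons _ v _ h q =>
      have h1 : (1 : Γ)⁻¹ * v ∈ S.S := h.1
      rw [inv_one, one_mul] at h1
      exact Set.mem_biUnion (Finset.mem_coe.2 h1) h.2
  · rw [measure_biUnion_null_iff S.S.countable_toSet]
    intro s _
    rw [Main0_edge, Main0_bern0]

lemma Main0_theta_anti (S : GenSet Γ) (p : unitInterval) {m n : ℕ} (h : m ≤ n) :
    theta S p n ≤ theta S p m :=
  measure_mono fun ω hω => far_mono S h ω 1 hω

lemma Main0_inf_far (S : GenSet Γ) (n : ℕ) {ω : Cfg Γ} (h : ¬ (cl S ω 1).Finite) :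
    far S n ω 1 := by
  by_contra hf
  rw [far_iff] at hf
  push Not at hf
  apply h
  refine Set.Finite.subset (S.ball n).finite_toSet fun y hy => ?_
  have h1 : (1 : Γ)⁻¹ * y ∈ S.ball n := by
    rw [S.mem_ball, dle_iff]
    exact ⟨(cay_connected S).preconnected 1 y, (hf y hy).le⟩
  rw [inv_one, one_mul] at h1
  exact h1

lemma Main0_tendsto (S : GenSet Γ) (p : unitInterval) :
    Tendsto (fun n => perc Γ p ({ω | far S n ω 1} ∩ {ω : Cfg Γ | (cl S ω 1).Finite})) atTop
      (𝓝 0) := by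
  have h1 := tendsto_measure_iInter_atTop (μ := perc Γ p)
    (s := fun n => {ω : Cfg Γ | far S n ω 1} ∩ {ω : Cfg Γ | (cl S ω 1).Finite})
    (fun n => ((measurableSet_far S n 1).inter (measurableSet_clfin S 1)).nullMeasurableSet)
    (fun m n hmn ω hω => ⟨far_mono S hmn ω 1 hω.1, hω.2⟩)
    ⟨0, measure_ne_top _ _⟩
  have h2 : (⋂ n, {ω : Cfg Γ | far S n ω 1} ∩ {ω : Cfg Γ | (cl S ω 1).Finite}) = ∅ := by
    rw [Set.eq_empty_iff_forall_notMem]
    intro ω hω
    rw [Set.mem_iInter] at hω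
    have hfin : (cl S ω 1).Finite := (hω 0).2
    obtain ⟨n, hn⟩ := (hfin.image (fun y => S.cay.dist 1 y)).exists_notMem
    obtain ⟨y, hy, hd⟩ := (hω n).1
    exact hn ⟨y, hy, hd⟩
  rw [h2, measure_empty] at h1
  exact h1

theorem iic_basic (S : GenSet Γ) (A : Measure (RGraph S.S.card)) (hA : IsIIC S A) :
    0 < pc S ∧ pc S < 1 ∧ perc Γ (pc S) {ω | ¬ (cl S ω 1).Finite} = 0 ∧
      (∀ n, theta S (pc S) n ≠ 0) ∧
      ∃ U : Ultrafilter ℕ, (U : Filter ℕ) ≤ atTop ∧ LimAlong S (pc S) U A := by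
  obtain ⟨hprob, φ, hφ, hlim⟩ := hA
  have hcount := S.countable
  let K0 : RGraph S.S.card := ⟨⊥, fun v => by
    have h1 : (⊥ : SimpleGraph ℕ).neighborSet v = ∅ := by
      ext w
      simp
    rw [h1, Set.encard_empty]
    exact bot_le⟩
  have huniv : {H : RGraph S.S.card | BallIso 0 H.G 0 K0.G 0} = Set.univ := by
    ext H
    exact ⟨fun _ => trivial, fun _ => Main0_ball0 _ _ _ _⟩
  have h0 := hlim 0 K0
  rw [huniv, measure_univ] at h0
  simp only [Main0_law] at h0
  -- theta is nonzero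
  have hθ : ∀ n, theta S (pc S) n ≠ 0 := by
    intro n hn
    have h1 : ∀ᶠ m in atTop, perc Γ (pc S) ({ω | far S (φ m) ω 1} ∩
        {ω : Cfg Γ | (cl S ω 1).Finite}) / theta S (pc S) (φ m) = 0 := by
      filter_upwards [eventually_ge_atTop n] with m hm
      have h2 : theta S (pc S) (φ m) = 0 :=
        le_antisymm ((Main0_theta_anti S (pc S) (hm.trans (hφ.le_apply))).trans hn.le) bot_le
      have h3 : perc Γ (pc S) ({ω | far S (φ m) ω 1} ∩ {ω : Cfg Γ | (cl S ω 1).Finite}) = 0 :=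
        measure_mono_null Set.inter_subset_left h2
      rw [h3, ENNReal.zero_div]
    have h4 := tendsto_nhds_unique h0 (tendsto_const_nhds.congr' (h1.mono fun _ h => h.symm))
    exact one_ne_zero h4
  -- no infinite cluster
  have hfin : perc Γ (pc S) {ω | ¬ (cl S ω 1).Finite} = 0 := by
    by_contra hq
    have hq' : ∀ n, perc Γ (pc S) {ω | ¬ (cl S ω 1).Finite} ≤ theta S (pc S) n :=
      fun n => measure_mono fun ω hω => Main0_inf_far S n hω
    have h1 : Tendsto (fun n => perc Γ (pc S) ({ω | far S (φ n) ω 1} ∩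
        {ω : Cfg Γ | (cl S ω 1).Finite}) * (perc Γ (pc S) {ω | ¬ (cl S ω 1).Finite})⁻¹) atTop
        (𝓝 (0 * (perc Γ (pc S) {ω | ¬ (cl S ω 1).Finite})⁻¹)) :=
      ENNReal.Tendsto.mul_const ((Main0_tendsto S (pc S)).comp hφ.tendsto_atTop)
        (Or.inr (ENNReal.inv_ne_top.2 hq))
    rw [zero_mul] at h1
    have h2 := le_of_tendsto_of_tendsto' h0 h1 fun n => by
      rw [div_eq_mul_inv]
      exact mul_le_mul_right (ENNReal.inv_le_inv.2 (hq' _)) _
    exact absurd h2 (by simp)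
  refine ⟨?_, ?_, hfin, hθ, ?_⟩
  · refine lt_of_le_of_ne bot_le fun h => ?_
    apply hθ 1
    rw [← h]
    exact Main0_theta_zero S
  · refine lt_of_le_of_ne le_top fun h => ?_
    have h1 : perc Γ (pc S) {ω | ¬ ∀ e, ω e = true} = 0 := by
      refine measure_mono_null (t := ⋃ e, {ω : Cfg Γ | ω e = false}) ?_ ?_
      · intro ω hω
        obtain ⟨e, he⟩ := not_forall.1 hω
        exact Set.mem_iUnion.2 ⟨e, Bool.eq_false_iff.2 he⟩
      · rw [measure_iUnion_null_iff]
        intro e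
        rw [Main0_edge, h]
        exact Main0_bern1
    have h2 : ∃ ω : Cfg Γ, (∀ e, ω e = true) ∧ (cl S ω 1).Finite := by
      by_contra hno
      push Not at hno
      have h3 : perc Γ (pc S) Set.univ = 0 := by
        refine measure_mono_null (t := {ω | ¬ ∀ e, ω e = true} ∪ {ω | ¬ (cl S ω 1).Finite}) ?_
          (measure_union_null h1 hfin)
        intro ω _
        by_cases h4 : ∀ e, ω e = true
        · exact Or.inr (hno ω h4)
        · exact Or.inl h4
      rw [measure_univ] at h3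
      exact one_ne_zero h3
    obtain ⟨ω, hω, hf⟩ := h2
    have h3 : ∀ y, y ∈ cl S ω 1 := by
      intro y
      have h4 : S.cay ≤ og S ω := fun x y hxy => ⟨hxy, hω _⟩
      exact ((cay_connected S).preconnected 1 y).mono h4
    obtain ⟨n, hn⟩ := (hf.image (fun y => S.cay.dist 1 y)).exists_notMem
    apply hθ n
    refine measure_mono_null (t := ∅) ?_ measure_empty
    rintro ω' ⟨y, _, hd⟩
    exact hn ⟨y, h3 y, hd⟩
  · refine ⟨(hyperfilter ℕ).map φ, ?_, ?_⟩
    · rw [Ultrafilter.coe_map]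
      exact (Filter.map_mono Nat.hyperfilter_le_atTop).trans hφ.tendsto_atTop
    · intro r K
      rw [Ultrafilter.coe_map]
      rw [Filter.tendsto_map'_iff]
      refine Tendsto.mono_left ?_ Nat.hyperfilter_le_atTop
      have h1 := hlim r K
      simp only [lawB_eq] at h1
      exact h1

end IICErg
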