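import Pool.Agent.Lib.MP_4c698b_pr.SDefs

/-!
# Ergodicity of the incipient infinite cluster: module RGa1 (isomorphisms of balls)
-/

open MeasureTheory Filter Topology
open scoped ENNReal Pointwise

namespace IICErg

variable {Γ : Type} [Group Γ]

variable {V W X : Type}

theorem RGa1.dle_refl (G : SimpleGraph V) (n : ℕ) (x : V) : dle G n x x :=
  ⟨SimpleGraph.Walk.nil, by simp⟩

theorem RGa1.dle_mono {G : SimpleGraph V} {m n : ℕ} (h : m ≤ n) {x y : V} (hxy : dle G m x y) :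
    dle G n x y := by
  obtain ⟨w, hw⟩ := hxy
  exact ⟨w, hw.trans h⟩

theorem RGa1.dle_trans {G : SimpleGraph V} {m n : ℕ} {x y z : V} (h : dle G m x y)
    (h' : dle G n y z) : dle G (m + n) x z := by
  obtain ⟨w, hw⟩ := h
  obtain ⟨w', hw'⟩ := h'
  exact ⟨w.append w', by rw [SimpleGraph.Walk.length_append]; omega⟩

theorem RGa1.dle_symm {G : SimpleGraph V} {m : ℕ} {x y : V} (h : dle G m x y) : dle G m y x := by
  obtain ⟨w, hw⟩ := h
  exact ⟨w.reverse, by simpa using hw⟩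

theorem RGa1.dle_adj {G : SimpleGraph V} {x y : V} (h : G.Adj x y) : dle G 1 x y :=
  ⟨h.toWalk, by simp⟩

theorem RGa1.dle_zero {G : SimpleGraph V} {x y : V} : dle G 0 x y ↔ x = y := by
  constructor
  · rintro ⟨w, hw⟩
    exact SimpleGraph.Walk.eq_of_length_eq_zero (Nat.le_zero.1 hw)
  · rintro rfl
    exact RGa1.dle_refl _ _ _

theorem RGa1.dle_succ {G : SimpleGraph V} {n : ℕ} {x u : V} :
    dle G (n + 1) x u ↔ dle G n x u ∨ ∃ w, dle G n x w ∧ G.Adj w u := by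
  constructor
  · rintro ⟨w, hw⟩
    by_cases h : w.length ≤ n
    · exact Or.inl ⟨w, h⟩
    · right
      have hr : w.reverse.length = n + 1 := by
        rw [SimpleGraph.Walk.length_reverse]; omega
      cases hw' : w.reverse with
      | nil => rw [hw'] at hr; simp at hr
      | cons hadj q =>
        rw [hw', SimpleGraph.Walk.length_cons] at hr
        exact ⟨_, RGa1.dle_symm ⟨q, by omega⟩, hadj.symm⟩
  · rintro (h | ⟨w, h1, h2⟩)
    · exact RGa1.dle_mono (Nat.le_succ n) h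
    · exact RGa1.dle_trans h1 (RGa1.dle_adj h2)

/-- a ball isomorphism maps walks near the root to walks -/
theorem RGa1.key {R : ℕ} {G : SimpleGraph V} {x : V} {H : SimpleGraph W} {y : W}
    (e : {v : V // dle G R x v} ≃ {v : W // dle H R y v})
    (he : ∀ u v : {v : V // dle G R x v}, G.Adj u v ↔ H.Adj (e u) (e v))
    {a : ℕ} {u : V} (hu : dle G a x u) (hu' : dle G R x u) :
    ∀ b : ℕ, a + b ≤ R → ∀ (v : V) (hv' : dle G R x v), dle G b u v →
      dle H b (e ⟨u, hu'⟩) (e ⟨v, hv'⟩)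
  | 0 => by
    intro _ v hv' hv
    rw [RGa1.dle_zero] at hv
    subst hv
    exact RGa1.dle_refl _ _ _
  | (b + 1) => by
    intro hab v hv' hv
    rw [RGa1.dle_succ] at hv
    rcases hv with hv | ⟨w, hw, hwv⟩
    · exact RGa1.dle_mono (Nat.le_succ b) (RGa1.key e he hu hu' b (by omega) v hv' hv)
    · have hw' : dle G R x w := RGa1.dle_mono (by omega) (RGa1.dle_trans hu hw)
      rw [RGa1.dle_succ]
      right
      exact ⟨_, RGa1.key e he hu hu' b (by omega) w hw' hw, (he ⟨w, hw'⟩ ⟨v, hv'⟩).1 hwv⟩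

/-- restriction of a ball isomorphism to a smaller ball around another vertex -/
theorem RGa1.sub {R : ℕ} {G : SimpleGraph V} {x : V} {H : SimpleGraph W} {y : W}
    (e : {v : V // dle G R x v} ≃ {v : W // dle H R y v})
    (hr : ∀ hx : dle G R x x, (e ⟨x, hx⟩ : W) = y)
    (he : ∀ u v : {v : V // dle G R x v}, G.Adj u v ↔ H.Adj (e u) (e v))
    {a b : ℕ} (hab : a + b ≤ R) {u : V} (hu : dle G a x u) (hu' : dle G R x u) :
    BallIso b G u H (e ⟨u, hu'⟩) := by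
  have hx : dle G R x x := RGa1.dle_refl _ _ _
  have he' : ∀ u v : {v : W // dle H R y v}, H.Adj u v ↔ G.Adj (e.symm u) (e.symm v) := by
    intro u v
    rw [he]; simp
  have hH : dle H a y (e ⟨u, hu'⟩) := by
    have h := RGa1.key e he (RGa1.dle_refl G 0 x) hx a (by omega) u hu' hu
    rwa [hr hx] at h
  have f1 : ∀ v, dle G b u v → dle G R x v := fun v hv =>
    RGa1.dle_mono hab (RGa1.dle_trans hu hv)
  have f2 : ∀ v, dle H b (e ⟨u, hu'⟩) v → dle H R y v := fun v hv =>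
    RGa1.dle_mono hab (RGa1.dle_trans hH hv)
  have g1 : ∀ v (hv : dle G b u v), dle H b (e ⟨u, hu'⟩) (e ⟨v, f1 v hv⟩) := fun v hv =>
    RGa1.key e he hu hu' b hab v (f1 v hv) hv
  have g2 : ∀ v (hv : dle H b (e ⟨u, hu'⟩) v), dle G b u (e.symm ⟨v, f2 v hv⟩) := by
    intro v hv
    have h := RGa1.key e.symm he' hH (e ⟨u, hu'⟩).2 b hab v (f2 v hv) hv
    simpa using h
  refine ⟨⟨fun v => ⟨e ⟨v.1, f1 v.1 v.2⟩, g1 v.1 v.2⟩, fun v => ⟨e.symm ⟨v.1, f2 v.1 v.2⟩,
    g2 v.1 v.2⟩, ?_, ?_⟩, ?_, ?_⟩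
  · intro v; ext; simp
  · intro v; ext; simp
  · intro _; rfl
  · intro v w
    exact he ⟨v.1, f1 v.1 v.2⟩ ⟨w.1, f1 w.1 w.2⟩

theorem RGa1.iso (r : ℕ) {G : SimpleGraph V} {H : SimpleGraph W} (φ : G ≃g H) (x : V) :
    BallIso r G x H (φ x) := by
  have h : ∀ n v, dle G n x v ↔ dle H n (φ x) (φ v) := by
    intro n
    induction n with
    | zero => intro v; rw [RGa1.dle_zero, RGa1.dle_zero, φ.injective.eq_iff]
    | succ n ih =>
      intro v
      rw [RGa1.dle_succ, RGa1.dle_succ, ih v]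
      refine or_congr Iff.rfl ⟨?_, ?_⟩
      · rintro ⟨w, h1, h2⟩
        exact ⟨φ w, (ih w).1 h1, φ.map_adj_iff.2 h2⟩
      · rintro ⟨w, h1, h2⟩
        obtain ⟨w', rfl⟩ := φ.surjective w
        exact ⟨w', (ih w').2 h1, φ.map_adj_iff.1 h2⟩
  refine ⟨φ.toEquiv.subtypeEquiv (fun v => h r v), ?_, ?_⟩
  · intro _; rfl
  · intro u v
    exact φ.map_adj_iff.symm

theorem BallIso.refl' (r : ℕ) (G : SimpleGraph V) (x : V) : BallIso r G x G x :=
  ⟨Equiv.refl _, fun _ => rfl, fun _ _ => Iff.rfl⟩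

theorem BallIso.symm' {r : ℕ} {G : SimpleGraph V} {x : V} {H : SimpleGraph W} {y : W}
    (h : BallIso r G x H y) : BallIso r H y G x := by
  obtain ⟨e, h1, h2⟩ := h
  refine ⟨e.symm, ?_, ?_⟩
  · intro hy
    have hx : dle G r x x := RGa1.dle_refl _ _ _
    have : e ⟨x, hx⟩ = ⟨y, hy⟩ := Subtype.ext (h1 hx)
    rw [← this, Equiv.symm_apply_apply]
  · intro u v
    rw [h2]; simp

theorem BallIso.trans' {r : ℕ} {G : SimpleGraph V} {x : V} {H : SimpleGraph W} {y : W}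
    {K : SimpleGraph X} {z : X} (h : BallIso r G x H y) (h' : BallIso r H y K z) :
    BallIso r G x K z := by
  obtain ⟨e, h1, h2⟩ := h
  obtain ⟨e', h1', h2'⟩ := h'
  refine ⟨e.trans e', ?_, ?_⟩
  · intro hx
    have hy : dle H r y y := RGa1.dle_refl _ _ _
    have : e ⟨x, hx⟩ = ⟨y, hy⟩ := Subtype.ext (h1 hx)
    rw [Equiv.trans_apply, this]
    exact h1' hy
  · intro u v
    rw [h2, h2']; rfl

theorem BallIso.mono' {r r' : ℕ} (hr : r' ≤ r) {G : SimpleGraph V} {x : V} {H : SimpleGraph W}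
    {y : W} (h : BallIso r G x H y) : BallIso r' G x H y := by
  obtain ⟨e, h1, h2⟩ := h
  have hx : dle G r x x := RGa1.dle_refl _ _ _
  have h := RGa1.sub e h1 h2 (a := 0) (b := r') (by omega) (RGa1.dle_refl G 0 x) hx
  rwa [h1 hx] at h

theorem ballIso_map (r : ℕ) (G : SimpleGraph V) (j : V ↪ W) (x : V) :
    BallIso r G x (G.map j) (j x) := by
  have h : ∀ n w, dle (G.map j) n (j x) w ↔ ∃ v, j v = w ∧ dle G n x v := by
    intro n
    induction n with
    | zero =>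
      intro w
      rw [RGa1.dle_zero]
      constructor
      · rintro rfl; exact ⟨x, rfl, RGa1.dle_refl _ _ _⟩
      · rintro ⟨v, rfl, hv⟩
        rw [RGa1.dle_zero] at hv
        rw [hv]
    | succ n ih =>
      intro w
      rw [RGa1.dle_succ]
      constructor
      · rintro (h | ⟨w', h1, h2⟩)
        · obtain ⟨v, rfl, hv⟩ := (ih w).1 h
          exact ⟨v, rfl, RGa1.dle_mono (Nat.le_succ n) hv⟩
        · obtain ⟨v, rfl, hv⟩ := (ih w').1 h1
          rw [SimpleGraph.map_adj] at h2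
          obtain ⟨a, b, hab, ha, rfl⟩ := h2
          have := j.injective ha
          subst this
          exact ⟨b, rfl, RGa1.dle_succ.2 (Or.inr ⟨a, hv, hab⟩)⟩
      · rintro ⟨v, rfl, hv⟩
        rw [RGa1.dle_succ] at hv
        rcases hv with hv | ⟨w', h1, h2⟩
        · exact Or.inl ((ih _).2 ⟨v, rfl, hv⟩)
        · exact Or.inr ⟨j w', (ih _).2 ⟨w', rfl, h1⟩, (SimpleGraph.map_adj_apply).2 h2⟩
  have h' : ∀ v, dle (G.map j) r (j x) (j v) ↔ dle G r x v := by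
    intro v
    rw [h]
    constructor
    · rintro ⟨v', h1, h2⟩
      rwa [j.injective h1] at h2
    · intro hv; exact ⟨v, rfl, hv⟩
  refine ⟨Equiv.ofBijective (fun v => ⟨j v.1, (h' v.1).2 v.2⟩) ⟨?_, ?_⟩, ?_, ?_⟩
  · intro u v huv
    exact Subtype.ext (j.injective (congrArg Subtype.val huv))
  · rintro ⟨w, hw⟩
    obtain ⟨v, rfl, hv⟩ := (h r w).1 hw
    exact ⟨⟨v, hv⟩, rfl⟩
  · intro _; rfl
  · intro u v
    exact (SimpleGraph.map_adj_apply).symm

theorem BallIso.nbr {r : ℕ} {G : SimpleGraph V} {x : V} {H : SimpleGraph W} {y : W}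
    (h : BallIso (r + 1) G x H y) :
    ∃ σ : G.neighborSet x ≃ H.neighborSet y,
      ∀ k : G.neighborSet x, BallIso r G (k : V) H ((σ k : H.neighborSet y) : W) := by
  obtain ⟨e, h1, h2⟩ := h
  have hx : dle G (r + 1) x x := RGa1.dle_refl _ _ _
  have hy : dle H (r + 1) y y := RGa1.dle_refl _ _ _
  have hxy : e ⟨x, hx⟩ = ⟨y, hy⟩ := Subtype.ext (h1 hx)
  have n1 : ∀ k, G.Adj x k → dle G (r + 1) x k := fun k hk =>
    RGa1.dle_mono (by omega) (RGa1.dle_adj hk)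
  have n2 : ∀ k, H.Adj y k → dle H (r + 1) y k := fun k hk =>
    RGa1.dle_mono (by omega) (RGa1.dle_adj hk)
  have m1 : ∀ k (hk : G.Adj x k), H.Adj y (e ⟨k, n1 k hk⟩) := by
    intro k hk
    have := (h2 ⟨x, hx⟩ ⟨k, n1 k hk⟩).1 hk
    rwa [hxy] at this
  have m2 : ∀ k (hk : H.Adj y k), G.Adj x (e.symm ⟨k, n2 k hk⟩) := by
    intro k hk
    have := (h2 ⟨x, hx⟩ (e.symm ⟨k, n2 k hk⟩)).2
    rw [hxy, Equiv.apply_symm_apply] at this
    exact this hk
  refine ⟨⟨fun k => ⟨e ⟨k.1, n1 k.1 k.2⟩, m1 k.1 k.2⟩,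
    fun k => ⟨e.symm ⟨k.1, n2 k.1 k.2⟩, m2 k.1 k.2⟩, ?_, ?_⟩, ?_⟩
  · intro k; ext; simp
  · intro k; ext; simp
  · intro k
    exact RGa1.sub e h1 h2 (a := 1) (b := r) (by omega) (RGa1.dle_adj k.2) (n1 k.1 k.2)

theorem RGa1.og_vw_adj (S : GenSet Γ) (x : Γ) (ω : Cfg Γ) (y z : Γ) :
    (og S (vw x ω)).Adj y z ↔ (og S ω).Adj (x * y) (x * z) := by
  simp [og, vw, GenSet.cay, mul_assoc]

theorem ballIso_vw (S : GenSet Γ) (r : ℕ) (ω : Cfg Γ) (x y : Γ) (G : SimpleGraph W) (z : W) :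
    BallIso r (og S (vw x ω)) y G z ↔ BallIso r (og S ω) (x * y) G z := by
  let φ : og S (vw x ω) ≃g og S ω :=
    { toEquiv := Equiv.mulLeft x
      map_rel_iff' := by
        intro a b
        exact (RGa1.og_vw_adj S x ω a b).symm }
  have h := RGa1.iso r φ y
  exact ⟨fun h' => h.symm'.trans' h', fun h' => h.trans' h'⟩

theorem ballIso_isLoc (S : GenSet Γ) (r : ℕ) (G : SimpleGraph W) (z : W) :
    IsLoc S r {ω | BallIso r (og S ω) 1 G z} := by
  intro ω ω' hω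
  have h : ∀ n ≤ r, ∀ v, dle (og S ω) n 1 v ↔ dle (og S ω') n 1 v := by
    intro n
    induction n with
    | zero => intro _ v; rw [RGa1.dle_zero, RGa1.dle_zero]
    | succ n ih =>
      intro hn v
      rw [RGa1.dle_succ, RGa1.dle_succ, ih (by omega) v]
      refine or_congr Iff.rfl ⟨?_, ?_⟩
      · rintro ⟨w, h1, h2⟩
        exact ⟨w, (ih (by omega) w).1 h1, (hω w v (RGa1.dle_mono (by omega) h1)).1 h2⟩
      · rintro ⟨w, h1, h2⟩
        have h3 := (ih (by omega) w).2 h1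
        exact ⟨w, h3, (hω w v (RGa1.dle_mono (by omega) h3)).2 h2⟩
  have h' : BallIso r (og S ω) 1 (og S ω') 1 :=
    ⟨(Equiv.refl Γ).subtypeEquiv (fun v => h r le_rfl v), fun _ => rfl,
      fun u v => hω u v u.2⟩
  exact ⟨fun h'' => h'.symm'.trans' h'', fun h'' => h'.trans' h''⟩

end IICErg
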