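import Pool.Agent.Lib.MP_4c698b_pr.BasicA
import Pool.Agent.Lib.MP_4c698b_pr.RGa1

/-!
# Ergodicity of the incipient infinite cluster: module RGa2 (rerooting, finiteness of ball types)
-/

open MeasureTheory Filter Topology
open scoped ENNReal Pointwise

namespace IICErg

variable {Γ : Type} [Group Γ]

variable {V W X : Type}

theorem RGa2.ext {D : ℕ} {H K : RGraph D} (h : H.G = K.G) : H = K := by
  cases H; cases K; cases h; rfl

theorem ballIso_reroot {D : ℕ} (r : ℕ) (H : RGraph D) (k : ℕ) (K : SimpleGraph W) (z : W) :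
    BallIso r (H.reroot k).G 0 K z ↔ BallIso r H.G k K z := by
  let φ : (H.reroot k).G ≃g H.G :=
    { toEquiv := Equiv.swap 0 k
      map_rel_iff' := by
        intro a b
        exact Iff.rfl }
  have h := RGa1.iso r φ 0
  have h0 : φ 0 = k := Equiv.swap_apply_left 0 k
  rw [h0] at h
  exact ⟨fun h' => h.symm'.trans' h', fun h' => h.trans' h'⟩

theorem reroot_reroot {D : ℕ} (H : RGraph D) (k : ℕ) : (H.reroot k).reroot k = H := by
  apply RGa2.ext
  ext a b
  simp [RGraph.reroot]

theorem reroot_reach {D : ℕ} (H : RGraph D) (k : ℕ) (h : H.G.Reachable 0 k) :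
    (H.reroot k).G.Reachable 0 k := by
  let φ : (H.reroot k).G ≃g H.G :=
    { toEquiv := Equiv.swap 0 k
      map_rel_iff' := by
        intro a b
        exact Iff.rfl }
  have h0 : φ 0 = k := Equiv.swap_apply_left 0 k
  have hk : φ k = 0 := Equiv.swap_apply_right 0 k
  rw [← φ.reachable_iff, h0, hk]
  exact h.symm

theorem RGa2.ball_finset {D : ℕ} (H : RGraph D) (r : ℕ) :
    ∃ B : Finset ℕ, (∀ v, dle H.G r 0 v ↔ v ∈ B) ∧ B.card ≤ (D + 1) ^ r := by
  classical
  have hfin : ∀ v, (H.G.neighborSet v).Finite := fun v =>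
    Set.finite_of_encard_le_coe (H.deg_le v)
  have hcard : ∀ v, (hfin v).toFinset.card ≤ D := by
    intro v
    have h := H.deg_le v
    rw [(hfin v).encard_eq_coe_toFinset_card] at h
    exact_mod_cast h
  induction r with
  | zero =>
    refine ⟨{0}, fun v => ?_, by simp⟩
    rw [RGa1.dle_zero, Finset.mem_singleton]
    exact eq_comm
  | succ r ih =>
    obtain ⟨B, h1, h2⟩ := ih
    refine ⟨B.biUnion (fun w => insert w (hfin w).toFinset), fun v => ?_, ?_⟩
    · rw [RGa1.dle_succ, Finset.mem_biUnion]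
      constructor
      · rintro (h | ⟨w, h3, h4⟩)
        · exact ⟨v, (h1 v).1 h, Finset.mem_insert_self _ _⟩
        · refine ⟨w, (h1 w).1 h3, Finset.mem_insert_of_mem ?_⟩
          rw [Set.Finite.mem_toFinset]
          exact h4
      · rintro ⟨w, h3, h4⟩
        rw [Finset.mem_insert] at h4
        rcases h4 with rfl | h4
        · exact Or.inl ((h1 _).2 h3)
        · rw [Set.Finite.mem_toFinset] at h4
          exact Or.inr ⟨w, (h1 w).2 h3, h4⟩
    · refine Finset.card_biUnion_le.trans ?_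
      calc ∑ w ∈ B, (insert w (hfin w).toFinset).card ≤ ∑ w ∈ B, (D + 1) := by
            apply Finset.sum_le_sum
            intro w _
            exact (Finset.card_insert_le _ _).trans (by have := hcard w; omega)
        _ = B.card * (D + 1) := by simp
        _ ≤ (D + 1) ^ r * (D + 1) := Nat.mul_le_mul_right _ h2
        _ = (D + 1) ^ (r + 1) := (pow_succ _ _).symm

theorem RGa2.emb {D : ℕ} (H : RGraph D) (r : ℕ) :
    Nonempty ({v : ℕ // dle H.G r 0 v} ↪ Fin ((D + 1) ^ r)) := by
  obtain ⟨B, h1, h2⟩ := RGa2.ball_finset H r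
  have e1 : {v : ℕ // dle H.G r 0 v} ≃ B := Equiv.subtypeEquivRight h1
  have e2 : B ≃ Fin B.card := B.equivFin
  exact ⟨(e1.trans e2).toEmbedding.trans (Fin.castLEEmb h2)⟩

/-- a ball isomorphism from equal codes -/
theorem RGa2.ofCode {N r : ℕ} {G : SimpleGraph V} {x : V} {H : SimpleGraph W} {y : W}
    (e : {v : V // dle G r x v} ↪ Fin N) (f : {v : W // dle H r y v} ↪ Fin N)
    (h1 : Set.range e = Set.range f)
    (h2 : ∀ a b, (∃ u v : {v : V // dle G r x v}, e u = a ∧ e v = b ∧ G.Adj u v) ↔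
      (∃ u v : {v : W // dle H r y v}, f u = a ∧ f v = b ∧ H.Adj u v))
    (h3 : e ⟨x, RGa1.dle_refl _ _ _⟩ = f ⟨y, RGa1.dle_refl _ _ _⟩) :
    BallIso r G x H y := by
  have hg : ∀ u : {v : V // dle G r x v}, ∃ w, f w = e u := by
    intro u
    have : e u ∈ Set.range f := h1 ▸ Set.mem_range_self u
    exact this
  choose g hg' using hg
  refine ⟨Equiv.ofBijective g ⟨?_, ?_⟩, ?_, ?_⟩
  · intro u v huv
    apply e.injective
    rw [← hg', ← hg', huv]
  · intro w
    have : f w ∈ Set.range e := h1 ▸ Set.mem_range_self w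
    obtain ⟨u, hu⟩ := this
    refine ⟨u, f.injective ?_⟩
    rw [hg', hu]
  · intro hx
    have : g ⟨x, hx⟩ = ⟨y, RGa1.dle_refl _ _ _⟩ := f.injective (by rw [hg', h3])
    exact congrArg Subtype.val this
  · intro u v
    change G.Adj u v ↔ H.Adj (g u) (g v)
    constructor
    · intro h
      obtain ⟨u', v', hu, hv, h'⟩ := (h2 (e u) (e v)).1 ⟨u, v, rfl, rfl, h⟩
      have hu' : u' = g u := f.injective (by rw [hu, hg'])
      have hv' : v' = g v := f.injective (by rw [hv, hg'])
      rwa [hu', hv'] at h'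
    · intro h
      obtain ⟨u', v', hu, hv, h'⟩ := (h2 (e u) (e v)).2 ⟨g u, g v, hg' u, hg' v, h⟩
      have hu' : u' = u := e.injective hu
      have hv' : v' = v := e.injective hv
      rwa [hu', hv'] at h'

theorem finite_types (D r : ℕ) :
    ∃ T : Finset (RGraph D), ∀ H : RGraph D, ∃! K, K ∈ T ∧ BallIso r H.G 0 K.G 0 := by
  classical
  let s : Setoid (RGraph D) :=
    { r := fun H K => BallIso r H.G 0 K.G 0
      iseqv := ⟨fun H => BallIso.refl' r H.G 0, fun h => h.symm', fun h h' => h.trans' h'⟩ }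
  let em : ∀ H : RGraph D, {v : ℕ // dle H.G r 0 v} ↪ Fin ((D + 1) ^ r) := fun H =>
    Classical.choice (RGa2.emb H r)
  let code : RGraph D → Set (Fin ((D + 1) ^ r)) × (Fin ((D + 1) ^ r) → Fin ((D + 1) ^ r) → Prop) ×
      Fin ((D + 1) ^ r) := fun H =>
    (Set.range (em H), fun a b => ∃ u v : {v : ℕ // dle H.G r 0 v}, em H u = a ∧ em H v = b ∧
      H.G.Adj u v, em H ⟨0, RGa1.dle_refl _ _ _⟩)
  have hcode : ∀ H K, code H = code K → BallIso r H.G 0 K.G 0 := by
    intro H K h
    have h1 := congrArg Prod.fst h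
    have h2 := congrArg (fun c => c.2.1) h
    have h3 := congrArg (fun c => c.2.2) h
    refine RGa2.ofCode (em H) (em K) h1 (fun a b => ?_) h3
    exact iff_of_eq (congrFun (congrFun h2 a) b)
  have hf : Finite (Quotient s) := by
    refine Finite.of_injective (fun q : Quotient s => code q.out) ?_
    intro q q' h
    have h1 : BallIso r q.out.G 0 q'.out.G 0 := hcode _ _ h
    rw [← Quotient.out_eq q, ← Quotient.out_eq q']
    exact Quotient.sound h1
  have := Fintype.ofFinite (Quotient s)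
  refine ⟨Finset.univ.image (fun q : Quotient s => q.out), fun H => ?_⟩
  refine ⟨(Quotient.mk s H).out, ⟨?_, ?_⟩, ?_⟩
  · exact Finset.mem_image_of_mem _ (Finset.mem_univ _)
  · have h : s.r (Quotient.mk s H).out H := Quotient.mk_out (s := s) H
    exact BallIso.symm' h
  · rintro K ⟨hK, hK'⟩
    obtain ⟨q, -, rfl⟩ := Finset.mem_image.1 hK
    have h : Quotient.mk s H = Quotient.mk s q.out := Quotient.sound hK'
    rw [Quotient.out_eq] at h
    rw [h]

theorem exists_rep (S : GenSet Γ) (ω : Cfg Γ) :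
    ∃ (K : RGraph S.S.card) (j : Γ ↪ ℕ), j 1 = 0 ∧ K.G = (og S ω).map j := by
  classical
  have := S.countable
  obtain ⟨j0, hj0⟩ := exists_injective_nat Γ
  let j : Γ ↪ ℕ := ⟨fun x => Equiv.swap 0 (j0 1) (j0 x),
    (Equiv.injective _).comp hj0⟩
  have hj : j 1 = 0 := Equiv.swap_apply_right 0 (j0 1)
  have hdeg : ∀ v, (((og S ω).map j).neighborSet v).encard ≤ (S.S.card : ℕ∞) := by
    intro v
    by_cases hv : ∃ x, j x = v
    · obtain ⟨x, rfl⟩ := hv
      have hsub : ((og S ω).map j).neighborSet (j x) ⊆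
          ((S.S.image (fun s => j (x * s)) : Finset ℕ) : Set ℕ) := by
        intro w hw
        rw [SimpleGraph.mem_neighborSet, SimpleGraph.map_adj] at hw
        obtain ⟨a, b, hab, ha, rfl⟩ := hw
        have ha' := j.injective ha
        subst ha'
        rw [Finset.coe_image]
        refine ⟨a⁻¹ * b, hab.1, ?_⟩
        simp
      refine (Set.encard_le_encard hsub).trans ?_
      rw [Set.encard_coe_eq_coe_finsetCard]
      exact_mod_cast Finset.card_image_le
    · have hemp : ((og S ω).map j).neighborSet v = ∅ := by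
        ext w
        simp only [SimpleGraph.mem_neighborSet, SimpleGraph.map_adj, Set.mem_empty_iff_false,
          iff_false]
        rintro ⟨a, b, -, ha, -⟩
        exact hv ⟨a, ha⟩
      rw [hemp]
      simp
  exact ⟨⟨(og S ω).map j, hdeg⟩, j, hj, rfl⟩

theorem measurableSet_cyl {D : ℕ} (r : ℕ) (K : RGraph D) :
    MeasurableSet {H : RGraph D | BallIso r H.G 0 K.G 0} :=
  MeasurableSpace.measurableSet_generateFrom ⟨r, K, rfl⟩

theorem isPiSystem_cyl (D : ℕ) :
    IsPiSystem {s | ∃ (r : ℕ) (K : RGraph D), s = {H : RGraph D | BallIso r H.G 0 K.G 0}} := by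
  have key : ∀ (r r' : ℕ) (K K' : RGraph D), r ≤ r' →
      (∃ H : RGraph D, BallIso r H.G 0 K.G 0 ∧ BallIso r' H.G 0 K'.G 0) →
      {H : RGraph D | BallIso r H.G 0 K.G 0} ∩ {H : RGraph D | BallIso r' H.G 0 K'.G 0} =
        {H : RGraph D | BallIso r' H.G 0 K'.G 0} := by
    rintro r r' K K' hr ⟨H, h1, h2⟩
    apply Set.inter_eq_right.2
    intro H' h'
    have h3 : BallIso r H'.G 0 H.G 0 := BallIso.mono' hr (BallIso.trans' h' h2.symm')
    exact h3.trans' h1
  rintro _ ⟨r, K, rfl⟩ _ ⟨r', K', rfl⟩ ⟨H, h1, h2⟩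
  rcases le_total r r' with h | h
  · exact ⟨r', K', key r r' K K' h ⟨H, h1, h2⟩⟩
  · refine ⟨r, K, ?_⟩
    rw [Set.inter_comm]
    exact key r' r K' K h ⟨H, h2, h1⟩

end IICErg
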