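import Pool.Agent.Lib.MP_4c698b_pr.BasicB
import Pool.Agent.Lib.MP_4c698b_pr.RGa1
import Pool.Agent.Lib.MP_4c698b_pr.RGa2

/-! Module RGb1. -/

open MeasureTheory Filter Topology
open scoped ENNReal Pointwise

namespace IICErg

variable {Γ : Type} [Group Γ]


/-- every open cluster has exactly one `r`-type in `T` -/
lemma RGb1_type (S : GenSet Γ) {r : ℕ} {T : Finset (RGraph S.S.card)}
    (hT : ∀ H : RGraph S.S.card, ∃! K, K ∈ T ∧ BallIso r H.G 0 K.G 0) (ω : Cfg Γ) :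
    ∃! K, K ∈ T ∧ BallIso r (og S ω) 1 K.G 0 := by
  obtain ⟨K0, j, hj, hK0⟩ := exists_rep S ω
  have h0 : BallIso r (og S ω) 1 K0.G 0 := by
    rw [hK0, ← hj]
    exact ballIso_map r _ j 1
  obtain ⟨K, ⟨hK, hK'⟩, hu⟩ := hT K0
  refine ⟨K, ⟨hK, h0.trans' hK'⟩, ?_⟩
  rintro K1 ⟨h1, h2⟩
  exact hu K1 ⟨h1, h0.symm'.trans' h2⟩

open Classical in
lemma RGb1_sum {α β : Type} {T : Finset β} {P : α → β → Prop} (f : α → ℝ≥0∞) (g : β → ℝ≥0∞)
    (hfg : ∀ a b, P a b → f a = g b) (hT : ∀ a, ∃! b, b ∈ T ∧ P a b) (a : α) :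
    f a = ∑ b ∈ T, Set.indicator {a | P a b} (fun _ => g b) a := by
  obtain ⟨b, ⟨hb, hb'⟩, hu⟩ := hT a
  rw [Finset.sum_eq_single_of_mem b hb]
  · rw [Set.indicator_of_mem (show a ∈ {a | P a b} from hb')]
    exact hfg a b hb'
  · intro c hc hcb
    rw [Set.indicator_of_notMem]
    intro hc'
    exact hcb (hu c ⟨hc, hc'⟩)

lemma RGb1_int {α β : Type} [MeasurableSpace α] {T : Finset β} {P : α → β → Prop}
    (f : α → ℝ≥0∞) (g : β → ℝ≥0∞)
    (hfg : ∀ a b, P a b → f a = g b) (hT : ∀ a, ∃! b, b ∈ T ∧ P a b)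
    (hP : ∀ b, MeasurableSet {a | P a b}) (μ : Measure α) :
    ∫⁻ a, f a ∂μ = ∑ b ∈ T, g b * μ {a | P a b} := by
  have h1 : ∫⁻ a, f a ∂μ = ∫⁻ a, ∑ b ∈ T, Set.indicator {a | P a b} (fun _ => g b) a ∂μ :=
    lintegral_congr fun a => RGb1_sum f g hfg hT a
  rw [h1, lintegral_finsetSum _ fun b _ => measurable_const.indicator (hP b)]
  refine Finset.sum_congr rfl fun b _ => ?_
  rw [lintegral_indicator (hP b), lintegral_const, Measure.restrict_apply MeasurableSet.univ,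
    Set.univ_inter]

theorem rg_lim (S : GenSet Γ) (p : unitInterval) (U : Ultrafilter ℕ)
    (A : Measure (RGraph S.S.card)) (hA : LimAlong S p U A) (r : ℕ)
    (h : RGraph S.S.card → ℝ≥0∞) (hC : Cfg Γ → ℝ≥0∞)
    (hh : ∀ H K : RGraph S.S.card, BallIso r H.G 0 K.G 0 → h H = h K)
    (hhC : ∀ (ω : Cfg Γ) (K : RGraph S.S.card), BallIso r (og S ω) 1 K.G 0 → hC ω = h K)
    (hne : ∀ K, h K ≠ ⊤) :
    Tendsto (fun n => ∫⁻ ω, hC ω ∂(mu S p n)) (U : Filter ℕ) (𝓝 (∫⁻ H, h H ∂A)) := by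
  obtain ⟨T, hT⟩ := finite_types S.S.card r
  rw [RGb1_int (P := fun H K : RGraph S.S.card => BallIso r H.G 0 K.G 0) h h hh hT
    (fun K => measurableSet_cyl r K) A]
  have h2 : ∀ n, ∫⁻ ω, hC ω ∂(mu S p n) =
      ∑ K ∈ T, h K * mu S p n {ω | BallIso r (og S ω) 1 K.G 0} := fun n =>
    RGb1_int (P := fun (ω : Cfg Γ) (K : RGraph S.S.card) => BallIso r (og S ω) 1 K.G 0) hC h hhC
      (RGb1_type S hT) (fun K => (ballIso_isLoc S r K.G 0).meas) (mu S p n)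
  simp only [h2]
  exact tendsto_finsetSum T fun K _ => ENNReal.Tendsto.const_mul (hA r K) (Or.inr (hne K))

end IICErg
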