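import Pool.Agent.Lib.MP_4c698b_pr.BasicB
import Pool.Agent.Lib.MP_4c698b_pr.RGa1
import Pool.Agent.Lib.MP_4c698b_pr.RGa2
import Pool.Agent.Lib.MP_4c698b_pr.MTP
import Pool.Agent.Lib.MP_4c698b_pr.RGb1

/-! Module RGb2. -/

open MeasureTheory Filter Topology
open scoped ENNReal Pointwise

namespace IICErg

variable {Γ : Type} [Group Γ]


lemma RGb2_fin {D : ℕ} (H : RGraph D) (P : ℕ → Prop) : ({k | H.G.Adj 0 k ∧ P k} : Set ℕ).Finite :=
  (Set.finite_of_encard_le_coe (H.deg_le 0)).subset fun _ hk => hk.1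

lemma RGb2_finC (S : GenSet Γ) (ω : Cfg Γ) (P : Γ → Prop) :
    ({k | (og S ω).Adj 1 k ∧ P k} : Set Γ).Finite := by
  refine S.S.finite_toSet.subset fun k hk => ?_
  have h1 : (1 : Γ)⁻¹ * k ∈ S.S := hk.1.1
  rw [inv_one, one_mul] at h1
  exact h1

lemma RGb2_cong {V W : Type} {G : SimpleGraph V} {x : V} {H : SimpleGraph W} {y : W}
    (σ : G.neighborSet x ≃ H.neighborSet y) (P : V → Prop) (Q : W → Prop)
    (h : ∀ k : G.neighborSet x, P k ↔ Q (σ k)) :
    ({k | G.Adj x k ∧ P k} : Set V).ncard = ({k | H.Adj y k ∧ Q k} : Set W).ncard := by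
  have h1 : ({k | G.Adj x k ∧ P k} : Set V) =
      Subtype.val '' ({k | P k} : Set (G.neighborSet x)) := by
    ext k
    constructor
    · rintro ⟨hk, hk'⟩
      exact ⟨⟨k, hk⟩, hk', rfl⟩
    · rintro ⟨k, hk, rfl⟩
      exact ⟨k.2, hk⟩
  have h2 : ({k | H.Adj y k ∧ Q k} : Set W) =
      Subtype.val '' ({k | Q k} : Set (H.neighborSet y)) := by
    ext k
    constructor
    · rintro ⟨hk, hk'⟩
      exact ⟨⟨k, hk⟩, hk', rfl⟩
    · rintro ⟨k, hk, rfl⟩
      exact ⟨k.2, hk⟩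
  have h3 : ({k | Q k} : Set (H.neighborSet y)) = σ '' ({k | P k} : Set (G.neighborSet x)) := by
    ext k
    constructor
    · intro hk
      refine ⟨σ.symm k, ?_, σ.apply_symm_apply k⟩
      refine (h _).2 ?_
      rw [σ.apply_symm_apply]
      exact hk
    · rintro ⟨k, hk, rfl⟩
      exact (h k).1 hk
  rw [h1, h2, Set.ncard_image_of_injective _ Subtype.val_injective,
    Set.ncard_image_of_injective _ Subtype.val_injective, h3,
    Set.ncard_image_of_injective _ σ.injective]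

lemma RGb2_reroot {D r : ℕ} {H K : RGraph D} {k l : ℕ} (h : BallIso r H.G k K.G l) :
    BallIso r (H.reroot k).G 0 (K.reroot l).G 0 := by
  rw [ballIso_reroot]
  refine BallIso.symm' ?_
  rw [ballIso_reroot]
  exact h.symm'

lemma RGb2_nbc_cong {D r : ℕ} {E : Set (RGraph D)}
    (hE : ∀ H K : RGraph D, BallIso r H.G 0 K.G 0 → (H ∈ E ↔ K ∈ E)) {H K : RGraph D}
    (h : BallIso (r + 1) H.G 0 K.G 0) : nbc E H = nbc E K := by
  obtain ⟨σ, hσ⟩ := h.nbr
  unfold nbc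
  rw [RGb2_cong σ (fun k => H.reroot k ∈ E) (fun k => K.reroot k ∈ E)
    fun k => hE _ _ (RGb2_reroot (hσ k))]

lemma RGb2_count {D : ℕ} (E : Set (RGraph D)) (H : RGraph D) :
    nbc E H = Measure.count ({k | H.G.Adj 0 k ∧ H.reroot k ∈ E} : Set ℕ) := by
  unfold nbc
  rw [Measure.count_apply_finite _ (RGb2_fin H _),
    Set.ncard_eq_toFinset_card _ (RGb2_fin H (fun k => H.reroot k ∈ E))]

lemma RGb2_cyl_mem {D r : ℕ} (K0 : RGraph D) (H K : RGraph D) (h : BallIso r H.G 0 K.G 0) :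
    H ∈ {H : RGraph D | BallIso r H.G 0 K0.G 0} ↔ K ∈ {H : RGraph D | BallIso r H.G 0 K0.G 0} :=
  ⟨fun h' => h.symm'.trans' h', fun h' => h.trans' h'⟩

theorem nbc_le {D : ℕ} (E : Set (RGraph D)) (H : RGraph D) : nbc E H ≤ D := by
  have h1 : (({k | H.G.Adj 0 k ∧ H.reroot k ∈ E} : Set ℕ).ncard : ℕ∞) ≤ D := by
    rw [(RGb2_fin H _).cast_ncard_eq]
    exact (Set.encard_le_encard fun _ hk => hk.1).trans (H.deg_le 0)
  unfold nbc
  exact_mod_cast h1

lemma RGb2_ne_top {D : ℕ} (E : Set (RGraph D)) (H : RGraph D) : nbc E H ≠ ⊤ :=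
  ne_top_of_le_ne_top (ENNReal.natCast_ne_top D) (nbc_le E H)

lemma RGb2_compl {D : ℕ} (E : Set (RGraph D)) (H : RGraph D) :
    nbc Eᶜ H + nbc E H = nbc Set.univ H := by
  rw [RGb2_count, RGb2_count, RGb2_count, ← measure_union ?_ (MeasurableSet.of_discrete)]
  · congr 1
    ext k
    simp only [Set.mem_union, Set.mem_ofPred_eq, Set.mem_compl_iff, Set.mem_univ, and_true]
    tauto
  · rw [Set.disjoint_left]
    rintro k ⟨-, h1⟩ ⟨-, h2⟩
    exact h1 h2

lemma RGb2_iUnion {D : ℕ} {f : ℕ → Set (RGraph D)} (hf : Pairwise (Function.onFun Disjoint f))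
    (H : RGraph D) : nbc (⋃ i, f i) H = ∑' i, nbc (f i) H := by
  have h1 : ({k | H.G.Adj 0 k ∧ H.reroot k ∈ ⋃ i, f i} : Set ℕ) =
      ⋃ i, {k | H.G.Adj 0 k ∧ H.reroot k ∈ f i} := by
    ext k
    simp only [Set.mem_iUnion, Set.mem_ofPred_eq, exists_and_left]
  rw [RGb2_count, h1, measure_iUnion]
  · exact tsum_congr fun i => (RGb2_count _ _).symm
  · intro i j hij
    change Disjoint _ _
    rw [Set.disjoint_left]
    rintro k ⟨-, h2⟩ ⟨-, h3⟩
    exact Set.disjoint_left.1 (hf hij) h2 h3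
  · exact fun i => MeasurableSet.of_discrete

lemma RGb2_empty {D : ℕ} (H : RGraph D) : nbc (∅ : Set (RGraph D)) H = 0 := by
  rw [RGb2_count]
  simp

lemma RGb2_meas {D r : ℕ} {E : Set (RGraph D)}
    (hE : ∀ H K : RGraph D, BallIso r H.G 0 K.G 0 → (H ∈ E ↔ K ∈ E)) : Measurable (nbc E) := by
  obtain ⟨T, hT⟩ := finite_types D (r + 1)
  have h1 : nbc E = fun H => ∑ K ∈ T, Set.indicator {H : RGraph D | BallIso (r + 1) H.G 0 K.G 0}
      (fun _ => nbc E K) H := by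
    funext H
    exact RGb1_sum (P := fun H K : RGraph D => BallIso (r + 1) H.G 0 K.G 0) (nbc E) (nbc E)
      (fun H K h => RGb2_nbc_cong hE h) hT H
  rw [h1]
  exact Finset.measurable_sum T fun K _ => measurable_const.indicator (measurableSet_cyl _ K)

theorem nbc_measurable {D : ℕ} {E : Set (RGraph D)} (hE : MeasurableSet E) :
    Measurable (nbc E) := by
  have huniv : Measurable (nbc (Set.univ : Set (RGraph D))) :=
    RGb2_meas (r := 0) fun H K _ => by simp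
  refine MeasurableSpace.induction_on_inter (C := fun E _ => Measurable (nbc E)) rfl
    (isPiSystem_cyl D) ?_ ?_ ?_ ?_ E hE
  · have h1 : nbc (∅ : Set (RGraph D)) = fun _ => 0 := funext fun H => RGb2_empty H
    rw [h1]
    exact measurable_const
  · rintro t ⟨r, K, rfl⟩
    exact RGb2_meas (r := r) (RGb2_cyl_mem K)
  · intro t _ ih
    have h1 : nbc tᶜ = fun H => nbc Set.univ H - nbc t H := by
      funext H
      rw [← RGb2_compl t H, ENNReal.add_sub_cancel_right (RGb2_ne_top t H)]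
    rw [h1]
    exact huniv.sub ih
  · intro f hf _ ih
    have h1 : nbc (⋃ i, f i) = fun H => ∑' i, nbc (f i) H := funext fun H => RGb2_iUnion hf H
    rw [h1]
    exact Measurable.tsum ih

lemma RGb2_ncard {α : Type} {s : Set α} (hs : s.Finite) :
    (s.ncard : ℝ≥0∞) = ∑' x, Set.indicator s (fun _ => (1 : ℝ≥0∞)) x := by
  rw [← tsum_subtype s (fun _ => (1 : ℝ≥0∞)), ENNReal.tsum_set_one, ← hs.cast_ncard_eq]
  rfl

/-- mass transport for the pairs of neighbours -/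
lemma RGb2_mtp (S : GenSet Γ) (p : unitInterval) (n : ℕ) {E : Set (Cfg Γ)}
    (hE : MeasurableSet E) :
    ∫⁻ ω, (({k | (og S ω).Adj 1 k ∧ vw k ω ∈ E} : Set Γ).ncard : ℝ≥0∞) ∂(mu S p n) =
      ∫⁻ ω, (({k | (og S ω).Adj 1 k ∧ ω ∈ E} : Set Γ).ncard : ℝ≥0∞) ∂(mu S p n) := by
  have hcount := S.countable
  have hm1 : ∀ x : Γ, MeasurableSet {ω : Cfg Γ | (og S ω).Adj 1 x ∧ vw x ω ∈ E} := fun x =>
    (measurableSet_adj S 1 x).inter (measurable_vw x hE)
  have hm2 : ∀ x : Γ, MeasurableSet {ω : Cfg Γ | (og S ω).Adj 1 x ∧ ω ∈ E} := fun x =>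
    (measurableSet_adj S 1 x).inter hE
  set F : Γ → Cfg Γ → ℝ≥0∞ := fun x =>
    Set.indicator {ω : Cfg Γ | (og S ω).Adj 1 x ∧ vw x ω ∈ E} (fun _ => 1) with hF
  have hFm : ∀ x, Measurable (F x) := fun x => measurable_const.indicator (hm1 x)
  have h1 : ∀ ω, (({k | (og S ω).Adj 1 k ∧ vw k ω ∈ E} : Set Γ).ncard : ℝ≥0∞) = ∑' x, F x ω := by
    intro ω
    rw [RGb2_ncard (RGb2_finC S ω _)]
    exact tsum_congr fun x => rfl
  have h2 : ∀ ω, (({k | (og S ω).Adj 1 k ∧ ω ∈ E} : Set Γ).ncard : ℝ≥0∞) =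
      ∑' x, Set.indicator {ω : Cfg Γ | (og S ω).Adj 1 x ∧ ω ∈ E} (fun _ => 1) ω := by
    intro ω
    rw [RGb2_ncard (RGb2_finC S ω _)]
    exact tsum_congr fun x => rfl
  have h3 : ∀ x, ∫⁻ ω, F x ω ∂(mu S p n) =
      ∫⁻ ω in {ω | (og S ω).Reachable 1 x}, F x ω ∂(mu S p n) := by
    intro x
    rw [← lintegral_indicator (measurableSet_reach S 1 x)]
    refine lintegral_congr fun ω => ?_
    by_cases h : (og S ω).Reachable 1 x
    · rw [Set.indicator_of_mem (show ω ∈ {ω | (og S ω).Reachable 1 x} from h)]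
    · rw [Set.indicator_of_notMem (show ω ∉ {ω | (og S ω).Reachable 1 x} from h)]
      refine Set.indicator_of_notMem ?_ _
      intro h'
      exact h h'.1.reachable
  have h4 : ∀ x, ∫⁻ ω, Set.indicator {ω : Cfg Γ | (og S ω).Adj 1 x ∧ ω ∈ E} (fun _ => 1) ω
        ∂(mu S p n) =
      ∫⁻ ω in {ω | (og S ω).Reachable 1 x}, F x⁻¹ (vw x ω) ∂(mu S p n) := by
    intro x
    rw [← lintegral_indicator (measurableSet_reach S 1 x)]
    refine lintegral_congr fun ω => ?_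
    have e1 : F x⁻¹ (vw x ω) =
        Set.indicator {ω : Cfg Γ | (og S ω).Adj 1 x ∧ ω ∈ E} (fun _ => 1) ω := by
      have e2 : (og S (vw x ω)).Adj 1 x⁻¹ ↔ (og S ω).Adj 1 x := by
        rw [og_vw_adj, mul_one, mul_inv_cancel]
        exact (og S ω).adj_comm _ _
      have e3 : vw x⁻¹ (vw x ω) = ω := by
        rw [vw_vw, mul_inv_cancel, vw_one]
      change Set.indicator _ _ _ = _
      by_cases h : (og S ω).Adj 1 x ∧ ω ∈ E
      · have h' : vw x ω ∈ {ω : Cfg Γ | (og S ω).Adj 1 x⁻¹ ∧ vw x⁻¹ ω ∈ E} := by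
          refine ⟨e2.2 h.1, ?_⟩
          rw [e3]
          exact h.2
        rw [Set.indicator_of_mem h',
          Set.indicator_of_mem (show ω ∈ {ω : Cfg Γ | (og S ω).Adj 1 x ∧ ω ∈ E} from h)]
      · have h' : vw x ω ∉ {ω : Cfg Γ | (og S ω).Adj 1 x⁻¹ ∧ vw x⁻¹ ω ∈ E} := by
          rintro ⟨h1, h2⟩
          rw [e3] at h2
          exact h ⟨e2.1 h1, h2⟩
        rw [Set.indicator_of_notMem h',
          Set.indicator_of_notMem (show ω ∉ {ω : Cfg Γ | (og S ω).Adj 1 x ∧ ω ∈ E} from h)]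
    by_cases h : (og S ω).Reachable 1 x
    · rw [Set.indicator_of_mem (show ω ∈ {ω | (og S ω).Reachable 1 x} from h), e1]
    · rw [Set.indicator_of_notMem (show ω ∉ {ω | (og S ω).Reachable 1 x} from h)]
      refine Set.indicator_of_notMem ?_ _
      intro h'
      exact h h'.1.reachable
  simp only [h1, h2]
  rw [lintegral_tsum fun x => (hFm x).aemeasurable,
    lintegral_tsum fun x => (measurable_const.indicator (hm2 x)).aemeasurable,
    tsum_congr h3, tsum_congr h4]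
  exact mtp_mu S p n F hFm

lemma RGb2_cyl (S : GenSet Γ) (p : unitInterval) (U : Ultrafilter ℕ)
    (A : Measure (RGraph S.S.card)) (hA : LimAlong S p U A) (r : ℕ) (K0 : RGraph S.S.card) :
    ∫⁻ H, nbc {H : RGraph S.S.card | BallIso r H.G 0 K0.G 0} H ∂A =
      ∫⁻ H in {H : RGraph S.S.card | BallIso r H.G 0 K0.G 0}, nbc Set.univ H ∂A := by
  set E : Set (RGraph S.S.card) := {H : RGraph S.S.card | BallIso r H.G 0 K0.G 0} with hE
  set EC : Set (Cfg Γ) := {ω | BallIso r (og S ω) 1 K0.G 0} with hEC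
  have hEm : MeasurableSet E := measurableSet_cyl r K0
  have hECm : MeasurableSet EC := (ballIso_isLoc S r K0.G 0).meas
  have hEK : ∀ H K : RGraph S.S.card, BallIso (r + 1) H.G 0 K.G 0 → (H ∈ E ↔ K ∈ E) :=
    fun H K h => RGb2_cyl_mem K0 H K (h.mono' (Nat.le_succ r))
  have hEK' : ∀ (ω : Cfg Γ) (K : RGraph S.S.card), BallIso (r + 1) (og S ω) 1 K.G 0 →
      (ω ∈ EC ↔ K ∈ E) := fun ω K h =>
    ⟨fun h' => (h.mono' (Nat.le_succ r)).symm'.trans' h',
      fun h' => (h.mono' (Nat.le_succ r)).trans' h'⟩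
  have l1 : Tendsto (fun n => ∫⁻ ω, (({k | (og S ω).Adj 1 k ∧ vw k ω ∈ EC} : Set Γ).ncard : ℝ≥0∞)
      ∂(mu S p n)) (U : Filter ℕ) (𝓝 (∫⁻ H, nbc E H ∂A)) := by
    refine rg_lim S p U A hA (r + 1) (nbc E) _ (fun H K h => RGb2_nbc_cong (RGb2_cyl_mem K0) h)
      ?_ (RGb2_ne_top E)
    intro ω K h
    obtain ⟨σ, hσ⟩ := h.nbr
    unfold nbc
    rw [RGb2_cong σ (fun k => vw k ω ∈ EC) (fun k => K.reroot k ∈ E)]
    intro k
    change BallIso r (og S (vw _ ω)) 1 K0.G 0 ↔ BallIso r (K.reroot _).G 0 K0.G 0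
    rw [ballIso_vw, ballIso_reroot, mul_one]
    exact ⟨fun h' => (hσ k).symm'.trans' h', fun h' => (hσ k).trans' h'⟩
  have l2 : Tendsto (fun n => ∫⁻ ω, (({k | (og S ω).Adj 1 k ∧ ω ∈ EC} : Set Γ).ncard : ℝ≥0∞)
      ∂(mu S p n)) (U : Filter ℕ) (𝓝 (∫⁻ H in E, nbc Set.univ H ∂A)) := by
    have e0 : ∀ H : RGraph S.S.card, Set.indicator E (nbc Set.univ) H =
        (({k | H.G.Adj 0 k ∧ H ∈ E} : Set ℕ).ncard : ℝ≥0∞) := by
      intro H
      by_cases h : H ∈ E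
      · rw [Set.indicator_of_mem h]
        unfold nbc
        simp only [Set.mem_univ, h]
      · rw [Set.indicator_of_notMem h]
        simp only [h, and_false, Set.ofPred_false, Set.ncard_empty, Nat.cast_zero]
    rw [← lintegral_indicator hEm]
    simp only [e0]
    refine rg_lim S p U A hA (r + 1) _ _ ?_ ?_ ?_
    · intro H K h
      obtain ⟨σ, hσ⟩ := h.nbr
      rw [RGb2_cong σ (fun k => H ∈ E) (fun k => K ∈ E) fun k => hEK H K h]
    · intro ω K h
      obtain ⟨σ, hσ⟩ := h.nbr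
      rw [RGb2_cong σ (fun k => ω ∈ EC) (fun k => K ∈ E) fun k => hEK' ω K h]
    · intro K
      exact ENNReal.natCast_ne_top _
  have e : ∀ n, ∫⁻ ω, (({k | (og S ω).Adj 1 k ∧ vw k ω ∈ EC} : Set Γ).ncard : ℝ≥0∞) ∂(mu S p n) =
      ∫⁻ ω, (({k | (og S ω).Adj 1 k ∧ ω ∈ EC} : Set Γ).ncard : ℝ≥0∞) ∂(mu S p n) :=
    fun n => RGb2_mtp S p n hECm
  simp only [e] at l1
  exact tendsto_nhds_unique l1 l2

/-- unimodularity (only neighbours) -/
theorem rg_uni (S : GenSet Γ) (p : unitInterval) (U : Ultrafilter ℕ)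
    (A : Measure (RGraph S.S.card)) [IsProbabilityMeasure A] (hA : LimAlong S p U A)
    {E : Set (RGraph S.S.card)} (hE : MeasurableSet E) :
    ∫⁻ H, nbc E H ∂A = ∫⁻ H in E, nbc Set.univ H ∂A := by
  have hfin : ∀ t : Set (RGraph S.S.card), ∫⁻ H, nbc t H ∂A ≠ ⊤ := by
    intro t
    refine ne_top_of_le_ne_top (ENNReal.natCast_ne_top S.S.card) ?_
    calc ∫⁻ H, nbc t H ∂A ≤ ∫⁻ _, (S.S.card : ℝ≥0∞) ∂A := lintegral_mono fun H => nbc_le t H
      _ = S.S.card := by simp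
  refine MeasurableSpace.induction_on_inter
    (C := fun E _ => ∫⁻ H, nbc E H ∂A = ∫⁻ H in E, nbc Set.univ H ∂A) rfl
    (isPiSystem_cyl S.S.card) ?_ ?_ ?_ ?_ E hE
  · simp only [RGb2_empty, lintegral_zero, Measure.restrict_empty, lintegral_zero_measure]
  · rintro t ⟨r, K, rfl⟩
    exact RGb2_cyl S p U A hA r K
  · intro t ht ih
    have h1 : ∫⁻ H, nbc tᶜ H ∂A + ∫⁻ H, nbc t H ∂A = ∫⁻ H, nbc Set.univ H ∂A := by
      rw [← lintegral_add_left (nbc_measurable ht.compl)]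
      exact lintegral_congr fun H => RGb2_compl t H
    have h2 : ∫⁻ H in tᶜ, nbc Set.univ H ∂A + ∫⁻ H in t, nbc Set.univ H ∂A =
        ∫⁻ H, nbc Set.univ H ∂A := by
      rw [add_comm]
      exact lintegral_add_compl _ ht
    rw [← ih, ← h1] at h2
    exact ((ENNReal.add_left_inj (hfin t)).1 h2).symm
  · intro f hf hfm ih
    rw [lintegral_iUnion hfm hf]
    simp only [RGb2_iUnion hf]
    rw [lintegral_tsum fun i => (nbc_measurable (hfm i)).aemeasurable]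
    exact tsum_congr ih

end IICErg
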