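import Pool.Agent.Lib.MP_4c698b_pr.SDefs
import Pool.Agent.Lib.MP_4c698b_pr.BasicA
import Pool.Agent.Lib.MP_4c698b_pr.BasicB
import Pool.Agent.Lib.MP_4c698b_pr.MTP
import Pool.Agent.Lib.MP_4c698b_pr.RGa1
import Pool.Agent.Lib.MP_4c698b_pr.RGa2
import Pool.Agent.Lib.MP_4c698b_pr.RGb1
import Pool.Agent.Lib.MP_4c698b_pr.RGb2

/-!
# MP_4c698b_pr, module RGc: approximation of invariant events by local events
-/

open MeasureTheory Filter Topology
open scoped ENNReal Pointwise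

namespace IICErg

variable {Γ : Type} [Group Γ]

/-- the event depends only on the ball of radius `r` about the root -/
def RGcLoc {D : ℕ} (r : ℕ) (L : Set (RGraph D)) : Prop :=
  ∀ H K : RGraph D, BallIso r H.G 0 K.G 0 → (H ∈ L ↔ K ∈ L)

theorem RGcLoc.mono {D : ℕ} {r r' : ℕ} (hr : r ≤ r') {L : Set (RGraph D)} (h : RGcLoc r L) :
    RGcLoc r' L := fun H K hHK => h H K (hHK.mono' hr)

theorem RGcLoc.meas {D : ℕ} {r : ℕ} {L : Set (RGraph D)} (h : RGcLoc r L) : MeasurableSet L := by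
  obtain ⟨T, hT⟩ := finite_types D r
  have e : L = ⋃ K ∈ (T : Set (RGraph D)) ∩ L, {H : RGraph D | BallIso r H.G 0 K.G 0} := by
    ext H
    simp only [Set.mem_iUnion, Set.mem_inter_iff, Finset.mem_coe, exists_prop]
    constructor
    · intro hH
      obtain ⟨K, ⟨hK, hHK⟩, -⟩ := hT H
      exact ⟨K, ⟨hK, (h H K hHK).1 hH⟩, hHK⟩
    · rintro ⟨K, ⟨-, hK⟩, hHK⟩
      exact (h H K hHK).2 hK
  rw [e]
  refine Set.Finite.measurableSet_biUnion ((T.finite_toSet).inter_of_left _) ?_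
  intro K _
  exact measurableSet_cyl r K

theorem RGc_algebra (D : ℕ) : IsSetAlgebra {L : Set (RGraph D) | ∃ r, RGcLoc r L} where
  empty_mem := ⟨0, fun _ _ _ => Iff.rfl⟩
  compl_mem := by
    rintro s ⟨r, hr⟩
    exact ⟨r, fun H K h => not_congr (hr H K h)⟩
  union_mem := by
    rintro s t ⟨r, hr⟩ ⟨r', hr'⟩
    refine ⟨max r r', fun H K h => or_congr (hr.mono (le_max_left _ _) H K h)
      (hr'.mono (le_max_right _ _) H K h)⟩

theorem RGc_generate (D : ℕ) : (inferInstance : MeasurableSpace (RGraph D)) =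
    MeasurableSpace.generateFrom {L : Set (RGraph D) | ∃ r, RGcLoc r L} := by
  apply le_antisymm
  · apply MeasurableSpace.generateFrom_le
    rintro s ⟨r, K, rfl⟩
    apply MeasurableSpace.measurableSet_generateFrom
    refine ⟨r, fun H H' h => ⟨fun h1 => h.symm'.trans' h1, fun h1 => h.trans' h1⟩⟩
  · apply MeasurableSpace.generateFrom_le
    rintro s ⟨r, hr⟩
    exact hr.meas

theorem RGc_approx {D : ℕ} (A : Measure (RGraph D)) [IsProbabilityMeasure A]
    {E : Set (RGraph D)} (hE : MeasurableSet E) {ε : ℝ} (hε : 0 < ε) :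
    ∃ (r : ℕ) (L : Set (RGraph D)), RGcLoc r L ∧ A (symmDiff L E) < ENNReal.ofReal ε := by
  obtain ⟨L, ⟨r, hr⟩, hL⟩ :=
    (Measure.MeasureDense.of_generateFrom_isSetAlgebra_finite (μ := A) (RGc_algebra D)
      (RGc_generate D)).approx E hE (measure_ne_top _ _) ε hε
  exact ⟨r, L, hr, by rwa [symmDiff_comm]⟩

/-- the corresponding event for configurations -/
def RGcf (S : GenSet Γ) (r : ℕ) (L : Set (RGraph S.S.card)) : Set (Cfg Γ) :=
  {ω | ∃ K ∈ L, BallIso r (og S ω) 1 K.G 0}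

theorem RGcf_iff {S : GenSet Γ} {r : ℕ} {L : Set (RGraph S.S.card)} (hL : RGcLoc r L)
    {ω : Cfg Γ} {K : RGraph S.S.card} (h : BallIso r (og S ω) 1 K.G 0) :
    ω ∈ RGcf S r L ↔ K ∈ L := by
  constructor
  · rintro ⟨K', hK', h'⟩
    exact (hL K' K (h'.symm'.trans' h)).1 hK'
  · intro hK
    exact ⟨K, hK, h⟩

theorem RGcf_isLoc (S : GenSet Γ) (r : ℕ) (L : Set (RGraph S.S.card)) :
    IsLoc S r (RGcf S r L) := by
  intro ω ω' H
  constructor
  · rintro ⟨K, hK, h⟩
    exact ⟨K, hK, (ballIso_isLoc S r K.G 0 ω ω' H).1 h⟩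
  · rintro ⟨K, hK, h⟩
    exact ⟨K, hK, (ballIso_isLoc S r K.G 0 ω ω' H).2 h⟩

theorem RGc_exists (S : GenSet Γ) (ω : Cfg Γ) :
    ∃ K : RGraph S.S.card, ∀ r, BallIso r (og S ω) 1 K.G 0 := by
  obtain ⟨K, j, hj, hK⟩ := exists_rep S ω
  refine ⟨K, fun r => ?_⟩
  rw [hK, ← hj]
  exact ballIso_map r (og S ω) j 1

/-- limit of local events -/
theorem RGc_lim (S : GenSet Γ) (p : unitInterval) (U : Ultrafilter ℕ)
    (A : Measure (RGraph S.S.card)) (hA : LimAlong S p U A) (r : ℕ)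
    {L : Set (RGraph S.S.card)} (hL : RGcLoc r L) (f : Set (Cfg Γ)) (hf : MeasurableSet f)
    (hfL : ∀ (ω : Cfg Γ) (K : RGraph S.S.card), BallIso r (og S ω) 1 K.G 0 → (ω ∈ f ↔ K ∈ L)) :
    Tendsto (fun n => mu S p n f) (U : Filter ℕ) (𝓝 (A L)) := by
  have h := rg_lim S p U A hA r (L.indicator 1) (f.indicator 1) (fun H K hHK => by
      by_cases hH : H ∈ L
      · rw [Set.indicator_of_mem hH, Set.indicator_of_mem ((hL H K hHK).1 hH)]; rfl
      · rw [Set.indicator_of_notMem hH, Set.indicator_of_notMem fun h => hH ((hL H K hHK).2 h)])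
    (fun ω K h => by
      by_cases hH : ω ∈ f
      · rw [Set.indicator_of_mem hH, Set.indicator_of_mem ((hfL ω K h).1 hH)]; rfl
      · rw [Set.indicator_of_notMem hH, Set.indicator_of_notMem fun h' => hH ((hfL ω K h).2 h')])
    (fun K => by
      by_cases hK : K ∈ L <;> simp [hK])
  simpa only [lintegral_indicator_one hf, lintegral_indicator_one hL.meas] using h

/-- number of neighbours at which membership in `L` changes -/
noncomputable def RGcb {D : ℕ} (L : Set (RGraph D)) (H : RGraph D) : ℝ≥0∞ :=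
  (({k | H.G.Adj 0 k ∧ ¬ (H.reroot k ∈ L ↔ H ∈ L)} : Set ℕ).ncard : ℝ≥0∞)

theorem RGcb_local {D : ℕ} {r : ℕ} {L : Set (RGraph D)} (hL : RGcLoc r L) (H K : RGraph D)
    (h : BallIso (r + 1) H.G 0 K.G 0) : RGcb L H = RGcb L K := by
  obtain ⟨σ, hσ⟩ := h.nbr
  have h0 : H ∈ L ↔ K ∈ L := hL H K (h.mono' (Nat.le_succ r))
  have h1 : ∀ k : H.G.neighborSet 0, H.reroot k ∈ L ↔ K.reroot (σ k) ∈ L := by
    intro k
    apply hL
    rw [ballIso_reroot]
    apply BallIso.symm'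
    rw [ballIso_reroot]
    exact (hσ k).symm'
  unfold RGcb
  congr 1
  rw [← Nat.card_coe_set_eq, ← Nat.card_coe_set_eq]
  apply Nat.card_congr
  refine ⟨fun x => ⟨σ ⟨x.1, x.2.1⟩, (σ ⟨x.1, x.2.1⟩).2, ?_⟩,
    fun y => ⟨σ.symm ⟨y.1, y.2.1⟩, (σ.symm ⟨y.1, y.2.1⟩).2, ?_⟩, ?_, ?_⟩
  · rw [← h1, ← h0]
    exact x.2.2
  · rw [h1, h0]
    simpa using y.2.2
  · intro x
    have h9 := congrArg Subtype.val (σ.symm_apply_apply ⟨x.1, x.2.1⟩)
    exact Subtype.ext h9
  · intro y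
    have h9 := congrArg Subtype.val (σ.apply_symm_apply ⟨y.1, y.2.1⟩)
    exact Subtype.ext h9

theorem RGcb_bdry {S : GenSet Γ} {r : ℕ} {L : Set (RGraph S.S.card)} (hL : RGcLoc r L)
    (ω : Cfg Γ) (K : RGraph S.S.card) (h : BallIso (r + 1) (og S ω) 1 K.G 0) :
    (bdry S (RGcf S r L) ω : ℝ≥0∞) = RGcb L K := by
  classical
  obtain ⟨σ, hσ⟩ := h.nbr
  have h0 : ω ∈ RGcf S r L ↔ K ∈ L := RGcf_iff hL (h.mono' (Nat.le_succ r))
  have h1 : ∀ k : (og S ω).neighborSet 1, vw (k : Γ) ω ∈ RGcf S r L ↔ K.reroot (σ k) ∈ L := by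
    intro k
    apply RGcf_iff hL
    rw [ballIso_vw, mul_one]
    apply BallIso.symm'
    rw [ballIso_reroot]
    exact (hσ k).symm'
  unfold RGcb bdry
  congr 1
  rw [← Nat.card_coe_set_eq, ← Set.ncard_coe_finset, ← Nat.card_coe_set_eq]
  apply Nat.card_congr
  have hmem : ∀ s : Γ, s ∈ ((S.S.filter (fun s => (og S ω).Adj 1 s ∧
      ¬ (vw s ω ∈ RGcf S r L ↔ ω ∈ RGcf S r L)) : Finset Γ) : Set Γ) ↔
      (og S ω).Adj 1 s ∧ ¬ (vw s ω ∈ RGcf S r L ↔ ω ∈ RGcf S r L) := by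
    intro s
    simp only [Finset.coe_filter, Set.mem_ofPred_eq]
    refine ⟨fun h => h.2, fun h => ⟨?_, h⟩⟩
    have := h.1.1
    simpa [GenSet.cay] using this
  refine ⟨fun x => ⟨σ ⟨x.1, ((hmem _).1 x.2).1⟩, (σ ⟨x.1, ((hmem _).1 x.2).1⟩).2, ?_⟩,
    fun y => ⟨σ.symm ⟨y.1, y.2.1⟩, (hmem _).2 ⟨(σ.symm ⟨y.1, y.2.1⟩).2, ?_⟩⟩, ?_, ?_⟩
  · rw [← h1, ← h0]
    exact ((hmem _).1 x.2).2
  · rw [h1, h0]
    simpa using y.2.2
  · intro x
    have h9 := congrArg Subtype.val (σ.symm_apply_apply ⟨x.1, ((hmem _).1 x.2).1⟩)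
    exact Subtype.ext h9
  · intro y
    have h9 := congrArg Subtype.val (σ.apply_symm_apply ⟨y.1, y.2.1⟩)
    exact Subtype.ext h9

theorem RGcb_le {D : ℕ} {E L : Set (RGraph D)} (hinv : BasepointInv E) (H : RGraph D) :
    RGcb L H ≤ nbc (symmDiff L E) H + (symmDiff L E).indicator (nbc Set.univ) H := by
  have hfin : (H.G.neighborSet 0).Finite := by
    have := H.deg_le 0
    exact Set.finite_of_encard_le_coe this
  by_cases hH : H ∈ symmDiff L E
  · rw [Set.indicator_of_mem hH]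
    refine le_trans ?_ le_add_self
    unfold RGcb nbc
    norm_cast
    apply Set.ncard_le_ncard
    · intro k hk
      exact ⟨hk.1, Set.mem_univ _⟩
    · exact hfin.subset fun k hk => hk.1
  · refine le_trans ?_ le_self_add
    unfold RGcb nbc
    norm_cast
    apply Set.ncard_le_ncard
    · rintro k ⟨hk, hk'⟩
      refine ⟨hk, ?_⟩
      have hinv1 : H.reroot k ∈ E ↔ H ∈ E := by
        constructor
        · intro h
          have := hinv _ h k (reroot_reach H k hk.reachable)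
          rwa [reroot_reroot] at this
        · intro h
          exact hinv _ h k hk.reachable
      have hLE : H ∈ L ↔ H ∈ E := by
        rw [Set.mem_symmDiff] at hH
        tauto
      rw [Set.mem_symmDiff]
      tauto
    · exact hfin.subset fun k hk => hk.1

theorem RGcb_integral (S : GenSet Γ) (p : unitInterval) (U : Ultrafilter ℕ)
    (A : Measure (RGraph S.S.card)) [IsProbabilityMeasure A] (hA : LimAlong S p U A)
    {E L : Set (RGraph S.S.card)} (hE : MeasurableSet E) (hinv : BasepointInv E)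
    (hL : MeasurableSet L) :
    ∫⁻ H, RGcb L H ∂A ≤ 2 * S.S.card * A (symmDiff L E) := by
  have hF : MeasurableSet (symmDiff L E) := hL.symmDiff hE
  have h1 : ∫⁻ H in symmDiff L E, nbc Set.univ H ∂A ≤ S.S.card * A (symmDiff L E) := by
    calc ∫⁻ H in symmDiff L E, nbc Set.univ H ∂A
        ≤ ∫⁻ H in symmDiff L E, (S.S.card : ℝ≥0∞) ∂A := lintegral_mono fun H => nbc_le _ H
      _ = S.S.card * A (symmDiff L E) := by rw [setLIntegral_const]
  calc ∫⁻ H, RGcb L H ∂A
      ≤ ∫⁻ H, (nbc (symmDiff L E) H + (symmDiff L E).indicator (nbc Set.univ) H) ∂A :=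
        lintegral_mono fun H => RGcb_le hinv H
    _ = ∫⁻ H, nbc (symmDiff L E) H ∂A + ∫⁻ H in symmDiff L E, nbc Set.univ H ∂A := by
        rw [lintegral_add_left (nbc_measurable hF), lintegral_indicator hF]
    _ ≤ S.S.card * A (symmDiff L E) + S.S.card * A (symmDiff L E) := by
        rw [rg_uni S p U A hA hF]
        exact add_le_add h1 h1
    _ = 2 * S.S.card * A (symmDiff L E) := by ring

theorem rg_output (S : GenSet Γ) (p : unitInterval) (U : Ultrafilter ℕ)
    (A : Measure (RGraph S.S.card)) [IsProbabilityMeasure A] (hA : LimAlong S p U A)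
    (E : Set (RGraph S.S.card)) (hE : MeasurableSet E) (hinv : BasepointInv E) :
    ∃ (f : ℕ → Set (Cfg Γ)) (r : ℕ → ℕ) (e : ℕ → ℝ≥0∞), Tendsto e atTop (𝓝 0) ∧
      (∀ i, IsLoc S (r i) (f i)) ∧
      (∀ i, ∀ᶠ n in (U : Filter ℕ), mu S p n (f i) ≤ A E + e i) ∧
      (∀ i, ∀ᶠ n in (U : Filter ℕ), A E ≤ mu S p n (f i) + e i) ∧
      (∀ i, ∀ᶠ n in (U : Filter ℕ), ∫⁻ ω, (bdry S (f i) ω : ℝ≥0∞) ∂(mu S p n) ≤ e i) ∧
      (∀ i j, ∀ᶠ n in (U : Filter ℕ), mu S p n (symmDiff (f i) (f j)) ≤ e i + e j) := by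
  have hpos : ∀ i : ℕ, (0 : ℝ) < (1 / 2) ^ i := fun i => by positivity
  choose r L hL hLE using fun i : ℕ => RGc_approx A hE (hpos i)
  set δ : ℕ → ℝ≥0∞ := fun i => ENNReal.ofReal ((1 / 2) ^ i) with hδ
  have hδ0 : ∀ i, δ i ≠ 0 := fun i => by simp [hδ]
  have hδt : ∀ i, δ i ≠ ⊤ := fun i => ENNReal.ofReal_ne_top
  have hLE' : ∀ i, A (symmDiff (L i) E) < δ i := hLE
  have hAt : ∀ s, A s ≠ ⊤ := fun s => measure_ne_top A s
  set e : ℕ → ℝ≥0∞ := fun i => (2 * S.S.card + 1) * δ i with he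
  have hδe : ∀ i, δ i ≤ e i := by
    intro i
    show δ i ≤ (2 * S.S.card + 1) * δ i
    calc δ i = 1 * δ i := (one_mul _).symm
      _ ≤ _ := by gcongr; exact le_add_self
  have hE1 : ∀ i, A (L i) < A E + e i := by
    intro i
    have h1 : A (L i) ≤ A E + A (symmDiff (L i) E) := by
      refine le_trans (measure_mono ?_) (measure_union_le _ _)
      intro H hH
      by_cases h : H ∈ E
      · exact Or.inl h
      · exact Or.inr (Or.inl ⟨hH, h⟩)
    exact lt_of_le_of_lt h1 (ENNReal.add_lt_add_left (hAt _) ((hLE' i).trans_le (hδe i)))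
  have hE2 : ∀ i, A E < A (L i) + e i := by
    intro i
    have h1 : A E ≤ A (L i) + A (symmDiff (L i) E) := by
      refine le_trans (measure_mono ?_) (measure_union_le _ _)
      intro H hH
      by_cases h : H ∈ L i
      · exact Or.inl h
      · exact Or.inr (Or.inr ⟨hH, h⟩)
    exact lt_of_le_of_lt h1 (ENNReal.add_lt_add_left (hAt _) ((hLE' i).trans_le (hδe i)))
  have hlim : ∀ i, Tendsto (fun n => mu S p n (RGcf S (r i) (L i))) (U : Filter ℕ)
      (𝓝 (A (L i))) := fun i =>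
    RGc_lim S p U A hA (r i) (hL i) _ (RGcf_isLoc S (r i) (L i)).meas
      (fun ω K h => RGcf_iff (hL i) h)
  refine ⟨fun i => RGcf S (r i) (L i), r, e, ?_, fun i => RGcf_isLoc S (r i) (L i), ?_, ?_, ?_, ?_⟩
  · have h1 : Tendsto δ atTop (𝓝 0) := by
      rw [hδ, ← ENNReal.ofReal_zero]
      apply ENNReal.tendsto_ofReal
      exact tendsto_pow_atTop_nhds_zero_of_lt_one (by norm_num) (by norm_num)
    have h2 : Tendsto (fun i => (2 * (S.S.card : ℝ≥0∞) + 1) * δ i) atTop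
        (𝓝 ((2 * (S.S.card : ℝ≥0∞) + 1) * 0)) := by
      apply ENNReal.Tendsto.const_mul h1
      right
      exact ENNReal.add_ne_top.2 ⟨ENNReal.mul_ne_top (by simp) (by simp), by simp⟩
    simpa using h2
  · intro i
    filter_upwards [(hlim i).eventually_lt_const (hE1 i)] with n hn
    exact hn.le
  · intro i
    have h1 : Tendsto (fun n => mu S p n (RGcf S (r i) (L i)) + e i) (U : Filter ℕ)
        (𝓝 (A (L i) + e i)) := (hlim i).add_const _
    filter_upwards [h1.eventually_const_lt (hE2 i)] with n hn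
    exact hn.le
  · intro i
    have h1 := rg_lim S p U A hA (r i + 1) (RGcb (L i))
      (fun ω => (bdry S (RGcf S (r i) (L i)) ω : ℝ≥0∞)) (RGcb_local (hL i))
      (fun ω K h => RGcb_bdry (hL i) ω K h) (fun K => by unfold RGcb; simp)
    have h2 : ∫⁻ H, RGcb (L i) H ∂A < e i := by
      refine lt_of_le_of_lt (RGcb_integral S p U A hA hE hinv (hL i).meas) ?_
      calc 2 * (S.S.card : ℝ≥0∞) * A (symmDiff (L i) E)
          ≤ 2 * (S.S.card : ℝ≥0∞) * δ i := by gcongr; exact (hLE' i).le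
        _ < 2 * (S.S.card : ℝ≥0∞) * δ i + δ i :=
            ENNReal.lt_add_right (ENNReal.mul_ne_top (ENNReal.mul_ne_top (by simp) (by simp))
              (hδt i)) (hδ0 i)
        _ = e i := by rw [he]; ring
    filter_upwards [h1.eventually_lt_const h2] with n hn
    exact hn.le
  · intro i j
    have hloc : RGcLoc (max (r i) (r j)) (symmDiff (L i) (L j)) := by
      intro H K h
      have h1 := (hL i).mono (le_max_left _ (r j)) H K h
      have h2 := (hL j).mono (le_max_right (r i) _) H K h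
      rw [Set.mem_symmDiff, Set.mem_symmDiff, h1, h2]
    have h1 := RGc_lim S p U A hA (max (r i) (r j)) hloc
      (symmDiff (RGcf S (r i) (L i)) (RGcf S (r j) (L j)))
      ((RGcf_isLoc S (r i) (L i)).meas.symmDiff (RGcf_isLoc S (r j) (L j)).meas)
      (fun ω K h => by
        have h1 := RGcf_iff (hL i) (h.mono' (le_max_left _ (r j)))
        have h2 := RGcf_iff (hL j) (h.mono' (le_max_right (r i) _))
        rw [Set.mem_symmDiff, Set.mem_symmDiff, h1, h2])
    have h2 : A (symmDiff (L i) (L j)) < e i + e j := by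
      have h3 : A (symmDiff (L i) (L j)) ≤ A (symmDiff (L i) E) + A (symmDiff (L j) E) := by
        rw [symmDiff_comm (L j) E]
        exact measure_symmDiff_le _ _ _
      refine lt_of_le_of_lt h3 ?_
      exact ENNReal.add_lt_add ((hLE' i).trans_le (hδe i)) ((hLE' j).trans_le (hδe j))
    filter_upwards [h1.eventually_lt_const h2] with n hn
    exact hn.le

end IICErg
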