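import Pool.Agent.Lib.MP_4c698b_pr.Core
import Pool.Agent.Lib.MP_4c698b_pr.RGc
import Pool.Agent.Lib.MP_4c698b_pr.Main0
import Pool.Agent.Lib.MP_4c698b_pr.Crit

/-!
# Ergodicity of the incipient infinite cluster (problem MP_4c698b_pr): the main theorem
-/

open MeasureTheory Filter Topology
open scoped ENNReal Pointwise

namespace IICErg

variable {Γ : Type} [Group Γ]

/-- If the critical two-point operator is bounded on `ℓ²`, then every IIC is ergodic. -/
theorem iic_ergodic (S : GenSet Γ) (hL2 : L2Bounded S (pc S)) (A : Measure (RGraph S.S.card))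
    (hA : IsIIC S A) : Ergodic A := by
  obtain ⟨hp0, hp1, hfin, hθ, U, hU, hlim⟩ := iic_basic S A hA
  haveI := hA.1
  intro E hE hinv
  obtain ⟨f, r, e, he, hloc, ha1, ha2, hb, hc⟩ := rg_output S (pc S) U A hlim E hE hinv
  rcases core S (pc S) hp0 hp1 hfin hθ hL2 (chi_top S hp1) U hU (A E) f r e he hloc ha1 ha2 hb hc
    with h | h
  · exact Or.inl h
  · exact Or.inr (le_antisymm prob_le_one h)

end IICErg
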