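import Pool.Agent.Lib.MP_4c698b_pr.ODefs

/-!
# MP_4c698b_pr, module O2: edge expansion from the norm of the adjacency operator
-/

open MeasureTheory Filter Topology
open scoped ENNReal NNReal Pointwise

namespace IICErg

variable {Γ : Type} [Group Γ]

section O2

theorem eb_ge (S : GenSet Γ) (a : ℝ≥0) (ha : AdjNormLe S a) (K : Finset Γ) :
    ((S.S.card : ℝ) - a) * K.card ≤ eb S K := by
  classical
  set N : Γ → ℕ := fun x => (S.S.filter (fun s => x * s ∈ K)).card with hN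
  -- the norm bound applied to the indicator of `K`
  have h1 := ha (fun y => if y ∈ K then 1 else 0)
  have h2 : ∀ x : Γ, (∑ s ∈ S.S, (if x * s ∈ K then (1 : ℝ≥0∞) else 0)) = (N x : ℝ≥0∞) := by
    intro x
    rw [Finset.sum_ite, Finset.sum_const, Finset.sum_const_zero, add_zero, nsmul_eq_mul, mul_one]
  have h3 : ∑' x : Γ, (if x ∈ K then (1 : ℝ≥0∞) else 0) ^ 2 = (K.card : ℝ≥0∞) := by
    rw [tsum_eq_sum (s := K)]
    · rw [Finset.sum_congr rfl (g := fun _ => (1 : ℝ≥0∞))]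
      · simp
      · intro x hx; rw [if_pos hx, one_pow]
    · intro x hx; rw [if_neg hx]; simp
  simp only [h2] at h1
  rw [h3] at h1
  have h4 : ((∑ x ∈ K, (N x) ^ 2 : ℕ) : ℝ≥0∞) ≤ ((a ^ 2 * K.card : ℝ≥0) : ℝ≥0∞) := by
    push_cast
    exact (ENNReal.sum_le_tsum K).trans h1
  have h5 : (∑ x ∈ K, (N x : ℝ) ^ 2) ≤ (a : ℝ) ^ 2 * K.card := by
    have h6 : ((∑ x ∈ K, (N x) ^ 2 : ℕ) : ℝ≥0) ≤ a ^ 2 * K.card := by exact_mod_cast h4
    have h7 : (((∑ x ∈ K, (N x) ^ 2 : ℕ) : ℝ≥0) : ℝ) ≤ ((a ^ 2 * K.card : ℝ≥0) : ℝ) :=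
      NNReal.coe_le_coe.mpr h6
    push_cast at h7
    exact h7
  have h6 : (∑ x ∈ K, (N x : ℝ)) ^ 2 ≤ ((a : ℝ) * K.card) ^ 2 := by
    calc (∑ x ∈ K, (N x : ℝ)) ^ 2 ≤ K.card * ∑ x ∈ K, (N x : ℝ) ^ 2 := sq_sum_le_card_mul_sum_sq
      _ ≤ K.card * ((a : ℝ) ^ 2 * K.card) := by gcongr
      _ = ((a : ℝ) * K.card) ^ 2 := by ring
  have h7 : ∑ x ∈ K, (N x : ℝ) ≤ (a : ℝ) * K.card := by
    apply le_of_sq_le_sq h6
    exact mul_nonneg a.2 (Nat.cast_nonneg _)
  have h8 : eb S K + ∑ x ∈ K, N x = S.S.card * K.card := by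
    have e1 : eb S K = ∑ x ∈ K, (S.S.filter (fun s => x * s ∉ K)).card := by
      unfold eb
      rw [Finset.card_filter, Finset.sum_product]
      refine Finset.sum_congr rfl fun x _ => ?_
      rw [Finset.card_filter]
    rw [e1, ← Finset.sum_add_distrib]
    have e2 : ∀ x ∈ K, (S.S.filter (fun s => x * s ∉ K)).card + N x = S.S.card := by
      intro x _
      rw [hN, add_comm]
      exact Finset.card_filter_add_card_filter_not _
    rw [Finset.sum_congr rfl e2, Finset.sum_const, smul_eq_mul, mul_comm]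
  have h9 : (eb S K : ℝ) + ∑ x ∈ K, (N x : ℝ) = S.S.card * K.card := by exact_mod_cast h8
  linarith

end O2

end IICErg
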