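import Pool.Agent.Lib.MP_4c698b_pr.ODefs
import Pool.Agent.Lib.MP_4c698b_pr.BasicB
import Pool.Agent.Lib.MP_4c698b_pr.BK

/-!
# Module O3: the local exploration inequality at one vertex
-/

open MeasureTheory Filter Topology
open scoped ENNReal NNReal Pointwise

namespace IICErg

variable {Γ : Type} [Group Γ]

omit [Group Γ] in
theorem O3_meas (F : Finset (Sym2 Γ)) (E : Set (Cfg Γ))
    (hE : ∀ ω ω' : Cfg Γ, (∀ e ∈ F, ω e = ω' e) → (ω ∈ E ↔ ω' ∈ E)) : MeasurableSet E := by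
  have h1 : Measurable (fun ω : Cfg Γ => ω ∈ E) :=
    measurable_of_finite F _ fun ω ω' hag => propext (hE ω ω' hag)
  exact measurableSet_setOfPred.mpr h1

omit [Group Γ] in
theorem O3_upd_self (ω : Cfg Γ) (e : Sym2 Γ) (b : Bool) : upd ω e b e = b := by
  simp [upd]

omit [Group Γ] in
theorem O3_upd_ne (ω : Cfg Γ) {e f : Sym2 Γ} (b : Bool) (h : f ≠ e) : upd ω e b f = ω f := by
  simp [upd, h]

omit [Group Γ] in
theorem O3_upd_upd (ω : Cfg Γ) (e : Sym2 Γ) (b c : Bool) : upd (upd ω e b) e c = upd ω e c := by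
  simp [upd]

omit [Group Γ] in
theorem O3_upd_eq (ω : Cfg Γ) (e : Sym2 Γ) (b : Bool) (h : ω e = b) : upd ω e b = ω := by
  funext f
  by_cases hf : f = e
  · subst hf
    rw [O3_upd_self, h]
  · rw [O3_upd_ne _ _ hf]

omit [Group Γ] in
/-- if an event depends on the edges of `F`, then so does the event after a change of an edge -/
theorem O3_upd_dep {F : Finset (Sym2 Γ)} {E : Set (Cfg Γ)}
    (hE : ∀ ω ω' : Cfg Γ, (∀ e ∈ F, ω e = ω' e) → (ω ∈ E ↔ ω' ∈ E)) (f : Sym2 Γ) (b : Bool)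
    (ω ω' : Cfg Γ) (h : ∀ e ∈ F, e ≠ f → ω e = ω' e) :
    ω ∈ {ω | upd ω f b ∈ E} ↔ ω' ∈ {ω | upd ω f b ∈ E} := by
  refine hE _ _ fun e he => ?_
  by_cases hf : e = f
  · subst hf
    rw [O3_upd_self, O3_upd_self]
  · rw [O3_upd_ne _ _ hf, O3_upd_ne _ _ hf, h e he hf]

omit [Group Γ] in
theorem O3_split (p : unitInterval) (e : Sym2 Γ) {Q : Set (Cfg Γ)} (hQ : MeasurableSet Q) :
    (perc Γ p).real Q = p * (perc Γ p).real {ω | upd ω e true ∈ Q} +
      (1 - p) * (perc Γ p).real {ω | upd ω e false ∈ Q} := by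
  have h : ∀ (ω : Cfg Γ) (b : Bool), upd ω e b =
      @Function.update (Sym2 Γ) (fun _ => Bool) (fun a b => Classical.propDecidable (a = b))
        ω e b := by
    intro ω b
    funext f
    by_cases hf : f = e
    · subst hf
      rw [O3_upd_self]
      simp only [Function.update_self]
    · rw [O3_upd_ne _ _ hf]
      simp only [ne_eq, hf, not_false_eq_true, Function.update_of_ne]
  simp only [h]
  exact bk_split p e hQ

/-- `ogK S K ω` depends only on the edges inside `K` -/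
theorem O3_ogK (S : GenSet Γ) (K : Finset Γ) {ω ω' : Cfg Γ}
    (h : ∀ u ∈ K, ∀ v ∈ K, ω s(u, v) = ω' s(u, v)) : ogK S K ω = ogK S K ω' := by
  ext u v
  show ((S.cay.Adj u v ∧ ω s(u, v) = true) ∧ u ∈ K ∧ v ∈ K) ↔
    ((S.cay.Adj u v ∧ ω' s(u, v) = true) ∧ u ∈ K ∧ v ∈ K)
  constructor
  · rintro ⟨⟨h1, h2⟩, hu, hv⟩
    exact ⟨⟨h1, by rw [← h u hu v hv]; exact h2⟩, hu, hv⟩
  · rintro ⟨⟨h1, h2⟩, hu, hv⟩
    exact ⟨⟨h1, by rw [h u hu v hv]; exact h2⟩, hu, hv⟩

open Classical in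
/-- the pairs of elements of `K` -/
noncomputable def O3_pairs (K : Finset Γ) : Finset (Sym2 Γ) :=
  (K ×ˢ K).image (fun x => s(x.1, x.2))

omit [Group Γ] in
theorem O3_mem_pairs {K : Finset Γ} {u v : Γ} (hu : u ∈ K) (hv : v ∈ K) :
    s(u, v) ∈ O3_pairs K := by
  classical
  exact Finset.mem_image.mpr ⟨(u, v), Finset.mem_product.mpr ⟨hu, hv⟩, rfl⟩

theorem O3_reach_mem {S : GenSet Γ} {K : Finset Γ} {ω : Cfg Γ} {a z : Γ} (ha : a ∈ K)
    (h : (ogK S K ω).Reachable a z) : z ∈ K := by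
  obtain ⟨w⟩ := h
  induction w with
  | nil => exact ha
  | cons hadj w ih => exact ih hadj.2.2

theorem O3_transfer {V : Type} {G H : SimpleGraph V} {y : V}
    (hGH : ∀ u v, u ≠ y → v ≠ y → G.Adj u v → H.Adj u v) {a z : V} (h : G.Reachable a z)
    (hy : ¬ G.Reachable a y) : H.Reachable a z := by
  obtain ⟨w⟩ := h
  induction w with
  | nil => exact SimpleGraph.Reachable.refl _
  | @cons u v w' hadj w ih =>
    have hu : u ≠ y := by
      rintro rfl
      exact hy (SimpleGraph.Reachable.refl _)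
    have hv : v ≠ y := by
      rintro rfl
      exact hy hadj.reachable
    exact (hGH u v hu hv hadj).reachable.trans (ih (fun h => hy (hadj.reachable.trans h)))

theorem O3_ogK_dep (S : GenSet Γ) (K : Finset Γ) (P : SimpleGraph Γ → Prop) (ω ω' : Cfg Γ)
    (h : ∀ e ∈ O3_pairs K, ω e = ω' e) :
    ω ∈ {ω | P (ogK S K ω)} ↔ ω' ∈ {ω | P (ogK S K ω)} := by
  have h1 : ogK S K ω = ogK S K ω' := O3_ogK S K fun u hu v hv => h _ (O3_mem_pairs hu hv)
  show P (ogK S K ω) ↔ P (ogK S K ω')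
  rw [h1]

/-- one vertex: the edges from the cluster of `1` in `K` to `y` -/
theorem vertex_ineq (S : GenSet Γ) (p : unitInterval) (K : Finset Γ) (h1 : (1 : Γ) ∈ K) (y : Γ)
    (hy : y ∈ K) (hy1 : y ≠ 1) :
    (p : ℝ) * ∑ s ∈ S.S, (perc Γ p).real {ω | (ogK S K ω).Reachable 1 (y * s) ∧
        ¬ (ogK S K ω).Reachable 1 y} ≤ (1 - p) * tK S p K y := by
  classical
  set A : Γ → Set (Cfg Γ) := fun s => {ω | (ogK S K ω).Reachable 1 (y * s) ∧
        ¬ (ogK S K ω).Reachable 1 y} with hA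
  set B : Γ → Set (Cfg Γ) := fun s => {ω | upd ω s(y, y * s) false ∈ A s ∧
    ω s(y, y * s) = true} with hB
  have hAd : ∀ s, ∀ ω ω' : Cfg Γ, (∀ e ∈ O3_pairs K, ω e = ω' e) → (ω ∈ A s ↔ ω' ∈ A s) :=
    fun s => O3_ogK_dep S K (fun G => G.Reachable 1 (y * s) ∧ ¬ G.Reachable 1 y)
  have hAm : ∀ s, MeasurableSet (A s) := fun s => O3_meas (O3_pairs K) _ (hAd s)
  have hBm : ∀ s, MeasurableSet (B s) := by
    intro s
    refine O3_meas (insert s(y, y * s) (O3_pairs K)) _ fun ω ω' h => ?_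
    refine and_congr ?_ ?_
    · exact O3_upd_dep (hAd s) _ _ ω ω' fun e he _ => h e (Finset.mem_insert_of_mem he)
    · rw [h _ (Finset.mem_insert_self _ _)]
  -- the adjacency of `y` and `y * s`
  have hadj : ∀ s ∈ S.S, ∀ ω : Cfg Γ, ω s(y, y * s) = true → y * s ∈ K →
      (ogK S K ω).Adj (y * s) y := by
    intro s hs ω hω hK
    have h2 : (og S ω).Adj y (y * s) := ⟨by
      show y⁻¹ * (y * s) ∈ S.S
      rwa [inv_mul_cancel_left], hω⟩
    exact ⟨h2.symm, hK, hy⟩
  have hPA : ∀ s ∈ S.S, (perc Γ p).real (A s) =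
      (1 - p) * (perc Γ p).real {ω | upd ω s(y, y * s) false ∈ A s} := by
    intro s hs
    have h2 : {ω : Cfg Γ | upd ω s(y, y * s) true ∈ A s} = ∅ := by
      ext ω
      simp only [Set.mem_ofPred_eq, Set.mem_empty_iff_false, iff_false]
      rintro ⟨h3, h4⟩
      exact h4 (h3.trans (hadj s hs _ (O3_upd_self _ _ _) (O3_reach_mem h1 h3)).reachable)
    rw [O3_split p s(y, y * s) (hAm s), h2]
    simp
  have hPB : ∀ s ∈ S.S, (perc Γ p).real (B s) =
      p * (perc Γ p).real {ω | upd ω s(y, y * s) false ∈ A s} := by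
    intro s hs
    have h2 : {ω : Cfg Γ | upd ω s(y, y * s) false ∈ B s} = ∅ := by
      ext ω
      simp only [Set.mem_ofPred_eq, Set.mem_empty_iff_false, iff_false]
      rintro ⟨h3, h4⟩
      rw [O3_upd_self] at h4
      exact Bool.noConfusion h4
    have h3 : {ω : Cfg Γ | upd ω s(y, y * s) true ∈ B s} =
        {ω | upd ω s(y, y * s) false ∈ A s} := by
      ext ω
      show (upd (upd ω s(y, y * s) true) s(y, y * s) false ∈ A s ∧
        upd ω s(y, y * s) true s(y, y * s) = true) ↔ upd ω s(y, y * s) false ∈ A s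
      rw [O3_upd_upd, O3_upd_self]
      exact and_iff_left rfl
    rw [O3_split p s(y, y * s) (hBm s), h2, h3]
    simp
  have hdisj : ∀ s ∈ S.S, ∀ t ∈ S.S, s ≠ t → Disjoint (B s) (B t) := by
    intro s hs t ht hst
    rw [Set.disjoint_left]
    rintro ω ⟨⟨h2, h3⟩, h4⟩ ⟨⟨h5, h6⟩, h7⟩
    have hne : s(y, y * s) ≠ s(y, y * t) := by
      intro h
      exact hst (mul_left_cancel (Sym2.congr_right.mp h))
    have h8 : (ogK S K (upd ω s(y, y * t) false)).Reachable 1 (y * s) := by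
      refine O3_transfer (y := y) ?_ h2 h3
      rintro u v hu hv ⟨⟨h9, h10⟩, h11⟩
      have hn : ∀ g : Γ, s(u, v) ≠ s(y, g) := by
        intro g hg
        have : y ∈ s(u, v) := by rw [hg]; exact Sym2.mem_mk_left _ _
        rw [Sym2.mem_iff] at this
        rcases this with h | h
        · exact hu h.symm
        · exact hv h.symm
      rw [O3_upd_ne _ _ (hn _)] at h10
      refine ⟨⟨h9, ?_⟩, h11⟩
      rw [O3_upd_ne _ _ (hn _)]
      exact h10
    have h9 : (ogK S K (upd ω s(y, y * t) false)).Adj (y * s) y := by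
      refine hadj s hs _ ?_ (O3_reach_mem h1 h8)
      rw [O3_upd_ne _ _ hne]
      exact h4
    exact h6 (h8.trans h9.reachable)
  have hsub : ∀ s ∈ S.S, B s ⊆ {ω | (ogK S K ω).Reachable 1 y} := by
    rintro s hs ω ⟨⟨h2, h3⟩, h4⟩
    have hle : ogK S K (upd ω s(y, y * s) false) ≤ ogK S K ω := by
      rintro u v ⟨⟨h9, h10⟩, h11⟩
      refine ⟨⟨h9, ?_⟩, h11⟩
      by_cases he : s(u, v) = s(y, y * s)
      · rw [he, O3_upd_self] at h10
        exact Bool.noConfusion h10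
      · rwa [O3_upd_ne _ _ he] at h10
    exact (h2.mono hle).trans (hadj s hs ω h4 (O3_reach_mem h1 h2)).reachable
  have hunion : (perc Γ p).real (⋃ s ∈ S.S, B s) = ∑ s ∈ S.S, (perc Γ p).real (B s) :=
    measureReal_biUnion_finset (fun s hs t ht hst => hdisj s hs t ht hst) fun s _ => hBm s
  have hle : (perc Γ p).real (⋃ s ∈ S.S, B s) ≤ tK S p K y := by
    refine measureReal_mono ?_ (measure_ne_top _ _)
    exact Set.iUnion₂_subset hsub
  have hp : (0 : ℝ) ≤ 1 - p := by linarith [p.2.2]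
  calc (p : ℝ) * ∑ s ∈ S.S, (perc Γ p).real (A s)
      = (1 - p) * ∑ s ∈ S.S, (perc Γ p).real (B s) := by
        rw [Finset.mul_sum, Finset.mul_sum]
        refine Finset.sum_congr rfl fun s hs => ?_
        rw [hPA s hs, hPB s hs]
        ring
    _ ≤ (1 - p) * tK S p K y := by
        rw [← hunion]
        exact mul_le_mul_of_nonneg_left hle hp

end IICErg
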