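import Pool.Agent.Lib.MP_4c698b_pr.ODefs
import Pool.Agent.Lib.MP_4c698b_pr.Cost
import Pool.Agent.Lib.MP_4c698b_pr.Crit

/-!
# MP_4c698b_pr, module O5: Russo's formula
-/

open MeasureTheory Filter Topology
open scoped ENNReal NNReal Pointwise

namespace IICErg

variable {Γ : Type} [Group Γ]

section O5

theorem O5_upd_self (ω : Cfg Γ) (e : Sym2 Γ) (b : Bool) : upd ω e b e = b := by
  classical
  exact Function.update_self e b ω

theorem O5_upd_ne (ω : Cfg Γ) {e e' : Sym2 Γ} (h : e' ≠ e) (b : Bool) : upd ω e b e' = ω e' := by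
  classical
  exact Function.update_of_ne h b ω

theorem O5_upd_comm (ω : Cfg Γ) {e e' : Sym2 Γ} (h : e' ≠ e) (b b' : Bool) :
    upd (upd ω e b) e' b' = upd (upd ω e' b') e b := by
  funext i
  by_cases h1 : i = e'
  · subst h1
    rw [O5_upd_self, O5_upd_ne _ h, O5_upd_self]
  · rw [O5_upd_ne _ h1]
    by_cases h2 : i = e
    · subst h2
      rw [O5_upd_self, O5_upd_self]
    · rw [O5_upd_ne _ h2, O5_upd_ne _ h2, O5_upd_ne _ h1]

theorem O5_upd_meas (e : Sym2 Γ) (b : Bool) : Measurable (fun ω : Cfg Γ => upd ω e b) := by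
  rw [measurable_pi_iff]
  intro i
  by_cases hi : i = e
  · subst hi
    simp only [O5_upd_self]
    exact measurable_const
  · simp only [O5_upd_ne _ hi]
    exact measurable_pi_apply i

theorem O5_meas (F : Finset (Sym2 Γ)) (E : Set (Cfg Γ))
    (hE : ∀ ω ω' : Cfg Γ, (∀ e ∈ F, ω e = ω' e) → (ω ∈ E ↔ ω' ∈ E)) : MeasurableSet E :=
  measurableSet_setOf.2
    (measurable_of_finite F (fun ω => ω ∈ E) fun ω ω' h => propext (hE ω ω' h))

/-- conditioning on the state of one edge -/
theorem O5_split (q : unitInterval) (e : Sym2 Γ) {E : Set (Cfg Γ)} (hE : MeasurableSet E) :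
    (perc Γ q).real E = q * (perc Γ q).real {ω | upd ω e true ∈ E} +
      (1 - q) * (perc Γ q).real {ω | upd ω e false ∈ E} := by
  classical
  have h0 : (0 : ℝ) ≤ q := q.2.1
  have h1 : (0 : ℝ) ≤ 1 - q := by linarith [q.2.2]
  have hmeas : Measurable (fun x : Bool × (Sym2 Γ → Bool) => Function.update x.2 e x.1) := by
    rw [measurable_pi_iff]
    intro i
    by_cases hi : i = e
    · subst hi
      simp only [Function.update_self]
      exact measurable_fst
    · simp only [Function.update_of_ne hi]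
      exact (measurable_pi_apply i).comp measurable_snd
  have hm : ∀ b, MeasurableSet {ω : Cfg Γ | upd ω e b ∈ E} := fun b => O5_upd_meas e b hE
  have key : perc Γ q E = ENNReal.ofReal q * perc Γ q {ω | upd ω e true ∈ E} +
      ENNReal.ofReal (1 - q) * perc Γ q {ω | upd ω e false ∈ E} := by
    conv_lhs => rw [perc, ← Cost_resample q e]
    rw [Measure.map_apply hmeas hE, Measure.prod_apply (hmeas hE), Cost_lintegral_bern]
    rfl
  rw [measureReal_def, key, ENNReal.toReal_add, ENNReal.toReal_mul, ENNReal.toReal_mul,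
    ENNReal.toReal_ofReal h0, ENNReal.toReal_ofReal h1]
  · rfl
  · exact ENNReal.mul_ne_top ENNReal.ofReal_ne_top (measure_ne_top _ _)
  · exact ENNReal.mul_ne_top ENNReal.ofReal_ne_top (measure_ne_top _ _)

/-- Russo's formula -/
theorem russo_deriv (F : Finset (Sym2 Γ)) (E : Set (Cfg Γ))
    (hE : ∀ ω ω' : Cfg Γ, (∀ e ∈ F, ω e = ω' e) → (ω ∈ E ↔ ω' ∈ E)) (p : unitInterval)
    (hp0 : 0 < p) (hp1 : p < 1) :
    HasDerivAt (fun x : ℝ => (perc Γ (Set.projIcc (0 : ℝ) 1 zero_le_one x)).real E)
      (russo p F E) (p : ℝ) := by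
  classical
  induction F using Finset.induction_on generalizing E with
  | empty =>
    have hr : russo p ∅ E = 0 := by
      unfold russo
      exact Finset.sum_empty
    rw [hr]
    by_cases h : ∃ ω, ω ∈ E
    · obtain ⟨ω, hω⟩ := h
      have hu : E = Set.univ := by
        ext ω'
        exact ⟨fun _ => trivial, fun _ => (hE ω ω' (by simp)).1 hω⟩
      simp only [hu, probReal_univ]
      exact hasDerivAt_const _ _
    · have hu : E = ∅ := by
        ext ω'
        exact ⟨fun hc => (h ⟨ω', hc⟩).elim, fun hc => hc.elim⟩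
      simp only [hu, measureReal_empty]
      exact hasDerivAt_const _ _
  | insert e F he ih =>
    have hEm : MeasurableSet E := O5_meas _ E hE
    have hdep : ∀ b, ∀ ω ω' : Cfg Γ, (∀ e' ∈ F, ω e' = ω' e') →
        (ω ∈ {ω | upd ω e b ∈ E} ↔ ω' ∈ {ω | upd ω e b ∈ E}) := by
      intro b ω ω' h
      refine hE _ _ fun i hi => ?_
      by_cases hie : i = e
      · subst hie
        rw [O5_upd_self, O5_upd_self]
      · rw [O5_upd_ne _ hie, O5_upd_ne _ hie]
        exact h i ((Finset.mem_insert.1 hi).resolve_left hie)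
    have h1 := ih {ω | upd ω e true ∈ E} (hdep true)
    have h0 := ih {ω | upd ω e false ∈ E} (hdep false)
    have hpr : Set.projIcc (0 : ℝ) 1 zero_le_one (p : ℝ) = p := Set.projIcc_val _ p
    -- the function near `p`
    have hev : (fun x : ℝ => (perc Γ (Set.projIcc (0 : ℝ) 1 zero_le_one x)).real E) =ᶠ[𝓝 (p : ℝ)]
        fun x : ℝ => x * (perc Γ (Set.projIcc (0 : ℝ) 1 zero_le_one x)).real
            {ω | upd ω e true ∈ E} +
          (1 - x) * (perc Γ (Set.projIcc (0 : ℝ) 1 zero_le_one x)).real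
            {ω | upd ω e false ∈ E} := by
      have hnb : Set.Ioo (0 : ℝ) 1 ∈ 𝓝 (p : ℝ) := Ioo_mem_nhds hp0 hp1
      filter_upwards [hnb] with x hx
      have hx' : ((Set.projIcc (0 : ℝ) 1 zero_le_one x : unitInterval) : ℝ) = x := by
        rw [Set.projIcc_of_mem zero_le_one ⟨hx.1.le, hx.2.le⟩]
      have := O5_split (Set.projIcc (0 : ℝ) 1 zero_le_one x) e hEm
      rw [hx'] at this
      exact this
    have hd := ((hasDerivAt_id (p : ℝ)).mul h1).add
      (((hasDerivAt_const (p : ℝ) (1 : ℝ)).sub (hasDerivAt_id (p : ℝ))).mul h0)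
    refine (hd.congr_of_eventuallyEq ?_).congr_deriv ?_
    · refine hev.trans (Eventually.of_forall fun x => ?_)
      simp
    · -- the value of the derivative
      have hterm : ∀ e' ∈ F, ∀ b, (perc Γ p).real {ω | upd ω e' b ∈ E} =
          p * (perc Γ p).real {ω | upd ω e' b ∈ {ω | upd ω e true ∈ E}} +
            (1 - p) * (perc Γ p).real {ω | upd ω e' b ∈ {ω | upd ω e false ∈ E}} := by
        intro e' he' b
        have hne : e' ≠ e := fun h => he (h ▸ he')
        have hm : MeasurableSet {ω : Cfg Γ | upd ω e' b ∈ E} := O5_upd_meas e' b hEm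
        rw [O5_split p e hm]
        simp only [Set.mem_ofPred_eq, O5_upd_comm _ hne]
      have hsum : russo p F E = p * russo p F {ω | upd ω e true ∈ E} +
          (1 - p) * russo p F {ω | upd ω e false ∈ E} := by
        unfold russo
        rw [Finset.mul_sum, Finset.mul_sum, ← Finset.sum_add_distrib]
        refine Finset.sum_congr rfl fun e' he' => ?_
        rw [hterm e' he' true, hterm e' he' false]
        ring
      have hins : russo p (insert e F) E = ((perc Γ p).real {ω | upd ω e true ∈ E} -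
          (perc Γ p).real {ω | upd ω e false ∈ E}) + russo p F E := by
        unfold russo
        rw [Finset.sum_insert he]
      rw [hins, hsum, hpr]
      simp only [id, one_mul, Pi.sub_apply]
      ring

theorem perc_cont (F : Finset (Sym2 Γ)) (E : Set (Cfg Γ))
    (hE : ∀ ω ω' : Cfg Γ, (∀ e ∈ F, ω e = ω' e) → (ω ∈ E ↔ ω' ∈ E)) :
    Continuous (fun x : ℝ => (perc Γ (Set.projIcc (0 : ℝ) 1 zero_le_one x)).real E) :=
  (crit_continuous F E hE).comp continuous_projIcc

end O5

end IICErg
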