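import Pool.Agent.Lib.MP_4c698b_pr.O3
import Pool.Agent.Lib.MP_4c698b_pr.O5

/-!
# MP_4c698b_pr, module O4: lower bound for the Duminil-Copin and Tassion quantity
-/

open MeasureTheory Filter Topology
open scoped ENNReal NNReal Pointwise

namespace IICErg

variable {Γ : Type} [Group Γ]

section O4

theorem O4_meas (S : GenSet Γ) (K : Finset Γ) (x y : Γ) :
    MeasurableSet {ω : Cfg Γ | (ogK S K ω).Reachable x y} := by
  classical
  refine O5_meas ((K ×ˢ S.S).image (fun a => s(a.1, a.1 * a.2))) _ ?_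
  intro ω ω' h
  have hg : ogK S K ω = ogK S K ω' := by
    ext a b
    have key : a ∈ K → S.cay.Adj a b → ω s(a, b) = ω' s(a, b) := by
      intro ha hab
      refine h _ (Finset.mem_image.2 ⟨(a, a⁻¹ * b), ?_, by simp⟩)
      exact Finset.mem_product.2 ⟨ha, hab⟩
    constructor
    · rintro ⟨⟨h1, h2⟩, h3, h4⟩
      exact ⟨⟨h1, by rw [← key h3 h1]; exact h2⟩, h3, h4⟩
    · rintro ⟨⟨h1, h2⟩, h3, h4⟩
      exact ⟨⟨h1, by rw [key h3 h1]; exact h2⟩, h3, h4⟩
  rw [Set.mem_ofPred_eq, Set.mem_ofPred_eq, hg]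

theorem O4_mem (S : GenSet Γ) (K : Finset Γ) (ω : Cfg Γ) {x y : Γ} (hx : x ∈ K)
    (h : (ogK S K ω).Reachable x y) : y ∈ K := by
  obtain ⟨w⟩ := h
  induction w with
  | nil => exact hx
  | cons hab _ ih => exact ih hab.2.2

/-- pointwise inequalities between sums of indicators give inequalities of sums of probabilities -/
theorem O4_int {ι κ : Type} (p : unitInterval) (I : Finset ι) (J : Finset κ) (a : ℝ)
    (A : ι → Set (Cfg Γ)) (B : κ → Set (Cfg Γ)) (hA : ∀ i, MeasurableSet (A i))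
    (hB : ∀ j, MeasurableSet (B j))
    (h : ∀ ω, a * ∑ i ∈ I, (A i).indicator (1 : Cfg Γ → ℝ) ω ≤
      ∑ j ∈ J, (B j).indicator (1 : Cfg Γ → ℝ) ω) :
    a * ∑ i ∈ I, (perc Γ p).real (A i) ≤ ∑ j ∈ J, (perc Γ p).real (B j) := by
  have hi : ∀ (C : Set (Cfg Γ)), MeasurableSet C →
      Integrable (C.indicator (1 : Cfg Γ → ℝ)) (perc Γ p) :=
    fun C hC => (integrable_const (1 : ℝ)).indicator hC
  have h1 : ∫ ω, a * ∑ i ∈ I, (A i).indicator (1 : Cfg Γ → ℝ) ω ∂(perc Γ p) =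
      a * ∑ i ∈ I, (perc Γ p).real (A i) := by
    rw [integral_const_mul, integral_finsetSum _ fun i _ => hi _ (hA i)]
    congr 1
    exact Finset.sum_congr rfl fun i _ => integral_indicator_one (hA i)
  have h2 : ∫ ω, ∑ j ∈ J, (B j).indicator (1 : Cfg Γ → ℝ) ω ∂(perc Γ p) =
      ∑ j ∈ J, (perc Γ p).real (B j) := by
    rw [integral_finsetSum _ fun i _ => hi _ (hB i)]
    exact Finset.sum_congr rfl fun i _ => integral_indicator_one (hB i)
  rw [← h1, ← h2]
  refine integral_mono ?_ ?_ h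
  · exact (integrable_finsetSum _ fun i _ => hi _ (hA i)).const_mul a
  · exact integrable_finsetSum _ fun i _ => hi _ (hB i)

theorem phi_ge (S : GenSet Γ) (h : ℝ) (_h0 : 0 ≤ h) (hexp : ∀ K : Finset Γ, h * K.card ≤ eb S K)
    (p : unitInterval) (hp : 1 ≤ (p : ℝ) * (1 + h)) (K : Finset Γ) (h1 : (1 : Γ) ∈ K) :
    (p : ℝ) * h ≤ phi S p K := by
  classical
  have hp0 : (0 : ℝ) ≤ p := p.2.1
  have hp1 : (0 : ℝ) ≤ 1 - p := by linarith [p.2.2]
  let R : Γ → Set (Cfg Γ) := fun x => {ω | (ogK S K ω).Reachable 1 x}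
  have hR : ∀ x, MeasurableSet (R x) := fun x => O4_meas S K 1 x
  have hRK : ∀ x ω, ω ∈ R x → x ∈ K := fun x ω hω => O4_mem S K ω h1 hω
  -- expectation of the boundary of the cluster
  have e1 : h * ∑ x ∈ K, (perc Γ p).real (R x) ≤
      ∑ a ∈ K ×ˢ S.S, (perc Γ p).real (R a.1 \ R (a.1 * a.2)) := by
    refine O4_int p K (K ×ˢ S.S) h R (fun a => R a.1 \ R (a.1 * a.2)) hR
      (fun a => (hR _).diff (hR _)) fun ω => ?_
    have h2 := hexp (K.filter (fun x => ω ∈ R x))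
    have h3 : ((K.filter (fun x => ω ∈ R x)).card : ℝ) =
        ∑ x ∈ K, (R x).indicator (1 : Cfg Γ → ℝ) ω := by
      rw [Finset.card_filter]
      push_cast
      refine Finset.sum_congr rfl fun x _ => ?_
      by_cases hx : ω ∈ R x
      · rw [if_pos hx, Set.indicator_of_mem hx, Pi.one_apply]
      · rw [if_neg hx, Set.indicator_of_notMem hx]
    have h4 : (eb S (K.filter (fun x => ω ∈ R x)) : ℝ) =
        ∑ a ∈ K ×ˢ S.S, (R a.1 \ R (a.1 * a.2)).indicator (1 : Cfg Γ → ℝ) ω := by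
      have h5 : ((K.filter (fun x => ω ∈ R x)) ×ˢ S.S).filter
          (fun x => x.1 * x.2 ∉ K.filter (fun x => ω ∈ R x)) =
          (K ×ˢ S.S).filter (fun a => ω ∈ R a.1 \ R (a.1 * a.2)) := by
        ext ⟨x, s⟩
        simp only [Finset.mem_filter, Finset.mem_product, Set.mem_sdiff]
        constructor
        · rintro ⟨⟨⟨hxK, hx⟩, hs⟩, hn⟩
          exact ⟨⟨hxK, hs⟩, hx, fun hc => hn ⟨hRK _ ω hc, hc⟩⟩
        · rintro ⟨⟨hxK, hs⟩, hx, hn⟩
          exact ⟨⟨⟨hxK, hx⟩, hs⟩, fun hc => hn hc.2⟩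
      unfold eb
      rw [h5, Finset.card_filter]
      push_cast
      refine Finset.sum_congr rfl fun a _ => ?_
      by_cases hx : ω ∈ R a.1 \ R (a.1 * a.2)
      · rw [if_pos hx, Set.indicator_of_mem hx, Pi.one_apply]
      · rw [if_neg hx, Set.indicator_of_notMem hx]
    rw [← h3, ← h4]
    exact h2
  -- the part inside `K`
  have e2 : ∑ a ∈ (K ×ˢ S.S).filter (fun a => a.1 * a.2 ∈ K),
      (perc Γ p).real (R a.1 \ R (a.1 * a.2)) ≤
      ∑ a ∈ K ×ˢ S.S, (perc Γ p).real (R (a.1 * a.2) \ R a.1) := by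
    have h2 : ∑ a ∈ (K ×ˢ S.S).filter (fun a => a.1 * a.2 ∈ K),
        (perc Γ p).real (R a.1 \ R (a.1 * a.2)) =
        ∑ a ∈ (K ×ˢ S.S).filter (fun a => a.1 * a.2 ∈ K),
          (perc Γ p).real (R (a.1 * a.2) \ R a.1) := by
      refine Finset.sum_nbij' (fun a => (a.1 * a.2, a.2⁻¹)) (fun a => (a.1 * a.2, a.2⁻¹))
        ?_ ?_ ?_ ?_ ?_
      · rintro ⟨x, s⟩ hx
        simp only [Finset.mem_filter, Finset.mem_product] at hx ⊢
        exact ⟨⟨hx.2, S.inv_mem s hx.1.2⟩, by rw [mul_inv_cancel_right]; exact hx.1.1⟩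
      · rintro ⟨x, s⟩ hx
        simp only [Finset.mem_filter, Finset.mem_product] at hx ⊢
        exact ⟨⟨hx.2, S.inv_mem s hx.1.2⟩, by rw [mul_inv_cancel_right]; exact hx.1.1⟩
      · rintro ⟨x, s⟩ _
        simp
      · rintro ⟨x, s⟩ _
        simp
      · rintro ⟨x, s⟩ _
        simp
    rw [h2]
    exact Finset.sum_le_sum_of_subset_of_nonneg (Finset.filter_subset _ _)
      fun _ _ _ => measureReal_nonneg
  -- the part outside `K`
  have e3 : (p : ℝ) * ∑ a ∈ (K ×ˢ S.S).filter (fun a => ¬ a.1 * a.2 ∈ K),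
      (perc Γ p).real (R a.1 \ R (a.1 * a.2)) ≤ phi S p K := by
    unfold phi
    refine mul_le_mul_of_nonneg_left ?_ hp0
    have h2 : ∑ x ∈ K, ((S.S.filter (fun s => x * s ∉ K)).card : ℝ) * tK S p K x =
        ∑ a ∈ (K ×ˢ S.S).filter (fun a => ¬ a.1 * a.2 ∈ K), tK S p K a.1 := by
      rw [Finset.sum_filter, Finset.sum_product]
      refine Finset.sum_congr rfl fun x _ => ?_
      rw [← Finset.sum_filter]
      simp only [Finset.sum_const, nsmul_eq_mul]
    rw [h2]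
    refine Finset.sum_le_sum fun a _ => ?_
    exact measureReal_mono Set.sdiff_subset
  -- the vertex inequality
  have e4 : (p : ℝ) * ∑ a ∈ K ×ˢ S.S, (perc Γ p).real (R (a.1 * a.2) \ R a.1) ≤
      (1 - p) * (∑ x ∈ K, tK S p K x - 1) := by
    have h2 : tK S p K 1 = 1 := by
      have : {ω : Cfg Γ | (ogK S K ω).Reachable 1 1} = Set.univ := by
        ext ω
        exact ⟨fun _ => trivial, fun _ => SimpleGraph.Reachable.refl _⟩
      unfold tK
      rw [this, probReal_univ]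
    have h3 : ∑ s ∈ S.S, (perc Γ p).real (R (1 * s) \ R 1) = 0 := by
      refine Finset.sum_eq_zero fun s _ => ?_
      have : R (1 * s) \ R 1 = ∅ := by
        ext ω
        refine ⟨fun hω => (hω.2 (SimpleGraph.Reachable.refl _)).elim, fun hω => hω.elim⟩
      rw [this, measureReal_empty]
    have h4 : ∑ a ∈ K ×ˢ S.S, (perc Γ p).real (R (a.1 * a.2) \ R a.1) =
        ∑ y ∈ K.erase 1, ∑ s ∈ S.S, (perc Γ p).real (R (y * s) \ R y) := by
      rw [Finset.sum_product, ← Finset.add_sum_erase K _ h1, h3, zero_add]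
    have h5 : ∑ x ∈ K, tK S p K x - 1 = ∑ x ∈ K.erase 1, tK S p K x := by
      rw [← Finset.add_sum_erase K _ h1, h2]
      ring
    rw [h4, h5, Finset.mul_sum, Finset.mul_sum]
    refine Finset.sum_le_sum fun y hy => ?_
    rw [Finset.mem_erase] at hy
    exact vertex_ineq S p K h1 y hy.2 hy.1
  have e5 : (1 : ℝ) ≤ ∑ x ∈ K, tK S p K x := by
    have h2 : tK S p K 1 = 1 := by
      have : {ω : Cfg Γ | (ogK S K ω).Reachable 1 1} = Set.univ := by
        ext ω
        exact ⟨fun _ => trivial, fun _ => SimpleGraph.Reachable.refl _⟩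
      unfold tK
      rw [this, probReal_univ]
    rw [← h2]
    exact Finset.single_le_sum (f := fun x => tK S p K x) (fun _ _ => measureReal_nonneg) h1
  have e6 : h * ∑ x ∈ K, tK S p K x ≤
      ∑ a ∈ (K ×ˢ S.S).filter (fun a => a.1 * a.2 ∈ K),
        (perc Γ p).real (R a.1 \ R (a.1 * a.2)) +
      ∑ a ∈ (K ×ˢ S.S).filter (fun a => ¬ a.1 * a.2 ∈ K),
        (perc Γ p).real (R a.1 \ R (a.1 * a.2)) := by
    rw [Finset.sum_filter_add_sum_filter_not]
    exact e1
  set T := ∑ x ∈ K, tK S p K x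
  have e7 : (p : ℝ) * (h * T) ≤ (1 - p) * (T - 1) + phi S p K := by
    have h2 := mul_le_mul_of_nonneg_left e6 hp0
    have h3 := mul_le_mul_of_nonneg_left e2 hp0
    rw [mul_add] at h2
    linarith
  nlinarith

end O4

end IICErg
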