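import Pool.Agent.Lib.MP_4c698b_pr.O1
import Pool.Agent.Lib.MP_4c698b_pr.O2
import Pool.Agent.Lib.MP_4c698b_pr.O4
import Pool.Agent.Lib.MP_4c698b_pr.O6
import Pool.Agent.Lib.MP_4c698b_pr.Theta

/-!
# MP_4c698b_pr, module O7: upper bound for `p_c`, the family of small spectral radius
-/

open MeasureTheory Filter Topology
open scoped ENNReal NNReal Pointwise

namespace IICErg

variable {Γ : Type} [Group Γ]

section O7

theorem pc_le (S : GenSet Γ) (h : ℝ) (h0 : 0 < h) (hexp : ∀ K : Finset Γ, h * K.card ≤ eb S K) :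
    (pc S : ℝ) ≤ 1 / (1 + h) := by
  by_contra hcon
  push Not at hcon
  set p1 : ℝ := 1 / (1 + h) with hp1
  have hp1pos : 0 < p1 := by positivity
  have hp1lt : p1 < 1 := by
    rw [hp1, div_lt_one (by linarith)]
    linarith
  have hp1h : p1 * (1 + h) = 1 := by
    rw [hp1]
    field_simp
  let P1 : unitInterval := ⟨p1, hp1pos.le, hp1lt.le⟩
  obtain ⟨q, hq, hPq⟩ : ∃ q ∈ {p : unitInterval | perc Γ p {ω | ¬ (cl S ω 1).Finite} = 0},
      P1 < q := lt_sSup_iff.1 (show P1 < pc S from hcon)
  have hPq' : p1 < (q : ℝ) := hPq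
  let θ : ℕ → ℝ → ℝ := fun n x =>
    (perc Γ (Set.projIcc (0 : ℝ) 1 zero_le_one x)).real {ω | far S n ω 1}
  have hdep : ∀ n, ∀ ω ω' : Cfg Γ, (∀ e ∈ edB S n, ω e = ω' e) →
      (ω ∈ {ω | far S n ω 1} ↔ ω' ∈ {ω | far S n ω 1}) := fun n ω ω' h => far_edB S n ω ω' h
  have hcont : ∀ n, Continuous (θ n) := fun n => perc_cont (edB S n) _ (hdep n)
  -- the derivative
  have hder : ∀ n, 1 ≤ n → ∀ x ∈ Set.Ioo p1 (q : ℝ), ∃ d, HasDerivAt (θ n) d x ∧
      h * (1 - θ n x) ≤ d := by
    intro n hn x hx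
    have hx0 : 0 < x := hp1pos.trans hx.1
    have hx1 : x < 1 := hx.2.trans_le q.2.2
    let X : unitInterval := ⟨x, hx0.le, hx1.le⟩
    have hproj : Set.projIcc (0 : ℝ) 1 zero_le_one x = X :=
      Set.projIcc_of_mem zero_le_one ⟨hx0.le, hx1.le⟩
    refine ⟨russo X (edB S n) {ω | far S n ω 1}, russo_deriv (edB S n) _ (hdep n) X hx0 hx1, ?_⟩
    have h1 : ∀ K : Finset Γ, (1 : Γ) ∈ K → x * h ≤ phi S X K := by
      intro K hK
      refine phi_ge S h h0.le hexp X ?_ K hK
      show 1 ≤ x * (1 + h)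
      have h9 := mul_le_mul_of_nonneg_right hx.1.le (show (0 : ℝ) ≤ 1 + h by linarith)
      linarith
    have h2 := dct S X hx0 hx1 n hn (x * h) h1
    have h3 : θ n x = (theta S X n).toReal := by
      show (perc Γ (Set.projIcc (0 : ℝ) 1 zero_le_one x)).real {ω | far S n ω 1} = _
      rw [hproj]
      rfl
    have h4 : θ n x ≤ 1 := measureReal_le_one
    rw [h3] at h4 ⊢
    refine le_trans ?_ h2
    refine mul_le_mul_of_nonneg_right ?_ (by linarith)
    show h ≤ x * h / (x * (1 - x))
    rw [le_div_iff₀ (mul_pos hx0 (by linarith))]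
    have h5 : 0 ≤ x * h * x := by positivity
    nlinarith
  -- the differential inequality
  have hanti : ∀ n, 1 ≤ n → 1 - θ n q ≤ Real.exp (-(h * (q - p1))) := by
    intro n hn
    have h1 : AntitoneOn (fun x => (1 - θ n x) * Real.exp (h * (x - p1)))
        (Set.Icc p1 (q : ℝ)) := by
      refine antitoneOn_of_deriv_nonpos (convex_Icc _ _) ?_ ?_ ?_
      · exact ((continuous_const.sub (hcont n)).mul
          (Real.continuous_exp.comp (by fun_prop))).continuousOn
      · rw [interior_Icc]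
        intro x hx
        obtain ⟨d, hd, _⟩ := hder n hn x hx
        have h2 : HasDerivAt (fun x : ℝ => Real.exp (h * (x - p1)))
            (Real.exp (h * (x - p1)) * (h * 1)) x :=
          (((hasDerivAt_id x).sub_const p1).const_mul h).exp
        exact (((hasDerivAt_const x (1 : ℝ)).sub hd).mul h2).differentiableAt.differentiableWithinAt
      · rw [interior_Icc]
        intro x hx
        obtain ⟨d, hd, hd'⟩ := hder n hn x hx
        have h2 : HasDerivAt (fun x : ℝ => Real.exp (h * (x - p1)))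
            (Real.exp (h * (x - p1)) * (h * 1)) x :=
          (((hasDerivAt_id x).sub_const p1).const_mul h).exp
        have h3 : HasDerivAt (fun x => (1 - θ n x) * Real.exp (h * (x - p1)))
            ((0 - d) * Real.exp (h * (x - p1)) +
              (1 - θ n x) * (Real.exp (h * (x - p1)) * (h * 1))) x :=
          ((hasDerivAt_const x (1 : ℝ)).sub hd).mul h2
        rw [h3.deriv]
        have h4 := Real.exp_pos (h * (x - p1))
        have h5 : (h * (1 - θ n x) - d) * Real.exp (h * (x - p1)) ≤ 0 :=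
          mul_nonpos_of_nonpos_of_nonneg (by linarith) h4.le
        linarith
    have h2 := h1 (Set.left_mem_Icc.2 hPq'.le) (Set.right_mem_Icc.2 hPq'.le) hPq'.le
    simp only [sub_self, mul_zero, Real.exp_zero, mul_one] at h2
    have h3 : 0 ≤ θ n p1 := measureReal_nonneg
    have h4 : (1 - θ n q) * Real.exp (h * (q - p1)) ≤ 1 := by linarith
    rw [Real.exp_neg]
    rw [← one_div, le_div_iff₀ (Real.exp_pos _)]
    exact h4
  -- the limit
  have hlim : Tendsto (fun n => θ n q) atTop (𝓝 0) := by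
    have h1 := theta_lim S q
    rw [Set.mem_ofPred_eq] at hq
    rw [hq] at h1
    have h2 := (ENNReal.tendsto_toReal (ENNReal.zero_ne_top)).comp h1
    rw [ENNReal.toReal_zero] at h2
    refine h2.congr fun n => ?_
    show (theta S q n).toReal = (perc Γ (Set.projIcc (0 : ℝ) 1 zero_le_one (q : ℝ))).real _
    rw [Set.projIcc_val]
    rfl
  have hlim2 : Tendsto (fun n => 1 - θ n q) atTop (𝓝 (1 - 0)) := tendsto_const_nhds.sub hlim
  have h1 : (1 : ℝ) - 0 ≤ Real.exp (-(h * (q - p1))) :=
    le_of_tendsto hlim2 (eventually_atTop.2 ⟨1, fun n hn => hanti n hn⟩)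
  have h2 : Real.exp (-(h * (q - p1))) < 1 := by
    rw [Real.exp_lt_one_iff]
    have : 0 < h * ((q : ℝ) - p1) := mul_pos h0 (by linarith)
    linarith
  linarith

theorem l2_small (S : GenSet Γ) (a : ℝ≥0) (ha : AdjNormLe S a)
    (h2 : 2 * (a : ℝ) < S.S.card + 1) : L2Bounded S (pc S) := by
  rcases Nat.eq_zero_or_pos S.S.card with hd | hd
  · -- the generating set is empty
    have h0 : AdjNormLe S 0 := by
      intro f
      rw [Finset.card_eq_zero] at hd
      simp [hd]
    exact l2_of_norm S (pc S) 0 h0 (by simp)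
  · have hd1 : (1 : ℝ) ≤ S.S.card := by exact_mod_cast hd
    have hh : 0 < (S.S.card : ℝ) - a := by linarith
    have h1 := pc_le S ((S.S.card : ℝ) - a) hh (eb_ge S a ha)
    refine l2_of_norm S (pc S) a ha ?_
    have h3 : (0 : ℝ) ≤ a := a.2
    refine (mul_le_mul_of_nonneg_right h1 h3).trans_lt ?_
    rw [div_mul_eq_mul_div, one_mul, div_lt_one (by linarith)]
    linarith

end O7

end IICErg
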