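import Pool.Agent.Lib.MP_4c698b_pr.SDefs

/-!
# Ergodicity of the incipient infinite cluster (problem MP_4c698b_pr): small spectral radius
-/

open MeasureTheory Filter Topology
open scoped ENNReal NNReal Pointwise

namespace IICErg

variable {Γ : Type} [Group Γ]

/-- The adjacency operator of the Cayley graph has norm at most `a` on `ℓ²(Γ)` (the norm is `d·ρ`
with `d` the degree and `ρ` the spectral radius of simple random walk). -/
def AdjNormLe (S : GenSet Γ) (a : ℝ≥0) : Prop :=
  ∀ f : Γ → ℝ≥0∞, ∑' x, (∑ s ∈ S.S, f (x * s)) ^ 2 ≤ (a : ℝ≥0∞) ^ 2 * ∑' x, f x ^ 2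

open Classical in
/-- number of edges of the Cayley graph from `K` to its complement -/
noncomputable def eb (S : GenSet Γ) (K : Finset Γ) : ℕ :=
  ((K ×ˢ S.S).filter (fun x => x.1 * x.2 ∉ K)).card

/-- the open graph inside `K` -/
def ogK (S : GenSet Γ) (K : Finset Γ) (ω : Cfg Γ) : SimpleGraph Γ where
  Adj x y := (og S ω).Adj x y ∧ x ∈ K ∧ y ∈ K
  symm := ⟨fun x y h => ⟨h.1.symm, h.2.2, h.2.1⟩⟩
  loopless := ⟨fun x h => (og S ω).loopless.irrefl x h.1⟩

/-- probability that `x` is connected to `1` inside `K` -/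
noncomputable def tK (S : GenSet Γ) (p : unitInterval) (K : Finset Γ) (x : Γ) : ℝ :=
  (perc Γ p).real {ω | (ogK S K ω).Reachable 1 x}

open Classical in
/-- the Duminil-Copin and Tassion quantity: expected number of open edges leaving `K` at the cluster of
`1` in `K` -/
noncomputable def phi (S : GenSet Γ) (p : unitInterval) (K : Finset Γ) : ℝ :=
  p * ∑ x ∈ K, ((S.S.filter (fun s => x * s ∉ K)).card : ℝ) * tK S p K x

/-- change the state of the edge `e` to `b` -/
noncomputable def upd (ω : Cfg Γ) (e : Sym2 Γ) (b : Bool) : Cfg Γ := by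
  classical exact Function.update ω e b

open Classical in
/-- the edges at the vertices of the ball of radius `n` -/
noncomputable def edB (S : GenSet Γ) (n : ℕ) : Finset (Sym2 Γ) :=
  (S.ball n ×ˢ S.S).image (fun x => s(x.1, x.1 * x.2))

/-- derivative of the probability of `E` in `p` (Russo) -/
noncomputable def russo (p : unitInterval) (F : Finset (Sym2 Γ)) (E : Set (Cfg Γ)) : ℝ :=
  ∑ e ∈ F, ((perc Γ p).real {ω | upd ω e true ∈ E} - (perc Γ p).real {ω | upd ω e false ∈ E})

end IICErg
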