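import Pool.Agent.Lib.MP_4c698b_pr.ODefs

/-!
# MP_4c698b_pr: Cheeger inequality for the adjacency operator of a Cayley graph
-/

set_option autoImplicit false

open MeasureTheory Filter Topology
open scoped ENNReal NNReal Pointwise

namespace IICErg

variable {Γ : Type} [Group Γ]

namespace P1

open Classical in
theorem eb_eq (S : GenSet Γ) (K : Finset Γ) :
    (eb S K : ℝ) = ∑ x ∈ K, ∑ s ∈ S.S, (if x * s ∉ K then (1 : ℝ) else 0) := by
  unfold eb
  rw [Finset.card_filter, Nat.cast_sum, Finset.sum_product]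
  refine Finset.sum_congr rfl fun x _ => Finset.sum_congr rfl fun s _ => ?_
  split_ifs <;> simp

open Classical in
/-- coarea inequality -/
theorem coarea (S : GenSet Γ) (h : ℝ) (hexp : ∀ K : Finset Γ, h * K.card ≤ eb S K) :
    ∀ (n : ℕ) (g : Γ → ℝ) (K : Finset Γ), (∀ x, 0 ≤ g x) → (∀ x, x ∈ K ↔ 0 < g x) →
      K.card = n → h * ∑ x ∈ K, g x ≤ ∑ x ∈ K, ∑ s ∈ S.S, max (g x - g (x * s)) 0 := by
  intro n
  induction n using Nat.strong_induction_on with
  | _ n ih =>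
    intro g K hg hK hn
    rcases K.eq_empty_or_nonempty with rfl | hne
    · simp
    obtain ⟨x0, hx0, hmin⟩ := K.exists_min_image g hne
    have hm : 0 < g x0 := (hK x0).1 hx0
    generalize hmdef : g x0 = m at hm hmin
    let g' : Γ → ℝ := fun x => max (g x - m) 0
    let K' := K.filter (fun x => m < g x)
    have hg'K : ∀ x ∈ K, g' x = g x - m := fun x hx => max_eq_left (by linarith [hmin x hx])
    have hgK : ∀ x, x ∉ K → g x = 0 := fun x hx =>
      le_antisymm (not_lt.1 fun h0 => hx ((hK x).2 h0)) (hg x)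
    have hg'0 : ∀ x, x ∉ K → g' x = 0 := fun x hx => by
      show max (g x - m) 0 = 0
      rw [hgK x hx]
      exact max_eq_right (by linarith)
    have hK' : ∀ x, x ∈ K' ↔ 0 < g' x := by
      intro x
      rw [Finset.mem_filter]
      constructor
      · rintro ⟨hx, hlt⟩
        rw [hg'K x hx]
        linarith
      · intro hpos
        by_cases hx : x ∈ K
        · rw [hg'K x hx] at hpos
          exact ⟨hx, by linarith⟩
        · rw [hg'0 x hx] at hpos
          exact absurd hpos (lt_irrefl _)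
    have hsub : K' ⊆ K := Finset.filter_subset _ _
    have hlt : K'.card < n := by
      rw [← hn]
      refine Finset.card_lt_card ⟨hsub, fun hcon => ?_⟩
      have := (Finset.mem_filter.1 (hcon hx0)).2
      rw [hmdef] at this
      exact lt_irrefl _ this
    have h1 := ih _ hlt g' K' (fun x => le_max_right _ _) hK' rfl
    have hz : ∀ x ∈ K, x ∉ K' → g' x = 0 := by
      intro x _ hx'
      have h2 : ¬ 0 < g' x := fun h3 => hx' ((hK' x).2 h3)
      exact le_antisymm (not_lt.1 h2) (le_max_right _ _)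
    have hsum1 : ∑ x ∈ K', g' x = ∑ x ∈ K, g' x := Finset.sum_subset hsub hz
    have hsum2 : ∑ x ∈ K', ∑ s ∈ S.S, max (g' x - g' (x * s)) 0 =
        ∑ x ∈ K, ∑ s ∈ S.S, max (g' x - g' (x * s)) 0 := by
      refine Finset.sum_subset hsub fun x hx hx' => Finset.sum_eq_zero fun s _ => ?_
      rw [hz x hx hx']
      exact max_eq_right (by linarith [le_max_right (g (x * s) - m) (0 : ℝ)])
    have hterm : ∀ x ∈ K, ∀ s ∈ S.S, max (g x - g (x * s)) 0 =
        max (g' x - g' (x * s)) 0 + m * (if x * s ∉ K then (1 : ℝ) else 0) := by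
      intro x hx s _
      by_cases hxs : x * s ∈ K
      · rw [hg'K x hx, hg'K _ hxs, if_neg (not_not.2 hxs), mul_zero, add_zero]
        congr 1
        ring
      · rw [hg'K x hx, hg'0 _ hxs, if_pos hxs, hgK _ hxs, mul_one]
        have h3 := hmin x hx
        rw [max_eq_left (by linarith), max_eq_left (by linarith)]
        ring
    have h4 : ∑ x ∈ K, ∑ s ∈ S.S, max (g x - g (x * s)) 0 =
        ∑ x ∈ K, ∑ s ∈ S.S, max (g' x - g' (x * s)) 0 + m * eb S K := by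
      rw [eb_eq, Finset.mul_sum, ← Finset.sum_add_distrib]
      refine Finset.sum_congr rfl fun x hx => ?_
      rw [Finset.mul_sum, ← Finset.sum_add_distrib]
      exact Finset.sum_congr rfl fun s hs => hterm x hx s hs
    have h5 : ∑ x ∈ K, g x = ∑ x ∈ K, g' x + m * K.card := by
      have : ∑ x ∈ K, g x = ∑ x ∈ K, (g' x + m) :=
        Finset.sum_congr rfl fun x hx => by rw [hg'K x hx]; ring
      rw [this, Finset.sum_add_distrib, Finset.sum_const, nsmul_eq_mul]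
      ring
    rw [h4, h5]
    rw [hsum1, hsum2] at h1
    have h6 := mul_le_mul_of_nonneg_left (hexp K) hm.le
    nlinarith [h1, h6]

open Classical in
/-- the adjacency matrix -/
noncomputable def M (S : GenSet Γ) (x y : Γ) : ℝ := if x⁻¹ * y ∈ S.S then 1 else 0

theorem M_symm (S : GenSet Γ) (x y : Γ) : M S x y = M S y x := by
  unfold M
  have h1 : x⁻¹ * y ∈ S.S ↔ y⁻¹ * x ∈ S.S := by
    constructor
    · intro h
      have := S.inv_mem _ h
      rwa [mul_inv_rev, inv_inv] at this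
    · intro h
      have := S.inv_mem _ h
      rwa [mul_inv_rev, inv_inv] at this
  by_cases h : x⁻¹ * y ∈ S.S
  · rw [if_pos h, if_pos (h1.1 h)]
  · rw [if_neg h, if_neg fun h2 => h (h1.2 h2)]

theorem M_nonneg (S : GenSet Γ) (x y : Γ) : 0 ≤ M S x y := by
  unfold M
  split_ifs <;> norm_num

open Classical in
/-- sums over the neighbours in `T` -/
theorem sum_nbr (S : GenSet Γ) (T : Finset Γ) (x : Γ) (φ : Γ → ℝ) :
    ∑ y ∈ T, M S x y * φ y = ∑ s ∈ S.S, (if x * s ∈ T then φ (x * s) else 0) := by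
  rw [← Finset.sum_filter]
  have h1 : ∑ y ∈ T, M S x y * φ y = ∑ y ∈ T.filter (fun y => x⁻¹ * y ∈ S.S), φ y := by
    rw [Finset.sum_filter]
    refine Finset.sum_congr rfl fun y _ => ?_
    unfold M
    split_ifs <;> simp
  rw [h1]
  refine Finset.sum_nbij' (fun y => x⁻¹ * y) (fun s => x * s) ?_ ?_ ?_ ?_ ?_
  · intro y hy
    rw [Finset.mem_filter] at hy ⊢
    exact ⟨hy.2, by simpa using hy.1⟩
  · intro s hs
    rw [Finset.mem_filter] at hs ⊢
    exact ⟨hs.2, by simpa using hs.1⟩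
  · intro y _; simp
  · intro s _; simp
  · intro y _; simp

theorem sum_M_le (S : GenSet Γ) (T : Finset Γ) (x : Γ) :
    ∑ y ∈ T, M S x y ≤ S.S.card := by
  classical
  have h1 := sum_nbr S T x (fun _ => 1)
  simp only [mul_one] at h1
  rw [h1]
  calc ∑ s ∈ S.S, (if x * s ∈ T then (1 : ℝ) else 0) ≤ ∑ _s ∈ S.S, (1 : ℝ) := by
        refine Finset.sum_le_sum fun s _ => ?_
        split_ifs <;> norm_num
    _ = S.S.card := by simp

/-- the quadratic form -/
noncomputable def B (S : GenSet Γ) (T : Finset Γ) (u v : Γ → ℝ) : ℝ :=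
  ∑ x ∈ T, ∑ y ∈ T, M S x y * (u x * v y)

theorem B_symm (S : GenSet Γ) (T : Finset Γ) (u v : Γ → ℝ) : B S T u v = B S T v u := by
  unfold B
  rw [Finset.sum_comm]
  refine Finset.sum_congr rfl fun x _ => Finset.sum_congr rfl fun y _ => ?_
  rw [M_symm S y x, mul_comm (u y)]

/-- Cheeger inequality in linear form: for every `t > 0`. -/
theorem cheeger_pos (S : GenSet Γ) (h : ℝ) (hexp : ∀ K : Finset Γ, h * K.card ≤ eb S K)
    (T : Finset Γ) (f : Γ → ℝ) (hf : ∀ x, 0 ≤ f x) (t : ℝ) (ht : 0 < t) :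
    2 * h * ∑ x ∈ T, f x ^ 2 ≤ t * (S.S.card * ∑ x ∈ T, f x ^ 2 - B S T f f) +
      t⁻¹ * (S.S.card * ∑ x ∈ T, f x ^ 2 + B S T f f) := by
  classical
  -- coarea for the square of the truncation
  let g : Γ → ℝ := fun x => if x ∈ T then f x ^ 2 else 0
  let K := T.filter (fun x => 0 < f x ^ 2)
  have hgT : ∀ x ∈ T, g x = f x ^ 2 := fun x hx => if_pos hx
  have hgn : ∀ x, x ∉ T → g x = 0 := fun x hx => if_neg hx
  have hg0 : ∀ x, 0 ≤ g x := by
    intro x
    show 0 ≤ if x ∈ T then f x ^ 2 else 0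
    split_ifs
    · positivity
    · exact le_rfl
  have hK : ∀ x, x ∈ K ↔ 0 < g x := by
    intro x
    rw [Finset.mem_filter]
    constructor
    · rintro ⟨hx, h0⟩
      rw [hgT x hx]; exact h0
    · intro h0
      by_cases hx : x ∈ T
      · rw [hgT x hx] at h0
        exact ⟨hx, h0⟩
      · rw [hgn x hx] at h0
        exact absurd h0 (lt_irrefl _)
  have hsub : K ⊆ T := Finset.filter_subset _ _
  have hco := coarea S h hexp _ g K hg0 hK rfl
  have hgz : ∀ x ∈ T, x ∉ K → g x = 0 := fun x _ hx' =>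
    le_antisymm (not_lt.1 fun h3 => hx' ((hK x).2 h3)) (hg0 x)
  rw [Finset.sum_subset hsub hgz, Finset.sum_subset hsub (fun x hx hx' => by
    refine Finset.sum_eq_zero fun s _ => ?_
    rw [hgz x hx hx']
    exact max_eq_right (by linarith [hg0 (x * s)]))] at hco
  -- split the inner sums
  let N := ∑ x ∈ T, f x ^ 2
  have hN : ∑ x ∈ T, g x = ∑ x ∈ T, f x ^ 2 := Finset.sum_congr rfl hgT
  rw [hN] at hco
  have hinner : ∀ x ∈ T, ∑ s ∈ S.S, max (g x - g (x * s)) 0 =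
      ∑ y ∈ T, M S x y * max (f x ^ 2 - f y ^ 2) 0 +
        (S.S.card - ∑ y ∈ T, M S x y) * f x ^ 2 := by
    intro x hx
    have h1 := sum_nbr S T x (fun y => max (f x ^ 2 - f y ^ 2) 0)
    have h2 := sum_nbr S T x (fun _ => 1)
    simp only [mul_one] at h2
    rw [h1, h2, hgT x hx]
    have h3 : ((S.S.card : ℝ) - ∑ s ∈ S.S, (if x * s ∈ T then (1 : ℝ) else 0)) * f x ^ 2 =
        ∑ s ∈ S.S, (if x * s ∈ T then (0 : ℝ) else f x ^ 2) := by
      have h4 : (S.S.card : ℝ) = ∑ _s ∈ S.S, (1 : ℝ) := by simp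
      rw [h4, ← Finset.sum_sub_distrib, Finset.sum_mul]
      refine Finset.sum_congr rfl fun s _ => ?_
      split_ifs <;> ring
    rw [h3, ← Finset.sum_add_distrib]
    refine Finset.sum_congr rfl fun s _ => ?_
    by_cases hxs : x * s ∈ T
    · rw [if_pos hxs, if_pos hxs, hgT _ hxs, add_zero]
    · rw [if_neg hxs, if_neg hxs, hgn _ hxs, zero_add, sub_zero]
      exact max_eq_left (by positivity)
  rw [Finset.sum_congr rfl hinner, Finset.sum_add_distrib] at hco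
  -- symmetrise
  have hswap : ∑ x ∈ T, ∑ y ∈ T, M S x y * max (f x ^ 2 - f y ^ 2) 0 =
      ∑ x ∈ T, ∑ y ∈ T, M S x y * max (f y ^ 2 - f x ^ 2) 0 := by
    rw [Finset.sum_comm]
    refine Finset.sum_congr rfl fun x _ => Finset.sum_congr rfl fun y _ => ?_
    rw [M_symm S y x]
  have hdouble : 2 * ∑ x ∈ T, ∑ y ∈ T, M S x y * max (f x ^ 2 - f y ^ 2) 0 ≤
      ∑ x ∈ T, ∑ y ∈ T, M S x y * (t / 2 * (f x - f y) ^ 2 + t⁻¹ / 2 * (f x + f y) ^ 2) := by
    rw [two_mul]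
    nth_rw 2 [hswap]
    rw [← Finset.sum_add_distrib]
    refine Finset.sum_le_sum fun x _ => ?_
    rw [← Finset.sum_add_distrib]
    refine Finset.sum_le_sum fun y _ => ?_
    rw [← mul_add]
    refine mul_le_mul_of_nonneg_left ?_ (M_nonneg S x y)
    have h1 : max (f x ^ 2 - f y ^ 2) 0 + max (f y ^ 2 - f x ^ 2) 0 = |f x - f y| * (f x + f y) := by
      have h2 : |f x - f y| * (f x + f y) = |f x ^ 2 - f y ^ 2| := by
        rw [sq_sub_sq, abs_mul, abs_of_nonneg (add_nonneg (hf x) (hf y)), mul_comm]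
      rw [h2]
      rcases le_total (f x ^ 2) (f y ^ 2) with hle | hle
      · rw [max_eq_right (by linarith), max_eq_left (by linarith), abs_of_nonpos (by linarith)]
        ring
      · rw [max_eq_left (by linarith), max_eq_right (by linarith), abs_of_nonneg (by linarith)]
        ring
    rw [h1]
    have h3 : 0 ≤ (t * |f x - f y| - (f x + f y)) ^ 2 * t⁻¹ / 2 := by positivity
    have h4 : (t * |f x - f y| - (f x + f y)) ^ 2 * t⁻¹ / 2 =
        t / 2 * (f x - f y) ^ 2 + t⁻¹ / 2 * (f x + f y) ^ 2 - |f x - f y| * (f x + f y) := by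
      rw [← sq_abs (f x - f y)]
      field_simp
      ring
    linarith
  have hbd : 2 * ∑ x ∈ T, (S.S.card - ∑ y ∈ T, M S x y) * f x ^ 2 ≤
      ∑ x ∈ T, (S.S.card - ∑ y ∈ T, M S x y) * f x ^ 2 * (t + t⁻¹) := by
    rw [Finset.mul_sum]
    refine Finset.sum_le_sum fun x _ => ?_
    rw [mul_comm]
    refine mul_le_mul_of_nonneg_left ?_ (mul_nonneg (by linarith [sum_M_le S T x]) (by positivity))
    have h5 : 0 ≤ (t - 1) ^ 2 * t⁻¹ := by positivity
    have h6 : (t - 1) ^ 2 * t⁻¹ = t + t⁻¹ - 2 := by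
      field_simp
      ring
    linarith
  -- expand
  have hexpand : ∑ x ∈ T, ∑ y ∈ T, M S x y * (t / 2 * (f x - f y) ^ 2 + t⁻¹ / 2 * (f x + f y) ^ 2)
      = (t + t⁻¹) * ∑ x ∈ T, (∑ y ∈ T, M S x y) * f x ^ 2 - (t - t⁻¹) * B S T f f := by
    have h7 : ∑ x ∈ T, ∑ y ∈ T, M S x y * f y ^ 2 = ∑ x ∈ T, (∑ y ∈ T, M S x y) * f x ^ 2 := by
      rw [Finset.sum_comm]
      refine Finset.sum_congr rfl fun x _ => ?_
      rw [Finset.sum_mul]
      exact Finset.sum_congr rfl fun y _ => by rw [M_symm S y x]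
    have h8 : ∑ x ∈ T, ∑ y ∈ T, M S x y * f x ^ 2 = ∑ x ∈ T, (∑ y ∈ T, M S x y) * f x ^ 2 :=
      Finset.sum_congr rfl fun x _ => by rw [Finset.sum_mul]
    have h9 : ∑ x ∈ T, ∑ y ∈ T, M S x y * (t / 2 * (f x - f y) ^ 2 + t⁻¹ / 2 * (f x + f y) ^ 2) =
        (t + t⁻¹) / 2 * ∑ x ∈ T, ∑ y ∈ T, M S x y * f x ^ 2 +
        (t + t⁻¹) / 2 * ∑ x ∈ T, ∑ y ∈ T, M S x y * f y ^ 2 - (t - t⁻¹) * B S T f f := by
      unfold B
      simp only [Finset.mul_sum]
      rw [← Finset.sum_add_distrib, ← Finset.sum_sub_distrib]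
      refine Finset.sum_congr rfl fun x _ => ?_
      rw [← Finset.sum_add_distrib, ← Finset.sum_sub_distrib]
      refine Finset.sum_congr rfl fun y _ => ?_
      ring
    rw [h9, h7, h8]
    ring
  have hsplit : ∑ x ∈ T, (S.S.card - ∑ y ∈ T, M S x y) * f x ^ 2 * (t + t⁻¹) =
      (t + t⁻¹) * (S.S.card * ∑ x ∈ T, f x ^ 2 - ∑ x ∈ T, (∑ y ∈ T, M S x y) * f x ^ 2) := by
    rw [Finset.mul_sum, ← Finset.sum_sub_distrib, Finset.mul_sum]
    exact Finset.sum_congr rfl fun x _ => by ring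
  rw [hexpand] at hdouble
  rw [hsplit] at hbd
  nlinarith [hco, hdouble, hbd]

/-- the constant -/
theorem exists_const (d h : ℝ) (h0 : 0 < h) (hd : h ≤ d) :
    ∃ a : ℝ, 0 < a ∧ a < d ∧ ∀ N Q : ℝ,
      2 * h * N ≤ (2 * d / h) * (d * N - Q) + (2 * d / h)⁻¹ * (d * N + Q) → Q ≤ a * N := by
  have hdpos : 0 < d := lt_of_lt_of_le h0 hd
  have h1 : 0 < 4 * d ^ 2 - h ^ 2 := by nlinarith
  have h2 : 0 < 4 * d ^ 2 - 3 * h ^ 2 := by nlinarith
  refine ⟨d * (4 * d ^ 2 - 3 * h ^ 2) / (4 * d ^ 2 - h ^ 2), by positivity, ?_, ?_⟩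
  · rw [div_lt_iff₀ h1]
    nlinarith [mul_pos hdpos (pow_pos h0 2)]
  · intro N Q hNQ
    rw [div_mul_eq_mul_div, le_div_iff₀ h1]
    rw [inv_div] at hNQ
    have h3 : 0 < 2 * d * h := by positivity
    have h4 := mul_le_mul_of_nonneg_left hNQ h3.le
    have h5 : 2 * d * h * (2 * d / h * (d * N - Q) + h / (2 * d) * (d * N + Q)) =
        4 * d ^ 2 * (d * N - Q) + h ^ 2 * (d * N + Q) := by
      field_simp
      ring
    rw [h5] at h4
    nlinarith [h4]

theorem signed (S : GenSet Γ) (T : Finset Γ) (a : ℝ)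
    (ha : ∀ f : Γ → ℝ, (∀ x, 0 ≤ f x) → B S T f f ≤ a * ∑ x ∈ T, f x ^ 2) (w : Γ → ℝ) :
    |B S T w w| ≤ a * ∑ x ∈ T, w x ^ 2 := by
  have h1 := ha (fun x => |w x|) (fun x => abs_nonneg _)
  simp only [sq_abs] at h1
  refine le_trans ?_ h1
  unfold B
  refine (Finset.abs_sum_le_sum_abs _ _).trans (Finset.sum_le_sum fun x _ => ?_)
  refine (Finset.abs_sum_le_sum_abs _ _).trans (Finset.sum_le_sum fun y _ => ?_)
  rw [abs_mul, abs_mul, abs_of_nonneg (M_nonneg S x y)]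

theorem polar (S : GenSet Γ) (T : Finset Γ) (a : ℝ)
    (ha : ∀ f : Γ → ℝ, (∀ x, 0 ≤ f x) → B S T f f ≤ a * ∑ x ∈ T, f x ^ 2) (u v : Γ → ℝ) :
    2 * B S T u v ≤ a * (∑ x ∈ T, u x ^ 2 + ∑ x ∈ T, v x ^ 2) := by
  have h1 := signed S T a ha (fun x => u x + v x)
  have h2 := signed S T a ha (fun x => u x - v x)
  have h3 : B S T (fun x => u x + v x) (fun x => u x + v x) =
      B S T u u + B S T u v + (B S T v u + B S T v v) := by
    unfold B
    rw [← Finset.sum_add_distrib, ← Finset.sum_add_distrib, ← Finset.sum_add_distrib]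
    refine Finset.sum_congr rfl fun x _ => ?_
    rw [← Finset.sum_add_distrib, ← Finset.sum_add_distrib, ← Finset.sum_add_distrib]
    refine Finset.sum_congr rfl fun y _ => ?_
    ring
  have h4 : B S T (fun x => u x - v x) (fun x => u x - v x) =
      B S T u u - B S T u v - (B S T v u - B S T v v) := by
    unfold B
    rw [← Finset.sum_sub_distrib, ← Finset.sum_sub_distrib, ← Finset.sum_sub_distrib]
    refine Finset.sum_congr rfl fun x _ => ?_
    rw [← Finset.sum_sub_distrib, ← Finset.sum_sub_distrib, ← Finset.sum_sub_distrib]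
    refine Finset.sum_congr rfl fun y _ => ?_
    ring
  have h5 : ∑ x ∈ T, (u x + v x) ^ 2 + ∑ x ∈ T, (u x - v x) ^ 2 =
      2 * (∑ x ∈ T, u x ^ 2 + ∑ x ∈ T, v x ^ 2) := by
    rw [← Finset.sum_add_distrib, ← Finset.sum_add_distrib, Finset.mul_sum]
    exact Finset.sum_congr rfl fun x _ => by ring
  have h6 := le_trans (le_abs_self _) h1
  have h7 := le_trans (neg_le_abs _) h2
  rw [h3] at h6
  rw [h4] at h7
  rw [B_symm S T v u] at h6 h7
  have h8 : a * ∑ x ∈ T, (u x + v x) ^ 2 + a * ∑ x ∈ T, (u x - v x) ^ 2 =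
      2 * (a * (∑ x ∈ T, u x ^ 2 + ∑ x ∈ T, v x ^ 2)) := by
    rw [← mul_add, h5]
    ring
  linarith

open Classical in
/-- the norm bound for finitely supported real functions -/
theorem norm_fin (S : GenSet Γ) (a : ℝ) (ha0 : 0 < a)
    (ha : ∀ (T : Finset Γ) (f : Γ → ℝ), (∀ x, 0 ≤ f x) → B S T f f ≤ a * ∑ x ∈ T, f x ^ 2)
    (F T : Finset Γ) (hT : ∀ x ∈ F, ∀ s ∈ S.S, x * s ∈ T) (hFT : F ⊆ T) (f : Γ → ℝ) :
    ∑ x ∈ F, (∑ s ∈ S.S, f (x * s)) ^ 2 ≤ a ^ 2 * ∑ x ∈ T, f x ^ 2 := by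
  let A : Γ → ℝ := fun x => ∑ s ∈ S.S, f (x * s)
  let u : Γ → ℝ := fun x => if x ∈ F then a⁻¹ * A x else 0
  have hp := polar S T a (ha T) u f
  have h1 : B S T u f = a⁻¹ * ∑ x ∈ F, A x ^ 2 := by
    unfold B
    have h2 : ∀ x ∈ T, ∑ y ∈ T, M S x y * (u x * f y) =
        if x ∈ F then a⁻¹ * A x ^ 2 else 0 := by
      intro x _
      by_cases hx : x ∈ F
      · rw [if_pos hx]
        have h3 : ∑ y ∈ T, M S x y * (u x * f y) = u x * ∑ y ∈ T, M S x y * f y := by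
          rw [Finset.mul_sum]
          exact Finset.sum_congr rfl fun y _ => by ring
        rw [h3, sum_nbr]
        have h4 : ∑ s ∈ S.S, (if x * s ∈ T then f (x * s) else 0) = A x :=
          Finset.sum_congr rfl fun s hs => if_pos (hT x hx s hs)
        rw [h4]
        show (if x ∈ F then a⁻¹ * A x else 0) * A x = _
        rw [if_pos hx]
        ring
      · rw [if_neg hx]
        refine Finset.sum_eq_zero fun y _ => ?_
        show M S x y * ((if x ∈ F then a⁻¹ * A x else 0) * f y) = 0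
        rw [if_neg hx]
        ring
    rw [Finset.sum_congr rfl h2, ← Finset.sum_filter, Finset.mul_sum]
    refine Finset.sum_congr ?_ fun _ _ => rfl
    ext x
    rw [Finset.mem_filter]
    exact ⟨fun h => h.2, fun h => ⟨hFT h, h⟩⟩
  have h2 : ∑ x ∈ T, u x ^ 2 = a⁻¹ ^ 2 * ∑ x ∈ F, A x ^ 2 := by
    have h3 : ∀ x ∈ T, u x ^ 2 = if x ∈ F then a⁻¹ ^ 2 * A x ^ 2 else 0 := by
      intro x _
      show (if x ∈ F then a⁻¹ * A x else 0) ^ 2 = _
      split_ifs <;> ring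
    rw [Finset.sum_congr rfl h3, ← Finset.sum_filter, Finset.mul_sum]
    refine Finset.sum_congr ?_ fun _ _ => rfl
    ext x
    rw [Finset.mem_filter]
    exact ⟨fun h => h.2, fun h => ⟨hFT h, h⟩⟩
  rw [h1, h2] at hp
  show ∑ x ∈ F, A x ^ 2 ≤ _
  have h3 := mul_le_mul_of_nonneg_left hp ha0.le
  have h4 : a * (2 * (a⁻¹ * ∑ x ∈ F, A x ^ 2)) = 2 * ∑ x ∈ F, A x ^ 2 := by
    field_simp
  have h5 : a * (a * (a⁻¹ ^ 2 * ∑ x ∈ F, A x ^ 2 + ∑ x ∈ T, f x ^ 2)) =
      ∑ x ∈ F, A x ^ 2 + a ^ 2 * ∑ x ∈ T, f x ^ 2 := by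
    field_simp
  rw [h4, h5] at h3
  linarith

end P1

open P1 in
theorem cheeger_norm (S : GenSet Γ) (h : ℝ) (h0 : 0 < h)
    (hexp : ∀ K : Finset Γ, h * K.card ≤ eb S K) :
    ∃ a : ℝ≥0, (a : ℝ) < S.S.card ∧ AdjNormLe S a := by
  classical
  have hd : h ≤ S.S.card := by
    have h1 := hexp {1}
    have h2 : eb S {1} ≤ S.S.card := by
      unfold eb
      refine (Finset.card_filter_le _ _).trans ?_
      rw [Finset.card_product, Finset.card_singleton, one_mul]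
    rw [Finset.card_singleton, Nat.cast_one, mul_one] at h1
    exact h1.trans (by exact_mod_cast h2)
  obtain ⟨a', ha0', had', hconst'⟩ := exists_const S.S.card h h0 hd
  obtain ⟨a, rfl⟩ : ∃ a : ℝ≥0, (a : ℝ) = a' := ⟨⟨a', ha0'.le⟩, rfl⟩
  have ha0 : (0 : ℝ) < a := ha0'
  have ha : ∀ (T : Finset Γ) (f : Γ → ℝ), (∀ x, 0 ≤ f x) →
      B S T f f ≤ (a : ℝ) * ∑ x ∈ T, f x ^ 2 := fun T f hf =>
    hconst' _ _ (cheeger_pos S h hexp T f hf (2 * S.S.card / h)
      (by have : (0 : ℝ) < S.S.card := lt_of_lt_of_le h0 hd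
          positivity))
  refine ⟨a, had', ?_⟩
  intro f
  by_cases htop : ∑' x, f x ^ 2 = ⊤
  · rw [htop, ENNReal.mul_top]
    · exact le_top
    · refine pow_ne_zero 2 ?_
      rw [Ne, ENNReal.coe_eq_zero]
      rintro rfl
      exact lt_irrefl _ ha0
  have hfin : ∀ x, f x ≠ ⊤ := by
    intro x hx
    apply htop
    rw [eq_top_iff]
    calc (⊤ : ℝ≥0∞) = f x ^ 2 := by rw [hx]; simp
      _ ≤ ∑' x, f x ^ 2 := ENNReal.le_tsum x
  let g : Γ → ℝ := fun x => (f x).toReal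
  have hg0 : ∀ x, 0 ≤ g x := fun x => ENNReal.toReal_nonneg
  have hfg : ∀ x, f x = ENNReal.ofReal (g x) := fun x => (ENNReal.ofReal_toReal (hfin x)).symm
  rw [ENNReal.tsum_eq_iSup_sum]
  refine iSup_le fun F => ?_
  let T : Finset Γ := F ∪ (F ×ˢ S.S).image (fun q => q.1 * q.2)
  have hT : ∀ x ∈ F, ∀ s ∈ S.S, x * s ∈ T := fun x hx s hs =>
    Finset.mem_union_right _ (Finset.mem_image.2 ⟨(x, s), Finset.mem_product.2 ⟨hx, hs⟩, rfl⟩)
  have hreal := norm_fin S a ha0 ha F T hT Finset.subset_union_left g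
  have hleft : ∑ x ∈ F, (∑ s ∈ S.S, f (x * s)) ^ 2 =
      ENNReal.ofReal (∑ x ∈ F, (∑ s ∈ S.S, g (x * s)) ^ 2) := by
    rw [ENNReal.ofReal_sum_of_nonneg fun x _ => sq_nonneg _]
    refine Finset.sum_congr rfl fun x _ => ?_
    rw [ENNReal.ofReal_pow (Finset.sum_nonneg fun s _ => hg0 _),
      ENNReal.ofReal_sum_of_nonneg fun s _ => hg0 _]
    congr 1
    exact Finset.sum_congr rfl fun s _ => hfg _
  have hright : (a : ℝ≥0∞) ^ 2 * ∑ x ∈ T, f x ^ 2 =
      ENNReal.ofReal ((a : ℝ) ^ 2 * ∑ x ∈ T, g x ^ 2) := by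
    rw [ENNReal.ofReal_mul (by positivity), ENNReal.ofReal_pow ha0.le,
      ENNReal.ofReal_sum_of_nonneg fun x _ => sq_nonneg _, ENNReal.ofReal_coe_nnreal]
    congr 1
    refine Finset.sum_congr rfl fun x _ => ?_
    rw [ENNReal.ofReal_pow (hg0 x), ← hfg]
  calc ∑ x ∈ F, (∑ s ∈ S.S, f (x * s)) ^ 2
      = ENNReal.ofReal (∑ x ∈ F, (∑ s ∈ S.S, g (x * s)) ^ 2) := hleft
    _ ≤ ENNReal.ofReal ((a : ℝ) ^ 2 * ∑ x ∈ T, g x ^ 2) := ENNReal.ofReal_le_ofReal hreal
    _ = (a : ℝ≥0∞) ^ 2 * ∑ x ∈ T, f x ^ 2 := hright.symm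
    _ ≤ (a : ℝ≥0∞) ^ 2 * ∑' x, f x ^ 2 := by
        gcongr
        exact ENNReal.sum_le_tsum T

end IICErg
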