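import Pool.Agent.Lib.MP_4c698b_pr.ODefs

/-!
# MP_4c698b_pr, module P2: level sets of the convolution powers
-/

open MeasureTheory Filter Topology
open scoped ENNReal NNReal Pointwise

namespace IICErg

variable {Γ : Type} [Group Γ]

namespace P2

/-- the adjacency operator -/
noncomputable def adj (S : GenSet Γ) (f : Γ → ℝ≥0∞) : Γ → ℝ≥0∞ := fun x => ∑ s ∈ S.S, f (x * s)

open Classical in
/-- number of words of length `k` with product `g` -/
noncomputable def nw (S : GenSet Γ) : ℕ → Γ → ℕ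
  | 0 => fun g => if g = 1 then 1 else 0
  | (k + 1) => fun g => ∑ s ∈ S.S, nw S k (g * s)

open Classical in
lemma nw_zero (S : GenSet Γ) (g : Γ) : nw S 0 g = if g = 1 then 1 else 0 := rfl

lemma nw_succ (S : GenSet Γ) (k : ℕ) (g : Γ) : nw S (k + 1) g = ∑ s ∈ S.S, nw S k (g * s) := rfl

lemma sum_inv (S : GenSet Γ) {M : Type} [AddCommMonoid M] (F : Γ → M) :
    ∑ s ∈ S.S, F s⁻¹ = ∑ s ∈ S.S, F s := by
  refine Finset.sum_nbij' (fun s => s⁻¹) (fun s => s⁻¹) (fun s hs => S.inv_mem s hs)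
    (fun s hs => S.inv_mem s hs) (fun s _ => inv_inv s) (fun s _ => inv_inv s) (fun s _ => rfl)

lemma nw_left (S : GenSet Γ) (k : ℕ) : ∀ g, nw S (k + 1) g = ∑ s ∈ S.S, nw S k (s * g) := by
  induction k with
  | zero =>
    intro g
    rw [nw_succ]
    refine Finset.sum_congr rfl fun s _ => ?_
    have h : g * s = 1 ↔ s * g = 1 := mul_eq_one_comm
    rw [nw_zero, nw_zero]
    by_cases h' : g * s = 1
    · rw [if_pos h', if_pos (h.1 h')]
    · rw [if_neg h', if_neg (fun h'' => h' (h.2 h''))]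
  | succ k ih =>
    intro g
    calc nw S (k + 1 + 1) g = ∑ s ∈ S.S, nw S (k + 1) (g * s) := rfl
      _ = ∑ s ∈ S.S, ∑ t ∈ S.S, nw S k (t * (g * s)) := Finset.sum_congr rfl fun s _ => ih _
      _ = ∑ t ∈ S.S, ∑ s ∈ S.S, nw S k (t * (g * s)) := Finset.sum_comm
      _ = ∑ t ∈ S.S, ∑ s ∈ S.S, nw S k (t * g * s) := by simp only [mul_assoc]
      _ = ∑ t ∈ S.S, nw S (k + 1) (t * g) := rfl

lemma nw_inv (S : GenSet Γ) (k : ℕ) : ∀ g, nw S k g⁻¹ = nw S k g := by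
  induction k with
  | zero =>
    intro g
    rw [nw_zero, nw_zero]
    by_cases h' : g = 1
    · rw [if_pos h', if_pos (inv_eq_one.2 h')]
    · rw [if_neg h', if_neg (fun h'' => h' (inv_eq_one.1 h''))]
  | succ k ih =>
    intro g
    rw [nw_left, nw_succ]
    rw [← sum_inv S (fun s => nw S k (s * g⁻¹))]
    refine Finset.sum_congr rfl fun s _ => ?_
    rw [← ih (g * s), mul_inv_rev]

lemma adj_iter (S : GenSet Γ) (k : ℕ) : ∀ (f : Γ → ℝ≥0∞) (x : Γ),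
    ((adj S)^[k] f) x = ∑' g, (nw S k g : ℝ≥0∞) * f (x * g) := by
  induction k with
  | zero =>
    intro f x
    rw [Function.iterate_zero, id]
    rw [tsum_eq_single (1 : Γ)]
    · simp [nw_zero]
    · intro g hg
      simp [nw_zero, hg]
  | succ k ih =>
    intro f x
    rw [Function.iterate_succ_apply, ih]
    have h1 : ∀ g, (nw S k g : ℝ≥0∞) * adj S f (x * g) =
        ∑ s ∈ S.S, (nw S k g : ℝ≥0∞) * f (x * (g * s)) := by
      intro g
      unfold adj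
      rw [Finset.mul_sum]
      simp only [mul_assoc]
    simp only [h1]
    rw [Summable.tsum_finsetSum (fun s _ => ENNReal.summable)]
    have h2 : ∀ s ∈ S.S, ∑' g, (nw S k g : ℝ≥0∞) * f (x * (g * s)) =
        ∑' g, (nw S k (g * s⁻¹) : ℝ≥0∞) * f (x * g) := by
      intro s _
      rw [← (Equiv.mulRight s).tsum_eq (fun g => (nw S k (g * s⁻¹) : ℝ≥0∞) * f (x * g))]
      refine tsum_congr fun g => ?_
      simp
    rw [Finset.sum_congr rfl h2, ← Summable.tsum_finsetSum (fun s _ => ENNReal.summable)]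
    refine tsum_congr fun g => ?_
    rw [← Finset.sum_mul]
    congr 1
    rw [nw_succ]
    push_cast
    exact sum_inv S (fun s => (nw S k (g * s) : ℝ≥0∞))

lemma adj_iter_norm (S : GenSet Γ) (a : ℝ≥0) (hA : AdjNormLe S a) (k : ℕ) :
    ∀ f : Γ → ℝ≥0∞, ∑' x, ((adj S)^[k] f) x ^ 2 ≤ ((a : ℝ≥0∞) ^ k) ^ 2 * ∑' x, f x ^ 2 := by
  induction k with
  | zero => intro f; simp
  | succ k ih =>
    intro f
    rw [Function.iterate_succ_apply]
    refine (ih _).trans ?_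
    have h1 := hA f
    calc ((a : ℝ≥0∞) ^ k) ^ 2 * ∑' x, adj S f x ^ 2
        ≤ ((a : ℝ≥0∞) ^ k) ^ 2 * ((a : ℝ≥0∞) ^ 2 * ∑' x, f x ^ 2) := mul_le_mul_right h1 _
      _ = ((a : ℝ≥0∞) ^ (k + 1)) ^ 2 * ∑' x, f x ^ 2 := by ring

lemma tsum_nw (S : GenSet Γ) (k : ℕ) : ∑' g, (nw S k g : ℝ≥0∞) = (S.S.card : ℝ≥0∞) ^ k := by
  have h1 := adj_iter S k (fun _ => 1) 1
  simp only [mul_one] at h1
  rw [← h1]
  have h2 : ∀ (n : ℕ) (c : ℝ≥0∞), ((adj S)^[n] (fun _ => c)) = fun _ => (S.S.card : ℝ≥0∞) ^ n * c := by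
    intro n
    induction n with
    | zero => intro c; simp
    | succ n ih =>
      intro c
      rw [Function.iterate_succ_apply]
      have h3 : adj S (fun _ => c) = fun _ => (S.S.card : ℝ≥0∞) * c := by
        ext x
        simp [adj]
      rw [h3, ih]
      ext x
      ring
  rw [h2]
  simp

/-- the support of the number of words -/
lemma finite_nw (S : GenSet Γ) (k : ℕ) : {g | nw S k g ≠ 0}.Finite := by
  have h1 : ∑' g, (nw S k g : ℝ≥0∞) ≠ ∞ := by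
    rw [tsum_nw]
    exact ENNReal.pow_ne_top (ENNReal.natCast_ne_top _)
  refine (ENNReal.finite_const_le_of_tsum_ne_top h1 one_ne_zero).subset ?_
  intro g hg
  have h2 : 1 ≤ nw S k g := Nat.one_le_iff_ne_zero.2 hg
  show (1 : ℝ≥0∞) ≤ (nw S k g : ℝ≥0∞)
  exact_mod_cast h2

/-- the support as a finite set -/
noncomputable def supp (S : GenSet Γ) (k : ℕ) : Finset Γ := (finite_nw S k).toFinset

lemma mem_supp (S : GenSet Γ) (k : ℕ) (g : Γ) : g ∈ supp S k ↔ nw S k g ≠ 0 := by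
  unfold supp
  rw [Set.Finite.mem_toFinset]
  rfl

lemma sum_supp (S : GenSet Γ) (k : ℕ) : ∑ g ∈ supp S k, nw S k g = S.S.card ^ k := by
  have h1 := tsum_nw S k
  rw [tsum_eq_sum (s := supp S k)] at h1
  · exact_mod_cast h1
  · intro g hg
    rw [mem_supp, not_not] at hg
    rw [hg, Nat.cast_zero]

/-- the level sets -/
noncomputable def lev (S : GenSet Γ) (k j : ℕ) : Finset Γ :=
  (supp S k).filter (fun g => Nat.log 2 (nw S k g) = j)

lemma mem_lev (S : GenSet Γ) (k j : ℕ) (g : Γ) :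
    g ∈ lev S k j ↔ nw S k g ≠ 0 ∧ Nat.log 2 (nw S k g) = j := by
  unfold lev
  rw [Finset.mem_filter, mem_supp]

lemma exists_level (S : GenSet Γ) (k : ℕ) (hd : 0 < S.S.card) :
    ∃ j, S.S.card ^ k ≤ (k * S.S.card + 1) * ∑ g ∈ lev S k j, nw S k g := by
  by_contra hcon
  push Not at hcon
  have h0 : ∀ g ∈ supp S k, Nat.log 2 (nw S k g) ∈ Finset.range (k * S.S.card + 1) := by
    intro g hg
    rw [Finset.mem_range, Nat.lt_succ_iff]
    have h1 : nw S k g ≤ S.S.card ^ k := by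
      rw [← sum_supp S k]
      exact Finset.single_le_sum (f := fun g => nw S k g) (fun _ _ => Nat.zero_le _) hg
    have h2 : S.S.card ^ k ≤ 2 ^ (k * S.S.card) := by
      rw [mul_comm, pow_mul]
      exact Nat.pow_le_pow_left Nat.lt_two_pow_self.le k
    calc Nat.log 2 (nw S k g) ≤ Nat.log 2 (2 ^ (k * S.S.card)) := Nat.log_mono_right (h1.trans h2)
      _ = k * S.S.card := Nat.log_pow (by norm_num) _
  have h1 := Finset.sum_fiberwise_of_maps_to (f := fun g => nw S k g) h0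
  rw [sum_supp] at h1
  have h2 : ∑ j ∈ Finset.range (k * S.S.card + 1), (k * S.S.card + 1) *
      ∑ g ∈ lev S k j, nw S k g < ∑ _j ∈ Finset.range (k * S.S.card + 1), S.S.card ^ k :=
    Finset.sum_lt_sum_of_nonempty ⟨0, Finset.mem_range.2 (Nat.succ_pos _)⟩ fun j _ => hcon j
  rw [← Finset.mul_sum, Finset.sum_const, Finset.card_range, nsmul_eq_mul, Nat.cast_id] at h2
  have h3 : ∑ j ∈ Finset.range (k * S.S.card + 1), ∑ g ∈ lev S k j, nw S k g = S.S.card ^ k := h1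
  rw [h3] at h2
  exact lt_irrefl _ h2

lemma lev_norm (S : GenSet Γ) (a : ℝ≥0) (hA : AdjNormLe S a) (k j : ℕ) (f : Γ → ℝ≥0∞) :
    ∑' x, (∑ g ∈ lev S k j, f (x * g)) ^ 2 ≤
      ((((2 ^ j)⁻¹ * a ^ k : ℝ≥0) : ℝ≥0∞)) ^ 2 * ∑' x, f x ^ 2 := by
  have h1 : ∀ x, ∑ g ∈ lev S k j, f (x * g) ≤ ((2 : ℝ≥0∞) ^ j)⁻¹ * ((adj S)^[k] f) x := by
    intro x
    have h2 : (2 : ℝ≥0∞) ^ j * ∑ g ∈ lev S k j, f (x * g) ≤ ((adj S)^[k] f) x := by
      rw [adj_iter, Finset.mul_sum]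
      refine le_trans ?_ (ENNReal.sum_le_tsum (lev S k j))
      refine Finset.sum_le_sum fun g hg => ?_
      refine mul_le_mul_left ?_ _
      rw [mem_lev] at hg
      have h3 : 2 ^ j ≤ nw S k g := by
        rw [← hg.2]
        exact Nat.pow_log_le_self 2 hg.1
      exact_mod_cast h3
    have h4 : (2 : ℝ≥0∞) ^ j ≠ 0 := pow_ne_zero _ (by norm_num)
    have h5 : (2 : ℝ≥0∞) ^ j ≠ ∞ := ENNReal.pow_ne_top (by norm_num)
    calc ∑ g ∈ lev S k j, f (x * g)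
        = ((2 : ℝ≥0∞) ^ j)⁻¹ * ((2 : ℝ≥0∞) ^ j * ∑ g ∈ lev S k j, f (x * g)) := by
          rw [← mul_assoc, ENNReal.inv_mul_cancel h4 h5, one_mul]
      _ ≤ _ := mul_le_mul_right h2 _
  calc ∑' x, (∑ g ∈ lev S k j, f (x * g)) ^ 2
      ≤ ∑' x, (((2 : ℝ≥0∞) ^ j)⁻¹ * ((adj S)^[k] f) x) ^ 2 :=
        ENNReal.tsum_le_tsum fun x => pow_le_pow_left' (h1 x) 2
    _ = (((2 : ℝ≥0∞) ^ j)⁻¹) ^ 2 * ∑' x, ((adj S)^[k] f) x ^ 2 := by
        simp only [mul_pow]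
        rw [ENNReal.tsum_mul_left]
    _ ≤ (((2 : ℝ≥0∞) ^ j)⁻¹) ^ 2 * (((a : ℝ≥0∞) ^ k) ^ 2 * ∑' x, f x ^ 2) :=
        mul_le_mul_right (adj_iter_norm S a hA k f) _
    _ = ((((2 ^ j)⁻¹ * a ^ k : ℝ≥0) : ℝ≥0∞)) ^ 2 * ∑' x, f x ^ 2 := by
        rw [ENNReal.coe_mul, ENNReal.coe_inv (pow_ne_zero _ (by norm_num))]
        push_cast
        ring

/-- lower bound for the size of a set by the norm of its convolution operator -/
lemma card_le_sq (A : Finset Γ) (c : ℝ≥0)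
    (h : ∀ f : Γ → ℝ≥0∞, ∑' x, (∑ g ∈ A, f (x * g)) ^ 2 ≤ (c : ℝ≥0∞) ^ 2 * ∑' x, f x ^ 2) :
    (A.card : ℝ) ≤ (c : ℝ) ^ 2 := by
  classical
  have h1 := h (fun g => if g = 1 then 1 else 0)
  have h2 : ∑' x : Γ, ((if x = 1 then (1 : ℝ≥0∞) else 0)) ^ 2 = 1 := by
    rw [tsum_eq_single (1 : Γ)]
    · simp
    · intro g hg
      simp [hg]
  rw [h2, mul_one] at h1
  have h3 : ∀ x : Γ, ∑ g ∈ A, (if x * g = 1 then (1 : ℝ≥0∞) else 0) = if x⁻¹ ∈ A then 1 else 0 := by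
    intro x
    have h4 : ∀ g, x * g = 1 ↔ g = x⁻¹ := fun g => mul_eq_one_iff_eq_inv'
    simp only [h4]
    rw [Finset.sum_ite_eq']
  simp only [h3] at h1
  have h5 : (A.card : ℝ≥0∞) ≤ (c : ℝ≥0∞) ^ 2 := by
    refine le_trans ?_ h1
    rw [← (Equiv.inv Γ).tsum_eq]
    simp only [Equiv.inv_apply, inv_inv]
    calc (A.card : ℝ≥0∞) = ∑ x ∈ A, ((if x ∈ A then (1 : ℝ≥0∞) else 0)) ^ 2 := by
          rw [Finset.sum_congr rfl (fun x hx => by rw [if_pos hx, one_pow] : ∀ x ∈ A,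
            ((if x ∈ A then (1 : ℝ≥0∞) else 0)) ^ 2 = 1)]
          simp
      _ ≤ _ := ENNReal.sum_le_tsum A
  have h6 : ((A.card : ℝ≥0) : ℝ≥0∞) ≤ ((c ^ 2 : ℝ≥0) : ℝ≥0∞) := by
    push_cast
    exact h5
  have h7 : (A.card : ℝ≥0) ≤ c ^ 2 := ENNReal.coe_le_coe.1 h6
  exact_mod_cast h7

lemma sq_add_le (u v : ℝ≥0∞) : (u + v) ^ 2 ≤ 4 * u ^ 2 + 4 * v ^ 2 := by
  rcases le_total u v with h | h
  · calc (u + v) ^ 2 ≤ (v + v) ^ 2 := pow_le_pow_left' (add_le_add h le_rfl) 2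
      _ = 4 * v ^ 2 := by ring
      _ ≤ 4 * u ^ 2 + 4 * v ^ 2 := le_add_self
  · calc (u + v) ^ 2 ≤ (u + u) ^ 2 := pow_le_pow_left' (add_le_add le_rfl h) 2
      _ = 4 * u ^ 2 := by ring
      _ ≤ 4 * u ^ 2 + 4 * v ^ 2 := le_self_add

end P2

open P2 in
theorem exists_small (S0 : GenSet Γ) (a : ℝ≥0) (ha : (a : ℝ) < S0.S.card)
    (hA : AdjNormLe S0 a) :
    ∃ (S : GenSet Γ) (b : ℝ≥0), S0.S ⊆ S.S ∧ AdjNormLe S b ∧ 2 * (b : ℝ) < S.S.card + 1 := by
  classical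
  set d := S0.S.card with hd
  have hd0 : 0 < d := by
    rcases Nat.eq_zero_or_pos d with h | h
    · rw [h] at ha
      have := a.2
      norm_num at ha
    · exact h
  have hdR : (0 : ℝ) < d := by exact_mod_cast hd0
  have ha0 : (0 : ℝ) ≤ a := a.2
  -- the choice of `k`
  obtain ⟨k, hk⟩ : ∃ k : ℕ, 2 * ((k : ℝ) * d + 1) * ((a : ℝ) / d) ^ k < 1 / (8 * (d + 1)) := by
    have hr0 : 0 ≤ (a : ℝ) / d := by positivity
    have hr1 : (a : ℝ) / d < 1 := (div_lt_one hdR).2 ha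
    have h1 := tendsto_self_mul_const_pow_of_lt_one hr0 hr1
    have h2 := tendsto_pow_atTop_nhds_zero_of_lt_one hr0 hr1
    have h3 : Tendsto (fun k : ℕ => 2 * ((k : ℝ) * d + 1) * ((a : ℝ) / d) ^ k) atTop (𝓝 0) := by
      have h4 := (h1.const_mul (2 * (d : ℝ))).add (h2.const_mul 2)
      rw [mul_zero, mul_zero, add_zero] at h4
      refine h4.congr fun k => ?_
      ring
    have h5 : (0 : ℝ) < 1 / (8 * (d + 1)) := by positivity
    exact ((tendsto_order.1 h3).2 _ h5).exists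
  obtain ⟨j, hj⟩ := exists_level S0 k hd0
  set A := lev S0 k j with hAdef
  set c : ℝ≥0 := (2 ^ j)⁻¹ * a ^ k with hc
  have hnorm := lev_norm S0 a hA k j
  have hcard := card_le_sq A c hnorm
  have hcR : (c : ℝ) = (2 ^ j)⁻¹ * (a : ℝ) ^ k := by
    rw [hc]
    push_cast
    rfl
  -- size of the level
  have h1 : (d : ℝ) ^ k ≤ ((k : ℝ) * d + 1) * (A.card * 2 ^ (j + 1)) := by
    have h2 : ∑ g ∈ A, nw S0 k g ≤ A.card * 2 ^ (j + 1) := by
      calc ∑ g ∈ A, nw S0 k g ≤ ∑ _g ∈ A, 2 ^ (j + 1) := by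
            refine Finset.sum_le_sum fun g hg => ?_
            rw [hAdef, mem_lev] at hg
            rw [← hg.2]
            exact (Nat.lt_pow_succ_log_self (by norm_num) _).le
        _ = A.card * 2 ^ (j + 1) := by rw [Finset.sum_const, smul_eq_mul]
    have h3 := hj.trans (Nat.mul_le_mul_left _ h2)
    exact_mod_cast h3
  -- `c ≤ η |A|`
  set η : ℝ := 2 * ((k : ℝ) * d + 1) * ((a : ℝ) / d) ^ k with hη
  have hη0 : 0 ≤ η := by positivity
  have hcη : (c : ℝ) ≤ η * A.card := by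
    rw [hcR, hη, div_pow]
    have h2 : (0 : ℝ) < d ^ k := by positivity
    have h3 : (0 : ℝ) < 2 ^ j := by positivity
    have h4 : (0 : ℝ) ≤ (a : ℝ) ^ k := by positivity
    rw [inv_mul_le_iff₀ h3]
    have h5 : (a : ℝ) ^ k * (d : ℝ) ^ k ≤ (a : ℝ) ^ k * (((k : ℝ) * d + 1) * (A.card * 2 ^ (j + 1))) :=
      mul_le_mul_of_nonneg_left h1 h4
    have h6 : 2 ^ j * (2 * ((k : ℝ) * d + 1) * ((a : ℝ) ^ k / d ^ k) * A.card) =
        ((a : ℝ) ^ k * (((k : ℝ) * d + 1) * (A.card * 2 ^ (j + 1)))) / d ^ k := by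
      rw [pow_succ]
      ring
    rw [h6, le_div_iff₀ h2]
    exact h5
  have hA0 : 0 < (A.card : ℝ) := by
    rcases (Nat.zero_le A.card).eq_or_lt with h | h
    · exfalso
      rw [← h] at h1
      have : (0 : ℝ) < d ^ k := by positivity
      norm_num at h1
      exact absurd h1 (not_le.2 this)
    · exact_mod_cast h
  have hη1 : η ≤ 1 / 8 := by
    refine hk.le.trans ?_
    rw [div_le_div_iff₀ (by positivity) (by norm_num)]
    nlinarith
  have hAbig : 8 * (d : ℝ) ≤ A.card := by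
    have h2 : (A.card : ℝ) ≤ (η * A.card) ^ 2 :=
      hcard.trans (pow_le_pow_left₀ c.2 hcη 2)
    have h3 : 1 ≤ η ^ 2 * A.card := by
      rw [mul_pow, pow_two (A.card : ℝ), ← mul_assoc] at h2
      exact le_of_mul_le_mul_right (by linarith) hA0
    have h4 : η ^ 2 ≤ (1 / (8 * (d + 1))) ^ 2 := pow_le_pow_left₀ hη0 hk.le 2
    have h5 : 1 ≤ (1 / (8 * ((d : ℝ) + 1))) ^ 2 * A.card :=
      h3.trans (mul_le_mul_of_nonneg_right h4 hA0.le)
    rw [div_pow, one_pow, div_mul_eq_mul_div, one_mul, le_div_iff₀ (by positivity), one_mul] at h5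
    nlinarith
  -- the new generating set
  have hAinv : ∀ g ∈ A, g⁻¹ ∈ A := by
    intro g hg
    rw [hAdef, mem_lev] at hg ⊢
    rw [nw_inv]
    exact hg
  have hsub : S0.S ⊆ (A ∪ S0.S).erase 1 := by
    intro s hs
    rw [Finset.mem_erase, Finset.mem_union]
    exact ⟨fun h => S0.one_not_mem (h ▸ hs), Or.inr hs⟩
  let S : GenSet Γ :=
    { S := (A ∪ S0.S).erase 1
      inv_mem := by
        intro s hs
        rw [Finset.mem_erase, Finset.mem_union] at hs ⊢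
        refine ⟨fun h => hs.1 (inv_eq_one.1 h), ?_⟩
        rcases hs.2 with h | h
        · exact Or.inl (hAinv s h)
        · exact Or.inr (S0.inv_mem s h)
      one_not_mem := Finset.notMem_erase _ _
      gen := by
        rw [eq_top_iff, ← S0.gen]
        exact Subgroup.closure_mono (by exact_mod_cast hsub) }
  refine ⟨S, 2 * (c + a), hsub, ?_, ?_⟩
  · intro f
    have hS : S.S = (A ∪ S0.S).erase 1 := rfl
    have h2 : ∀ x, ∑ s ∈ S.S, f (x * s) ≤ ∑ g ∈ A, f (x * g) + ∑ s ∈ S0.S, f (x * s) := by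
      intro x
      calc ∑ s ∈ S.S, f (x * s) ≤ ∑ s ∈ A ∪ S0.S, f (x * s) := by
            rw [hS]
            exact Finset.sum_le_sum_of_subset (Finset.erase_subset _ _)
        _ ≤ ∑ s ∈ A ∪ S0.S, f (x * s) + ∑ s ∈ A ∩ S0.S, f (x * s) := le_self_add
        _ = _ := Finset.sum_union_inter
    calc ∑' x, (∑ s ∈ S.S, f (x * s)) ^ 2
        ≤ ∑' x, (4 * (∑ g ∈ A, f (x * g)) ^ 2 + 4 * (∑ s ∈ S0.S, f (x * s)) ^ 2) :=
          ENNReal.tsum_le_tsum fun x => (pow_le_pow_left' (h2 x) 2).trans (sq_add_le _ _)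
      _ = 4 * ∑' x, (∑ g ∈ A, f (x * g)) ^ 2 + 4 * ∑' x, (∑ s ∈ S0.S, f (x * s)) ^ 2 := by
          rw [ENNReal.tsum_add, ENNReal.tsum_mul_left, ENNReal.tsum_mul_left]
      _ ≤ 4 * ((c : ℝ≥0∞) ^ 2 * ∑' x, f x ^ 2) + 4 * ((a : ℝ≥0∞) ^ 2 * ∑' x, f x ^ 2) :=
          add_le_add (mul_le_mul_right (hnorm f) _) (mul_le_mul_right (hA f) _)
      _ ≤ 4 * ((c : ℝ≥0∞) ^ 2 * ∑' x, f x ^ 2) + 4 * ((a : ℝ≥0∞) ^ 2 * ∑' x, f x ^ 2) +
            8 * ((c : ℝ≥0∞) * a * ∑' x, f x ^ 2) := le_self_add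
      _ = ((2 * (c + a) : ℝ≥0) : ℝ≥0∞) ^ 2 * ∑' x, f x ^ 2 := by
          push_cast
          ring
  · have hScard : A.card ≤ S.S.card + 1 := by
      have h2 : (A ∪ S0.S).card - 1 ≤ S.S.card := Finset.pred_card_le_card_erase
      have h3 : A.card ≤ (A ∪ S0.S).card := Finset.card_le_card Finset.subset_union_left
      omega
    have hScard' : (A.card : ℝ) ≤ S.S.card + 1 := by exact_mod_cast hScard
    push_cast
    have h4 : η * A.card ≤ 1 / 8 * A.card := mul_le_mul_of_nonneg_right hη1 hA0.le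
    linarith

end IICErg
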