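import Pool.Agent.Lib.MP_4c698b_pr.Defs

/-!
# Ergodicity of the incipient infinite cluster (problem MP_4c698b_pr): definitions used in the proof
-/

open MeasureTheory Filter Topology
open scoped ENNReal Pointwise

namespace IICErg

variable {Γ : Type} [Group Γ]


open Classical in
/-- ball of radius `n` about `1` in the Cayley graph -/
noncomputable def GenSet.ball (S : GenSet Γ) (n : ℕ) : Finset Γ := (insert 1 S.S) ^ n

noncomputable def GenSet.q (S : GenSet Γ) (n : ℕ) : ℕ := (S.ball n).card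

/-- the configuration as seen from `x` -/
def vw (x : Γ) (ω : Cfg Γ) : Cfg Γ := fun e => ω (e.map (fun y => x * y))

/-- `E` depends only on the ball of radius `R` about `1` in the open graph -/
def IsLoc (S : GenSet Γ) (R : ℕ) (E : Set (Cfg Γ)) : Prop :=
  ∀ ω ω' : Cfg Γ, (∀ x y, dle (og S ω) R 1 x → ((og S ω).Adj x y ↔ (og S ω').Adj x y)) →
    (ω ∈ E ↔ ω' ∈ E)

/-- `E` depends only on the cluster of `1` -/
def ClEv (S : GenSet Γ) (E : Set (Cfg Γ)) : Prop :=
  ∀ ω ω' : Cfg Γ, (∀ x y, (og S ω).Reachable 1 x → ((og S ω).Adj x y ↔ (og S ω').Adj x y)) →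
    (ω ∈ E ↔ ω' ∈ E)

/-- the function `f` depends only on the cluster of `h` -/
def ClFn (S : GenSet Γ) (h : Γ) (f : Cfg Γ → ℝ≥0∞) : Prop :=
  ∀ ω ω' : Cfg Γ, (∀ x y, (og S ω).Reachable h x → ((og S ω).Adj x y ↔ (og S ω').Adj x y)) →
    f ω = f ω'

/-- fraction of the vertices of the cluster of `x` that reach distance `n` -/
noncomputable def Rn (S : GenSet Γ) (n : ℕ) (ω : Cfg Γ) (x : Γ) : ℝ≥0∞ :=
  unif (cl S ω x) (fun v => far S n ω v)

/-- the law of the configuration seen from the uniform vertex `ρ_n` of `C_n` -/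
noncomputable def mu (S : GenSet Γ) (p : unitInterval) (n : ℕ) : Measure (Cfg Γ) :=
  (theta S p n)⁻¹ • (perc Γ p).withDensity (fun ω => Rn S n ω 1)

open Classical in
noncomputable def wt (S : GenSet Γ) (l : ℝ≥0∞) (N : ℕ) (ω : Cfg Γ) (x z : Γ) : ℝ≥0∞ :=
  if dle (og S ω) N x z then l ^ ((og S ω).dist x z) else 0

noncomputable def XN (S : GenSet Γ) (p : unitInterval) (l : ℝ≥0∞) (N : ℕ) : ℝ≥0∞ :=
  ∑' z, ∫⁻ ω, wt S l N ω 1 z ∂(perc Γ p)

noncomputable def nu (S : GenSet Γ) (p : unitInterval) (l : ℝ≥0∞) (N : ℕ) (E : Set (Cfg Γ)) :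
    ℝ≥0∞ :=
  ∑' z, ∫⁻ ω in E, wt S l N ω 1 z ∂(perc Γ p)

noncomputable def tau2 (S : GenSet Γ) (p : unitInterval) (x y : Γ) : ℝ≥0∞ :=
  ∑' v, tau S p x v * tau S p v y

noncomputable def tau3 (S : GenSet Γ) (p : unitInterval) (x y : Γ) : ℝ≥0∞ :=
  ∑' v, tau S p x v * tau2 S p v y

open Classical in
noncomputable def kap (S : GenSet Γ) (p : unitInterval) (r : ℕ) (x x' : Γ) : ℝ≥0∞ :=
  ∑' y, if x⁻¹ * y ∈ S.ball r then 0 else
    (tau S p x y * tau2 S p y x' + tau2 S p x y * tau S p y x')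

/-- the double-sided event `𝒟_{k,s}` at the vertex `z` -/
def DDat (S : GenSet Γ) (k s : ℕ) (ω : Cfg Γ) (z : Γ) : Prop :=
  ∃ a b, (og S ω).Adj a b ∧ dle (og S ω) k z a ∧
    ¬ dle ((og S ω).deleteEdges {s(a, b)}) (4 * s) a b ∧
    (∃ x, dle ((og S ω).deleteEdges {s(a, b)}) s a x ∧
      ¬ dle ((og S ω).deleteEdges {s(a, b)}) (s - 1) a x) ∧
    (∃ x, dle ((og S ω).deleteEdges {s(a, b)}) s b x ∧
      ¬ dle ((og S ω).deleteEdges {s(a, b)}) (s - 1) b x)

def DD (S : GenSet Γ) (k s : ℕ) : Set (Cfg Γ) := {ω | DDat S k s ω 1}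

open Classical in
/-- replace the states of the edges in `N` by `η` -/
noncomputable def setOn (N : Finset (Sym2 Γ)) (η ω : Cfg Γ) : Cfg Γ :=
  fun e => if e ∈ N then η e else ω e

/-- there is an open edge `s(a,b)` whose removal separates the cluster of `z` in a part containing
`z` and `a`, of at most half the size of the cluster, and a part containing `b` -/
def Br (S : GenSet Γ) (ω : Cfg Γ) (z a : Γ) : Prop :=
  ∃ b, (og S ω).Adj a b ∧ ((og S ω).deleteEdges {s(a, b)}).Reachable z a ∧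
    ¬ ((og S ω).deleteEdges {s(a, b)}).Reachable z b ∧
    2 * ({v | ((og S ω).deleteEdges {s(a, b)}).Reachable z v} : Set Γ).ncard ≤ (cl S ω z).ncard

open Classical in
noncomputable def Ms (S : GenSet Γ) (p : unitInterval) (n : ℕ) (l : ℝ≥0∞) (N : ℕ) (h : Γ)
    (P : Cfg Γ → Γ → Prop) : ℝ≥0∞ :=
  (theta S p n)⁻¹ *
    ∫⁻ ω, Rn S n ω 1 * ∑' z, (if P ω z then wt S l N ω h z else 0) ∂(perc Γ p)

noncomputable def cmin (p : unitInterval) : ℝ≥0∞ := (ENNReal.ofReal (min p (1 - p)))⁻¹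

open Classical in
/-- lazy random walk operator on the open graph -/
noncomputable def Qop (S : GenSet Γ) (ω : Cfg Γ) (h : Γ → ℝ) : Γ → ℝ := fun x =>
  h x + (1 / (2 * S.S.card : ℝ)) *
    ∑ s ∈ S.S, (if (og S ω).Adj x (x * s) then h (x * s) - h x else 0)

open Classical in
noncomputable def gav (S : GenSet Γ) (ρ : ℝ) (L : ℕ) (F : Set (Cfg Γ)) (ω : Cfg Γ) (x : Γ) : ℝ :=
  (1 - ρ) * ∑ j ∈ Finset.range L,
    ρ ^ j * ((Qop S ω)^[j] (fun y => if vw y ω ∈ F then 1 else 0)) x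

open Classical in
noncomputable def bdry (S : GenSet Γ) (E : Set (Cfg Γ)) (ω : Cfg Γ) : ℕ :=
  (S.S.filter (fun s => (og S ω).Adj 1 s ∧ ¬ (vw s ω ∈ E ↔ ω ∈ E))).card

open Classical in
def Aset (S : GenSet Γ) (f : Set (Cfg Γ)) (K : ℕ) (F : Set (Cfg Γ)) (ρ : ℝ) (L : ℕ) :
    Set (Cfg Γ) :=
  {ω | ∃ y, dle (og S ω) K 1 y ∧ 1 / 4 ≤ |gav S ρ L F ω y - (if ω ∈ f then 1 else 0)|}

open Classical in
/-- edges whose state is changed in a surgery along the path `g`: the path edges with index in `J`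
and all edges at the path vertices with index in `I` -/
noncomputable def modN (S : GenSet Γ) (g : ℕ → Γ) (J I : Finset ℕ) : Finset (Sym2 Γ) :=
  J.image (fun i => s(g i, g (i + 1))) ∪
    (I ×ˢ S.S).image (fun x => s(g x.1, g x.1 * x.2))

open Classical in
/-- the new states: the path edges with index in `J` are open, all others closed -/
noncomputable def modη (g : ℕ → Γ) (J : Finset ℕ) : Cfg Γ :=
  fun e => decide (∃ i ∈ J, e = s(g i, g (i + 1)))

/-- the surgery -/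
noncomputable def surg (S : GenSet Γ) (g : ℕ → Γ) (J I : Finset ℕ) (ω : Cfg Γ) : Cfg Γ :=
  setOn (modN S g J I) (modη g J) ω

/-- a simple path in the Cayley graph -/
structure CPath (S : GenSet Γ) (g : ℕ → Γ) (t : ℕ) : Prop where
  adj : ∀ i < t, S.cay.Adj (g i) (g (i + 1))
  inj : ∀ i ≤ t, ∀ j ≤ t, g i = g j → i = j

/-- some edge set of the family `A` is open -/
def occ (A : Set (Finset (Sym2 Γ))) : Set (Cfg Γ) := {ω | ∃ a ∈ A, ∀ e ∈ a, ω e = true}

open Classical in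
/-- disjoint unions of members of `A` and of `B` -/
def dj (A B : Set (Finset (Sym2 Γ))) : Set (Finset (Sym2 Γ)) :=
  {c | ∃ a ∈ A, ∃ b ∈ B, Disjoint a b ∧ c = a ∪ b}

open Classical in
/-- edge sets of the walks of length at most `n` from `x` to `y` -/
def wf (S : GenSet Γ) (n : ℕ) (x y : Γ) : Set (Finset (Sym2 Γ)) :=
  {c | ∃ w : S.cay.Walk x y, w.length ≤ n ∧ c = w.edges.toFinset}

/-- edge sets of the walks from `x` to `y` -/
def wfI (S : GenSet Γ) (x y : Γ) : Set (Finset (Sym2 Γ)) := {c | ∃ n, c ∈ wf S n x y}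

/-- edge sets of the walks from `x` to a vertex at distance at least `r` -/
def wfF (S : GenSet Γ) (r : ℕ) (x : Γ) : Set (Finset (Sym2 Γ)) :=
  {c | ∃ y, r ≤ S.cay.dist x y ∧ c ∈ wfI S x y}

/-- The situation in which we do surgery. `S = C(1)`, `D = C(h)`; the path `g` is in `D` for the
first time at the index `i1`, visits `S` for the last time before `i1` at `i0`, and `u ≤ v ≤ i0` are
(equal or) consecutive times at which it is in `S`. -/
structure Cut (S : GenSet Γ) (g : ℕ → Γ) (t : ℕ) (h : Γ) (ω : Cfg Γ) (u v i0 i1 : ℕ) : Prop where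
  huv : u ≤ v
  hv : v ≤ i0
  hi : i0 < i1
  ht : i1 ≤ t
  ru : (og S ω).Reachable 1 (g u)
  rv : (og S ω).Reachable 1 (g v)
  r0 : (og S ω).Reachable 1 (g i0)
  r1 : (og S ω).Reachable h (g i1)
  hD : ∀ i < i1, ¬ (og S ω).Reachable h (g i)
  hS : ∀ i, (u < i ∧ i < v) ∨ (i0 < i ∧ i < i1) → ¬ (og S ω).Reachable 1 (g i)

/-- indices of the path edges that are opened -/
def JJ (u v i0 i1 : ℕ) : Finset ℕ := Finset.Ico u v ∪ Finset.Ico i0 i1

/-- indices of the path vertices at which all other edges are closed -/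
def II (u v i0 i1 : ℕ) : Finset ℕ := Finset.Ioo u v ∪ Finset.Ioo i0 i1

/-- `A` is the limit of `mu n` along the ultrafilter `U` -/
def LimAlong (S : GenSet Γ) (p : unitInterval) (U : Ultrafilter ℕ) (A : Measure (RGraph S.S.card)) :
    Prop :=
  ∀ (r : ℕ) (K : RGraph S.S.card),
    Tendsto (fun n => mu S p n {ω | BallIso r (og S ω) 1 K.G 0}) (U : Filter ℕ)
      (𝓝 (A {H : RGraph S.S.card | BallIso r H.G 0 K.G 0}))

/-- number of neighbours `k` of the root such that `(H,k) ∈ E` -/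
noncomputable def nbc {D : ℕ} (E : Set (RGraph D)) (H : RGraph D) : ℝ≥0∞ :=
  (({k | H.G.Adj 0 k ∧ H.reroot k ∈ E} : Set ℕ).ncard : ℝ≥0∞)

end IICErg
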