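import Pool.Agent.Lib.MP_4c698b_pr.WalksA

/-!
# MP_4c698b_pr, module WalksB: tree graph inequality
-/

open MeasureTheory Filter Topology
open scoped ENNReal Pointwise

namespace IICErg

variable {Γ : Type} [Group Γ]

section WalksB

/-- a walk stopped at its first visit to a set -/
theorem WalksB_first {V : Type} {G : SimpleGraph V} (Q : V → Prop) {u x : V} (w : G.Walk u x)
    (hx : Q x) :
    ∃ v, Q v ∧ ∃ q : G.Walk u v, q.length ≤ w.length ∧ ∀ e ∈ q.edges, ∃ a ∈ e, ¬ Q a := by
  induction w with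
  | nil => exact ⟨_, hx, SimpleGraph.Walk.nil, by simp, by simp⟩
  | @cons a b c h w ih =>
    by_cases ha : Q a
    · exact ⟨a, ha, SimpleGraph.Walk.nil, by simp, by simp⟩
    · obtain ⟨v, hv, q, hq, hq'⟩ := ih hx
      refine ⟨v, hv, SimpleGraph.Walk.cons h q, ?_, ?_⟩
      · rw [SimpleGraph.Walk.length_cons, SimpleGraph.Walk.length_cons]
        omega
      · intro e he
        rw [SimpleGraph.Walk.edges_cons, List.mem_cons] at he
        rcases he with rfl | he
        · exact ⟨a, Sym2.mem_mk_left a b, ha⟩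
        · exact hq' e he

theorem WalksB_mem {V : Type} {G : SimpleGraph V} {u x : V} (w : G.Walk u x) {e : Sym2 V}
    (he : e ∈ w.edges) {a : V} (ha : a ∈ e) : a ∈ w.support := by
  induction e using Sym2.ind with
  | _ b c =>
    rcases Sym2.mem_iff.1 ha with rfl | rfl
    · exact w.fst_mem_support_of_mem_edges he
    · exact w.snd_mem_support_of_mem_edges he

open Classical in
/-- the three disjoint connections -/
theorem WalksB_tree (S : GenSet Γ) (ω : Cfg Γ) (n : ℕ) (x z u : Γ)
    (h1 : dle (og S ω) n x z) (h2 : (og S ω).Reachable x u) :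
    ∃ v, ω ∈ occ (dj (dj (wfI S x v) (wfI S v u)) (wf S n v z)) := by
  obtain ⟨π0, hπ0⟩ := h1
  obtain ⟨σ⟩ := h2.symm
  obtain ⟨π, hπ, hlen⟩ : ∃ π : (og S ω).Walk x z, π.IsPath ∧ π.length ≤ n :=
    ⟨π0.bypass, π0.bypass_isPath, π0.length_bypass_le_length.trans hπ0⟩
  obtain ⟨v, hv, q, _, hq⟩ := WalksB_first (fun a => a ∈ π.support) σ π.start_mem_support
  refine ⟨v, ?_⟩
  obtain ⟨ha1, ha2⟩ := walk_wf S ω (π.takeUntil v hv)
  obtain ⟨hb1, hb2⟩ := walk_wf S ω q.reverse
  obtain ⟨hc1, hc2⟩ := walk_wf S ω (π.dropUntil v hv)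
  -- the edges of `q` are not edges of `π`
  have hdis : ∀ e ∈ q.reverse.edges.toFinset, e ∉ π.edges := by
    intro e he he'
    rw [List.mem_toFinset, SimpleGraph.Walk.edges_reverse, List.mem_reverse] at he
    obtain ⟨a, ha, ha'⟩ := hq e he
    exact ha' (WalksB_mem π he' ha)
  have hnd : (π.takeUntil v hv).edges.Disjoint (π.dropUntil v hv).edges := by
    have hnd := hπ.isTrail.edges_nodup
    rw [← π.take_spec hv, SimpleGraph.Walk.edges_append] at hnd
    exact List.disjoint_of_nodup_append hnd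
  refine mem_occ_dj S ω _ _
    ⟨(π.takeUntil v hv).edges.toFinset ∪ q.reverse.edges.toFinset, ?_,
      (π.dropUntil v hv).edges.toFinset, ?_, ?_, ?_, hc2⟩
  · refine ⟨_, ⟨_, ha1⟩, _, ⟨_, hb1⟩, ?_, rfl⟩
    rw [Finset.disjoint_left]
    intro e he he'
    exact hdis e he' (π.edges_takeUntil_subset_edges hv (List.mem_toFinset.1 he))
  · obtain ⟨w, hw, hw'⟩ := hc1
    exact ⟨w, hw.trans ((π.length_dropUntil_le_length hv).trans hlen), hw'⟩
  · rw [Finset.disjoint_left]
    intro e he he'
    rw [List.mem_toFinset] at he'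
    rcases Finset.mem_union.1 he with he | he
    · exact hnd (List.mem_toFinset.1 he) he'
    · exact hdis e he (π.edges_dropUntil_subset_edges hv he')
  · intro e he
    rcases Finset.mem_union.1 he with he | he
    · exact ha2 e he
    · exact hb2 e he

/-- tree graph inequality, first form -/
theorem tg1 (S : GenSet Γ) (p : unitInterval) (n : ℕ) (x z u : Γ) :
    perc Γ p {ω | dle (og S ω) n x z ∧ (og S ω).Reachable x u} ≤
      ∑' v, tau S p x v * tau S p v u * perc Γ p {ω | dle (og S ω) n v z} := by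
  have hΓ : Countable Γ := S.countable
  calc perc Γ p {ω | dle (og S ω) n x z ∧ (og S ω).Reachable x u}
      ≤ perc Γ p (⋃ v, occ (dj (dj (wfI S x v) (wfI S v u)) (wf S n v z))) := by
        refine measure_mono fun ω hω => ?_
        obtain ⟨v, hv⟩ := WalksB_tree S ω n x z u hω.1 hω.2
        exact Set.mem_iUnion.2 ⟨v, hv⟩
    _ ≤ ∑' v, perc Γ p (occ (dj (dj (wfI S x v) (wfI S v u)) (wf S n v z))) :=
        measure_iUnion_le _
    _ ≤ ∑' v, tau S p x v * tau S p v u * perc Γ p {ω | dle (og S ω) n v z} := by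
        refine ENNReal.tsum_le_tsum fun v => ?_
        refine (bk_occ S p _ _).trans ?_
        rw [occ_wf]
        refine mul_le_mul_left ((bk_occ S p _ _).trans (le_of_eq ?_)) _
        rw [occ_wfI, occ_wfI]
        rfl

end WalksB

end IICErg
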