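import Pool.Agent.Lib.MP_4c698b_pr.WalksA

/-!
# MP_4c698b_pr, module Wt0: weights as combinations of indicators
-/

open MeasureTheory Filter Topology
open scoped ENNReal Pointwise

namespace IICErg

variable {Γ : Type} [Group Γ]

section Wt0

/-- coefficients: `l ^ d = ∑_{d ≤ j ≤ N} Wt0_c l N j` -/
noncomputable def Wt0_c (l : ℝ≥0∞) (N j : ℕ) : ℝ≥0∞ := if j < N then (1 - l) * l ^ j else l ^ N

theorem Wt0_c_sum {l : ℝ≥0∞} (hl : l ≤ 1) (N i : ℕ) (hi : i ≤ N) :
    ∑ j ∈ Finset.Ico i (N + 1), Wt0_c l N j = l ^ i := by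
  obtain ⟨k, rfl⟩ := Nat.exists_eq_add_of_le hi
  clear hi
  induction k generalizing i with
  | zero => simp [Wt0_c]
  | succ k ih =>
    rw [Finset.sum_eq_sum_Ico_succ_bot (by omega)]
    have h1 := ih (i + 1)
    have h2 : i + 1 + k = i + (k + 1) := by omega
    rw [h2] at h1
    rw [h1, Wt0_c, if_pos (by omega), pow_succ', ← add_mul, tsub_add_cancel_of_le hl, one_mul]

theorem Wt0_geom {l : ℝ≥0∞} (hl : l ≤ 1) (n : ℕ) :
    l ^ n + (1 - l) * ∑ i ∈ Finset.range n, l ^ i = 1 := by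
  induction n with
  | zero => simp
  | succ n ih =>
    rw [Finset.sum_range_succ, mul_add, add_comm ((1 - l) * _) ((1 - l) * _), ← add_assoc, pow_succ',
      ← add_mul, add_tsub_cancel_of_le hl, one_mul]
    exact ih

/-- the weight is a combination of indicators -/
theorem Wt0_wt (S : GenSet Γ) {l : ℝ≥0∞} (hl : l ≤ 1) (N : ℕ) (ω : Cfg Γ) (x z : Γ) :
    wt S l N ω x z =
      ∑ j ∈ Finset.range (N + 1), Wt0_c l N j *
        Set.indicator {ω : Cfg Γ | dle (og S ω) j x z} 1 ω := by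
  classical
  unfold wt
  by_cases h : dle (og S ω) N x z
  · rw [if_pos h]
    obtain ⟨hr, hd⟩ := (dle_iff _ _ _ _).1 h
    rw [← Wt0_c_sum hl N _ hd, Finset.range_eq_Ico]
    rw [← Finset.sum_subset (s₁ := Finset.Ico ((og S ω).dist x z) (N + 1))
      (Finset.Ico_subset_Ico_left (Nat.zero_le _))]
    · refine Finset.sum_congr rfl fun j hj => ?_
      have : ω ∈ {ω : Cfg Γ | dle (og S ω) j x z} :=
        (dle_iff _ _ _ _).2 ⟨hr, (Finset.mem_Ico.1 hj).1⟩
      rw [Set.indicator_of_mem this, Pi.one_apply, mul_one]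
    · intro j hj hj'
      have : ω ∉ {ω : Cfg Γ | dle (og S ω) j x z} := by
        intro hc
        have h1 := ((dle_iff _ _ _ _).1 hc).2
        rw [Finset.mem_Ico] at hj hj'
        omega
      rw [Set.indicator_of_notMem this, mul_zero]
  · rw [if_neg h]
    symm
    refine Finset.sum_eq_zero fun j hj => ?_
    have : ω ∉ {ω : Cfg Γ | dle (og S ω) j x z} := fun hc =>
      h (dle_mono (by rw [Finset.mem_range] at hj; omega) hc)
    rw [Set.indicator_of_notMem this, mul_zero]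

theorem Wt0_lint (S : GenSet Γ) (p : unitInterval) {l : ℝ≥0∞} (hl : l ≤ 1) (N : ℕ) (x z : Γ)
    (A : Set (Cfg Γ)) :
    ∫⁻ ω in A, wt S l N ω x z ∂(perc Γ p) =
      ∑ j ∈ Finset.range (N + 1), Wt0_c l N j *
        perc Γ p ({ω | dle (og S ω) j x z} ∩ A) := by
  simp only [Wt0_wt S hl N _ x z]
  have hm : ∀ j, MeasurableSet {ω : Cfg Γ | dle (og S ω) j x z} :=
    fun j => measurableSet_dle S j x z
  rw [lintegral_finsetSum _ fun j _ => (measurable_one.indicator (hm j)).const_mul _]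
  refine Finset.sum_congr rfl fun j _ => ?_
  rw [lintegral_const_mul _ (measurable_one.indicator (hm j)), lintegral_indicator_one (hm j),
    Measure.restrict_apply (hm j)]

theorem Wt0_lint' (S : GenSet Γ) (p : unitInterval) {l : ℝ≥0∞} (hl : l ≤ 1) (N : ℕ) (x z : Γ) :
    ∫⁻ ω, wt S l N ω x z ∂(perc Γ p) =
      ∑ j ∈ Finset.range (N + 1), Wt0_c l N j * perc Γ p {ω | dle (og S ω) j x z} := by
  have := Wt0_lint S p hl N x z Set.univ
  simpa only [Measure.restrict_univ, Set.inter_univ] using this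

/-- translation of the sum over the far end -/
theorem Wt0_transl (S : GenSet Γ) (p : unitInterval) (j : ℕ) (v : Γ) :
    ∑' z, perc Γ p {ω | dle (og S ω) j v z} = ∑' z, perc Γ p {ω | dle (og S ω) j 1 z} := by
  rw [← (Equiv.mulLeft v⁻¹).tsum_eq (fun z => perc Γ p {ω | dle (og S ω) j 1 z})]
  refine tsum_congr fun z => ?_
  rw [dle_transl]
  rfl

theorem Wt0_XN (S : GenSet Γ) (p : unitInterval) {l : ℝ≥0∞} (hl : l ≤ 1) (N : ℕ) :
    XN S p l N = ∑ j ∈ Finset.range (N + 1), Wt0_c l N j *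
      ∑' z, perc Γ p {ω | dle (og S ω) j 1 z} := by
  unfold XN
  simp only [Wt0_lint' S p hl N 1]
  rw [Summable.tsum_finsetSum (fun _ _ => ENNReal.summable)]
  exact Finset.sum_congr rfl fun j _ => ENNReal.tsum_mul_left

theorem Wt0_wt_one (S : GenSet Γ) (N : ℕ) (ω : Cfg Γ) (x z : Γ) :
    wt S 1 N ω x z = Set.indicator {ω : Cfg Γ | dle (og S ω) N x z} 1 ω := by
  classical
  unfold wt
  by_cases h : dle (og S ω) N x z
  · rw [if_pos h, one_pow, Set.indicator_of_mem (by exact h), Pi.one_apply]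
  · rw [if_neg h, Set.indicator_of_notMem (by exact h)]

theorem Wt0_XN_one (S : GenSet Γ) (p : unitInterval) (N : ℕ) :
    XN S p 1 N = ∑' z, perc Γ p {ω | dle (og S ω) N 1 z} := by
  unfold XN
  refine tsum_congr fun z => ?_
  simp only [Wt0_wt_one]
  exact lintegral_indicator_one (measurableSet_dle S N 1 z)

/-- the general form of the weighted inequalities -/
theorem Wt0_sum (S : GenSet Γ) (p : unitInterval) {l : ℝ≥0∞} (hl : l ≤ 1) (N : ℕ) (x : Γ)
    (A : Set (Cfg Γ)) (c : Γ → ℝ≥0∞)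
    (h : ∀ j z, perc Γ p ({ω | dle (og S ω) j x z} ∩ A) ≤
      ∑' v, c v * perc Γ p {ω | dle (og S ω) j v z}) :
    ∑' z, ∫⁻ ω in A, wt S l N ω x z ∂(perc Γ p) ≤ (∑' v, c v) * XN S p l N := by
  simp only [Wt0_lint S p hl N x]
  rw [Summable.tsum_finsetSum (fun _ _ => ENNReal.summable), Wt0_XN S p hl N, Finset.mul_sum]
  refine Finset.sum_le_sum fun j _ => ?_
  rw [ENNReal.tsum_mul_left]
  calc Wt0_c l N j * ∑' z, perc Γ p ({ω | dle (og S ω) j x z} ∩ A)
      ≤ Wt0_c l N j * ∑' z, ∑' v, c v * perc Γ p {ω | dle (og S ω) j v z} :=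
        mul_le_mul_right (ENNReal.tsum_le_tsum fun z => h j z) _
    _ = Wt0_c l N j * ∑' v, c v * ∑' z, perc Γ p {ω | dle (og S ω) j 1 z} := by
        rw [ENNReal.tsum_comm]
        congr 1
        refine tsum_congr fun v => ?_
        rw [ENNReal.tsum_mul_left, Wt0_transl]
    _ = (∑' v, c v) * (Wt0_c l N j * ∑' z, perc Γ p {ω | dle (og S ω) j 1 z}) := by
        rw [ENNReal.tsum_mul_right]
        ring

end Wt0

end IICErg
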