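import Pool.Agent.Lib.MP_4c698b_pr.Wt0
import Pool.Agent.Lib.MP_4c698b_pr.WalksB

/-!
# MP_4c698b_pr, module Wt1: basic facts on the weights
-/

open MeasureTheory Filter Topology
open scoped ENNReal Pointwise

namespace IICErg

variable {Γ : Type} [Group Γ]

section Weights

theorem T1 (S : GenSet Γ) (p : unitInterval) {l : ℝ≥0∞} (hl : l ≤ 1) (N : ℕ) (x u : Γ) :
    ∑' z, ∫⁻ ω in {ω | (og S ω).Reachable x u}, wt S l N ω x z ∂(perc Γ p) ≤
      tau2 S p x u * XN S p l N :=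
  Wt0_sum S p hl N x _ (fun v => tau S p x v * tau S p v u) fun j z => tg1 S p j x z u

theorem XN_ne_top (S : GenSet Γ) (p : unitInterval) {l : ℝ≥0∞} (hl : l ≤ 1) (N : ℕ) :
    XN S p l N ≠ ⊤ := by
  classical
  have h : XN S p l N ≤ ∑' z, (if z ∈ S.ball N then 1 else 0) := by
    refine ENNReal.tsum_le_tsum fun z => ?_
    split_ifs with hz
    · refine (lintegral_mono fun ω => wt_le_one S hl N 1 z ω).trans ?_
      rw [lintegral_one, measure_univ]
    · have : ∀ ω : Cfg Γ, wt S l N ω 1 z = 0 := by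
        intro ω
        unfold wt
        rw [if_neg]
        intro hd
        have := ball_of_dle hd
        rw [inv_one, one_mul] at this
        exact hz this
      simp [this]
  refine ne_top_of_le_ne_top ?_ h
  rw [tsum_eq_sum (s := S.ball N) (fun z hz => if_neg hz)]
  exact ENNReal.sum_ne_top.2 fun z _ => by split_ifs <;> simp

theorem one_le_XN (S : GenSet Γ) (p : unitInterval) (l : ℝ≥0∞) (N : ℕ) :
    1 ≤ XN S p l N := by
  unfold XN
  refine le_trans (le_of_eq ?_) (ENNReal.le_tsum (1 : Γ))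
  have : ∀ ω : Cfg Γ, wt S l N ω 1 1 = 1 := by
    intro ω
    unfold wt
    rw [if_pos (dle_refl _ _ _), SimpleGraph.dist_self, pow_zero]
  simp only [this]
  rw [lintegral_one, measure_univ]

theorem nu_mono (S : GenSet Γ) (p : unitInterval) (l : ℝ≥0∞) (N : ℕ) {E F : Set (Cfg Γ)}
    (h : E ⊆ F) : nu S p l N E ≤ nu S p l N F :=
  ENNReal.tsum_le_tsum fun _ => lintegral_mono_set h

theorem nu_univ (S : GenSet Γ) (p : unitInterval) (l : ℝ≥0∞) (N : ℕ) :
    nu S p l N Set.univ = XN S p l N := by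
  unfold nu XN
  rw [Measure.restrict_univ]

theorem nu_le (S : GenSet Γ) (p : unitInterval) (l : ℝ≥0∞) (N : ℕ) (E : Set (Cfg Γ)) :
    nu S p l N E ≤ XN S p l N := by
  rw [← nu_univ]
  exact nu_mono S p l N (Set.subset_univ _)

theorem nu_union (S : GenSet Γ) (p : unitInterval) (l : ℝ≥0∞) (N : ℕ) (E F : Set (Cfg Γ)) :
    nu S p l N (E ∪ F) ≤ nu S p l N E + nu S p l N F := by
  unfold nu
  rw [← ENNReal.tsum_add]
  exact ENNReal.tsum_le_tsum fun _ => lintegral_union_le _ _ _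

/-- view from the far end -/
theorem nu_view (S : GenSet Γ) (p : unitInterval) (l : ℝ≥0∞) (N : ℕ) (h : Γ)
    {E : Set (Cfg Γ)} (hE : MeasurableSet E) :
    ∑' z, ∫⁻ ω in {ω | vw z ω ∈ E}, wt S l N ω h z ∂(perc Γ p) = nu S p l N E := by
  unfold nu
  have key : ∀ z : Γ, ∫⁻ ω in {ω | vw z ω ∈ E}, wt S l N ω h z ∂(perc Γ p) =
      ∫⁻ ω in E, wt S l N ω 1 (z⁻¹ * h) ∂(perc Γ p) := by
    intro z
    have hm : MeasurableSet {ω : Cfg Γ | vw z ω ∈ E} := measurable_vw z hE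
    rw [← lintegral_indicator hE, ← lintegral_indicator hm,
      ← lintegral_vw p z (E.indicator fun ω => wt S l N ω 1 (z⁻¹ * h))]
    refine lintegral_congr fun ω => ?_
    by_cases hω : vw z ω ∈ E
    · rw [Set.indicator_of_mem (by exact hω), Set.indicator_of_mem hω, wt_vw, mul_one,
        mul_inv_cancel_left, wt_symm]
    · rw [Set.indicator_of_notMem (by exact hω), Set.indicator_of_notMem hω]
  simp only [key]
  exact ((Equiv.inv Γ).trans (Equiv.mulRight h)).tsum_eq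
    (fun z => ∫⁻ ω in E, wt S l N ω 1 z ∂(perc Γ p))

theorem WtA_nu_le (S : GenSet Γ) (p : unitInterval) {l : ℝ≥0∞} (hl : l ≤ 1) (N : ℕ)
    (E : Set (Cfg Γ)) : nu S p l N E ≤ S.q N * perc Γ p E := by
  classical
  have h : nu S p l N E ≤ ∑' z, (if z ∈ S.ball N then perc Γ p E else 0) := by
    refine ENNReal.tsum_le_tsum fun z => ?_
    split_ifs with hz
    · refine (lintegral_mono fun ω => wt_le_one S hl N 1 z ω).trans ?_
      rw [lintegral_one, Measure.restrict_apply_univ]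
    · have : ∀ ω : Cfg Γ, wt S l N ω 1 z = 0 := by
        intro ω
        unfold wt
        rw [if_neg]
        intro hd
        have := ball_of_dle hd
        rw [inv_one, one_mul] at this
        exact hz this
      simp [this]
  refine h.trans (le_of_eq ?_)
  rw [tsum_eq_sum (s := S.ball N) (fun z hz => if_neg hz),
    Finset.sum_congr rfl (fun z hz => if_pos hz), Finset.sum_const, nsmul_eq_mul]
  rfl

theorem exists_m (S : GenSet Γ) (p : unitInterval)
    (hfin : perc Γ p {ω | ¬ (cl S ω 1).Finite} = 0) {l : ℝ≥0∞} (hl : l ≤ 1) (N : ℕ)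
    {ε : ℝ≥0∞} (hε : ε ≠ 0) :
    ∃ m : ℕ, nu S p l N {ω | (cl S ω 1).Finite ∧ (cl S ω 1).ncard ≤ m}ᶜ ≤ ε := by
  have h1 : Tendsto (fun m : ℕ => perc Γ p {ω | (cl S ω 1).Finite ∧ (cl S ω 1).ncard ≤ m}ᶜ) atTop
      (𝓝 (perc Γ p (⋂ m : ℕ, {ω | (cl S ω 1).Finite ∧ (cl S ω 1).ncard ≤ m}ᶜ))) :=
    tendsto_measure_iInter_atTop
      (fun m => (measurableSet_clcard S 1 m).compl.nullMeasurableSet)
      (fun m m' hmm' => Set.compl_subset_compl.2 fun ω hω => ⟨hω.1, hω.2.trans hmm'⟩)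
      ⟨0, measure_ne_top _ _⟩
  have h2 : perc Γ p (⋂ m : ℕ, {ω | (cl S ω 1).Finite ∧ (cl S ω 1).ncard ≤ m}ᶜ) = 0 := by
    refine measure_mono_null ?_ hfin
    intro ω hω hfin'
    rw [Set.mem_iInter] at hω
    exact hω (cl S ω 1).ncard ⟨hfin', le_rfl⟩
  rw [h2] at h1
  have h3 := ENNReal.Tendsto.const_mul (a := (S.q N : ℝ≥0∞)) h1 (Or.inr (ENNReal.natCast_ne_top _))
  rw [mul_zero] at h3
  obtain ⟨m, hm⟩ := (h3.eventually (gt_mem_nhds (pos_iff_ne_zero.2 hε))).exists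
  exact ⟨m, (WtA_nu_le S p hl N _).trans hm.le⟩

end Weights

end IICErg
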